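import Mathlib

/-!
# Rnr: power nonresidues of prime order r, definitions

`r` is an odd prime.  All characters are additive, with values in `ZMod r`.
-/

namespace Pool.Agent.Rnr

open NumberField

/-- A family of characters: for every modulus `l` a homomorphism `(ZMod l)ˣ → ZMod r`. -/
abbrev Chars (r : ℕ) : Type := (l : ℕ) → ((ZMod l)ˣ →* Multiplicative (ZMod r))

open Classical in
/-- Value of the character of modulus `l` (`0` at non units). -/
noncomputable def X {r : ℕ} (c : Chars r) (l : ℕ) (a : ZMod l) : ZMod r :=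
  if h : IsUnit a then Multiplicative.toAdd (c l h.unit) else 0

/-- Conductor of a finite set of primes. -/
def cond (S : Finset ℕ) : ℕ := ∏ l ∈ S, l

/-- The character `∑_(l ∈ S) f l χ_l` at an integer. -/
noncomputable def psi {r : ℕ} (c : Chars r) (S : Finset ℕ) (f : ℕ → ZMod r) (v : ℤ) : ZMod r :=
  ∑ l ∈ S, f l * X c l (v : ZMod l)

/-- Standing hypotheses on a character `∑_(l ∈ S) f l χ_l`. -/
structure Good (r : ℕ) (c : Chars r) (S : Finset ℕ) (f : ℕ → ZMod r) : Prop where
  pr : r.Prime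
  odd : r ≠ 2
  ne : S.Nonempty
  prime : ∀ l ∈ S, l.Prime
  sur : ∀ l ∈ S, Function.Surjective (c l)
  f0 : ∀ l ∈ S, f l ≠ 0

/-- `F` is the cyclic field of degree `r` cut out by the character `∑_(l ∈ S) f l χ_l`, with `σ` the
automorphism on which the character is `1`: there is an embedding `ι` of `F` into
`ℚ(ζ)`, `ζ` of order `cond S`, such that every automorphism `g` of `ℚ(ζ)` with `g z = z ^ a` on the
roots of unity of order dividing `cond S` acts on `F` as `σ ^ psi a`. -/
structure IsCyc (r : ℕ) (c : Chars r) (S : Finset ℕ) (f : ℕ → ZMod r)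
    (F : Type) [Field F] [NumberField F] (σ : F ≃ₐ[ℚ] F) : Prop where
  good : Good r c S f
  finrank : Module.finrank ℚ F = r
  emb : ∃ ι : F →ₐ[ℚ] CyclotomicField (cond S) ℚ,
    ∀ (g : CyclotomicField (cond S) ℚ ≃ₐ[ℚ] CyclotomicField (cond S) ℚ) (a : ℕ),
      (∀ z : CyclotomicField (cond S) ℚ, z ^ cond S = 1 → g z = z ^ a) →
      ∀ x : F, g (ι x) = ι ((σ ^ (psi c S f (a : ℤ)).val) x)

/-- `S_l(x) = ∑_(i < r) i χ_l(π (σ^i x))`, where `π : 𝓞 K → ZMod l` (usually a ring homomorphism). -/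
noncomputable def Sf {r : ℕ} (c : Chars r) (l : ℕ) {K : Type} [Field K] [NumberField K]
    (σ : K ≃ₐ[ℚ] K) (π : 𝓞 K → ZMod l) (x : 𝓞 K) : ZMod r :=
  ∑ i ∈ Finset.range r, (i : ZMod r) * X c l (π (σ ^ i • x))

end Pool.Agent.Rnr
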