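import Mathlib

/-!
# Rnr, file Thue: number of ideals of bounded norm, Thue's lemma in an ideal
-/

namespace Pool.Agent.Rnr

open NumberField Finset

variable {K : Type} [Field K] [NumberField K] {r : ℕ}

/-- There are at most `(Y + 1) ^ (r + 1)` nonzero ideals of norm at most `Y`. -/
theorem card_ideals (b : Module.Basis (Fin r) ℤ (𝓞 K)) (Y : ℕ) (CC : Finset (Ideal (𝓞 K)))
    (h0 : ∀ I ∈ CC, I ≠ ⊥) (h : ∀ I ∈ CC, Ideal.absNorm I ≤ Y) :
    CC.card ≤ (Y + 1) ^ (r + 1) := by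
  classical
  let f : Fin (Y + 1) × (Fin r → Fin (Y + 1)) → Ideal (𝓞 K) := fun x =>
    Ideal.span {(((x.1 : ℕ) : 𝓞 K))} ⊔ Ideal.span {∑ i, (((x.2 i : ℕ) : ℤ)) • b i}
  have hsub : CC ⊆ Finset.univ.image f := by
    intro I hI
    rw [Finset.mem_image]
    set m : ℕ := Ideal.absNorm I with hm
    have hm0 : m ≠ 0 := by
      rw [hm]
      exact Ideal.absNorm_ne_zero_iff_mem_nonZeroDivisors.mpr
        (mem_nonZeroDivisors_of_ne_zero (h0 I hI))
    have hmI : ((m : ℕ) : 𝓞 K) ∈ I := Ideal.absNorm_mem I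
    have hle : Ideal.span {((m : ℕ) : 𝓞 K)} ≤ I := by
      rw [Ideal.span_singleton_le_iff_mem]
      exact hmI
    have hne : Ideal.span {((m : ℕ) : 𝓞 K)} ≠ ⊥ := by
      rw [Ne, Ideal.span_singleton_eq_bot]
      exact_mod_cast hm0
    obtain ⟨a, ha⟩ := IsDedekindDomain.exists_sup_span_eq hle hne
    have hmY : m < Y + 1 := Nat.lt_succ_of_le (h I hI)
    have hv : ∀ i, (b.repr a i % (m : ℤ)).toNat < Y + 1 := by
      intro i
      have h1 : b.repr a i % (m : ℤ) < m := Int.emod_lt_of_pos _ (by positivity)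
      have h2 : 0 ≤ b.repr a i % (m : ℤ) := Int.emod_nonneg _ (by exact_mod_cast hm0)
      omega
    refine ⟨(⟨m, hmY⟩, fun i => ⟨(b.repr a i % (m : ℤ)).toNat, hv i⟩), Finset.mem_univ _, ?_⟩
    show Ideal.span {(((m : ℕ) : 𝓞 K))} ⊔ Ideal.span
      {∑ i, (((b.repr a i % (m : ℤ)).toNat : ℤ)) • b i} = I
    rw [← ha]
    have hcast : ∀ i, (((b.repr a i % (m : ℤ)).toNat : ℤ)) = b.repr a i % (m : ℤ) := by
      intro i
      exact Int.toNat_of_nonneg (Int.emod_nonneg _ (by exact_mod_cast hm0))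
    simp only [hcast]
    set a' : 𝓞 K := ∑ i, (b.repr a i % (m : ℤ)) • b i with ha'
    have hdiff : a = a' + ((m : ℕ) : 𝓞 K) * ∑ i, (b.repr a i / (m : ℤ)) • b i := by
      conv_lhs => rw [← b.sum_repr a]
      rw [ha', Finset.mul_sum, ← Finset.sum_add_distrib]
      refine Finset.sum_congr rfl fun i _ => ?_
      conv_lhs => rw [← Int.emod_add_mul_ediv (b.repr a i) (m : ℤ)]
      rw [add_smul]
      congr 1
      rw [zsmul_eq_mul, zsmul_eq_mul]
      push_cast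
      ring
    apply le_antisymm
    · refine sup_le le_sup_left ?_
      rw [Ideal.span_singleton_le_iff_mem]
      have : a' = a - ((m : ℕ) : 𝓞 K) * ∑ i, (b.repr a i / (m : ℤ)) • b i :=
        eq_sub_of_add_eq hdiff.symm
      rw [this]
      refine Ideal.sub_mem _ ?_ ?_
      · exact Ideal.mem_sup_right (Ideal.mem_span_singleton_self _)
      · exact Ideal.mem_sup_left (Ideal.mul_mem_right _ _ (Ideal.mem_span_singleton_self _))
    · refine sup_le le_sup_left ?_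
      rw [Ideal.span_singleton_le_iff_mem, hdiff]
      refine Ideal.add_mem _ ?_ ?_
      · exact Ideal.mem_sup_right (Ideal.mem_span_singleton_self _)
      · exact Ideal.mem_sup_left (Ideal.mul_mem_right _ _ (Ideal.mem_span_singleton_self _))
  have h1 := (Finset.card_le_card hsub).trans Finset.card_image_le
  refine h1.trans (le_of_eq ?_)
  simp [pow_succ, mul_comm]

/-- Norm of an element with small coordinates. -/
theorem norm_small (b : Module.Basis (Fin r) ℤ (𝓞 K)) (p t : ℕ)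
    (hb : ∀ (i : Fin r) (w : K →+* ℂ), ‖w (b i)‖ ≤ p) (x : 𝓞 K)
    (hx : ∀ i, |b.repr x i| ≤ (t : ℤ)) :
    (Algebra.norm ℤ x).natAbs ≤ (r * t * p) ^ r := by
  classical
  have hr : Module.finrank ℚ K = r := by
    rw [← RingOfIntegers.rank, Module.finrank_eq_card_basis b, Fintype.card_fin]
  have h1 : ∀ w : K →+* ℂ, ‖w (x : K)‖ ≤ ((r * t * p : ℕ) : ℝ) := by
    intro w
    have h2 : (x : K) = ∑ i, (b.repr x i : K) * (b i : K) := by
      conv_lhs => rw [← b.sum_repr x]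
      push_cast
      refine Finset.sum_congr rfl fun i _ => ?_
      rw [zsmul_eq_mul]
    rw [h2, map_sum]
    refine (norm_sum_le _ _).trans ?_
    have h3 : ∀ i ∈ (Finset.univ : Finset (Fin r)), ‖w ((b.repr x i : K) * (b i : K))‖ ≤ t * p := by
      intro i _
      rw [map_mul, norm_mul, map_intCast, Complex.norm_intCast]
      refine mul_le_mul ?_ (hb i w) (norm_nonneg _) (by positivity)
      exact_mod_cast hx i
    refine (Finset.sum_le_sum h3).trans ?_
    rw [Finset.sum_const, nsmul_eq_mul, Finset.card_univ, Fintype.card_fin]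
    push_cast
    apply le_of_eq
    ring
  have h4 : ((Algebra.norm ℤ x).natAbs : ℝ) ≤ ((r * t * p : ℕ) : ℝ) ^ r := by
    have h5 : ((Algebra.norm ℤ x : ℤ) : ℚ) = Algebra.norm ℚ (x : K) := Algebra.coe_norm_int x
    have h6 := Algebra.norm_eq_prod_embeddings ℚ ℂ (x : K)
    have h7 : ((Algebra.norm ℤ x : ℤ) : ℂ) = ∏ σ : K →ₐ[ℚ] ℂ, σ (x : K) := by
      rw [← h6, ← h5]
      simp
    have h8 : ((Algebra.norm ℤ x).natAbs : ℝ) = ‖((Algebra.norm ℤ x : ℤ) : ℂ)‖ := by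
      rw [Complex.norm_intCast, Nat.cast_natAbs, Int.cast_abs]
    rw [h8, h7, norm_prod]
    have h9 : ∀ σ ∈ (Finset.univ : Finset (K →ₐ[ℚ] ℂ)), ‖σ (x : K)‖ ≤ ((r * t * p : ℕ) : ℝ) :=
      fun σ _ => h1 (σ : K →+* ℂ)
    refine (Finset.prod_le_prod (fun _ _ => norm_nonneg _) h9).trans (le_of_eq ?_)
    rw [Finset.prod_const, Finset.card_univ, AlgHom.card, hr]
  have h10 : ((Algebra.norm ℤ x).natAbs : ℝ) ≤ (((r * t * p) ^ r : ℕ) : ℝ) := by
    rw [Nat.cast_pow]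
    exact h4
  exact_mod_cast h10

/-- Thue's lemma in an ideal. -/
theorem thue (b : Module.Basis (Fin r) ℤ (𝓞 K)) (hr : 0 < r) (p : ℕ)
    (hb : ∀ (i : Fin r) (w : K →+* ℂ), ‖w (b i)‖ ≤ p) (I : Ideal (𝓞 K)) (hI : I ≠ ⊥) (T : ℕ)
    (hT : Ideal.absNorm I ≤ T ^ r) :
    ∃ x : 𝓞 K, x ≠ 0 ∧ (∀ i, |b.repr x i| ≤ (T : ℤ)) ∧
      ∃ J : Ideal (𝓞 K), Ideal.span {x} = I * J ∧ J ≠ ⊥ ∧ Ideal.absNorm J ≤ (r * p) ^ r := by
  classical
  set n : ℕ := Ideal.absNorm I with hn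
  have hn0 : n ≠ 0 := by
    rw [hn]
    exact Ideal.absNorm_ne_zero_iff_mem_nonZeroDivisors.mpr (mem_nonZeroDivisors_of_ne_zero hI)
  -- the integer `t` with `t ^ r ≤ n < (t + 1) ^ r`
  obtain ⟨t, ht1, ht2⟩ : ∃ t : ℕ, t ^ r ≤ n ∧ n < (t + 1) ^ r := by
    have hex : ∃ s : ℕ, n < (s + 1) ^ r :=
      ⟨n, lt_of_lt_of_le (Nat.lt_succ_self n) (Nat.le_self_pow hr.ne' _)⟩
    refine ⟨Nat.find hex, ?_, Nat.find_spec hex⟩
    rcases Nat.eq_zero_or_pos (Nat.find hex) with h | h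
    · rw [h, zero_pow hr.ne']
      exact Nat.zero_le _
    · have hs := Nat.find_min hex (Nat.sub_lt h one_pos)
      have he : Nat.find hex - 1 + 1 = Nat.find hex := Nat.sub_add_cancel h
      rw [he, not_lt] at hs
      exact hs
  have htT : t ≤ T := by
    by_contra hlt
    push Not at hlt
    have h1 : T ^ r < t ^ r := Nat.pow_lt_pow_left hlt hr.ne'
    exact absurd (lt_of_lt_of_le h1 ht1) (not_lt.mpr hT)
  have hfin : Finite (𝓞 K ⧸ I) := by
    have : Nat.card (𝓞 K ⧸ I) ≠ 0 := by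
      have h2 : Nat.card (𝓞 K ⧸ I) = n := by rw [hn]; rfl
      rw [h2]
      exact hn0
    exact Nat.finite_of_card_ne_zero this
  have : Fintype (𝓞 K ⧸ I) := Fintype.ofFinite _
  let f : (Fin r → Fin (t + 1)) → 𝓞 K ⧸ I := fun v =>
    Ideal.Quotient.mk I (∑ i, (((v i : ℕ) : ℤ)) • b i)
  have hcard : Fintype.card (𝓞 K ⧸ I) < Fintype.card (Fin r → Fin (t + 1)) := by
    have h1 : Fintype.card (𝓞 K ⧸ I) = n := by
      rw [← Nat.card_eq_fintype_card, hn]
      rfl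
    rw [h1]
    simpa using ht2
  obtain ⟨v, v', hne, hvv⟩ := Fintype.exists_ne_map_eq_of_card_lt f hcard
  set x : 𝓞 K := ∑ i, (((v i : ℕ) : ℤ) - ((v' i : ℕ) : ℤ)) • b i with hx
  have hrepr : ∀ i, b.repr x i = ((v i : ℕ) : ℤ) - ((v' i : ℕ) : ℤ) := by
    intro i
    rw [hx, b.repr_sum_self]
  have hx0 : x ≠ 0 := by
    intro h
    apply hne
    funext i
    have h1 := hrepr i
    rw [h] at h1
    simp only [map_zero, Finsupp.coe_zero, Pi.zero_apply] at h1
    have h2 : ((v i : ℕ) : ℤ) = ((v' i : ℕ) : ℤ) := by linarith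
    exact Fin.ext (by exact_mod_cast h2)
  have hxt : ∀ i, |b.repr x i| ≤ (t : ℤ) := by
    intro i
    rw [hrepr, abs_le]
    have h1 := (v i).isLt
    have h2 := (v' i).isLt
    constructor <;> omega
  have hxI : x ∈ I := by
    have h1 : Ideal.Quotient.mk I x = 0 := by
      have h2 : x = (∑ i, (((v i : ℕ) : ℤ)) • b i) - ∑ i, (((v' i : ℕ) : ℤ)) • b i := by
        rw [hx, ← Finset.sum_sub_distrib]
        exact Finset.sum_congr rfl fun i _ => sub_smul _ _ _
      rw [h2, map_sub, sub_eq_zero]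
      exact hvv
    exact Ideal.Quotient.eq_zero_iff_mem.mp h1
  refine ⟨x, hx0, fun i => (hxt i).trans (by exact_mod_cast htT), ?_⟩
  have hdvd : I ∣ Ideal.span {x} := by
    rw [Ideal.dvd_span_singleton]
    exact hxI
  obtain ⟨J, hJ⟩ := hdvd
  refine ⟨J, hJ, ?_, ?_⟩
  · rintro rfl
    rw [Ideal.mul_bot, Ideal.span_singleton_eq_bot] at hJ
    exact hx0 hJ
  · have h1 : Ideal.absNorm (Ideal.span {x}) = n * Ideal.absNorm J := by
      rw [hJ, map_mul]
    rw [Ideal.absNorm_span_singleton] at h1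
    have h2 := norm_small b p t hb x hxt
    rw [h1] at h2
    have h3 : (r * t * p) ^ r = (r * p) ^ r * t ^ r := by ring
    rw [h3] at h2
    have h4 : n * Ideal.absNorm J ≤ n * (r * p) ^ r := by
      calc n * Ideal.absNorm J ≤ (r * p) ^ r * t ^ r := h2
        _ ≤ (r * p) ^ r * n := Nat.mul_le_mul_left _ ht1
        _ = n * (r * p) ^ r := mul_comm _ _
    exact Nat.le_of_mul_le_mul_left h4 (Nat.pos_of_ne_zero hn0)

end Pool.Agent.Rnr
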