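import Pool.Agent.Rnr.Row
import Pool.Agent.Rnr.Thue

/-!
# Rnr, file Col: columns, cells, and the fundamental inequality
-/

namespace Pool.Agent.Rnr

open NumberField Finset

variable {r : ℕ} {c : Chars r} {p : ℕ} {K : Type} [Field K] [NumberField K] {τ : K ≃ₐ[ℚ] K}

/-- An element of norm prime to `l` has nonzero conjugates modulo `l`. -/
theorem nv_of_norm (hK : IsCyc r c {p} (fun _ => 1) K τ) {l : ℕ} (hl : l.Prime)
    (g : 𝓞 K →+* ZMod l) {x : 𝓞 K} (h : ¬ l ∣ Ideal.absNorm (Ideal.span {x})) :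
    ∀ i < r, IsUnit (g (τ ^ i • x)) := by
  intro i hi
  have : Fact l.Prime := ⟨hl⟩
  rw [isUnit_iff_ne_zero]
  intro h0
  apply h
  rw [Ideal.absNorm_span_singleton]
  have h1 : ((Algebra.norm ℤ x : ℤ) : ZMod l) = 0 := by
    have h2 := congrArg g (hK.norm x)
    rw [map_intCast, map_prod] at h2
    rw [h2]
    exact Finset.prod_eq_zero (Finset.mem_range.mpr hi) h0
  rw [ZMod.intCast_zmod_eq_zero_iff_dvd] at h1
  exact Int.natCast_dvd.mp h1

/-- A power of an ideal with exponent the class number is principal. -/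
theorem exists_gen (I : Ideal (𝓞 K)) (hI : I ≠ ⊥) :
    ∃ g : 𝓞 K, Ideal.span {g} = I ^ Nat.card (ClassGroup (𝓞 K)) := by
  have h0 : I ∈ nonZeroDivisors (Ideal (𝓞 K)) := mem_nonZeroDivisors_of_ne_zero hI
  have h1 : (ClassGroup.mk0 (⟨I, h0⟩ : nonZeroDivisors (Ideal (𝓞 K)))) ^
      Nat.card (ClassGroup (𝓞 K)) = 1 := pow_card_eq_one'
  rw [← map_pow, ClassGroup.mk0_eq_one_iff] at h1
  have h2 : (I ^ Nat.card (ClassGroup (𝓞 K))).IsPrincipal := by
    simpa using h1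
  obtain ⟨g, hg⟩ := h2
  exact ⟨g, hg.symm⟩

/-- Elements prime to `l` and `l'` with the same functional at `l` and `l'`. -/
def Eql (c : Chars r) (τ : K ≃ₐ[ℚ] K) {l l' : ℕ} (g : 𝓞 K →+* ZMod l) (g' : 𝓞 K →+* ZMod l')
    (x : 𝓞 K) : Prop :=
  (∀ i < r, IsUnit (g (τ ^ i • x))) ∧ (∀ i < r, IsUnit (g' (τ ^ i • x))) ∧
    Sf c l τ g x = Sf c l' τ g' x

theorem nv_mul {l : ℕ} (g : 𝓞 K →+* ZMod l) {x y : 𝓞 K}
    (hx : ∀ i < r, IsUnit (g (τ ^ i • x))) (hy : ∀ i < r, IsUnit (g (τ ^ i • y))) :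
    ∀ i < r, IsUnit (g (τ ^ i • (x * y))) := by
  intro i hi
  rw [smul_mul', map_mul]
  exact (hx i hi).mul (hy i hi)

theorem nv_one {l : ℕ} (g : 𝓞 K →+* ZMod l) :
    ∀ i < r, IsUnit (g (τ ^ i • (1 : 𝓞 K))) := by
  intro i _
  rw [smul_one, map_one]
  exact isUnit_one

theorem nv_pow {l : ℕ} (g : 𝓞 K →+* ZMod l) {x : 𝓞 K}
    (hx : ∀ i < r, IsUnit (g (τ ^ i • x))) (k : ℕ) :
    ∀ i < r, IsUnit (g (τ ^ i • (x ^ k))) := by
  intro i hi
  rw [smul_pow', map_pow]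
  exact (hx i hi).pow k

theorem Eql.mul {l l' : ℕ} {g : 𝓞 K →+* ZMod l} {g' : 𝓞 K →+* ZMod l'} {x y : 𝓞 K}
    (hx : Eql c τ g g' x) (hy : Eql c τ g g' y) : Eql c τ g g' (x * y) := by
  refine ⟨nv_mul g hx.1 hy.1, nv_mul g' hx.2.1 hy.2.1, ?_⟩
  rw [Sf_mul l g x y hx.1 hy.1, Sf_mul l' g' x y hx.2.1 hy.2.1, hx.2.2, hy.2.2]

theorem Eql.one {l l' : ℕ} {g : 𝓞 K →+* ZMod l} {g' : 𝓞 K →+* ZMod l'} :
    Eql c τ g g' (1 : 𝓞 K) :=
  ⟨nv_one g, nv_one g', by rw [Sf_one, Sf_one]⟩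

theorem Eql.prod {l l' : ℕ} {g : 𝓞 K →+* ZMod l} {g' : 𝓞 K →+* ZMod l'} (s : Finset ℕ)
    (f : ℕ → 𝓞 K) (h : ∀ n ∈ s, Eql c τ g g' (f n)) : Eql c τ g g' (∏ n ∈ s, f n) := by
  classical
  induction s using Finset.induction_on with
  | empty => simpa using Eql.one
  | insert a s ha ih =>
    rw [Finset.prod_insert ha]
    exact (h a (Finset.mem_insert_self _ _)).mul
      (ih fun n hn => h n (Finset.mem_insert_of_mem hn))

/-- The differences of the functionals at two rows are constant on a cell. -/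
theorem cell_const (hr : r.Prime) {l l' : ℕ} (g : 𝓞 K →+* ZMod l) (g' : 𝓞 K →+* ZMod l')
    (h : ℕ) (hh : r.Coprime h) (x x' A A' : 𝓞 K) (u : (𝓞 K)ˣ)
    (hx : ∀ i < r, IsUnit (g (τ ^ i • x))) (hx1 : ∀ i < r, IsUnit (g' (τ ^ i • x)))
    (hx' : ∀ i < r, IsUnit (g (τ ^ i • x'))) (hx1' : ∀ i < r, IsUnit (g' (τ ^ i • x')))
    (hA : Eql c τ g g' A) (hA' : Eql c τ g g' A') (hu : Eql c τ g g' (u : 𝓞 K))
    (heq : x ^ h * A' * (u : 𝓞 K) = x' ^ h * A) :
    Sf c l τ g x - Sf c l' τ g' x = Sf c l τ g x' - Sf c l' τ g' x' := by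
  have h1 := congrArg (Sf c l τ g) heq
  have h2 := congrArg (Sf c l' τ g') heq
  rw [Sf_mul l g _ _ (nv_mul g (nv_pow g hx h) hA'.1) hu.1,
    Sf_mul l g _ _ (nv_pow g hx h) hA'.1, Sf_mul l g _ _ (nv_pow g hx' h) hA.1,
    Sf_pow l g _ _ hx, Sf_pow l g _ _ hx'] at h1
  rw [Sf_mul l' g' _ _ (nv_mul g' (nv_pow g' hx1 h) hA'.2.1) hu.2.1,
    Sf_mul l' g' _ _ (nv_pow g' hx1 h) hA'.2.1, Sf_mul l' g' _ _ (nv_pow g' hx1' h) hA.2.1,
    Sf_pow l' g' _ _ hx1, Sf_pow l' g' _ _ hx1'] at h2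
  have h3 : (h : ZMod r) * ((Sf c l τ g x - Sf c l' τ g' x) - (Sf c l τ g x' - Sf c l' τ g' x'))
      = 0 := by
    have e1 := hA.2.2
    have e2 := hA'.2.2
    have e3 := hu.2.2
    linear_combination h1 - h2 + e1 - e2 - e3
  have : Fact r.Prime := ⟨hr⟩
  have h4 : (h : ZMod r) ≠ 0 := by
    rw [Ne, ZMod.natCast_eq_zero_iff]
    exact fun hd => hr.one_lt.ne' ((Nat.Coprime.eq_one_of_dvd hh hd))
  rcases mul_eq_zero.mp h3 with h5 | h5
  · exact absurd h5 h4
  · exact sub_eq_zero.mp h5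

/-- A large fibre. -/
theorem exists_fib {α β : Type*} [DecidableEq β] (s : Finset α) (f : α → β) (N : ℕ)
    (h : (s.image f).card ≤ N) (hs : s.Nonempty) :
    ∃ b ∈ s.image f, s.card ≤ N * (s.filter (fun a => f a = b)).card := by
  classical
  by_contra hcon
  push Not at hcon
  have hne : (s.image f).Nonempty := hs.image f
  have h1 : s.card = ∑ b ∈ s.image f, (s.filter (fun a => f a = b)).card :=
    Finset.card_eq_sum_card_fiberwise fun a ha => Finset.mem_image_of_mem f ha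
  obtain ⟨b0, hb0, hmax⟩ := Finset.exists_max_image (s.image f)
    (fun b => (s.filter (fun a => f a = b)).card) hne
  have h2 : s.card ≤ (s.image f).card * (s.filter (fun a => f a = b0)).card := by
    rw [h1, ← smul_eq_mul, ← Finset.sum_const]
    exact Finset.sum_le_sum fun b hb => hmax b hb
  have h3 := h2.trans (Nat.mul_le_mul_right _ h)
  exact absurd h3 (not_le.mpr (hcon b0 hb0))

/-- Few primes divide a number. -/
theorem card_dvd {L : Finset ℕ} (hL : ∀ l ∈ L, l.Prime) {m M : ℕ} (hm : m ≠ 0)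
    (hmM : m ≤ 2 ^ M) : (L.filter (fun l => l ∣ m)).card ≤ M := by
  have h1 : ∏ l ∈ L.filter (fun l => l ∣ m), l ∣ m :=
    Finset.prod_primes_dvd m (fun l hl => (hL l (Finset.mem_filter.mp hl).1).prime)
      fun l hl => (Finset.mem_filter.mp hl).2
  have h2 : 2 ^ (L.filter (fun l => l ∣ m)).card ≤ ∏ l ∈ L.filter (fun l => l ∣ m), l := by
    rw [← Finset.prod_const]
    exact Finset.prod_le_prod' fun l hl => (hL l (Finset.mem_filter.mp hl).1).two_le
  have h3 := (h2.trans (Nat.le_of_dvd (Nat.pos_of_ne_zero hm) h1)).trans hmM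
  exact (Nat.pow_le_pow_iff_right (by norm_num)).mp h3

/-- A product of distinct primes determines the set of its factors. -/
theorem prod_inj {s t : Finset ℕ} (hs : ∀ q ∈ s, q.Prime) (ht : ∀ q ∈ t, q.Prime)
    (h : ∏ q ∈ s, q = ∏ q ∈ t, q) : s = t := by
  rw [← Nat.primeFactors_prod hs, ← Nat.primeFactors_prod ht, h]

/-- **The fundamental inequality.** -/
theorem colbes (hK : IsCyc r c {p} (fun _ => 1) K τ)
    (hh : r.Coprime (Nat.card (ClassGroup (𝓞 K)))) (L3 Q1 : Finset ℕ) (Y N k2 : ℕ)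
    (hL : ∀ l ∈ L3, l.Prime ∧ l ≤ Y ∧ Function.Surjective (c l))
    (hQ : ∀ n ∈ Q1, n.Prime ∧ n ≤ N) (hdis : Disjoint Q1 L3) (hpL : p ∉ L3)
    (hN : Y ^ 3 ≤ N) (hrN : r ≤ Y) (hk : r ∣ k2)
    (P : (l : ℕ) → 𝓞 K → ZMod l) (hP : ∀ l ∈ L3, ∃ g : 𝓞 K →+* ZMod l, ∀ x, P l x = g x)
    (NN : ℕ → Ideal (𝓞 K)) (hNN : ∀ n ∈ Q1, Ideal.absNorm (NN n) = n)
    (U : ∀ u : 𝓞 K, IsUnit u → ∀ l ∈ L3, ∀ l' ∈ L3, Sf c l τ (P l) u = Sf c l' τ (P l') u)
    (V : ∀ n ∈ Q1, ∀ g : 𝓞 K, Ideal.span {g} = NN n ^ Nat.card (ClassGroup (𝓞 K)) →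
      ∀ l ∈ L3, ∀ l' ∈ L3, Sf c l τ (P l) g = Sf c l' τ (P l') g) :
    (Q1.card.choose (r * (k2 + 1))) * ((L3.card - r * (Nat.size r + Nat.size p)).choose k2)
      ≤ ((r * p) ^ r + 1) ^ (r + 1) * (2 * (3 * N ^ (k2 + 1)) ^ r) := by
  classical
  have hr : r.Prime := hK.good.pr
  have : NeZero r := ⟨hr.ne_zero⟩
  obtain ⟨b, hb⟩ := hK.basis p rfl
  set k : ℕ := r * (k2 + 1) with hkdef
  set T : ℕ := N ^ (k2 + 1) with hT
  set h : ℕ := Nat.card (ClassGroup (𝓞 K)) with hhdef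
  choose φ hφ using hP
  have hPφ : ∀ l (hl : l ∈ L3), P l = ⇑(φ l hl) := fun l hl => funext (hφ l hl)
  -- the ideals of the columns
  set II : Finset ℕ → Ideal (𝓞 K) := fun s => ∏ n ∈ s, NN n with hII
  have hnorm : ∀ s ⊆ Q1, Ideal.absNorm (II s) = ∏ n ∈ s, n := by
    intro s hs
    rw [hII]
    simp only
    rw [map_prod]
    exact Finset.prod_congr rfl fun n hn => hNN n (hs hn)
  have hII0 : ∀ s ⊆ Q1, II s ≠ ⊥ := by
    intro s hs h0
    have h1 := hnorm s hs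
    rw [h0, Ideal.absNorm_bot] at h1
    exact Finset.prod_ne_zero_iff.mpr (fun n hn => (hQ n (hs hn)).1.ne_zero) h1.symm
  have hcol : ∀ s : Finset ℕ, ∃ x : 𝓞 K, ∃ J : Ideal (𝓞 K), s ∈ Q1.powersetCard k →
      x ≠ 0 ∧ (∀ i, |b.repr x i| ≤ (T : ℤ)) ∧ Ideal.span {x} = II s * J ∧ J ≠ ⊥ ∧
        Ideal.absNorm J ≤ (r * p) ^ r := by
    intro s
    by_cases hs : s ∈ Q1.powersetCard k
    · rw [Finset.mem_powersetCard] at hs
      have hle : Ideal.absNorm (II s) ≤ T ^ r := by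
        rw [hnorm s hs.1]
        calc ∏ n ∈ s, n ≤ ∏ _n ∈ s, N := Finset.prod_le_prod' fun n hn => (hQ n (hs.1 hn)).2
          _ = T ^ r := by
            rw [Finset.prod_const, hs.2, hT, hkdef, ← pow_mul, mul_comm]
      obtain ⟨x, hx0, hx1, J, hJ1, hJ2, hJ3⟩ := thue b hr.pos p hb (II s) (hII0 s hs.1) T hle
      exact ⟨x, J, fun _ => ⟨hx0, hx1, hJ1, hJ2, hJ3⟩⟩
    · exact ⟨0, ⊥, fun hs' => absurd hs' hs⟩
  choose x J hxJ using hcol
  -- generators
  have hgen : ∀ n : ℕ, ∃ g : 𝓞 K, n ∈ Q1 → Ideal.span {g} = NN n ^ h := by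
    intro n
    by_cases hn : n ∈ Q1
    · have h0 : NN n ≠ ⊥ := by
        intro h0
        have h1 := hNN n hn
        rw [h0, Ideal.absNorm_bot] at h1
        exact (hQ n hn).1.ne_zero h1.symm
      obtain ⟨g, hg⟩ := exists_gen (NN n) h0
      exact ⟨g, fun _ => hg⟩
    · exact ⟨0, fun hn' => absurd hn' hn⟩
  choose G hG using hgen
  rcases (Q1.powersetCard k).eq_empty_or_nonempty with hemp | hnemp
  · have h1 : Q1.card.choose k = 0 := by
      rw [← Finset.card_powersetCard, hemp, Finset.card_empty]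
    rw [h1, zero_mul]
    exact Nat.zero_le _
  -- a cell
  have hCC : ((Q1.powersetCard k).image J).card ≤ ((r * p) ^ r + 1) ^ (r + 1) := by
    refine card_ideals b ((r * p) ^ r) _ ?_ ?_
    · intro I hI
      obtain ⟨s, hs, rfl⟩ := Finset.mem_image.mp hI
      exact (hxJ s hs).2.2.2.1
    · intro I hI
      obtain ⟨s, hs, rfl⟩ := Finset.mem_image.mp hI
      exact (hxJ s hs).2.2.2.2
  obtain ⟨C, hC, hcell⟩ := exists_fib (Q1.powersetCard k) J _ hCC hnemp
  set Cel : Finset (Finset ℕ) := (Q1.powersetCard k).filter (fun s => J s = C) with hCel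
  obtain ⟨s1, hs1, hs1C⟩ := Finset.mem_image.mp hC
  have hC0 : C ≠ ⊥ := by
    rw [← hs1C]
    exact (hxJ s1 hs1).2.2.2.1
  have hCn : Ideal.absNorm C ≤ (r * p) ^ r := by
    rw [← hs1C]
    exact (hxJ s1 hs1).2.2.2.2
  have hCn0 : Ideal.absNorm C ≠ 0 :=
    Ideal.absNorm_ne_zero_iff_mem_nonZeroDivisors.mpr (mem_nonZeroDivisors_of_ne_zero hC0)
  have hCel1 : ∀ s ∈ Cel, s ∈ Q1.powersetCard k := fun s hs => (Finset.mem_filter.mp hs).1
  have hCel2 : ∀ s ∈ Cel, Ideal.span {x s} = II s * C := by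
    intro s hs
    have h1 := (hxJ s (hCel1 s hs)).2.2.1
    rw [(Finset.mem_filter.mp hs).2] at h1
    exact h1
  have hCel3 : ∀ s ∈ Cel, s ⊆ Q1 := fun s hs => (Finset.mem_powersetCard.mp (hCel1 s hs)).1
  -- the points of the cell
  set Gam : Finset (Fin r → ℤ) := Cel.image (fun s => fun i => b.repr (x s) i) with hGam
  have hGamcard : Gam.card = Cel.card := by
    refine Finset.card_image_of_injOn ?_
    intro s hs s' hs' hss
    have h1 : x s = x s' := by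
      apply b.repr.injective
      ext i
      exact congrFun hss i
    have h2 : II s * C = II s' * C := by
      rw [← hCel2 s hs, ← hCel2 s' hs', h1]
    have h3 : II s = II s' := mul_right_cancel₀ hC0 h2
    have h4 := congrArg Ideal.absNorm h3
    rw [hnorm s (hCel3 s hs), hnorm s' (hCel3 s' hs')] at h4
    exact prod_inj (fun q hq => (hQ q (hCel3 s hs hq)).1) (fun q hq => (hQ q (hCel3 s' hs' hq)).1) h4
  -- the rows
  set L4 : Finset ℕ := L3.filter (fun l => ¬ l ∣ Ideal.absNorm C) with hL4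
  have hL4sub : L4 ⊆ L3 := Finset.filter_subset _ _
  have hsize : Ideal.absNorm C ≤ 2 ^ (r * (Nat.size r + Nat.size p)) := by
    refine hCn.trans ?_
    have h1 : r * p ≤ 2 ^ (Nat.size r + Nat.size p) := by
      rw [pow_add]
      exact Nat.mul_le_mul (Nat.lt_size_self r).le (Nat.lt_size_self p).le
    calc (r * p) ^ r ≤ (2 ^ (Nat.size r + Nat.size p)) ^ r := Nat.pow_le_pow_left h1 r
      _ = 2 ^ (r * (Nat.size r + Nat.size p)) := by rw [← pow_mul, mul_comm]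
  have hL4card : L3.card - r * (Nat.size r + Nat.size p) ≤ L4.card := by
    have h1 := card_dvd (fun l hl => (hL l hl).1) hCn0 hsize
    have h2 := Finset.card_filter_add_card_filter_not (s := L3) (fun l => l ∣ Ideal.absNorm C)
    have h3 : L4.card = (L3.filter (fun l => ¬ l ∣ Ideal.absNorm C)).card := rfl
    omega
  -- conjugates do not vanish
  have hnvx : ∀ s ∈ Cel, ∀ l (hl : l ∈ L4), ∀ i < r,
      IsUnit (φ l (hL4sub hl) (τ ^ i • x s)) := by
    intro s hs l hl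
    have hlp : l.Prime := (hL l (hL4sub hl)).1
    refine nv_of_norm hK hlp _ ?_
    rw [hCel2 s hs, map_mul, hnorm s (hCel3 s hs)]
    intro hd
    rcases (Nat.Prime.dvd_mul hlp).mp hd with h1 | h1
    · rw [hlp.prime.dvd_finsetProd_iff] at h1
      obtain ⟨n, hn, hln⟩ := h1
      have h2 : l = n := (Nat.prime_dvd_prime_iff_eq hlp (hQ n (hCel3 s hs hn)).1).mp hln
      exact Finset.disjoint_left.mp hdis (hCel3 s hs hn) (h2 ▸ hL4sub hl)
    · exact (Finset.mem_filter.mp hl).2 h1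
  have hnvG : ∀ n ∈ Q1, ∀ l (hl : l ∈ L3), ∀ i < r, IsUnit (φ l hl (τ ^ i • G n)) := by
    intro n hn l hl
    have hlp : l.Prime := (hL l hl).1
    refine nv_of_norm hK hlp _ ?_
    rw [hG n hn, map_pow, hNN n hn]
    intro hd
    have h1 := hlp.dvd_of_dvd_pow hd
    have h2 : l = n := (Nat.prime_dvd_prime_iff_eq hlp (hQ n hn).1).mp h1
    exact Finset.disjoint_left.mp hdis hn (h2 ▸ hl)
  have hEG : ∀ n ∈ Q1, ∀ l (hl : l ∈ L3) l' (hl' : l' ∈ L3),
      Eql c τ (φ l hl) (φ l' hl') (G n) := by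
    intro n hn l hl l' hl'
    refine ⟨hnvG n hn l hl, hnvG n hn l' hl', ?_⟩
    have h1 := V n hn (G n) (hG n hn) l hl l' hl'
    rw [hPφ l hl, hPφ l' hl'] at h1
    exact h1
  have hEu : ∀ u : (𝓞 K)ˣ, ∀ l (hl : l ∈ L3) l' (hl' : l' ∈ L3),
      Eql c τ (φ l hl) (φ l' hl') (u : 𝓞 K) := by
    intro u l hl l' hl'
    refine ⟨fun i _ => ?_, fun i _ => ?_, ?_⟩
    · have h1 : IsUnit (τ ^ i • (u : 𝓞 K)) := by
        have := (u.isUnit.map (MulSemiringAction.toRingHom _ (𝓞 K) (τ ^ i)))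
        exact this
      exact h1.map (φ l hl)
    · have h1 : IsUnit (τ ^ i • (u : 𝓞 K)) := by
        have := (u.isUnit.map (MulSemiringAction.toRingHom _ (𝓞 K) (τ ^ i)))
        exact this
      exact h1.map (φ l' hl')
    · have h1 := U (u : 𝓞 K) u.isUnit l hl l' hl'
      rw [hPφ l hl, hPφ l' hl'] at h1
      exact h1
  -- differences are constant
  have hconst : ∀ s ∈ Cel, ∀ s' ∈ Cel, ∀ l (hl : l ∈ L4) l' (hl' : l' ∈ L4),
      Sf c l τ (φ l (hL4sub hl)) (x s) - Sf c l' τ (φ l' (hL4sub hl')) (x s)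
        = Sf c l τ (φ l (hL4sub hl)) (x s') - Sf c l' τ (φ l' (hL4sub hl')) (x s') := by
    intro s hs s' hs' l hl l' hl'
    have hspan : Ideal.span {x s ^ h * ∏ n ∈ s', G n} = Ideal.span {x s' ^ h * ∏ n ∈ s, G n} := by
      have e1 : ∀ t ∈ Cel, Ideal.span {∏ n ∈ t, G n} = II t ^ h := by
        intro t ht
        rw [← Ideal.prod_span_singleton, hII]
        simp only
        rw [← Finset.prod_pow]
        exact Finset.prod_congr rfl fun n hn => hG n (hCel3 t ht hn)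
      rw [← Ideal.span_singleton_mul_span_singleton, ← Ideal.span_singleton_mul_span_singleton,
        ← Ideal.span_singleton_pow, ← Ideal.span_singleton_pow, e1 s' hs', e1 s hs,
        hCel2 s hs, hCel2 s' hs', mul_pow, mul_pow]
      ring
    rw [Ideal.span_singleton_eq_span_singleton] at hspan
    obtain ⟨u, hu⟩ := hspan
    exact cell_const hr (φ l (hL4sub hl)) (φ l' (hL4sub hl')) h hh (x s) (x s')
      (∏ n ∈ s, G n) (∏ n ∈ s', G n) u (hnvx s hs l hl) (hnvx s hs l' hl') (hnvx s' hs' l hl)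
      (hnvx s' hs' l' hl')
      (Eql.prod s G fun n hn => hEG n (hCel3 s hs hn) l _ l' _)
      (Eql.prod s' G fun n hn => hEG n (hCel3 s' hs' hn) l _ l' _)
      (hEu u l _ l' _) hu
  -- the row functions
  set g : (l : ℕ) → (Fin r → ZMod l) → ℂ := fun l y => grow c l τ (P l) b y with hg
  set R : Finset ℕ → (Fin r → ℤ) → ℂ := fun D y => ∏ l ∈ D, g l (red l y) with hR
  have hval : ∀ s ∈ Cel, ∀ l (hl : l ∈ L4), g l (red l (fun i => b.repr (x s) i))
      = ZMod.stdAddChar (Sf c l τ (P l) (x s)) := by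
    intro s hs l hl
    rw [hg]
    simp only
    rw [hPφ l (hL4sub hl)]
    exact grow_red b l (hL l (hL4sub hl)).1 _ _ (hnvx s hs l hl)
  have hRval : ∀ s ∈ Cel, ∀ D ∈ L4.powersetCard k2, R D (fun i => b.repr (x s) i)
      = ZMod.stdAddChar (∑ l ∈ D, Sf c l τ (P l) (x s)) := by
    intro s hs D hD
    rw [hR]
    simp only
    rw [stdAddChar_sum]
    exact Finset.prod_congr rfl fun l hl => hval s hs l ((Finset.mem_powersetCard.mp hD).1 hl)
  have hRconst : ∀ s ∈ Cel, ∀ s' ∈ Cel, ∀ D ∈ L4.powersetCard k2,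
      ∑ l ∈ D, Sf c l τ (P l) (x s) = ∑ l ∈ D, Sf c l τ (P l) (x s') := by
    intro s hs s' hs' D hD
    rw [Finset.mem_powersetCard] at hD
    rcases D.eq_empty_or_nonempty with hDe | ⟨l0, hl0⟩
    · rw [hDe, Finset.sum_empty, Finset.sum_empty]
    · have h1 : ∀ l ∈ D, Sf c l τ (P l) (x s) - Sf c l τ (P l) (x s')
          = Sf c l0 τ (P l0) (x s) - Sf c l0 τ (P l0) (x s') := by
        intro l hl
        have h2 := hconst s hs s' hs' l (hD.1 hl) l0 (hD.1 hl0)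
        rw [← hPφ, ← hPφ] at h2
        linear_combination h2
      have h3 : ∑ l ∈ D, Sf c l τ (P l) (x s) - ∑ l ∈ D, Sf c l τ (P l) (x s') = 0 := by
        rw [← Finset.sum_sub_distrib, Finset.sum_congr rfl h1, Finset.sum_const, hD.2,
          nsmul_eq_mul]
        have h4 : ((k2 : ℕ) : ZMod r) = 0 := (ZMod.natCast_eq_zero_iff k2 r).mpr hk
        rw [h4, zero_mul]
      exact sub_eq_zero.mp h3
  -- Bessel
  rcases Cel.eq_empty_or_nonempty with hCe | ⟨s0, hs0⟩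
  · have h1 : (Q1.powersetCard k).card = 0 := by
      have h2 := hcell
      rw [hCe, Finset.card_empty, mul_zero] at h2
      omega
    rw [Finset.card_powersetCard] at h1
    rw [h1, zero_mul]
    exact Nat.zero_le _
  have hbes := bessel (r := r) T (Y ^ k2) L4 (fun l hl => (hL l (hL4sub hl)).1) g
    (fun l _ y => grow_norm l τ (P l) b y)
    (fun l hl => by
      intro _
      rw [hg]
      simp only
      rw [hPφ l (hL4sub hl)]
      exact grow_sum hr.two_le hK b l (hL l (hL4sub hl)).1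
        (fun h => hpL (h ▸ hL4sub hl)) (hL l (hL4sub hl)).2.2 _)
    (L4.powersetCard k2) (fun D hD => (Finset.mem_powersetCard.mp hD).1)
    (fun D hD => by
      rw [Finset.mem_powersetCard] at hD
      calc ∏ l ∈ D, l ≤ ∏ _l ∈ D, Y :=
            Finset.prod_le_prod' fun l hl => (hL l (hL4sub (hD.1 hl))).2.1
        _ = Y ^ k2 := by rw [Finset.prod_const, hD.2])
    Gam
    (fun y hy => by
      obtain ⟨s, hs, rfl⟩ := Finset.mem_image.mp hy
      exact (hxJ s (hCel1 s hs)).2.1)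
    (fun D => ZMod.stdAddChar (∑ l ∈ D, Sf c l τ (P l) (x s0)))
    (fun D _ => stdAddChar_norm _)
    (fun D hD y hy => by
      obtain ⟨s, hs, rfl⟩ := Finset.mem_image.mp hy
      have h1 := hRval s hs D hD
      rw [hRconst s hs s0 hs0 D hD] at h1
      exact h1)
  -- sizes
  have hYpos : 1 ≤ Y := hr.one_lt.le.trans hrN
  have hNpos : 1 ≤ N := (Nat.one_le_pow _ _ hYpos).trans hN
  have hTpos : 1 ≤ T := Nat.one_le_pow _ _ hNpos
  have hDD : ((L4.powersetCard k2).card : ℝ) ≤ ((Y ^ k2 : ℕ) : ℝ) := by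
    have h1 : (L4.powersetCard k2).card ≤ Y ^ k2 := by
      rw [Finset.card_powersetCard]
      have h2 : L4.card ≤ Y := by
        have h3 : L4 ⊆ Finset.Icc 1 Y := by
          intro l hl
          rw [Finset.mem_Icc]
          exact ⟨(hL l (hL4sub hl)).1.one_lt.le, (hL l (hL4sub hl)).2.1⟩
        simpa using Finset.card_le_card h3
      calc L4.card.choose k2 ≤ L4.card ^ k2 := Nat.choose_le_pow _ _
        _ ≤ Y ^ k2 := Nat.pow_le_pow_left h2 _
    exact_mod_cast h1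
  have hTX : (r : ℝ) * ((Y ^ k2 : ℕ) : ℝ) ^ 3 ≤ 2 * T + 1 := by
    have h1 : r * (Y ^ k2) ^ 3 ≤ T := by
      rw [hT]
      calc r * (Y ^ k2) ^ 3 ≤ Y ^ 3 * (Y ^ k2) ^ 3 := by
            refine Nat.mul_le_mul_right _ (hrN.trans ?_)
            exact Nat.le_self_pow (by norm_num) Y
        _ = (Y ^ 3) ^ (k2 + 1) := by ring
        _ ≤ N ^ (k2 + 1) := Nat.pow_le_pow_left hN _
    have h2 : (r : ℝ) * ((Y ^ k2 : ℕ) : ℝ) ^ 3 ≤ (T : ℝ) := by exact_mod_cast h1
    linarith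
  have hmain : (Gam.card : ℝ) * (L4.powersetCard k2).card ≤ 2 * (3 * T) ^ r := by
    refine hbes.trans ?_
    have h1 : ((L4.powersetCard k2).card : ℝ) *
        (r * ((Y ^ k2 : ℕ) : ℝ) ^ 2 * (2 * T + 1) ^ (r - 1)) ≤ (2 * T + 1) ^ r := by
      calc ((L4.powersetCard k2).card : ℝ) *
          (r * ((Y ^ k2 : ℕ) : ℝ) ^ 2 * (2 * T + 1) ^ (r - 1))
          ≤ ((Y ^ k2 : ℕ) : ℝ) * (r * ((Y ^ k2 : ℕ) : ℝ) ^ 2 * (2 * T + 1) ^ (r - 1)) :=
            mul_le_mul_of_nonneg_right hDD (by positivity)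
        _ = (r * ((Y ^ k2 : ℕ) : ℝ) ^ 3) * (2 * T + 1) ^ (r - 1) := by ring
        _ ≤ (2 * T + 1) * (2 * T + 1) ^ (r - 1) :=
            mul_le_mul_of_nonneg_right hTX (by positivity)
        _ = (2 * T + 1) ^ r := by
            rw [← pow_succ']
            congr 1
            have := hr.pos
            omega
    have h2 : (2 * (T : ℝ) + 1) ^ r ≤ (3 * T) ^ r := by
      refine pow_le_pow_left₀ (by positivity) ?_ r
      have : (1 : ℝ) ≤ T := by exact_mod_cast hTpos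
      linarith
    linarith
  have hmain' : Gam.card * (L4.powersetCard k2).card ≤ 2 * (3 * T) ^ r := by
    exact_mod_cast hmain
  rw [Finset.card_powersetCard] at hmain' hcell
  have h1 : (L3.card - r * (Nat.size r + Nat.size p)).choose k2 ≤ L4.card.choose k2 :=
    Nat.choose_le_choose _ hL4card
  calc (Q1.card.choose k) * ((L3.card - r * (Nat.size r + Nat.size p)).choose k2)
      ≤ (((r * p) ^ r + 1) ^ (r + 1) * Cel.card) * L4.card.choose k2 :=
        Nat.mul_le_mul hcell h1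
    _ = ((r * p) ^ r + 1) ^ (r + 1) * (Gam.card * L4.card.choose k2) := by
        rw [hGamcard, mul_assoc]
    _ ≤ ((r * p) ^ r + 1) ^ (r + 1) * (2 * (3 * T) ^ r) := Nat.mul_le_mul_left _ hmain'

end Pool.Agent.Rnr
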