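import Mathlib

/-!
# Rnr, file Fin: the sizes (section 6.4 of the text)
-/

namespace Pool.Agent.Rnr

/-- lower bound for a binomial coefficient in powers of `n` -/
theorem choose_pow {n a b k m : ℕ} (hk : k ≤ n ^ b) (hm : n ^ a + k ≤ m) :
    n ^ (a * k) ≤ n ^ (b * k) * m.choose k := by
  have h1 : n ^ a ≤ m + 1 - k := by omega
  have h2 : (m + 1 - k) ^ k ≤ k.factorial * m.choose k := by
    have := Nat.pow_sub_le_descFactorial m k
    rwa [Nat.descFactorial_eq_factorial_mul_choose] at this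
  have h3 : k.factorial ≤ n ^ (b * k) := by
    calc k.factorial ≤ k ^ k := Nat.factorial_le_pow k
      _ ≤ (n ^ b) ^ k := Nat.pow_le_pow_left hk k
      _ = n ^ (b * k) := by rw [pow_mul]
  calc n ^ (a * k) = (n ^ a) ^ k := by rw [pow_mul]
    _ ≤ (m + 1 - k) ^ k := Nat.pow_le_pow_left h1 k
    _ ≤ k.factorial * m.choose k := h2
    _ ≤ n ^ (b * k) * m.choose k := Nat.mul_le_mul_right _ h3

/-- from the real inequality to powers -/
theorem count_pow {n e K l : ℕ} (he : 2 ≤ e) (hn : e * K ≤ n) (hn0 : 0 < n)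
    (h : ((n ^ e : ℕ) : ℝ) ≤ K * Real.log ((n ^ e : ℕ) : ℝ) * l) : n ^ (e - 2) ≤ l := by
  have h1 : Real.log ((n ^ e : ℕ) : ℝ) ≤ e * n := by
    push_cast
    rw [Real.log_pow]
    refine mul_le_mul_of_nonneg_left ?_ (by positivity)
    have : (0 : ℝ) < n := by exact_mod_cast hn0
    linarith [Real.log_le_sub_one_of_pos this]
  have h2 : ((n ^ e : ℕ) : ℝ) ≤ ((n ^ 2 * l : ℕ) : ℝ) := by
    calc ((n ^ e : ℕ) : ℝ) ≤ K * Real.log ((n ^ e : ℕ) : ℝ) * l := h
      _ ≤ K * (e * n) * l := by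
        refine mul_le_mul_of_nonneg_right (mul_le_mul_of_nonneg_left h1 (by positivity)) (by positivity)
      _ = ((e * K : ℕ) : ℝ) * n * l := by push_cast; ring
      _ ≤ (n : ℝ) * n * l := by
        have : ((e * K : ℕ) : ℝ) ≤ n := by exact_mod_cast hn
        gcongr
      _ = ((n ^ 2 * l : ℕ) : ℝ) := by push_cast; ring
  have h3 : n ^ e ≤ n ^ 2 * l := by exact_mod_cast h2
  have h4 : n ^ e = n ^ 2 * n ^ (e - 2) := by
    rw [← pow_add]
    congr 1
    omega
  rw [h4] at h3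
  exact Nat.le_of_mul_le_mul_left h3 (by positivity)

/-- **The final contradiction.** -/
theorem fin (r K : ℕ) (hr : 2 ≤ r) : ∃ p0 : ℕ, ∀ p ≥ p0, ∀ l q : ℕ,
    ((Nat.size p ^ (24 * r) : ℕ) : ℝ) ≤ K * Real.log ((Nat.size p ^ (24 * r) : ℕ) : ℝ) * l →
    (((Nat.size p ^ (24 * r)) ^ 3 : ℕ) : ℝ) ≤
      K * Real.log (((Nat.size p ^ (24 * r)) ^ 3 : ℕ) : ℝ) * q →
    ∃ k2 : ℕ, r ∣ k2 ∧
      ((r * p) ^ r + 1) ^ (r + 1) * (2 * (3 * ((Nat.size p ^ (24 * r)) ^ 3) ^ (k2 + 1)) ^ r) <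
        q.choose (r * (k2 + 1)) * (l - r * (Nat.size r + Nat.size p)).choose k2 := by
  set c : ℕ := 2 * r * (r + 1) + 1 with hc
  set n0 : ℕ := 72 * r * K + 4 * r * r * c + 2 * r + 10 + Nat.size r with hn0
  refine ⟨2 ^ n0, fun p hp l q hl hq => ?_⟩
  set n : ℕ := Nat.size p with hn
  have hnn : n0 ≤ n := by
    have h1 : n0 < Nat.size p := Nat.lt_size.mpr hp
    omega
  have hc1 : 1 ≤ c := by omega
  have hn10 : 10 ≤ n := by omega
  have hnpos : 0 < n := by omega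
  have h72 : 72 * r * K ≤ n := by omega
  have h24 : 24 * r * K ≤ n :=
    le_trans (Nat.mul_le_mul_right K (by omega : 24 * r ≤ 72 * r)) h72
  have hl1 : n ^ (24 * r - 2) ≤ l := count_pow (by omega) h24 hnpos hl
  have hq1 : n ^ (72 * r - 2) ≤ q := by
    refine count_pow (K := K) (by omega) h72 hnpos ?_
    have : (n ^ (24 * r)) ^ 3 = n ^ (72 * r) := by rw [← pow_mul]; congr 1; ring
    rw [this] at hq
    exact hq
  set k2 : ℕ := r * (c * n) with hk2
  refine ⟨k2, ⟨c * n, rfl⟩, ?_⟩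
  set k : ℕ := r * (k2 + 1) with hk
  -- sizes of k2, k
  have hrc : 4 * r * r * c ≤ n := by omega
  have hk2n : k2 ≤ n ^ 2 := by
    have : r * c ≤ n := by nlinarith
    calc k2 = (r * c) * n := by rw [hk2]; ring
      _ ≤ n * n := Nat.mul_le_mul_right _ this
      _ = n ^ 2 := by ring
  have hkn : k ≤ n ^ 2 := by
    have h1 : 1 ≤ k2 := by
      rw [hk2]
      have : 0 < r * (c * n) := by positivity
      omega
    have h2 : 2 * (r * r * c) ≤ n := by nlinarith
    calc k = r * (k2 + 1) := hk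
      _ ≤ r * (2 * k2) := Nat.mul_le_mul_left _ (by omega)
      _ = (2 * (r * r * c)) * n := by rw [hk2]; ring
      _ ≤ n * n := Nat.mul_le_mul_right _ h2
      _ = n ^ 2 := by ring
  have hk21 : 1 ≤ k2 := by
    rw [hk2]
    have : 0 < r * (c * n) := by positivity
    omega
  -- powers
  have step : ∀ a : ℕ, 10 * n ^ a ≤ n ^ (a + 1) := by
    intro a
    rw [pow_succ, mul_comm]
    exact Nat.mul_le_mul_left _ hn10
  have mono : ∀ a b : ℕ, a ≤ b → n ^ a ≤ n ^ b := fun a b h => Nat.pow_le_pow_right hnpos h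
  -- rows
  have hs : r * (Nat.size r + n) ≤ n ^ 2 := by
    have h1 : Nat.size r + n ≤ 2 * n := by omega
    have h2 : 2 * r ≤ n := by omega
    calc r * (Nat.size r + n) ≤ r * (2 * n) := Nat.mul_le_mul_left _ h1
      _ = (2 * r) * n := by ring
      _ ≤ n * n := Nat.mul_le_mul_right _ h2
      _ = n ^ 2 := by ring
  have hrow : n ^ (24 * r - 3) + k2 ≤ l - r * (Nat.size r + n) := by
    have e1 := step (24 * r - 3)
    have e2 : 24 * r - 3 + 1 = 24 * r - 2 := by omega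
    rw [e2] at e1
    have e3 : n ^ 2 ≤ n ^ (24 * r - 3) := mono _ _ (by omega)
    omega
  have hcol : n ^ (72 * r - 3) + k ≤ q := by
    have e1 := step (72 * r - 3)
    have e2 : 72 * r - 3 + 1 = 72 * r - 2 := by omega
    rw [e2] at e1
    have e3 : n ^ 2 ≤ n ^ (72 * r - 3) := mono _ _ (by omega)
    omega
  have hR := choose_pow (b := 2) hk2n hrow
  have hC := choose_pow (b := 2) hkn hcol
  -- the right hand side
  have hrp : (r * p) ^ r + 1 ≤ 2 ^ (r * (2 * n)) := by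
    have h1 : r * p + 1 ≤ 2 ^ (2 * n) := by
      have a1 : r < 2 ^ Nat.size r := Nat.lt_size_self r
      have a2 : p < 2 ^ n := Nat.lt_size_self p
      have a3 : r * p < 2 ^ Nat.size r * 2 ^ n := Nat.mul_lt_mul'' a1 a2
      have a4 : 2 ^ Nat.size r * 2 ^ n ≤ 2 ^ (2 * n) := by
        rw [← pow_add]
        exact Nat.pow_le_pow_right (by norm_num) (by omega)
      omega
    have h2 : (r * p) ^ r + 1 ≤ (r * p + 1) ^ r := by
      exact Nat.pow_lt_pow_left (Nat.lt_succ_self _) (by omega)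
    calc (r * p) ^ r + 1 ≤ (r * p + 1) ^ r := h2
      _ ≤ (2 ^ (2 * n)) ^ r := Nat.pow_le_pow_left h1 r
      _ = 2 ^ (r * (2 * n)) := by rw [← pow_mul]; ring_nf
  have hRHS : ((r * p) ^ r + 1) ^ (r + 1) * (2 * (3 * ((n ^ (24 * r)) ^ 3) ^ (k2 + 1)) ^ r) ≤
      2 ^ (c * n) * n ^ (72 * r * k) := by
    have h1 : ((r * p) ^ r + 1) ^ (r + 1) ≤ 2 ^ (2 * r * (r + 1) * n) := by
      calc ((r * p) ^ r + 1) ^ (r + 1) ≤ (2 ^ (r * (2 * n))) ^ (r + 1) := Nat.pow_le_pow_left hrp _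
        _ = 2 ^ (2 * r * (r + 1) * n) := by rw [← pow_mul]; ring_nf
    have h2 : 2 * 3 ^ r ≤ 2 ^ n := by
      calc 2 * 3 ^ r ≤ 2 * 4 ^ r := Nat.mul_le_mul_left _ (Nat.pow_le_pow_left (by norm_num) r)
        _ = 2 ^ (2 * r + 1) := by
          rw [pow_succ, pow_mul]
          norm_num
          ring
        _ ≤ 2 ^ n := Nat.pow_le_pow_right (by norm_num) (by omega)
    have h3 : (3 * ((n ^ (24 * r)) ^ 3) ^ (k2 + 1)) ^ r = 3 ^ r * n ^ (72 * r * k) := by
      rw [mul_pow, ← pow_mul, ← pow_mul, ← pow_mul]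
      congr 2
      rw [hk]
      ring
    rw [h3]
    calc ((r * p) ^ r + 1) ^ (r + 1) * (2 * (3 ^ r * n ^ (72 * r * k)))
        = ((r * p) ^ r + 1) ^ (r + 1) * (2 * 3 ^ r) * n ^ (72 * r * k) := by ring
      _ ≤ 2 ^ (2 * r * (r + 1) * n) * 2 ^ n * n ^ (72 * r * k) :=
          Nat.mul_le_mul_right _ (Nat.mul_le_mul h1 h2)
      _ = 2 ^ (c * n) * n ^ (72 * r * k) := by
          rw [← pow_add, hc]
          congr 2
          ring
  refine lt_of_le_of_lt hRHS ?_
  -- compare exponents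
  have hfin : 2 ^ (c * n) * n ^ (72 * r * k) * (n ^ (2 * k) * n ^ (2 * k2)) <
      n ^ ((72 * r - 3) * k) * n ^ ((24 * r - 3) * k2) := by
    have e1 : (72 * r - 3) * k + 3 * k = 72 * r * k := by
      rw [← add_mul]
      congr 1
      omega
    have e2 : k2 + (5 * k + 2 * k2) ≤ (24 * r - 3) * k2 := by
      have a1 : k ≤ 2 * r * k2 := by
        rw [hk]
        nlinarith
      have a2 : 10 * r + 3 ≤ 24 * r - 3 := by omega
      calc k2 + (5 * k + 2 * k2) ≤ k2 + (5 * (2 * r * k2) + 2 * k2) := by omega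
        _ = (10 * r + 3) * k2 := by ring
        _ ≤ (24 * r - 3) * k2 := Nat.mul_le_mul_right _ a2
    have e3 : 2 ^ (c * n) < n ^ k2 := by
      have b1 : c * n < k2 := by
        rw [hk2]
        have : 0 < c * n := by positivity
        nlinarith
      calc 2 ^ (c * n) < 2 ^ k2 := Nat.pow_lt_pow_right (by norm_num) b1
        _ ≤ n ^ k2 := Nat.pow_le_pow_left (by omega) k2
    calc 2 ^ (c * n) * n ^ (72 * r * k) * (n ^ (2 * k) * n ^ (2 * k2))
        < n ^ k2 * n ^ (72 * r * k) * (n ^ (2 * k) * n ^ (2 * k2)) := by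
          have : 0 < n ^ (72 * r * k) * (n ^ (2 * k) * n ^ (2 * k2)) := by positivity
          rw [mul_assoc, mul_assoc (n ^ k2)]
          exact Nat.mul_lt_mul_of_pos_right e3 this
      _ = n ^ ((72 * r - 3) * k + (k2 + (5 * k + 2 * k2))) := by
          rw [← pow_add, ← pow_add, ← pow_add, ← e1]
          congr 1
          ring
      _ ≤ n ^ ((72 * r - 3) * k + (24 * r - 3) * k2) := mono _ _ (by omega)
      _ = n ^ ((72 * r - 3) * k) * n ^ ((24 * r - 3) * k2) := by rw [pow_add]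
  have hall : n ^ ((72 * r - 3) * k) * n ^ ((24 * r - 3) * k2) ≤
      (q.choose k * (l - r * (Nat.size r + n)).choose k2) * (n ^ (2 * k) * n ^ (2 * k2)) := by
    calc n ^ ((72 * r - 3) * k) * n ^ ((24 * r - 3) * k2)
        ≤ (n ^ (2 * k) * q.choose k) * (n ^ (2 * k2) * (l - r * (Nat.size r + n)).choose k2) :=
          Nat.mul_le_mul hC hR
      _ = _ := by ring
  exact Nat.lt_of_mul_lt_mul_right (lt_of_lt_of_le hfin hall)

end Pool.Agent.Rnr
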