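import Pool.Agent.Rnr.MinPol
import Pool.Agent.RNM.Def

/-!
# Rnr: from the number theoretic theorem to the input of the machine
-/

namespace Pool.Agent.Rnr

open NumberField NumberField.InfinitePlace Module Filter

theorem TS_growth (C : ℕ) : ∃ p1 : ℕ, ∀ p : ℕ, p1 ≤ p → Nat.size p ^ C < p := by
  have h1 := tendsto_pow_const_div_const_pow_of_one_lt C (show (1 : ℝ) < 2 by norm_num)
  have h2 : ∀ᶠ n : ℕ in atTop, (n : ℝ) ^ C / 2 ^ n < 1 / 2 :=
    h1.eventually (gt_mem_nhds (by norm_num))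
  obtain ⟨s0, hs0⟩ := eventually_atTop.mp h2
  refine ⟨2 ^ (s0 + 1), fun p hp => ?_⟩
  have hs : s0 ≤ Nat.size p := by
    have : s0 + 1 < Nat.size p := Nat.lt_size.mpr hp
    omega
  have hs1 : 0 < Nat.size p := by
    rw [Nat.size_pos]
    exact lt_of_lt_of_le (by positivity) hp
  have h3 := hs0 _ hs
  rw [div_lt_div_iff₀ (by positivity) (by norm_num)] at h3
  have h4 : 2 ^ (Nat.size p - 1) ≤ p := Nat.lt_size.mp (by omega)
  have h5 : (2 : ℕ) ^ Nat.size p = 2 * 2 ^ (Nat.size p - 1) := by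
    conv_lhs => rw [show Nat.size p = (Nat.size p - 1) + 1 by omega]
    rw [pow_succ]
    ring
  have h6 : Nat.size p ^ C * 2 < 2 ^ Nat.size p := by
    have : ((Nat.size p : ℕ) : ℝ) ^ C * 2 < 1 * 2 ^ Nat.size p := h3
    rw [one_mul] at this
    exact_mod_cast this
  omega

/-- The number theoretic theorem, as proved in `Rnr`. -/
def NTR (r : ℕ) : Prop :=
  ∃ C p0 : ℕ, ∀ (p : ℕ) [Fact p.Prime], p0 ≤ p → r ∣ p - 1 →
    ¬ ((∀ m : ℕ, 1 ≤ m → m ≤ Nat.size p ^ C → ∃ y : ZMod p, y ^ r = (m : ZMod p)) ∧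
      (∀ (F : Type) [Field F] [NumberField F] (σ : F ≃ₐ[ℚ] F), finrank ℚ F = r → σ ^ r = 1 →
        σ ≠ 1 → ∀ a : 𝓞 F, (∀ w : InfinitePlace F, w (a : F) ≤ ((Nat.size p ^ C : ℕ) : ℝ)) →
        ∀ φ : 𝓞 F →+* ZMod p, φ (σ • a) ^ ((p - 1) / r) = φ a ^ ((p - 1) / r)))

theorem smallR_of_NTR (r : ℕ) (hr : r.Prime) (hNT : NTR r) : RNM.SmallR r := by
  classical
  obtain ⟨C, p0, hNT⟩ := hNT
  obtain ⟨p1, hp1⟩ := TS_growth (2 * (r.factorial + C * (r * r)))
  refine ⟨2 * (r.factorial + C * (r * r)), max (max p0 p1) 2, fun p _ hp hrp => ?_⟩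
  have hpp : p.Prime := Fact.out
  have hp0 : p0 ≤ p := le_trans (le_trans (le_max_left _ _) (le_max_left _ _)) hp
  have hp1' : p1 ≤ p := le_trans (le_trans (le_max_right _ _) (le_max_left _ _)) hp
  have hlt := hp1 p hp1'
  set s : ℕ := Nat.size p with hs
  have hs2 : 2 ≤ s := by
    have : 1 < Nat.size p := Nat.lt_size.mpr (by simpa using hpp.two_le)
    omega
  set C' : ℕ := 2 * (r.factorial + C * (r * r)) with hC'
  have hr0 : 0 < r := hr.pos
  have hrr : 1 ≤ r * r := Nat.one_le_iff_ne_zero.mpr (Nat.mul_ne_zero hr0.ne' hr0.ne')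
  have hCC : s ^ C ≤ s ^ C' := Nat.pow_le_pow_right (by omega) (by nlinarith)
  have hmin : minB r (s ^ C) ≤ s ^ C' := by
    unfold minB
    have h1 : r.factorial ≤ s ^ r.factorial := by
      calc r.factorial ≤ 2 ^ r.factorial := Nat.lt_two_pow_self.le
        _ ≤ s ^ r.factorial := Nat.pow_le_pow_left hs2 _
    calc (r.factorial * (s ^ C) ^ (r * r)) ^ 2 ≤ (s ^ r.factorial * (s ^ C) ^ (r * r)) ^ 2 :=
          Nat.pow_le_pow_left (Nat.mul_le_mul_right _ h1) 2
      _ = s ^ C' := by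
          rw [← pow_mul, ← pow_add, ← pow_mul, hC']
          congr 1
          ring
  have hne : ∀ n : ℤ, n ≠ 0 → |n| ≤ minB r (s ^ C) → ((n : ZMod p)) ≠ 0 := by
    intro n hn hle h0
    rw [ZMod.intCast_zmod_eq_zero_iff_dvd] at h0
    have h1 := Int.le_of_dvd (abs_pos.mpr hn) ((dvd_abs _ _).mpr h0)
    have h2 : (p : ℤ) ≤ ((minB r (s ^ C) : ℕ) : ℤ) := h1.trans hle
    have h3 : p ≤ minB r (s ^ C) := by exact_mod_cast h2
    omega
  by_cases hH1 : ∀ m : ℕ, 1 ≤ m → m ≤ s ^ C → ∃ y : ZMod p, y ^ r = (m : ZMod p)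
  · right
    have hH2 := not_and.mp (hNT p hp0 hrp) hH1
    push Not at hH2
    obtain ⟨F, _, _, σ, hfin, hσ, hσ1, a, hw, φ, hφ⟩ := hH2
    have ha : σ • a ≠ a := by
      intro hc
      rw [hc] at hφ
      exact hφ rfl
    have hB1 : 1 ≤ s ^ C := Nat.one_le_pow _ _ (by omega)
    obtain ⟨f, S, D, hD0, hf0, hf, hS, hD, hroot, hshift, hdisc⟩ :=
      minpol_data hr hfin σ hσ hσ1 (s ^ C) hB1 a ha hw
    have hinj : Function.Injective fun i : Fin r => φ (conj σ a i) := by
      rw [← Matrix.det_vandermonde_ne_zero_iff]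
      intro h0
      apply hne D hD0 hD
      have h1 : (D : ZMod p) = φ (D : 𝓞 F) := (map_intCast φ D).symm
      rw [h1, hdisc, map_pow, RingHom.map_det]
      have h2 : (φ.mapMatrix (VM σ a r)) = Matrix.vandermonde fun i : Fin r => φ (conj σ a i) := by
        ext i k
        simp [VM, Matrix.vandermonde_apply]
      rw [h2, h0]
      simp
    have hroot' : ∀ i : ℕ, φ (conj σ a i) ^ r +
        ∑ k ∈ Finset.range r, (f k : ZMod p) * φ (conj σ a i) ^ k = 0 := by
      intro i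
      have := congrArg φ (hroot i)
      simpa using this
    refine ⟨f, S, D, fun i => φ (conj σ a i), fun k hk => ⟨?_, ?_⟩, ?_, hne D hD0 hD, ?_, ?_,
      fun i _ => hroot' i, ?_, 1, hr.one_lt, 0, hr0, ?_⟩
    · exact (hf k hk).trans (by exact_mod_cast hmin)
    · exact (hS k hk).trans (by exact_mod_cast hmin)
    · exact hD.trans (by exact_mod_cast hmin)
    · intro i hi j hj hij
      have := @hinj ⟨i, hi⟩ ⟨j, hj⟩ hij
      exact congrArg Fin.val this
    · intro i _ h0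
      simp only at h0
      have h1 := hroot' i
      rw [h0, zero_pow hr0.ne', zero_add] at h1
      rw [Finset.sum_eq_single_of_mem 0 (Finset.mem_range.mpr hr0)
        (fun k _ hk => by rw [zero_pow hk, mul_zero])] at h1
      rw [pow_zero, mul_one] at h1
      exact hne (f 0) hf0 (hf 0 hr0) h1
    · intro i _
      simp only [conj_mod σ hσ]
      have := congrArg φ (hshift i)
      simpa using this
    · simp only [conj, pow_one, pow_zero, one_smul]
      exact hφ
  · left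
    push Not at hH1
    obtain ⟨m, _, hm2, hm3⟩ := hH1
    refine ⟨m, ?_, fun y => ?_⟩
    · rw [abs_of_nonneg (by positivity)]
      exact_mod_cast hm2.trans hCC
    · have := hm3 y
      simpa using this

end Pool.Agent.Rnr
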