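import Pool.Agent.Rnr.Dat
import Pool.Agent.Rnr.Col
import Pool.Agent.Rnr.Fin
import Pool.Agent.Rnr.ToSmallR
import Pool.Agent.Qnr.Ap

/-!
# Rnr, file NT: the number theoretic theorem

For `p` large, prime, `p ≡ 1 (mod r)`, it is impossible that all integers up to `(size p) ^ C` are
`r`-th powers modulo `p` and that the conjugates of all small integers of cyclic fields of degree `r`
have the same class.
-/

namespace Pool.Agent.Rnr

open NumberField Finset

/-- from `window_ap` to a lower bound for the number of primes -/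
theorem NT_win {a b k l : ℕ} (Y : ℕ) (hY : 2 ≤ Y) (ha : 0 < a)
    (h : (Y : ℝ) / (a * Real.log Y) ≤ b) (hb : b ≤ k * l) (K : ℕ) (hK : a * k ≤ K) :
    (Y : ℝ) ≤ K * Real.log Y * l := by
  have hlog : 0 < Real.log (Y : ℝ) := Real.log_pos (by exact_mod_cast (by omega : 1 < Y))
  have ha' : (0 : ℝ) < a := by exact_mod_cast ha
  rw [div_le_iff₀ (by positivity)] at h
  have hb' : (b : ℝ) ≤ k * l := by exact_mod_cast hb
  have hK' : (a : ℝ) * k ≤ K := by exact_mod_cast hK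
  calc (Y : ℝ) ≤ b * (a * Real.log Y) := h
    _ ≤ (k * l) * (a * Real.log Y) := mul_le_mul_of_nonneg_right hb' (by positivity)
    _ = (a * k) * (Real.log Y * l) := by ring
    _ ≤ K * (Real.log Y * l) := mul_le_mul_of_nonneg_right hK' (by positivity)
    _ = K * Real.log Y * l := by ring

/-- the constant `C` -/
def CC (r : ℕ) : ℕ := 7 + 5 * (r * (r - 1)) + 5 * (96 * r * (r * (r - 1)) + 72 * r * r)

theorem NT_genB (r s : ℕ) (hs : 2 ≤ s) :
    genB ((2 * (s ^ (24 * r)) ^ 4) ^ (r * (r - 1))) (((s ^ (24 * r)) ^ 3) ^ r) ≤ s ^ CC r := by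
  have h0 : 0 < s := by omega
  have e1 : (2 * (s ^ (24 * r)) ^ 4) ^ (r * (r - 1)) =
      2 ^ (r * (r - 1)) * s ^ (96 * r * (r * (r - 1))) := by
    rw [mul_pow, ← pow_mul, ← pow_mul]
    congr 2
    ring
  have e2 : ((s ^ (24 * r)) ^ 3) ^ r = s ^ (72 * r * r) := by
    rw [← pow_mul, ← pow_mul]
    congr 1
    ring
  rw [e1, e2]
  set D : ℕ := 2 ^ (r * (r - 1)) * s ^ (96 * r * (r * (r - 1))) with hD
  have hD1 : 1 ≤ D := Nat.one_le_iff_ne_zero.mpr (by positivity)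
  have hD2 : D ≤ s ^ (r * (r - 1)) * s ^ (96 * r * (r * (r - 1))) :=
    Nat.mul_le_mul_right _ (Nat.pow_le_pow_left hs _)
  have h96 : 3 * 2 ^ 5 ≤ s ^ 7 := by
    calc 3 * 2 ^ 5 ≤ 2 ^ 7 := by norm_num
      _ ≤ s ^ 7 := Nat.pow_le_pow_left hs _
  calc genB D (s ^ (72 * r * r)) = 3 * ((D + 1) * s ^ (72 * r * r)) ^ 5 := rfl
    _ ≤ 3 * ((2 * D) * s ^ (72 * r * r)) ^ 5 := by
      refine Nat.mul_le_mul_left _ (Nat.pow_le_pow_left (Nat.mul_le_mul_right _ (by omega)) _)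
    _ = (3 * 2 ^ 5) * (D * s ^ (72 * r * r)) ^ 5 := by ring
    _ ≤ s ^ 7 * ((s ^ (r * (r - 1)) * s ^ (96 * r * (r * (r - 1)))) * s ^ (72 * r * r)) ^ 5 :=
      Nat.mul_le_mul h96 (Nat.pow_le_pow_left (Nat.mul_le_mul_right _ hD2) _)
    _ = s ^ CC r := by
      rw [← pow_add, ← pow_add, ← pow_mul, ← pow_add]
      congr 1
      unfold CC
      ring

theorem ntr (r : ℕ) (hr : r.Prime) (hr2 : r ≠ 2) : NTR r := by
  classical
  have : Fact r.Prime := ⟨hr⟩
  have : NeZero r := ⟨hr.ne_zero⟩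
  have hr3 : 3 ≤ r := by have := hr.two_le; omega
  obtain ⟨c, hc⟩ := exists_chars hr
  obtain ⟨K1, hK1, Y1, w1⟩ := Qnr.window_ap r 1 isUnit_one
  obtain ⟨K2, hK2, Y2, w2⟩ := Qnr.window_ap 1 1 isUnit_one
  obtain ⟨p0, hfin⟩ := fin r (2 * r * K1 + 4 * r * r * K2) hr.two_le
  obtain ⟨p1, hp1⟩ := TS_growth (CC r * r)
  -- a lower bound for size p
  set n0 : ℕ := 256 * r ^ 8 + 72 * r * (r * K1 + K2) + Y1 + Y2 + K2 + 20 with hn0
  refine ⟨CC r, max (max p0 p1) (2 ^ n0), fun p _ hp hrp => ?_⟩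
  rintro ⟨A1, A2⟩
  have hpp : p.Prime := Fact.out
  have hp0 : p0 ≤ p := le_trans (le_trans (le_max_left _ _) (le_max_left _ _)) hp
  have hp1' : p1 ≤ p := le_trans (le_trans (le_max_right _ _) (le_max_left _ _)) hp
  have hgrow := hp1 p hp1'
  set s : ℕ := Nat.size p with hs
  have hs0 : n0 < s := Nat.lt_size.mpr (le_trans (le_max_right _ _) hp)
  have hr8 : r ≤ 256 * r ^ 8 := by
    calc r = r ^ 1 := (pow_one r).symm
      _ ≤ r ^ 8 := Nat.pow_le_pow_right hr.pos (by norm_num)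
      _ ≤ 256 * r ^ 8 := Nat.le_mul_of_pos_left _ (by norm_num)
  have hr5 : 64 * r ^ 5 ≤ 256 * r ^ 8 :=
    Nat.mul_le_mul (by norm_num) (Nat.pow_le_pow_right hr.pos (by norm_num))
  have hs2 : 2 ≤ s := by omega
  have hspos : 0 < s := by omega
  set Y : ℕ := s ^ (24 * r) with hY
  set N : ℕ := Y ^ 3 with hN
  set B : ℕ := s ^ CC r with hB
  have hNs : N = s ^ (72 * r) := by rw [hN, hY, ← pow_mul]; congr 1; ring
  have hsY : s ≤ Y := by
    calc s = s ^ 1 := (pow_one s).symm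
      _ ≤ s ^ (24 * r) := Nat.pow_le_pow_right hspos (by omega)
  have hY2 : 2 ≤ Y := le_trans hs2 hsY
  have hYpos : 0 < Y := by omega
  have hYN : Y ≤ N := Nat.le_self_pow (by norm_num) Y
  have hNB : N ≤ B := by
    rw [hNs, hB]
    refine Nat.pow_le_pow_right hspos ?_
    unfold CC
    have h1 : 72 * r * 1 ≤ 72 * r * r := Nat.mul_le_mul_left _ hr.pos
    omega
  have hYB : Y ≤ B := le_trans hYN hNB
  have hBr : B ^ r < p := by
    rw [hB, ← pow_mul]
    exact hgrow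
  have hBp : B < p := lt_of_le_of_lt (Nat.le_self_pow hr.ne_zero B) hBr
  have hH1 : H1 r p B := by
    intro m hm hmB
    obtain ⟨y, hy⟩ := A1 m hm hmB
    have hm0 : (m : ZMod p) ≠ 0 := by
      intro h
      have := (ZMod.natCast_eq_zero_iff _ _).mp h
      exact absurd (Nat.le_of_dvd (by omega) this) (by omega)
    have hy0 : y ≠ 0 := by
      rintro rfl
      rw [zero_pow hr.ne_zero] at hy
      exact hm0 hy.symm
    rw [← hy, ← pow_mul, Nat.mul_div_cancel' hrp, ZMod.pow_card_sub_one_eq_one hy0]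
  have hH2 : H2 r p B := by
    intro F _ _ σ h1 h2 h3 a ha φ
    exact A2 F σ h1 h2 h3 a ha φ
  -- the primes l
  set L0 : Finset ℕ := (Ioc (Y / K1) Y).filter (fun l : ℕ => l.Prime ∧ (l : ZMod r) = 1) with hL0
  have hL0' : ∀ l ∈ L0, l.Prime ∧ Function.Surjective (c l) ∧ l ≤ Y := by
    intro l hl
    obtain ⟨h1, h2, h3⟩ := Finset.mem_filter.mp hl
    refine ⟨h2, hc l h2 ?_, (Finset.mem_Ioc.mp h1).2⟩
    have h4 : ((l - 1 : ℕ) : ZMod r) = 0 := by
      rw [Nat.cast_sub h2.one_lt.le, h3]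
      simp
    exact (ZMod.natCast_eq_zero_iff _ _).mp h4
  obtain ⟨v, -, hv⟩ : ∃ v ∈ (Finset.univ : Finset (ZMod r)),
      L0.card ≤ r * (L0.filter (fun l => X c l (p : ZMod l) = v)).card := by
    by_contra hcon
    push Not at hcon
    have h1 : L0.card = ∑ v : ZMod r, (L0.filter (fun l => X c l (p : ZMod l) = v)).card :=
      Finset.card_eq_sum_card_fiberwise (fun _ _ => Finset.mem_univ _)
    have h2 : r * L0.card = ∑ v : ZMod r,
        r * (L0.filter (fun l => X c l (p : ZMod l) = v)).card := by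
      rw [← Finset.mul_sum, ← h1]
    have h3 : ∑ v : ZMod r, r * (L0.filter (fun l => X c l (p : ZMod l) = v)).card <
        ∑ _v : ZMod r, L0.card :=
      Finset.sum_lt_sum_of_nonempty Finset.univ_nonempty (fun v hv => hcon v hv)
    rw [Finset.sum_const, Finset.card_univ, ZMod.card, smul_eq_mul, ← h2] at h3
    exact lt_irrefl _ h3
  set L : Finset ℕ := L0.filter (fun l => X c l (p : ZMod l) = v) with hL
  have hLp : ∀ l ∈ L, l.Prime ∧ Function.Surjective (c l) ∧ l ≤ Y ∧ X c l (p : ZMod l) = v := by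
    intro l hl
    obtain ⟨h1, h2⟩ := Finset.mem_filter.mp hl
    obtain ⟨a1, a2, a3⟩ := hL0' l h1
    exact ⟨a1, a2, a3, h2⟩
  -- the primes n
  set Q : Finset ℕ := (Ioc (N / K2) N).filter (fun n : ℕ => n.Prime ∧ (n : ZMod 1) = 1) with hQ
  have hQY : ∀ n ∈ Q, Y < n := by
    intro n hn
    have h1 := (Finset.mem_Ioc.mp (Finset.mem_filter.mp hn).1).1
    have h2 : Y ≤ N / K2 := by
      rw [Nat.le_div_iff_mul_le (by omega)]
      calc Y * K2 ≤ Y * (Y * Y) :=
            Nat.mul_le_mul_left _ (le_trans (by omega : K2 ≤ Y) (Nat.le_mul_self Y))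
        _ = N := by rw [hN]; ring
    omega
  have hQp : ∀ n ∈ Q, n.Prime ∧ n ≤ N ∧ n ∉ L := by
    intro n hn
    obtain ⟨h1, h2⟩ := Finset.mem_filter.mp hn
    refine ⟨h2.1, (Finset.mem_Ioc.mp h1).2, fun h => ?_⟩
    have := (hLp n h).2.2.1
    have := hQY n hn
    omega
  have hw1 := w1 Y (by omega)
  have hw2 := w2 N (by omega)
  have hNs2 : 2 ≤ N := by omega
  -- counting
  have hLc : s ^ (24 * r - 2) ≤ L.card := by
    refine count_pow (K := r * K1) (by omega) ?_ hspos ?_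
    · have : 24 * r * (r * K1) ≤ 72 * r * (r * K1 + K2) :=
        Nat.mul_le_mul (by omega) (Nat.le_add_right _ _)
      omega
    · exact NT_win (a := K1) (b := L0.card) (k := r) (l := L.card) Y hY2 (by omega) hw1 hv _
        (by rw [mul_comm])
  have hQc : s ^ (72 * r - 2) ≤ Q.card := by
    refine count_pow (K := K2) (by omega) ?_ hspos ?_
    · have : 72 * r * K2 ≤ 72 * r * (r * K1 + K2) :=
        Nat.mul_le_mul le_rfl (Nat.le_add_left _ _)
      omega
    · rw [← hNs]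
      exact NT_win (a := K2) (b := Q.card) (k := 1) (l := Q.card) N hNs2 (by omega) hw2
        (by omega) _ (by omega)
  have g1 : 8 * r ^ 2 * Y ^ 2 * (2 * r) ^ 3 ≤ Q.card := by
    refine le_trans ?_ hQc
    calc 8 * r ^ 2 * Y ^ 2 * (2 * r) ^ 3 = (64 * r ^ 5) * Y ^ 2 := by ring
      _ ≤ s * Y ^ 2 := Nat.mul_le_mul_right _ (by omega)
      _ = s ^ (48 * r + 1) := by
        rw [hY, ← pow_mul, pow_succ, mul_comm]
        congr 2
        ring
      _ ≤ s ^ (72 * r - 2) := Nat.pow_le_pow_right hspos (by omega)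
  have g2 : 0 < Q.card := lt_of_lt_of_le (by positivity) hQc
  have g3 : 12 ≤ L.card := by
    refine le_trans ?_ hLc
    calc 12 ≤ s := by omega
      _ = s ^ 1 := (pow_one s).symm
      _ ≤ s ^ (24 * r - 2) := Nat.pow_le_pow_right hspos (by omega)
  have g4 : 256 * r ^ 8 * N ≤ L.card * Q.card := by
    refine le_trans ?_ (Nat.mul_le_mul hLc hQc)
    calc 256 * r ^ 8 * N ≤ s * N := Nat.mul_le_mul_right _ (by omega)
      _ = s ^ (72 * r + 1) := by rw [hNs, pow_succ, mul_comm]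
      _ ≤ s ^ (24 * r - 2 + (72 * r - 2)) := Nat.pow_le_pow_right hspos (by omega)
      _ = s ^ (24 * r - 2) * s ^ (72 * r - 2) := pow_add _ _ _
  obtain ⟨K, _, _, τ, hK, L3, Q1, P, NN, hh, hL3, hL3c, hQ1, hQ1c, hP, hNN, hU, hV⟩ :=
    dat (c := c) hr hr2 hpp (hc p hpp hrp) hBr hH1 hH2 (by omega : 1 ≤ N) hNB hYB
      (NT_genB r s hs2) L Q v hLp hQp g1 g2 g3 g4
  obtain ⟨k2, hk2, hlt⟩ := hfin p hp0 L3.card Q1.card
    (NT_win (a := K1) (b := L0.card) (k := 2 * r) (l := L3.card) Y hY2 (by omega) hw1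
      (by
        calc L0.card ≤ r * L.card := hv
          _ ≤ r * (2 * L3.card) := Nat.mul_le_mul_left _ hL3c
          _ = 2 * r * L3.card := by ring) _ (by nlinarith))
    (NT_win (a := K2) (b := Q.card) (k := (2 * r) ^ 2) (l := Q1.card) N hNs2 (by omega) hw2
      hQ1c _ (by nlinarith))
  have hpL : p ∉ L3 := by
    intro h
    have := (hLp p (hL3 h)).2.2.1
    omega
  have hcb := colbes hK hh L3 Q1 Y N k2
    (fun l hl => ⟨(hLp l (hL3 hl)).1, (hLp l (hL3 hl)).2.2.1, (hLp l (hL3 hl)).2.1⟩)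
    (fun n hn => ⟨(hQp n (hQ1 hn)).1, (hQp n (hQ1 hn)).2.1⟩)
    (by
      rw [Finset.disjoint_left]
      intro n hn hn'
      exact (hQp n (hQ1 hn)).2.2 (hL3 hn'))
    hpL le_rfl (by omega) hk2 P hP NN hNN hU hV
  exact absurd (lt_of_le_of_lt hcb hlt) (lt_irrefl _)

end Pool.Agent.Rnr
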