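import Mathlib

set_option autoImplicit false
set_option maxSynthPendingDepth 3
set_option linter.unusedSectionVars false

open NumberField nonZeroDivisors

namespace RnrAmb

variable {K : Type} [Field K] [NumberField K]

/-- The radical of the ideal generated by a rational integer `v`. -/
noncomputable def Rad (K : Type) [Field K] (v : ℕ) : Ideal (𝓞 K) :=
  (Ideal.span {(v : 𝓞 K)}).radical

theorem coe_pow_apply {σ : K ≃ₐ[ℚ] K} {s : 𝓞 K ≃+* 𝓞 K} (hs : ∀ x : 𝓞 K, ((s x : 𝓞 K) : K) = σ x)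
    (n : ℕ) (x : 𝓞 K) : (((s ^ n : 𝓞 K ≃+* 𝓞 K) x : 𝓞 K) : K) = (σ ^ n : K ≃ₐ[ℚ] K) x := by
  induction n generalizing x with
  | zero => simp
  | succ n ih =>
    rw [pow_succ', pow_succ']
    change ((s ((s ^ n : 𝓞 K ≃+* 𝓞 K) x) : 𝓞 K) : K) = σ ((σ ^ n : K ≃ₐ[ℚ] K) x)
    rw [hs, ih]

theorem map_pow_of_inv {s : 𝓞 K ≃+* 𝓞 K} {I : Ideal (𝓞 K)} (hI : Ideal.map s I = I) (n : ℕ) :
    Ideal.comap (s ^ n : 𝓞 K ≃+* 𝓞 K) I = I := by
  have h1 : ∀ x : 𝓞 K, s x ∈ I ↔ x ∈ I := by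
    intro x
    conv_lhs => rw [← hI]
    exact Ideal.apply_mem_of_equiv_iff
  have h2 : ∀ (n : ℕ) (x : 𝓞 K), (s ^ n : 𝓞 K ≃+* 𝓞 K) x ∈ I ↔ x ∈ I := by
    intro n
    induction n with
    | zero => intro x; simp
    | succ n ih =>
      intro x
      rw [pow_succ']
      change s ((s ^ n : 𝓞 K ≃+* 𝓞 K) x) ∈ I ↔ x ∈ I
      rw [h1, ih]
  ext x
  rw [Ideal.mem_comap]
  exact h2 n x

theorem exists_pow_comap [IsGalois ℚ K] {σ : K ≃ₐ[ℚ] K} {s : 𝓞 K ≃+* 𝓞 K}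
    (hs : ∀ x : 𝓞 K, ((s x : 𝓞 K) : K) = σ x)
    (hgen : ∀ g : K ≃ₐ[ℚ] K, g ∈ Subgroup.zpowers σ) {v : ℕ} (hv : v.Prime)
    {P Q : Ideal (𝓞 K)} (hP : P.IsPrime) (hQ : Q.IsPrime) (hvP : (v : 𝓞 K) ∈ P)
    (hvQ : (v : 𝓞 K) ∈ Q) : ∃ n : ℕ, Ideal.comap (s ^ n : 𝓞 K ≃+* 𝓞 K) P = Q := by
  have hover : ∀ P : Ideal (𝓞 K), P.IsPrime → (v : 𝓞 K) ∈ P →
      P ∈ Ideal.primesOver (Ideal.span {(v : ℤ)}) (𝓞 K) := by
    intro P hP hvP
    refine ⟨hP, ⟨?_⟩⟩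
    have hmax : (Ideal.span {(v : ℤ)}).IsMaximal :=
      PrincipalIdealRing.isMaximal_of_irreducible (Nat.prime_iff_prime_int.mp hv).irreducible
    apply hmax.eq_of_le
    · intro h
      rw [Ideal.eq_top_iff_one] at h
      apply hP.ne_top
      rw [Ideal.eq_top_iff_one]
      simpa [Ideal.under_def] using h
    · rw [Ideal.span_singleton_le_iff_mem, Ideal.under_def, Ideal.mem_comap]
      simpa using hvP
  obtain ⟨g, hg⟩ := Ideal.exists_comap_galRestrict_eq ℤ ℚ K (𝓞 K) (hover P hP hvP) (hover Q hQ hvQ)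
  have hfin : IsOfFinOrder σ := isOfFinOrder_of_finite σ
  obtain ⟨n, hn⟩ := (hfin.mem_powers_iff_mem_zpowers).mpr (hgen g)
  refine ⟨n, ?_⟩
  rw [← hg]
  ext x
  rw [Ideal.mem_comap, Ideal.mem_comap]
  have h1 : (s ^ n : 𝓞 K ≃+* 𝓞 K) x = galRestrict ℤ ℚ K (𝓞 K) g x := by
    apply RingOfIntegers.coe_injective
    change (((s ^ n : 𝓞 K ≃+* 𝓞 K) x : 𝓞 K) : K) = _
    rw [coe_pow_apply hs]
    have h3 := algebraMap_galRestrict_apply ℤ g x (B := 𝓞 K) 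
    rw [h3, ← hn]
  rw [h1]

theorem rad_le_of_prime {v : ℕ} {P : Ideal (𝓞 K)} (hP : P.IsPrime) (hvP : (v : 𝓞 K) ∈ P) :
    Rad K v ≤ P := by
  unfold Rad
  rw [hP.radical_le_iff, Ideal.span_singleton_le_iff_mem]
  exact hvP

theorem le_rad_of_inv [IsGalois ℚ K] {σ : K ≃ₐ[ℚ] K} {s : 𝓞 K ≃+* 𝓞 K}
    (hs : ∀ x : 𝓞 K, ((s x : 𝓞 K) : K) = σ x)
    (hgen : ∀ g : K ≃ₐ[ℚ] K, g ∈ Subgroup.zpowers σ) {v : ℕ} (hv : v.Prime)
    {P I : Ideal (𝓞 K)} (hP : P.IsPrime) (hvP : (v : 𝓞 K) ∈ P) (hIP : I ≤ P)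
    (hI : Ideal.map s I = I) : I ≤ Rad K v := by
  unfold Rad
  rw [Ideal.radical_eq_sInf]
  apply le_sInf
  rintro Q ⟨hQ1, hQ⟩
  rw [Ideal.span_singleton_le_iff_mem] at hQ1
  obtain ⟨n, hn⟩ := exists_pow_comap hs hgen hv hP hQ hvP hQ1
  rw [← hn]
  rw [← map_pow_of_inv hI n]
  exact Ideal.comap_mono hIP

theorem rad_inv (s : 𝓞 K ≃+* 𝓞 K) (v : ℕ) : Ideal.map s (Rad K v) = Rad K v := by
  unfold Rad
  have h1 : Ideal.map s (Ideal.span {(v : 𝓞 K)}).radical =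
      (Ideal.map s (Ideal.span {(v : 𝓞 K)})).radical := by
    apply Ideal.map_radical_of_surjective (f := (s : 𝓞 K →+* 𝓞 K)) s.surjective
    simp
  rw [h1, Ideal.map_span]
  simp

theorem rad_ne_bot {v : ℕ} (hv : v ≠ 0) : Rad K v ≠ ⊥ := by
  intro h
  have h1 : (v : 𝓞 K) ∈ Rad K v := Ideal.le_radical (Ideal.mem_span_singleton_self _)
  rw [h, Ideal.mem_bot] at h1
  exact hv (by exact_mod_cast h1)

theorem rad_ne_top {v : ℕ} (hv : v.Prime) : Rad K v ≠ ⊤ := by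
  unfold Rad
  intro h
  rw [Ideal.radical_eq_top] at h
  have h1 := congrArg Ideal.absNorm h
  rw [Ideal.absNorm_span_natCast, Ideal.absNorm_top, RingOfIntegers.rank] at h1
  have h2 : 0 < Module.finrank ℚ K := Module.finrank_pos
  have := Nat.one_lt_pow h2.ne' hv.one_lt
  omega

/-- An ideal fixed by a generator of the Galois group is a product of the radicals of rational
primes. -/
theorem exists_multiset [IsGalois ℚ K] {σ : K ≃ₐ[ℚ] K} {s : 𝓞 K ≃+* 𝓞 K}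
    (hs : ∀ x : 𝓞 K, ((s x : 𝓞 K) : K) = σ x)
    (hgen : ∀ g : K ≃ₐ[ℚ] K, g ∈ Subgroup.zpowers σ) (I : Ideal (𝓞 K)) (hI0 : I ≠ ⊥)
    (hI : Ideal.map s I = I) :
    ∃ m : Multiset ℕ, (∀ v ∈ m, v.Prime) ∧ I = (m.map (Rad K)).prod := by
  induction h : Ideal.absNorm I using Nat.strong_induction_on generalizing I with
  | _ N ih =>
  by_cases htop : I = ⊤
  · exact ⟨0, by simp, by simp [htop, Ideal.one_eq_top]⟩
  obtain ⟨P, hPmax, hIP⟩ := Ideal.exists_le_maximal I htop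
  obtain ⟨v, n, hn, hvP, hv, -⟩ := Ideal.exists_prime_and_absNorm_eq_pow P
  have hle := le_rad_of_inv hs hgen hv hPmax.isPrime hvP hIP hI
  obtain ⟨I', hI'⟩ := Ideal.dvd_iff_le.mpr hle
  have hR0 := rad_ne_bot (K := K) hv.ne_zero
  have hI'0 : I' ≠ ⊥ := by
    rintro rfl
    apply hI0
    rw [hI']
    simp
  have hI'inv : Ideal.map s I' = I' := by
    have h1 : Rad K v * Ideal.map s I' = Rad K v * I' := by
      conv_lhs => rw [← rad_inv s v]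
      rw [← Ideal.map_mul, ← hI', hI]
    exact mul_left_cancel₀ hR0 h1
  have hlt : Ideal.absNorm I' < N := by
    rw [← h, hI', map_mul]
    have h1 : Ideal.absNorm I' ≠ 0 := by
      rw [Ne, Ideal.absNorm_eq_zero_iff]
      exact hI'0
    have h2 : Ideal.absNorm (Rad K v) ≠ 0 := by
      rw [Ne, Ideal.absNorm_eq_zero_iff]
      exact hR0
    have h3 : Ideal.absNorm (Rad K v) ≠ 1 := by
      rw [Ne, Ideal.absNorm_eq_one_iff]
      exact rad_ne_top hv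
    have h4 : 2 ≤ Ideal.absNorm (Rad K v) := by omega
    nlinarith [Nat.pos_of_ne_zero h1]
  obtain ⟨m, hm1, hm2⟩ := ih _ hlt I' hI'0 hI'inv rfl
  refine ⟨v ::ₘ m, ?_, ?_⟩
  · intro w hw
    rcases Multiset.mem_cons.mp hw with rfl | hw
    · exact hv
    · exact hm1 w hw
  · rw [Multiset.map_cons, Multiset.prod_cons, ← hm2]
    exact hI'

theorem prime_of_mem_rad {v w : ℕ} (hv : v.Prime) (hw : w.Prime) (h : (v : 𝓞 K) ∈ Rad K w) :
    v = w := by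
  unfold Rad at h
  obtain ⟨n, hn⟩ := h
  have h1 : Ideal.span {((v ^ n : ℕ) : 𝓞 K)} ≤ Ideal.span {(w : 𝓞 K)} := by
    rw [Ideal.span_singleton_le_iff_mem]
    simpa using hn
  have h2 := Ideal.absNorm_dvd_absNorm_of_le h1
  rw [Ideal.absNorm_span_natCast, Ideal.absNorm_span_natCast, RingOfIntegers.rank] at h2
  have h3 : w ∣ (v ^ n) ^ Module.finrank ℚ K :=
    dvd_trans (dvd_pow_self w Module.finrank_pos.ne') h2
  rw [← pow_mul] at h3
  exact ((Nat.prime_dvd_prime_iff_eq hw hv).mp (hw.dvd_of_dvd_pow h3)).symm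

/-- `(v)` is a power of its radical, with exponent dividing `r`. -/
theorem span_eq_rad_pow [IsGalois ℚ K] {σ : K ≃ₐ[ℚ] K} {s : 𝓞 K ≃+* 𝓞 K}
    (hs : ∀ x : 𝓞 K, ((s x : 𝓞 K) : K) = σ x)
    (hgen : ∀ g : K ≃ₐ[ℚ] K, g ∈ Subgroup.zpowers σ) {v : ℕ} (hv : v.Prime) :
    ∃ e : ℕ, e ∣ Module.finrank ℚ K ∧ Ideal.span {(v : 𝓞 K)} = Rad K v ^ e := by
  have h0 : Ideal.span {(v : 𝓞 K)} ≠ ⊥ := by
    rw [Ne, Ideal.span_singleton_eq_bot]
    exact_mod_cast hv.ne_zero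
  obtain ⟨m, hm1, hm2⟩ := exists_multiset hs hgen (Ideal.span {(v : 𝓞 K)}) h0 (by
    rw [Ideal.map_span]; simp)
  have h1 : ∀ w ∈ m, w = v := by
    intro w hw
    have h2 : Rad K w ∣ Ideal.span {(v : 𝓞 K)} := by
      rw [hm2]
      exact Multiset.dvd_prod (Multiset.mem_map_of_mem _ hw)
    rw [Ideal.dvd_span_singleton] at h2
    exact (prime_of_mem_rad hv (hm1 w hw) h2).symm
  have h2 : m = Multiset.replicate (Multiset.card m) v := Multiset.eq_replicate_card.mpr h1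
  rw [h2, Multiset.map_replicate, Multiset.prod_replicate] at hm2
  refine ⟨Multiset.card m, ?_, hm2⟩
  have h3 := congrArg Ideal.absNorm hm2
  rw [Ideal.absNorm_span_natCast, RingOfIntegers.rank, map_pow] at h3
  have h4 : Ideal.absNorm (Rad K v) ∣ v ^ Module.finrank ℚ K := by
    rw [h3]
    apply dvd_pow_self
    intro hc
    rw [hc, pow_zero] at h3
    have h5 : 0 < Module.finrank ℚ K := Module.finrank_pos
    have := Nat.one_lt_pow h5.ne' hv.one_lt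
    omega
  obtain ⟨k, -, hk⟩ := (Nat.dvd_prime_pow hv).mp h4
  rw [hk, ← pow_mul] at h3
  exact ⟨k, by rw [mul_comm]; exact Nat.pow_right_injective hv.two_le h3⟩

end RnrAmb
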