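import Pool.Agent.Rnr.AmbUnit
import Pool.Agent.Rnr.AmbIdeal

set_option autoImplicit false
set_option maxSynthPendingDepth 3
set_option linter.unusedSectionVars false

open NumberField nonZeroDivisors

namespace RnrAmb

section Action

variable {R : Type*} [CommRing R] [IsDedekindDomain R]

/-- The action of a ring automorphism on nonzero ideals. -/
def actI (s : R ≃+* R) (I : (Ideal R)⁰) : (Ideal R)⁰ :=
  ⟨Ideal.map s (I : Ideal R), by
    rw [mem_nonZeroDivisors_iff_ne_zero]
    have h := nonZeroDivisors.ne_zero I.2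
    intro h1
    apply h
    rw [Submodule.zero_eq_bot] at h1 ⊢
    exact (Ideal.map_eq_bot_iff_of_injective s.injective).mp h1⟩

@[simp] theorem coe_actI (s : R ≃+* R) (I : (Ideal R)⁰) :
    (actI s I : Ideal R) = Ideal.map s (I : Ideal R) := rfl

theorem actI_mul (s : R ≃+* R) (I J : (Ideal R)⁰) : actI s (I * J) = actI s I * actI s J := by
  apply Subtype.ext
  simp [Ideal.map_mul]

theorem actI_one (s : R ≃+* R) : actI s (1 : (Ideal R)⁰) = 1 := by
  apply Subtype.ext
  simp [Ideal.one_eq_top, Ideal.map_top]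

theorem mk0_actI {s : R ≃+* R} {I J : (Ideal R)⁰} (h : ClassGroup.mk0 I = ClassGroup.mk0 J) :
    ClassGroup.mk0 (actI s I) = ClassGroup.mk0 (actI s J) := by
  rw [ClassGroup.mk0_eq_mk0_iff] at h ⊢
  obtain ⟨x, y, hx, hy, hxy⟩ := h
  refine ⟨s x, s y, by simpa using hx, by simpa using hy, ?_⟩
  have h1 := congrArg (Ideal.map s) hxy
  rw [Ideal.map_mul, Ideal.map_mul, Ideal.map_span, Ideal.map_span] at h1
  simpa using h1

/-- The action on the class group. -/
noncomputable def cs (s : R ≃+* R) : ClassGroup R →* ClassGroup R where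
  toFun c := ClassGroup.mk0 (actI s (Classical.choose (ClassGroup.mk0_surjective c)))
  map_one' := by
    have h := Classical.choose_spec (ClassGroup.mk0_surjective (1 : ClassGroup R))
    have h1 : ClassGroup.mk0 (1 : (Ideal R)⁰) = 1 := map_one _
    rw [mk0_actI (s := s) (h.trans h1.symm), actI_one]
    exact h1
  map_mul' a b := by
    have ha := Classical.choose_spec (ClassGroup.mk0_surjective a)
    have hb := Classical.choose_spec (ClassGroup.mk0_surjective b)
    have hab := Classical.choose_spec (ClassGroup.mk0_surjective (a * b))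
    rw [← map_mul, ← actI_mul]
    apply mk0_actI
    rw [hab, map_mul, ha, hb]

theorem cs_mk0 (s : R ≃+* R) (I : (Ideal R)⁰) :
    cs s (ClassGroup.mk0 I) = ClassGroup.mk0 (actI s I) :=
  mk0_actI (Classical.choose_spec (ClassGroup.mk0_surjective (ClassGroup.mk0 I)))

end Action

variable {K : Type} [Field K] [NumberField K]

theorem absNorm_map (s : 𝓞 K ≃+* 𝓞 K) (I : Ideal (𝓞 K)) :
    Ideal.absNorm (Ideal.map s I) = Ideal.absNorm I := by
  rw [Ideal.absNorm_apply, Ideal.absNorm_apply, Submodule.cardQuot_apply, Submodule.cardQuot_apply]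
  exact (Nat.card_congr (Ideal.quotientEquiv I (Ideal.map s I) s rfl).toEquiv).symm

/-- Every class fixed by a generator of the Galois group contains a fixed ideal. -/
theorem exists_inv_of_fixed [IsGalois ℚ K] (hodd : Odd (Module.finrank ℚ K))
    {σ : K ≃ₐ[ℚ] K} {s : 𝓞 K ≃+* 𝓞 K}
    (hs : ∀ x : 𝓞 K, ((s x : 𝓞 K) : K) = σ x)
    (hgen : ∀ g : K ≃ₐ[ℚ] K, g ∈ Subgroup.zpowers σ) (c : ClassGroup (𝓞 K)) (hc : cs s c = c) :
    ∃ I : (Ideal (𝓞 K))⁰, ClassGroup.mk0 I = c ∧ Ideal.map s (I : Ideal (𝓞 K)) = I := by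
  obtain ⟨I₀, rfl⟩ := ClassGroup.mk0_surjective c
  rw [cs_mk0] at hc
  rw [ClassGroup.mk0_eq_mk0_iff] at hc
  obtain ⟨x, y, hx, hy, hxy⟩ := hc
  rw [coe_actI] at hxy
  have hI0 : Ideal.absNorm (I₀ : Ideal (𝓞 K)) ≠ 0 := Ideal.absNorm_ne_zero_of_nonZeroDivisors I₀
  -- norms
  have hn : (Algebra.norm ℤ x).natAbs = (Algebra.norm ℤ y).natAbs := by
    have h1 := congrArg Ideal.absNorm hxy
    rw [map_mul, map_mul, absNorm_map, Ideal.absNorm_span_singleton,
      Ideal.absNorm_span_singleton] at h1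
    exact mul_right_cancel₀ hI0 h1
  -- choose the sign of y
  obtain ⟨y', hy'0, hy', hny⟩ : ∃ y' : 𝓞 K, y' ≠ 0 ∧ (Ideal.span {y'} : Ideal (𝓞 K)) = Ideal.span {y} ∧
      Algebra.norm ℤ x = Algebra.norm ℤ y' := by
    rcases Int.natAbs_eq_natAbs_iff.mp hn with h | h
    · exact ⟨y, hy, rfl, h⟩
    · refine ⟨-y, neg_ne_zero.mpr hy, Ideal.span_singleton_neg y, ?_⟩
      rw [h]
      have h2 : Algebra.norm ℤ (-y) = Algebra.norm ℤ (-1 : 𝓞 K) * Algebra.norm ℤ y := by
        rw [← map_mul]; simp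
      have h3 : Algebra.norm ℤ (-1 : 𝓞 K) = -1 := by
        have h4 := Algebra.norm_algebraMap (S := 𝓞 K) (-1 : ℤ)
        rw [RingOfIntegers.rank, hodd.neg_one_pow] at h4
        simpa using h4
      rw [h2, h3]; ring
  set α : K := (y' : K) / (x : K) with hα
  have hxK : (x : K) ≠ 0 := by
    intro h; exact hx (RingOfIntegers.coe_injective (by simpa using h))
  have hyK : (y' : K) ≠ 0 := by
    intro h; exact hy'0 (RingOfIntegers.coe_injective (by simpa using h))
  have hnα : Algebra.norm ℚ α = 1 := by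
    have h1 : Algebra.norm ℚ α * Algebra.norm ℚ (x : K) = Algebra.norm ℚ (y' : K) := by
      rw [← map_mul, hα, div_mul_cancel₀ _ hxK]
    rw [← Algebra.coe_norm_int, ← Algebra.coe_norm_int, hny] at h1
    have h2 : ((Algebra.norm ℤ y' : ℤ) : ℚ) ≠ 0 := by
      rw [Algebra.coe_norm_int]
      exact Algebra.norm_ne_zero_iff.mpr hyK
    exact mul_right_cancel₀ h2 (by rw [h1, one_mul])
  have hcyc : IsCyclic (K ≃ₐ[ℚ] K) := ⟨σ, hgen⟩
  obtain ⟨β, hβ⟩ := groupCohomology.exists_div_of_norm_eq_one (g := σ) hgen hnα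
  -- make β integral
  obtain ⟨d, hd, u, hu⟩ : ∃ d : ℤ, d ≠ 0 ∧ ∃ u : 𝓞 K, (u : K) = (d : K) * (β : K) := by
    have halg : IsAlgebraic ℤ (β : K) := by
      have h1 : IsAlgebraic ℚ (β : K) := Algebra.IsAlgebraic.isAlgebraic _
      exact (IsFractionRing.isAlgebraic_iff ℤ ℚ K).mpr h1
    obtain ⟨d, hd, hint⟩ := halg.exists_integral_multiple
    refine ⟨d, hd, ⟨d • (β : K), hint⟩, ?_⟩
    change d • (β : K) = (d : K) * (β : K)
    rw [zsmul_eq_mul]
  have hβ0 : (β : K) ≠ 0 := β.ne_zero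
  have hu0 : u ≠ 0 := by
    rintro rfl
    have : (d : K) ≠ 0 := by exact_mod_cast hd
    exact (mul_ne_zero this hβ0) (by rw [← hu]; simp)
  have hrel : s u * y' = u * x := by
    apply RingOfIntegers.coe_injective
    rw [map_mul, map_mul]
    change ((s u : 𝓞 K) : K) * (y' : K) = (u : K) * (x : K)
    rw [hs, hu, map_mul]
    have h1 : σ (d : K) = d := by simp
    have h2 : (β : K) = α * σ (β : K) := by
      rw [← hβ]
      have : σ (β : K) ≠ 0 := by simpa using hβ0
      field_simp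
    rw [h1]
    conv_rhs => rw [h2, hα]
    field_simp
  have hu0' : (Ideal.span {u} : Ideal (𝓞 K)) ∈ (Ideal (𝓞 K))⁰ := by
    rw [mem_nonZeroDivisors_iff_ne_zero]
    simpa using hu0
  refine ⟨⟨Ideal.span {u}, hu0'⟩ * I₀, ?_, ?_⟩
  · rw [ClassGroup.mk0_eq_mk0_iff]
    exact ⟨1, u, one_ne_zero, hu0, by simp⟩
  · rw [Submonoid.coe_mul, Ideal.map_mul, Ideal.map_span]
    have hx0 : (Ideal.span {x} : Ideal (𝓞 K)) ≠ 0 := by simpa using hx
    apply mul_left_cancel₀ hx0
    simp only [Set.image_singleton]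
    calc Ideal.span {x} * (Ideal.span {s u} * Ideal.map s (I₀ : Ideal (𝓞 K)))
        = Ideal.span {s u} * (Ideal.span {x} * Ideal.map s (I₀ : Ideal (𝓞 K))) := by ring
      _ = Ideal.span {s u} * (Ideal.span {y'} * I₀) := by rw [hxy, hy']
      _ = Ideal.span {s u * y'} * I₀ := by
          rw [← Ideal.span_singleton_mul_span_singleton]; ring
      _ = Ideal.span {u * x} * I₀ := by rw [hrel]
      _ = Ideal.span {x} * (Ideal.span {u} * I₀) := by
          rw [← Ideal.span_singleton_mul_span_singleton]; ring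

end RnrAmb
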