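import Pool.Agent.Rnr.Amb

set_option autoImplicit false
set_option maxSynthPendingDepth 3
set_option linter.unusedSectionVars false

open NumberField nonZeroDivisors

namespace RnrAmb

variable {K : Type} [Field K] [NumberField K]

/-- The class of the radical of `v`. -/
noncomputable def rho (K : Type) [Field K] [NumberField K] (v : ℕ) : ClassGroup (𝓞 K) :=
  if h : v ≠ 0 then ClassGroup.mk0 ⟨Rad K v, by
    rw [mem_nonZeroDivisors_iff_ne_zero]; exact rad_ne_bot h⟩ else 1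

theorem prod_rad_ne_bot (m : Multiset ℕ) (hm : ∀ v ∈ m, v.Prime) :
    (m.map (Rad K)).prod ∈ (Ideal (𝓞 K))⁰ := by
  rw [mem_nonZeroDivisors_iff_ne_zero]
  apply Multiset.prod_ne_zero
  intro h
  obtain ⟨v, hv, hv0⟩ := Multiset.mem_map.mp h
  exact rad_ne_bot (hm v hv).ne_zero hv0

theorem mk0_prod_rad (m : Multiset ℕ) (hm : ∀ v ∈ m, v.Prime) :
    ClassGroup.mk0 ⟨(m.map (Rad K)).prod, prod_rad_ne_bot m hm⟩ = (m.map (rho K)).prod := by
  induction m using Multiset.induction_on with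
  | empty =>
    simp only [Multiset.map_zero, Multiset.prod_zero]
    exact map_one _
  | cons a m ih =>
    have ha : a ≠ 0 := (hm a (Multiset.mem_cons_self a m)).ne_zero
    have hm' : ∀ v ∈ m, v.Prime := fun v hv => hm v (Multiset.mem_cons_of_mem hv)
    rw [Multiset.map_cons (rho K) a m, Multiset.prod_cons, ← ih hm', rho, dif_pos ha, ← map_mul]
    congr 1
    apply Subtype.ext
    simp

section

variable [IsGalois ℚ K] {σ : K ≃ₐ[ℚ] K} {s : 𝓞 K ≃+* 𝓞 K}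
    (hs : ∀ x : 𝓞 K, ((s x : 𝓞 K) : K) = σ x)
    (hgen : ∀ g : K ≃ₐ[ℚ] K, g ∈ Subgroup.zpowers σ)

include hs hgen

theorem rad_pow {r : ℕ} (hfin : Module.finrank ℚ K = r) {v : ℕ} (hv : v.Prime) :
    ∃ n : ℕ, n ≠ 0 ∧ Rad K v ^ r = Ideal.span {(n : 𝓞 K)} := by
  obtain ⟨e, ⟨k, hk⟩, he⟩ := span_eq_rad_pow hs hgen hv
  refine ⟨v ^ k, pow_ne_zero _ hv.ne_zero, ?_⟩
  rw [← hfin, hk, pow_mul, ← he, Ideal.span_singleton_pow]
  simp

theorem rho_pow {r : ℕ} (hfin : Module.finrank ℚ K = r) {v : ℕ} (hv : v.Prime) :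
    rho K v ^ r = 1 := by
  obtain ⟨n, hn, h⟩ := rad_pow hs hgen hfin hv
  rw [rho, dif_pos hv.ne_zero, ← map_pow, ClassGroup.mk0_eq_one_iff]
  change (Rad K v ^ r).IsPrincipal
  rw [h]
  exact ⟨⟨_, rfl⟩⟩

end

theorem rad_of_not_mem {S : Finset ℕ}
    (hS : ∀ v : ℕ, v.Prime → v ∉ S → (Ideal.span {(v : 𝓞 K)}).IsRadical) {v : ℕ} (hv : v.Prime)
    (hvS : v ∉ S) : Rad K v = Ideal.span {(v : 𝓞 K)} :=
  (hS v hv hvS).radical

theorem rho_of_not_mem {S : Finset ℕ}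
    (hS : ∀ v : ℕ, v.Prime → v ∉ S → (Ideal.span {(v : 𝓞 K)}).IsRadical) {v : ℕ} (hv : v.Prime)
    (hvS : v ∉ S) : rho K v = 1 := by
  rw [rho, dif_pos hv.ne_zero, ClassGroup.mk0_eq_one_iff]
  rw [rad_of_not_mem hS hv hvS]
  exact ⟨⟨_, rfl⟩⟩

theorem prod_rho {S : Finset ℕ}
    (hS : ∀ v : ℕ, v.Prime → v ∉ S → (Ideal.span {(v : 𝓞 K)}).IsRadical) (m : Multiset ℕ)
    (hm : ∀ v ∈ m, v.Prime) : (m.map (rho K)).prod = ∏ v ∈ S, rho K v ^ m.count v := by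
  classical
  rw [Finset.prod_multiset_map_count]
  have h1 : ∏ v ∈ m.toFinset, rho K v ^ m.count v =
      ∏ v ∈ m.toFinset ∪ S, rho K v ^ m.count v := by
    apply Finset.prod_subset Finset.subset_union_left
    intro v _ hv
    rw [Multiset.mem_toFinset] at hv
    rw [Multiset.count_eq_zero_of_notMem hv, pow_zero]
  have h2 : ∏ v ∈ S, rho K v ^ m.count v =
      ∏ v ∈ m.toFinset ∪ S, rho K v ^ m.count v := by
    apply Finset.prod_subset Finset.subset_union_right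
    intro v hv hvS
    rcases Finset.mem_union.mp hv with h | h
    · rw [rho_of_not_mem hS (hm v (Multiset.mem_toFinset.mp h)) hvS, one_pow]
    · exact absurd h hvS
  rw [h1, h2]

section

variable [IsGalois ℚ K] {σ : K ≃ₐ[ℚ] K} {s : 𝓞 K ≃+* 𝓞 K}
    (hs : ∀ x : 𝓞 K, ((s x : 𝓞 K) : K) = σ x)
    (hgen : ∀ g : K ≃ₐ[ℚ] K, g ∈ Subgroup.zpowers σ)

include hs hgen

theorem prod_rad_span {r : ℕ} (hfin : Module.finrank ℚ K = r) {S : Finset ℕ}
    (hS : ∀ v : ℕ, v.Prime → v ∉ S → (Ideal.span {(v : 𝓞 K)}).IsRadical) (m : Multiset ℕ)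
    (hm : ∀ v ∈ m, v.Prime) (hdvd : ∀ v ∈ S, v.Prime → r ∣ m.count v) :
    ∃ n : ℕ, n ≠ 0 ∧ (m.map (Rad K)).prod = Ideal.span {(n : 𝓞 K)} := by
  classical
  rw [Finset.prod_multiset_map_count]
  have h1 : ∀ v ∈ m.toFinset, ∃ n : ℕ, n ≠ 0 ∧ Rad K v ^ m.count v = Ideal.span {(n : 𝓞 K)} := by
    intro v hv
    have hvp := hm v (Multiset.mem_toFinset.mp hv)
    by_cases hvS : v ∈ S
    · obtain ⟨k, hk⟩ := hdvd v hvS hvp
      obtain ⟨n, hn, h⟩ := rad_pow hs hgen hfin hvp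
      refine ⟨n ^ k, pow_ne_zero _ hn, ?_⟩
      rw [hk, pow_mul, h, Ideal.span_singleton_pow]
      simp
    · refine ⟨v ^ m.count v, pow_ne_zero _ hvp.ne_zero, ?_⟩
      rw [rad_of_not_mem hS hvp hvS, Ideal.span_singleton_pow]
      simp
  choose! n hn0 hn using h1
  refine ⟨∏ v ∈ m.toFinset, n v, Finset.prod_ne_zero_iff.mpr hn0, ?_⟩
  rw [Finset.prod_congr rfl hn, Ideal.prod_span_singleton]
  simp

/-- The nontrivial relation between the ramified primes. -/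
theorem exists_relation {r : ℕ} (hr : r.Prime) (hodd : r ≠ 2) (hfin : Module.finrank ℚ K = r)
    (hsr : s ^ r = 1) {S : Finset ℕ}
    (hS : ∀ v : ℕ, v.Prime → v ∉ S → (Ideal.span {(v : 𝓞 K)}).IsRadical) :
    ∃ m : Multiset ℕ, (∀ v ∈ m, v.Prime) ∧ (∃ v ∈ S, v.Prime ∧ ¬ r ∣ m.count v) ∧
      (m.map (rho K)).prod = 1 := by
  obtain ⟨η, hη⟩ := exists_unit hr hodd hfin s hsr
  have hro : Odd r := hr.odd_of_ne_two hodd
  -- choose the sign
  obtain ⟨η', hη', hn⟩ : ∃ η' : (𝓞 K)ˣ, ((η' : 𝓞 K) = η ∨ (η' : 𝓞 K) = -η) ∧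
      Algebra.norm ℚ (algebraMap (𝓞 K) K (η' : 𝓞 K)) = 1 := by
    have h1 : IsUnit (Algebra.norm ℤ (η : 𝓞 K)) := (η.isUnit).map (Algebra.norm ℤ)
    rcases Int.isUnit_iff.mp h1 with h | h
    · refine ⟨η, Or.inl rfl, ?_⟩
      rw [← Algebra.coe_norm_int, h]; simp
    · refine ⟨-η, Or.inr (by simp), ?_⟩
      have h3 : Algebra.norm ℤ (-1 : 𝓞 K) = -1 := by
        have h4 := Algebra.norm_algebraMap (S := 𝓞 K) (-1 : ℤ)
        rw [RingOfIntegers.rank, hfin, hro.neg_one_pow] at h4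
        simpa using h4
      rw [← Algebra.coe_norm_int]
      have h2 : Algebra.norm ℤ (((-η : (𝓞 K)ˣ)) : 𝓞 K) =
          Algebra.norm ℤ (-1 : 𝓞 K) * Algebra.norm ℤ (η : 𝓞 K) := by
        rw [← map_mul]; simp
      rw [h2, h3, h]; simp
  have hcyc : IsCyclic (K ≃ₐ[ℚ] K) := ⟨σ, hgen⟩
  obtain ⟨ε, hε0, hε⟩ := groupCohomology.exists_mul_galRestrict_of_norm_eq_one (A := ℤ) (K := ℚ)
    (L := K) (B := 𝓞 K) hgen hn
  have hsg : galRestrict ℤ ℚ K (𝓞 K) σ ε = s ε := by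
    apply RingOfIntegers.coe_injective
    rw [algebraMap_galRestrict_apply ℤ σ ε (B := 𝓞 K)]
    exact (hs ε).symm
  rw [hsg] at hε
  have hinv : Ideal.map s (Ideal.span {ε} : Ideal (𝓞 K)) = Ideal.span {ε} := by
    rw [Ideal.map_span, Set.image_singleton]
    have h1 : Ideal.span {ε} = Ideal.span {(η' : 𝓞 K) * s ε} := by rw [hε]
    rw [h1, ← Ideal.span_singleton_mul_span_singleton]
    have h2 : (Ideal.span {(η' : 𝓞 K)} : Ideal (𝓞 K)) = 1 := by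
      rw [Ideal.one_eq_top, Ideal.span_singleton_eq_top]
      exact η'.isUnit
    rw [h2, one_mul]
  have hne : (Ideal.span {ε} : Ideal (𝓞 K)) ≠ ⊥ := by
    rw [Ne, Ideal.span_singleton_eq_bot]; exact hε0
  obtain ⟨m, hm1, hm2⟩ := exists_multiset hs hgen _ hne hinv
  refine ⟨m, hm1, ?_, ?_⟩
  · by_contra hcon
    push Not at hcon
    obtain ⟨n, hn0, hn1⟩ := prod_rad_span hs hgen hfin hS m hm1 hcon
    rw [← hm2, Ideal.span_singleton_eq_span_singleton] at hn1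
    obtain ⟨θ, hθ⟩ := hn1.symm
    -- ε = n θ
    have hn0' : (n : 𝓞 K) ≠ 0 := by exact_mod_cast hn0
    have h1 : (η' : 𝓞 K) * s (θ : 𝓞 K) = θ := by
      apply mul_left_cancel₀ hn0'
      rw [hθ]
      conv_rhs => rw [← hε, ← hθ]
      rw [map_mul, map_natCast]
      ring
    have h2 : (η' : 𝓞 K) * ((θ⁻¹ : (𝓞 K)ˣ) : 𝓞 K) = s ((θ⁻¹ : (𝓞 K)ˣ) : 𝓞 K) := by
      have h3 : s (θ : 𝓞 K) * s ((θ⁻¹ : (𝓞 K)ˣ) : 𝓞 K) = 1 := by
        rw [← map_mul, Units.mul_inv, map_one]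
      calc (η' : 𝓞 K) * ((θ⁻¹ : (𝓞 K)ˣ) : 𝓞 K)
          = (η' : 𝓞 K) * ((θ⁻¹ : (𝓞 K)ˣ) : 𝓞 K) *
            (s (θ : 𝓞 K) * s ((θ⁻¹ : (𝓞 K)ˣ) : 𝓞 K)) := by rw [h3, mul_one]
        _ = ((η' : 𝓞 K) * s (θ : 𝓞 K)) * ((θ⁻¹ : (𝓞 K)ˣ) : 𝓞 K) *
            s ((θ⁻¹ : (𝓞 K)ˣ) : 𝓞 K) := by ring
        _ = s ((θ⁻¹ : (𝓞 K)ˣ) : 𝓞 K) := by rw [h1, Units.mul_inv, one_mul]
    rcases hη' with h | h
    · rw [h] at h2
      exact (hη θ⁻¹).1 h2
    · rw [h] at h2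
      apply (hη θ⁻¹).2
      rw [← h2]; ring
  · rw [← mk0_prod_rad m hm1, ClassGroup.mk0_eq_one_iff, ← hm2]
    exact ⟨⟨_, rfl⟩⟩

end

/-! ### Counting -/

/-- The homomorphism `(ZMod r)^S → Cl` given by the ramified primes. -/
noncomputable def Psi (K : Type) [Field K] [NumberField K] {r : ℕ} (S : Finset ℕ)
    (h : ∀ v ∈ S, rho K v ^ r = 1) : (S → ZMod r) →+ Additive (ClassGroup (𝓞 K)) :=
  ∑ v : S, (ZMod.lift r ⟨zmultiplesHom (Additive (ClassGroup (𝓞 K))) (Additive.ofMul (rho K v)), by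
    simp only [zmultiplesHom_apply, natCast_zsmul]
    rw [← ofMul_pow, h v v.2]; rfl⟩).comp (Pi.evalAddMonoidHom _ v)

theorem Psi_natCast {r : ℕ} (S : Finset ℕ) (h : ∀ v ∈ S, rho K v ^ r = 1) (x : ℕ → ℕ) :
    Psi K S h (fun v => (x v : ZMod r)) = Additive.ofMul (∏ v ∈ S, rho K v ^ x v) := by
  unfold Psi
  rw [AddMonoidHom.finsetSum_apply]
  rw [ofMul_prod, ← Finset.sum_coe_sort S]
  apply Finset.sum_congr rfl
  intro v _
  simp only [AddMonoidHom.comp_apply, Pi.evalAddMonoidHom_apply]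
  have h1 : ((x (v : ℕ) : ℕ) : ZMod r) = ((x (v : ℕ) : ℤ) : ZMod r) := by push_cast; rfl
  rw [h1, ZMod.lift_coe]
  simp [zmultiplesHom_apply]

section

variable [IsGalois ℚ K] {σ : K ≃ₐ[ℚ] K} {s : 𝓞 K ≃+* 𝓞 K}
    (hs : ∀ x : 𝓞 K, ((s x : 𝓞 K) : K) = σ x)
    (hgen : ∀ g : K ≃ₐ[ℚ] K, g ∈ Subgroup.zpowers σ)

include hs hgen

/-- **Ambiguous class number bound.** -/
theorem card_fixed_mul_le {r : ℕ} (hr : r.Prime) (hodd : r ≠ 2) (hfin : Module.finrank ℚ K = r)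
    (hsr : s ^ r = 1) {S : Finset ℕ} 
    (hS : ∀ v : ℕ, v.Prime → v ∉ S → (Ideal.span {(v : 𝓞 K)}).IsRadical) :
    Nat.card {c : ClassGroup (𝓞 K) // cs s c = c} * r ≤ r ^ S.card := by
  classical
  have : NeZero r := ⟨hr.ne_zero⟩
  set S' := S.filter Nat.Prime with hS'
  have hS1 : ∀ v : ℕ, v.Prime → v ∉ S' → (Ideal.span {(v : 𝓞 K)}).IsRadical := by
    intro v hv hv'
    apply hS v hv
    intro h
    exact hv' (Finset.mem_filter.mpr ⟨h, hv⟩)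
  have hpow : ∀ v ∈ S', rho K v ^ r = 1 := by
    intro v hv
    exact rho_pow hs hgen hfin (Finset.mem_filter.mp hv).2
  set Ψ := Psi K S' hpow with hΨ
  have hfix : ∀ c : ClassGroup (𝓞 K), cs s c = c → Additive.ofMul c ∈ Ψ.range := by
    intro c hc
    obtain ⟨I, hI, hinv⟩ := exists_inv_of_fixed (by rw [hfin]; exact hr.odd_of_ne_two hodd)
      hs hgen c hc
    obtain ⟨m, hm1, hm2⟩ := exists_multiset hs hgen (I : Ideal (𝓞 K))
      (nonZeroDivisors.ne_zero I.2) hinv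
    refine ⟨fun v => (m.count (v : ℕ) : ZMod r), ?_⟩
    rw [hΨ, Psi_natCast S' hpow (fun v => m.count v), ← prod_rho hS1 m hm1, ← mk0_prod_rad m hm1, ← hI]
    congr 2
    exact Subtype.ext hm2.symm
  have hker : ∃ x : S' → ZMod r, x ≠ 0 ∧ Ψ x = 0 := by
    obtain ⟨m, hm1, ⟨v, hvS, hvp, hv⟩, hm3⟩ := exists_relation hs hgen hr hodd hfin hsr hS1
    refine ⟨fun v => (m.count (v : ℕ) : ZMod r), ?_, ?_⟩
    · intro h0
      have := congrFun h0 ⟨v, hvS⟩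
      simp only [Pi.zero_apply] at this
      rw [ZMod.natCast_eq_zero_iff] at this
      exact hv this
    · rw [hΨ, Psi_natCast S' hpow (fun v => m.count v), ← prod_rho hS1 m hm1, hm3]
      rfl
  -- cardinalities
  have hcard1 : Nat.card Ψ.ker * Nat.card Ψ.range = r ^ S'.card := by
    have h1 : Nat.card (S' → ZMod r) = Nat.card ((S' → ZMod r) ⧸ Ψ.ker) * Nat.card Ψ.ker :=
      AddSubgroup.card_eq_card_quotient_mul_card_addSubgroup _
    rw [Nat.card_congr (QuotientAddGroup.quotientKerEquivRange Ψ).toEquiv] at h1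
    rw [mul_comm, ← h1]
    simp [Nat.card_eq_fintype_card, ZMod.card]
  have hcard2 : r ≤ Nat.card Ψ.ker := by
    obtain ⟨x, hx0, hx⟩ := hker
    have h1 : Nat.card Ψ.ker ∣ r ^ S'.card := ⟨_, hcard1.symm⟩
    obtain ⟨k, -, hk⟩ := (Nat.dvd_prime_pow hr).mp h1
    have h2 : Nat.card Ψ.ker ≠ 1 := by
      intro h
      rw [AddSubgroup.card_eq_one] at h
      have : x ∈ Ψ.ker := hx
      rw [h, AddSubgroup.mem_bot] at this
      exact hx0 this
    rw [hk] at h2 ⊢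
    have hk0 : k ≠ 0 := by
      rintro rfl
      exact h2 (pow_zero r)
    exact Nat.le_self_pow hk0 r
  have hcard3 : Nat.card {c : ClassGroup (𝓞 K) // cs s c = c} ≤ Nat.card Ψ.range := by
    apply Nat.card_le_card_of_injective
      (fun c : {c : ClassGroup (𝓞 K) // cs s c = c} =>
        (⟨Additive.ofMul c.1, hfix c.1 c.2⟩ : Ψ.range))
    intro a b h
    apply Subtype.ext
    simpa using h
  calc Nat.card {c : ClassGroup (𝓞 K) // cs s c = c} * r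
      ≤ Nat.card Ψ.range * Nat.card Ψ.ker := Nat.mul_le_mul hcard3 hcard2
    _ = r ^ S'.card := by rw [mul_comm]; exact hcard1
    _ ≤ r ^ S.card := Nat.pow_le_pow_right hr.pos (Finset.card_le_card (Finset.filter_subset _ _))

end

end RnrAmb
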