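import Pool.Agent.Rnr.AmbCount

set_option autoImplicit false
set_option maxSynthPendingDepth 3
set_option linter.unusedSectionVars false

open NumberField nonZeroDivisors

namespace RnrAmb

/-- Group theory: if `φ` has at most `card T` fixed points and `G : C → T` is a surjective
`φ`-invariant homomorphism of finite groups, then the kernel of `G` consists of the elements
`φ d / d`. -/
theorem eq_div_of_map_eq_one {C T : Type*} [CommGroup C] [Finite C] [CommGroup T] [Finite T]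
    (φ : C →* C) (G : C →* T) (hG : ∀ c, G (φ c) = G c) (hsurj : Function.Surjective G)
    (hfix : Nat.card {c : C // φ c = c} ≤ Nat.card T) (c : C) (hc : G c = 1) :
    ∃ d : C, c = φ d / d := by
  set D : C →* C := φ / MonoidHom.id C with hD
  have hDa : ∀ d, D d = φ d / d := fun d => by simp [hD]
  have hle : D.range ≤ G.ker := by
    rintro _ ⟨d, rfl⟩
    rw [MonoidHom.mem_ker, hDa, map_div, hG, div_self']
  have h1 : Nat.card C = Nat.card D.range * Nat.card D.ker := by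
    have := Subgroup.card_eq_card_quotient_mul_card_subgroup D.ker
    rwa [Nat.card_congr (QuotientGroup.quotientKerEquivRange D).toEquiv] at this
  have h2 : Nat.card C = Nat.card G.range * Nat.card G.ker := by
    have := Subgroup.card_eq_card_quotient_mul_card_subgroup G.ker
    rwa [Nat.card_congr (QuotientGroup.quotientKerEquivRange G).toEquiv] at this
  have h3 : Nat.card G.range = Nat.card T := by
    rw [MonoidHom.range_eq_top.mpr hsurj]
    exact Nat.card_congr Subgroup.topEquiv.toEquiv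
  have h4 : Nat.card D.ker ≤ Nat.card T := by
    refine le_trans (le_of_eq ?_) hfix
    apply Nat.card_congr
    apply Equiv.subtypeEquivRight
    intro d
    rw [MonoidHom.mem_ker, hDa, div_eq_one]
  have h5 : Nat.card G.ker ≤ Nat.card D.range := by
    have hT : 0 < Nat.card T := Nat.card_pos
    rw [h3] at h2
    have h6 : Nat.card T * Nat.card G.ker ≤ Nat.card T * Nat.card D.range := by
      rw [← h2, h1, mul_comm]
      exact Nat.mul_le_mul_right _ h4
    exact Nat.le_of_mul_le_mul_left h6 hT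
  have h6 : D.range = G.ker := by
    apply SetLike.coe_injective
    apply Set.eq_of_subset_of_ncard_le hle
    · exact h5
  have h7 : c ∈ D.range := by
    rw [h6]; exact hc
  obtain ⟨d, hd⟩ := h7
  exact ⟨d, by rw [← hd, hDa]⟩

/-- `n` is supported on the good primes. -/
def Supp (good : ℕ → Prop) (n : ℕ) : Prop := ∀ v : ℕ, v.Prime → v ∣ n → good v

theorem Supp.mul {good : ℕ → Prop} {a b : ℕ} (ha : Supp good a) (hb : Supp good b) :
    Supp good (a * b) := by
  intro v hv hd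
  rcases (hv.dvd_mul).mp hd with h | h
  · exact ha v hv h
  · exact hb v hv h

theorem Supp.of_dvd {good : ℕ → Prop} {a b : ℕ} (hb : Supp good b) (h : a ∣ b) : Supp good a :=
  fun v hv hd => hb v hv (hd.trans h)

theorem Supp.pow {good : ℕ → Prop} {a : ℕ} (ha : Supp good a) (k : ℕ) : Supp good (a ^ k) :=
  fun v hv hd => ha v hv (hv.dvd_of_dvd_pow hd)

theorem Supp.one {good : ℕ → Prop} : Supp good 1 := fun _ hv hd =>
  absurd (Nat.dvd_one.mp hd) hv.one_lt.ne'

variable {K : Type} [Field K] [NumberField K]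

/-- The inverse ideal up to a rational integer. -/
theorem exists_compl {good : ℕ → Prop} {J : Ideal (𝓞 K)} (hJ : J ≠ ⊥)
    (hsJ : Supp good (Ideal.absNorm J)) :
    ∃ J' : Ideal (𝓞 K), J' ≠ ⊥ ∧ Supp good (Ideal.absNorm J') ∧
      J * J' = Ideal.span {((Ideal.absNorm J : ℕ) : 𝓞 K)} := by
  have hn : Ideal.absNorm J ≠ 0 := by rwa [Ne, Ideal.absNorm_eq_zero_iff]
  obtain ⟨J', hJ'⟩ := Ideal.dvd_span_singleton.mpr (Ideal.absNorm_mem J)
  refine ⟨J', ?_, ?_, hJ'.symm⟩
  · rintro rfl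
    rw [Ideal.mul_bot, Ideal.span_singleton_eq_bot] at hJ'
    exact hn (by exact_mod_cast hJ')
  · have h1 := congrArg Ideal.absNorm hJ'
    rw [map_mul, Ideal.absNorm_span_natCast] at h1
    exact (hsJ.pow _).of_dvd ⟨_, by rw [mul_comm]; exact h1⟩

variable {A : Type*} [AddCommGroup A] {good : ℕ → Prop} {u : ℕ → A}

/-- A function of the norm which is additive and vanishes at principal ideals depends only on
the class. -/
theorem wd (hmul : ∀ a b : ℕ, a ≠ 0 → b ≠ 0 → Supp good a → Supp good b → u (a * b) = u a + u b)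
    (hprin : ∀ x : 𝓞 K, x ≠ 0 → Supp good (Ideal.absNorm (Ideal.span {x})) →
      u (Ideal.absNorm (Ideal.span {x})) = 0)
    {I J : (Ideal (𝓞 K))⁰} (hI : Supp good (Ideal.absNorm (I : Ideal (𝓞 K))))
    (hJ : Supp good (Ideal.absNorm (J : Ideal (𝓞 K))))
    (h : ClassGroup.mk0 I = ClassGroup.mk0 J) :
    u (Ideal.absNorm (I : Ideal (𝓞 K))) = u (Ideal.absNorm (J : Ideal (𝓞 K))) := by
  obtain ⟨x, y, hx, hy, hxy⟩ := ClassGroup.mk0_eq_mk0_iff.mp h
  obtain ⟨J', hJ'0, hJ's, hJ'⟩ := exists_compl (nonZeroDivisors.ne_zero J.2) hJ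
  set n : ℕ := Ideal.absNorm (J : Ideal (𝓞 K)) with hn
  have hn0 : n ≠ 0 := Ideal.absNorm_ne_zero_of_nonZeroDivisors J
  have hI0 : Ideal.absNorm (I : Ideal (𝓞 K)) ≠ 0 := Ideal.absNorm_ne_zero_of_nonZeroDivisors I
  have hJ'n : Ideal.absNorm J' ≠ 0 := by rwa [Ne, Ideal.absNorm_eq_zero_iff]
  have h1 : Ideal.span {x} * ((I : Ideal (𝓞 K)) * J') = Ideal.span {y * (n : 𝓞 K)} := by
    rw [← mul_assoc, hxy, mul_assoc, hJ', Ideal.span_singleton_mul_span_singleton]
  have h2 : y * (n : 𝓞 K) ∈ Ideal.span {x} := by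
    have h21 : y * (n : 𝓞 K) ∈ Ideal.span {x} * ((I : Ideal (𝓞 K)) * J') := by
      rw [h1]; exact Ideal.mem_span_singleton_self _
    have h22 : Ideal.span {x} * ((I : Ideal (𝓞 K)) * J') ≤ Ideal.span {x} := Ideal.mul_le_left
    exact h22 h21
  obtain ⟨z, hz⟩ := Ideal.mem_span_singleton.mp h2
  have hyn : y * (n : 𝓞 K) ≠ 0 := mul_ne_zero hy (by exact_mod_cast hn0)
  have hz0 : z ≠ 0 := by
    rintro rfl
    rw [mul_zero] at hz
    exact hyn hz
  have h3 : (I : Ideal (𝓞 K)) * J' = Ideal.span {z} := by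
    have hx0 : (Ideal.span {x} : Ideal (𝓞 K)) ≠ 0 := by simp [hx]
    apply mul_left_cancel₀ hx0
    rw [h1, hz, Ideal.span_singleton_mul_span_singleton]
  have h4 : u (Ideal.absNorm (I : Ideal (𝓞 K))) + u (Ideal.absNorm J') = 0 := by
    rw [← hmul _ _ hI0 hJ'n hI hJ's, ← map_mul, h3]
    apply hprin z hz0
    rw [← h3, map_mul]
    exact hI.mul hJ's
  have h5 : u n + u (Ideal.absNorm J') = 0 := by
    have h6 : Ideal.absNorm (Ideal.span {(n : 𝓞 K)}) = n * Ideal.absNorm J' := by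
      rw [← hJ', map_mul]
    rw [← hmul _ _ hn0 hJ'n hJ hJ's, ← h6]
    apply hprin _ (by exact_mod_cast hn0)
    rw [h6]
    exact hJ.mul hJ's
  exact add_right_cancel (h4.trans h5.symm)

/-- The subgroup of the classes of good ideals. -/
noncomputable def goodClasses (K : Type) [Field K] [NumberField K] (good : ℕ → Prop) :
    Subgroup (ClassGroup (𝓞 K)) where
  carrier := {c | ∃ I : (Ideal (𝓞 K))⁰, Supp good (Ideal.absNorm (I : Ideal (𝓞 K))) ∧
    ClassGroup.mk0 I = c}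
  mul_mem' := by
    rintro a b ⟨I, hI, rfl⟩ ⟨J, hJ, rfl⟩
    refine ⟨I * J, ?_, map_mul _ _ _⟩
    rw [Submonoid.coe_mul, map_mul]
    exact hI.mul hJ
  one_mem' := ⟨1, by simpa using Supp.one, map_one _⟩
  inv_mem' := by
    rintro a ⟨I, hI, rfl⟩
    obtain ⟨J', hJ'0, hJ's, hJ'⟩ := exists_compl (nonZeroDivisors.ne_zero I.2) hI
    refine ⟨⟨J', mem_nonZeroDivisors_iff_ne_zero.mpr hJ'0⟩, hJ's, ?_⟩
    rw [eq_inv_iff_mul_eq_one, mul_comm, ← map_mul, ClassGroup.mk0_eq_one_iff]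
    change ((I : Ideal (𝓞 K)) * J').IsPrincipal
    rw [hJ']
    exact ⟨⟨_, rfl⟩⟩

theorem cs_mem_goodClasses (s : 𝓞 K ≃+* 𝓞 K) (good : ℕ → Prop) (c : ClassGroup (𝓞 K))
    (hc : c ∈ goodClasses K good) : cs s c ∈ goodClasses K good := by
  obtain ⟨I, hI, rfl⟩ := hc
  refine ⟨actI s I, ?_, (cs_mk0 s I).symm⟩
  rw [coe_actI, absNorm_map]
  exact hI

/-- **Genus theory for functions of the norm.** -/
theorem amb_norm_aux [IsGalois ℚ K] {σ : K ≃ₐ[ℚ] K} {s : 𝓞 K ≃+* 𝓞 K}
    (hs : ∀ x : 𝓞 K, ((s x : 𝓞 K) : K) = σ x)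
    (hgen : ∀ g : K ≃ₐ[ℚ] K, g ∈ Subgroup.zpowers σ)
    {r : ℕ} (hr : r.Prime) (hodd : r ≠ 2) (hfin : Module.finrank ℚ K = r)
    (hsr : s ^ r = 1) {S : Finset ℕ}
    (hS : ∀ v : ℕ, v.Prime → v ∉ S → (Ideal.span {(v : 𝓞 K)}).IsRadical)
    {m : ℕ} (hm : S.card ≤ m + 1) (good : ℕ → Prop) (g : Fin m → ℕ → ZMod r) (u : ℕ → ZMod r)
    (hgmul : ∀ j, ∀ a b : ℕ, a ≠ 0 → b ≠ 0 → Supp good a → Supp good b →
      g j (a * b) = g j a + g j b)
    (hgprin : ∀ j, ∀ x : 𝓞 K, x ≠ 0 → Supp good (Ideal.absNorm (Ideal.span {x})) →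
      g j (Ideal.absNorm (Ideal.span {x})) = 0)
    (hmul : ∀ a b : ℕ, a ≠ 0 → b ≠ 0 → Supp good a → Supp good b → u (a * b) = u a + u b)
    (hprin : ∀ x : 𝓞 K, x ≠ 0 → Supp good (Ideal.absNorm (Ideal.span {x})) →
      u (Ideal.absNorm (Ideal.span {x})) = 0)
    (hsurj : ∀ y : Fin m → ZMod r, ∃ I : Ideal (𝓞 K), I ≠ ⊥ ∧ Supp good (Ideal.absNorm I) ∧
      ∀ j, g j (Ideal.absNorm I) = y j)
    (I : Ideal (𝓞 K)) (hI0 : I ≠ ⊥) (hI : Supp good (Ideal.absNorm I))
    (hg : ∀ j, g j (Ideal.absNorm I) = 0) : u (Ideal.absNorm I) = 0 := by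
  classical
  have : NeZero r := ⟨hr.ne_zero⟩
  set C := goodClasses K good with hC
  have hrep : ∀ c : C, ∃ I : (Ideal (𝓞 K))⁰, Supp good (Ideal.absNorm (I : Ideal (𝓞 K))) ∧
      ClassGroup.mk0 I = c := fun c => c.2
  choose R hR1 hR2 using hrep
  let φ : C →* C := ((cs s).comp C.subtype).codRestrict C
    (fun c => cs_mem_goodClasses s good c c.2)
  let G : C →* Multiplicative (Fin m → ZMod r) :=
    { toFun := fun c => Multiplicative.ofAdd (fun j => g j (Ideal.absNorm (R c : Ideal (𝓞 K))))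
      map_one' := by
        rw [← ofAdd_zero]
        congr 1
        funext j
        have h2 := wd (hgmul j) (hgprin j) (I := R 1) (J := 1) (hR1 1) (by simpa using Supp.one)
          (by rw [hR2, map_one]; rfl)
        rw [h2]
        have h3 := hgmul j 1 1 one_ne_zero one_ne_zero Supp.one Supp.one
        simp only [mul_one] at h3
        simpa using h3
      map_mul' := by
        intro a b
        rw [← ofAdd_add]
        congr 1
        funext j
        have h2 := wd (hgmul j) (hgprin j) (I := R (a * b)) (J := R a * R b) (hR1 _)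
          (by rw [Submonoid.coe_mul, map_mul]; exact (hR1 a).mul (hR1 b))
          (by rw [hR2, map_mul, hR2, hR2]; rfl)
        rw [h2, Submonoid.coe_mul, map_mul]
        rw [hgmul j _ _ (Ideal.absNorm_ne_zero_of_nonZeroDivisors _)
          (Ideal.absNorm_ne_zero_of_nonZeroDivisors _) (hR1 a) (hR1 b)]
        rfl }
  have hGmk : ∀ (J : (Ideal (𝓞 K))⁰) (hJ : Supp good (Ideal.absNorm (J : Ideal (𝓞 K)))),
      G ⟨ClassGroup.mk0 J, J, hJ, rfl⟩ =
        Multiplicative.ofAdd (fun j => g j (Ideal.absNorm (J : Ideal (𝓞 K)))) := by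
    intro J hJ
    change Multiplicative.ofAdd _ = _
    congr 1
    funext j
    exact wd (hgmul j) (hgprin j) (hR1 _) hJ (hR2 _)
  have hGφ : ∀ c, G (φ c) = G c := by
    intro c
    have h1 : c = ⟨ClassGroup.mk0 (R c), R c, hR1 c, rfl⟩ := Subtype.ext (hR2 c).symm
    have h2 : φ c = ⟨ClassGroup.mk0 (actI s (R c)), actI s (R c), by
        rw [coe_actI, absNorm_map]; exact hR1 c, rfl⟩ := by
      apply Subtype.ext
      change cs s (c : ClassGroup (𝓞 K)) = ClassGroup.mk0 (actI s (R c))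
      rw [← cs_mk0, hR2]
    have hs2 : Supp good (Ideal.absNorm ((actI s (R c) : (Ideal (𝓞 K))⁰) : Ideal (𝓞 K))) := by
      rw [coe_actI, absNorm_map]; exact hR1 c
    refine (congrArg G h2).trans ((hGmk (actI s (R c)) hs2).trans
      (Eq.trans ?_ ((congrArg G h1).trans (hGmk (R c) (hR1 c))).symm))
    congr 1
    funext j
    rw [coe_actI, absNorm_map]
  have hGsurj : Function.Surjective G := by
    intro y
    obtain ⟨J, hJ0, hJ, hy⟩ := hsurj (Multiplicative.toAdd y)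
    let J' : (Ideal (𝓞 K))⁰ := ⟨J, mem_nonZeroDivisors_iff_ne_zero.mpr hJ0⟩
    refine ⟨⟨ClassGroup.mk0 J', J', hJ, rfl⟩, (hGmk J' hJ).trans ?_⟩
    apply Multiplicative.toAdd.injective
    funext j
    exact hy j
  have hfix : Nat.card {c : C // φ c = c} ≤ Nat.card (Multiplicative (Fin m → ZMod r)) := by
    have h1 := card_fixed_mul_le hs hgen hr hodd hfin hsr hS
    have h2 : Nat.card {c : C // φ c = c} ≤ Nat.card {c : ClassGroup (𝓞 K) // cs s c = c} := by
      apply Nat.card_le_card_of_injective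
        (fun c : {c : C // φ c = c} => (⟨(c.1 : ClassGroup (𝓞 K)), by
          have := congrArg Subtype.val c.2
          exact this⟩ : {c : ClassGroup (𝓞 K) // cs s c = c}))
      intro a b h
      apply Subtype.ext
      apply Subtype.ext
      simpa using h
    have h3 : Nat.card (Multiplicative (Fin m → ZMod r)) = r ^ m := by
      rw [Nat.card_congr Multiplicative.toAdd]
      simp [Nat.card_eq_fintype_card, ZMod.card]
    rw [h3]
    have h4 : Nat.card {c : C // φ c = c} * r ≤ r ^ m * r := by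
      calc Nat.card {c : C // φ c = c} * r
          ≤ Nat.card {c : ClassGroup (𝓞 K) // cs s c = c} * r := Nat.mul_le_mul_right _ h2
        _ ≤ r ^ S.card := h1
        _ ≤ r ^ (m + 1) := Nat.pow_le_pow_right hr.pos hm
        _ = r ^ m * r := pow_succ _ _
    exact Nat.le_of_mul_le_mul_right h4 hr.pos
  let I' : (Ideal (𝓞 K))⁰ := ⟨I, mem_nonZeroDivisors_iff_ne_zero.mpr hI0⟩
  obtain ⟨d, hd⟩ := eq_div_of_map_eq_one φ G hGφ hGsurj hfix
    ⟨ClassGroup.mk0 I', I', hI, rfl⟩ (by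
      refine (hGmk I' hI).trans ?_
      rw [← ofAdd_zero]
      congr 1
      funext j
      exact hg j)
  have h1 : ClassGroup.mk0 (I' * R d) = ClassGroup.mk0 (actI s (R d)) := by
    rw [map_mul, ← cs_mk0, hR2]
    exact congrArg Subtype.val (eq_div_iff_mul_eq'.mp hd)
  have h2 := wd hmul hprin (I := I' * R d) (J := actI s (R d))
    (by rw [Submonoid.coe_mul, map_mul]; exact hI.mul (hR1 d))
    (by rw [coe_actI, absNorm_map]; exact hR1 d) h1
  rw [Submonoid.coe_mul, map_mul, coe_actI, absNorm_map,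
    hmul _ _ (Ideal.absNorm_ne_zero_of_nonZeroDivisors I')
      (Ideal.absNorm_ne_zero_of_nonZeroDivisors _) hI (hR1 d)] at h2
  simpa using h2

/-- The automorphism of the ring of integers. -/
noncomputable def sO (σ : K ≃ₐ[ℚ] K) : 𝓞 K ≃+* 𝓞 K :=
  RingOfIntegers.mapRingEquiv (σ : K ≃+* K)

theorem sO_apply (σ : K ≃ₐ[ℚ] K) (x : 𝓞 K) : ((sO σ x : 𝓞 K) : K) = σ x := rfl

theorem sO_pow {σ : K ≃ₐ[ℚ] K} {r : ℕ} (h : σ ^ r = 1) : sO σ ^ r = 1 := by
  ext x
  rw [coe_pow_apply (sO_apply σ), h]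
  rfl

theorem setup {σ : K ≃ₐ[ℚ] K} {r : ℕ} (hfin : Module.finrank ℚ K = r)
    (hord : orderOf σ = r) :
    IsGalois ℚ K ∧ (∀ g : K ≃ₐ[ℚ] K, g ∈ Subgroup.zpowers σ) ∧ sO σ ^ r = 1 := by
  have h1 : Nat.card (K ≃ₐ[ℚ] K) = Module.finrank ℚ K := by
    apply le_antisymm
    · rw [Nat.card_eq_fintype_card]
      exact AlgEquiv.card_le
    · rw [hfin, ← hord]
      exact Nat.le_of_dvd Nat.card_pos (orderOf_dvd_natCard σ)
  refine ⟨IsGalois.of_card_aut_eq_finrank ℚ K h1, ?_, sO_pow (by rw [← hord]; exact pow_orderOf_eq_one σ)⟩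
  have h2 : Subgroup.zpowers σ = ⊤ := by
    apply Subgroup.eq_top_of_card_eq
    rw [Nat.card_zpowers, hord, h1, hfin]
  intro g
  rw [h2]
  exact Subgroup.mem_top g

/-- **Genus theory for functions of the norm** (client form). -/
theorem amb_norm {σ : K ≃ₐ[ℚ] K} {r : ℕ} (hr : r.Prime) (hodd : r ≠ 2)
    (hfin : Module.finrank ℚ K = r) (hord : orderOf σ = r) {S : Finset ℕ}
    (hS : ∀ v : ℕ, v.Prime → v ∉ S → (Ideal.span {(v : 𝓞 K)}).IsRadical)
    {m : ℕ} (hm : S.card ≤ m + 1) (good : ℕ → Prop) (g : Fin m → ℕ → ZMod r) (u : ℕ → ZMod r)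
    (hgmul : ∀ j, ∀ a b : ℕ, a ≠ 0 → b ≠ 0 → Supp good a → Supp good b →
      g j (a * b) = g j a + g j b)
    (hgprin : ∀ j, ∀ x : 𝓞 K, x ≠ 0 → Supp good (Ideal.absNorm (Ideal.span {x})) →
      g j (Ideal.absNorm (Ideal.span {x})) = 0)
    (hmul : ∀ a b : ℕ, a ≠ 0 → b ≠ 0 → Supp good a → Supp good b → u (a * b) = u a + u b)
    (hprin : ∀ x : 𝓞 K, x ≠ 0 → Supp good (Ideal.absNorm (Ideal.span {x})) →
      u (Ideal.absNorm (Ideal.span {x})) = 0)
    (hsurj : ∀ y : Fin m → ZMod r, ∃ I : Ideal (𝓞 K), I ≠ ⊥ ∧ Supp good (Ideal.absNorm I) ∧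
      ∀ j, g j (Ideal.absNorm I) = y j)
    (I : Ideal (𝓞 K)) (hI0 : I ≠ ⊥) (hI : Supp good (Ideal.absNorm I))
    (hg : ∀ j, g j (Ideal.absNorm I) = 0) : u (Ideal.absNorm I) = 0 := by
  obtain ⟨h1, h2, h3⟩ := setup hfin hord
  exact amb_norm_aux (sO_apply σ) h2 hr hodd hfin h3 hS hm good g u hgmul hgprin hmul hprin hsurj
    I hI0 hI hg

/-- With at most one ramified prime the class number is prime to `r`. -/
theorem amb_coprime {σ : K ≃ₐ[ℚ] K} {r : ℕ} (hr : r.Prime) (hodd : r ≠ 2)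
    (hfin : Module.finrank ℚ K = r) (hord : orderOf σ = r) {S : Finset ℕ}
    (hS : ∀ v : ℕ, v.Prime → v ∉ S → (Ideal.span {(v : 𝓞 K)}).IsRadical)
    (hm : S.card ≤ 1) : ¬ r ∣ Nat.card (ClassGroup (𝓞 K)) := by
  obtain ⟨h1, h2, h3⟩ := setup hfin hord
  have h4 := card_fixed_mul_le (sO_apply σ) h2 hr hodd hfin h3 hS
  have h5 : Nat.card {c : ClassGroup (𝓞 K) // cs (sO σ) c = c} ≤ 1 := by
    have h6 : r ^ S.card ≤ r ^ 1 := Nat.pow_le_pow_right hr.pos hm
    rw [pow_one] at h6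
    have h7 : Nat.card {c : ClassGroup (𝓞 K) // cs (sO σ) c = c} * r ≤ 1 * r := by omega
    exact Nat.le_of_mul_le_mul_right h7 hr.pos
  -- no nontrivial fixed class
  have h6 : ∀ c : ClassGroup (𝓞 K), cs (sO σ) c = c → c = 1 := by
    intro c hc
    have h7 : Subsingleton {c : ClassGroup (𝓞 K) // cs (sO σ) c = c} :=
      (Finite.card_le_one_iff_subsingleton).mp h5
    exact congrArg Subtype.val (Subsingleton.elim
      (⟨c, hc⟩ : {c : ClassGroup (𝓞 K) // cs (sO σ) c = c}) ⟨1, map_one _⟩)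
  -- the endomorphism `s` of the class group as an additive group
  let f : Module.End ℤ (Additive (ClassGroup (𝓞 K))) :=
    (MonoidHom.toAdditive (cs (sO σ))).toIntLinearMap
  have hfpow : ∀ (n : ℕ) (I : (Ideal (𝓞 K))⁰), (f ^ n) (Additive.ofMul (ClassGroup.mk0 I)) =
      Additive.ofMul (ClassGroup.mk0 (actI (sO σ ^ n) I)) := by
    intro n
    induction n with
    | zero =>
      intro I
      simp only [pow_zero, Module.End.one_apply]
      congr 2
      apply Subtype.ext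
      rw [coe_actI]
      exact (Ideal.map_id _).symm
    | succ n ih =>
      intro I
      rw [pow_succ', Module.End.mul_apply, ih]
      change Additive.ofMul (cs (sO σ) (ClassGroup.mk0 (actI (sO σ ^ n) I))) = _
      rw [cs_mk0]
      congr 2
      apply Subtype.ext
      rw [coe_actI, coe_actI, coe_actI, pow_succ']
      have := Ideal.map_map (I := (I : Ideal (𝓞 K))) ((sO σ ^ n : 𝓞 K ≃+* 𝓞 K) : 𝓞 K →+* 𝓞 K)
        ((sO σ : 𝓞 K ≃+* 𝓞 K) : 𝓞 K →+* 𝓞 K)
      exact this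
  have hfr : f ^ r = 1 := by
    apply LinearMap.ext
    intro c
    obtain ⟨I, hI⟩ := ClassGroup.mk0_surjective (Additive.toMul c)
    have hc : c = Additive.ofMul (ClassGroup.mk0 I) := by rw [hI]; rfl
    rw [hc, hfpow, h3, Module.End.one_apply]
    congr 2
    apply Subtype.ext
    rw [coe_actI]
    exact Ideal.map_id _
  intro hdvd
  have hinj : Function.Injective (f - 1 : Module.End ℤ (Additive (ClassGroup (𝓞 K)))) := by
    rw [injective_iff_map_eq_zero]
    intro c hc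
    rw [LinearMap.sub_apply, Module.End.one_apply, sub_eq_zero] at hc
    have := h6 (Additive.toMul c) hc
    exact this
  have hinjr : Function.Injective ((f - 1) ^ r : Module.End ℤ (Additive (ClassGroup (𝓞 K)))) := by
    rw [Module.End.coe_pow]
    exact hinj.iterate r
  obtain ⟨z, hz⟩ := (Commute.one_right f).neg_right.exists_add_pow_prime_eq hr
  have hro : Odd r := hr.odd_of_ne_two hodd
  have h8 : (f - 1) ^ r = (f * (-1) * z) * (r : Module.End ℤ (Additive (ClassGroup (𝓞 K)))) := by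
    rw [sub_eq_add_neg, hz, hfr, hro.neg_one_pow]
    rw [← (Nat.cast_commute r (f * (-1) * z)).eq]
    simp [mul_assoc]
  have : Fact r.Prime := ⟨hr⟩
  obtain ⟨c, hc⟩ := exists_prime_orderOf_dvd_card' (G := ClassGroup (𝓞 K)) r hdvd
  have h9 : ((f - 1) ^ r : Module.End ℤ (Additive (ClassGroup (𝓞 K)))) (Additive.ofMul c) = 0 := by
    rw [h8, Module.End.mul_apply]
    have h10 : (r : Module.End ℤ (Additive (ClassGroup (𝓞 K)))) (Additive.ofMul c) = 0 := by
      rw [Module.End.natCast_apply, ← ofMul_pow, ← hc, pow_orderOf_eq_one]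
      rfl
    rw [h10, map_zero]
  have h10 : Additive.ofMul c = 0 := hinjr (by rw [h9, map_zero])
  have h11 : c = 1 := h10
  rw [h11, orderOf_one] at hc
  exact hr.one_lt.ne hc

end RnrAmb
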