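import Mathlib

set_option autoImplicit false
set_option maxSynthPendingDepth 3

open NumberField nonZeroDivisors

namespace RnrAmb

/-- `s - 1` is never surjective on a nonzero free abelian group of finite rank when `s ^ r = 1`,
`r` an odd prime: it is nilpotent modulo `r`. -/
theorem not_surj_sub_one {M : Type*} [AddCommGroup M] [Module.Free ℤ M] [Module.Finite ℤ M]
    [Nontrivial M] {r : ℕ} (hr : r.Prime) (hodd : r ≠ 2) (s : M →ₗ[ℤ] M) (hs : s ^ r = 1) :
    ¬ Function.Surjective ((s - 1 : M →ₗ[ℤ] M)) := by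
  intro hsurj
  obtain ⟨z, hz⟩ := (Commute.one_right s).neg_right.exists_add_pow_prime_eq hr
  have hro : Odd r := hr.odd_of_ne_two hodd
  have h1 : (s - 1) ^ r = (r : M →ₗ[ℤ] M) * (s * (-1) * z) := by
    rw [sub_eq_add_neg, hz, hs, hro.neg_one_pow]
    simp [mul_assoc]
  have h2 : ∀ m : M, ∃ m' : M, (r : ℤ) • m' = m := by
    intro m
    have h3 : Function.Surjective ((s - 1) ^ r : M →ₗ[ℤ] M) := by
      rw [Module.End.coe_pow]
      exact hsurj.iterate r
    obtain ⟨x, hx⟩ := h3 m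
    refine ⟨(s * (-1) * z) x, ?_⟩
    rw [← hx, h1]
    rw [Module.End.mul_apply]
    simp
  let b := Module.Free.chooseBasis ℤ M
  have hne : Nonempty (Module.Free.ChooseBasisIndex ℤ M) := by
    by_contra hem
    rw [not_nonempty_iff] at hem
    have : Subsingleton M := b.repr.toEquiv.subsingleton
    exact not_subsingleton M this
  obtain ⟨i⟩ := hne
  obtain ⟨m', hm'⟩ := h2 (b i)
  have h4 := congrArg (fun m => b.repr m i) hm'
  simp only [map_zsmul, Finsupp.smul_apply, Module.Basis.repr_self, Finsupp.single_eq_same,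
    smul_eq_mul] at h4
  have h5 : (r : ℤ) ∣ 1 := ⟨_, h4.symm⟩
  have h6 : (r : ℤ) = 1 := Int.eq_one_of_dvd_one (by positivity) h5
  exact hr.one_lt.ne' (by exact_mod_cast h6)

variable {K : Type} [Field K]

theorem torsion_map (s : 𝓞 K ≃+* 𝓞 K) :
    Units.torsion K ≤ (Units.torsion K).comap (Units.map (s : 𝓞 K →* 𝓞 K)) := by
  intro x hx
  rw [Subgroup.mem_comap]
  rw [NumberField.Units.torsion, CommGroup.mem_torsion] at hx ⊢
  exact MonoidHom.isOfFinOrder _ hx

/-- The action on units modulo torsion. -/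
noncomputable def unitEnd (s : 𝓞 K ≃+* 𝓞 K) :
    Additive ((𝓞 K)ˣ ⧸ Units.torsion K) →ₗ[ℤ] Additive ((𝓞 K)ˣ ⧸ Units.torsion K) :=
  (MonoidHom.toAdditive (QuotientGroup.map (Units.torsion K) (Units.torsion K)
    (Units.map (s : 𝓞 K →* 𝓞 K)) (torsion_map s))).toIntLinearMap

theorem unitEnd_mk (s : 𝓞 K ≃+* 𝓞 K) (x : (𝓞 K)ˣ) :
    unitEnd s (Additive.ofMul (QuotientGroup.mk x)) =
      Additive.ofMul (QuotientGroup.mk (Units.map (s : 𝓞 K →* 𝓞 K) x)) := rfl

theorem unitEnd_pow (s : 𝓞 K ≃+* 𝓞 K) (n : ℕ) (x : (𝓞 K)ˣ) :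
    (unitEnd s ^ n) (Additive.ofMul (QuotientGroup.mk x)) =
      Additive.ofMul (QuotientGroup.mk (Units.map ((s ^ n : 𝓞 K ≃+* 𝓞 K) : 𝓞 K →* 𝓞 K) x)) := by
  induction n with
  | zero => 
    simp only [pow_zero, Module.End.one_apply]
    congr 2
  | succ n ih =>
    rw [pow_succ', Module.End.mul_apply, ih, unitEnd_mk]
    congr 2
    ext
    simp [pow_succ']

variable [NumberField K]

theorem exists_unit {r : ℕ} (hr : r.Prime) (hodd : r ≠ 2) (hfin : Module.finrank ℚ K = r)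
    (s : 𝓞 K ≃+* 𝓞 K) (hs : s ^ r = 1) :
    ∃ η : (𝓞 K)ˣ, ∀ θ : (𝓞 K)ˣ, (η * θ : 𝓞 K) ≠ s θ ∧ (η * θ : 𝓞 K) ≠ - s θ := by
  have hr3 : 3 ≤ r := by
    have := hr.two_le
    omega
  have hrank : 0 < Units.rank K := by
    have h1 : Module.finrank ℚ K = InfinitePlace.nrRealPlaces K + 2 * InfinitePlace.nrComplexPlaces K :=
      (InfinitePlace.card_add_two_mul_card_eq_rank K).symm
    have h2 : Fintype.card (InfinitePlace K) =
        InfinitePlace.nrRealPlaces K + InfinitePlace.nrComplexPlaces K :=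
      InfinitePlace.card_eq_nrRealPlaces_add_nrComplexPlaces K
    unfold Units.rank
    omega
  have hnt : Nontrivial (Additive ((𝓞 K)ˣ ⧸ Units.torsion K)) := by
    apply Module.nontrivial_of_finrank_pos (R := ℤ)
    rw [Units.finrank_modTorsion]
    exact hrank
  have hpow : unitEnd s ^ r = 1 := by
    apply LinearMap.ext
    intro m
    obtain ⟨x, hx⟩ := QuotientGroup.mk_surjective (Additive.toMul m)
    have hm : m = Additive.ofMul (QuotientGroup.mk x) := by
      rw [hx]; rfl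
    rw [hm, unitEnd_pow, hs]
    simp only [Module.End.one_apply]
    congr 2
  have hns := not_surj_sub_one hr hodd (unitEnd s) hpow
  by_contra hcon
  push Not at hcon
  apply hns
  intro m
  obtain ⟨x, hx⟩ := QuotientGroup.mk_surjective (Additive.toMul m)
  have hm : m = Additive.ofMul (QuotientGroup.mk x) := by
    rw [hx]; rfl
  obtain ⟨θ, hθ⟩ := hcon x
  refine ⟨Additive.ofMul (QuotientGroup.mk θ), ?_⟩
  rw [hm, LinearMap.sub_apply, unitEnd_mk, Module.End.one_apply]
  rw [← ofMul_div]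
  congr 1
  rw [← QuotientGroup.mk_div, QuotientGroup.eq]
  rw [Units.torsion, CommGroup.mem_torsion]
  by_cases h : (x * θ : 𝓞 K) = s θ
  · have h1 : (Units.map (s : 𝓞 K →* 𝓞 K) θ / θ)⁻¹ * x = 1 := by
      rw [inv_mul_eq_one, div_eq_iff_eq_mul]
      ext
      simp [← h]
    rw [h1]
    exact IsOfFinOrder.one
  · have h2 := hθ h
    have h1 : ((Units.map (s : 𝓞 K →* 𝓞 K) θ / θ)⁻¹ * x) ^ 2 = 1 := by
      have h3 : x = - (Units.map (s : 𝓞 K →* 𝓞 K) θ / θ) := by
        rw [← neg_div, eq_div_iff_mul_eq']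
        exact Units.ext h2
      rw [h3]
      simp
    rw [isOfFinOrder_iff_pow_eq_one]
    exact ⟨2, by norm_num, h1⟩

end RnrAmb
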