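import Mathlib

/-!
# Rnr, file Bes: row functions on a box of `ℤ^r`, almost orthogonality (Bessel inequality)
-/

namespace Pool.Agent.Rnr

open Finset ComplexConjugate

/-- Reduction of an integer vector modulo `q`. -/
def red {r : ℕ} (q : ℕ) (x : Fin r → ℤ) : Fin r → ZMod q := fun i => (x i : ZMod q)

/-- A lift of a vector modulo `q`. -/
def lft {r : ℕ} {q : ℕ} (y : Fin r → ZMod q) : Fin r → ℤ := fun i => ((y i).cast : ℤ)

theorem red_lft {r q : ℕ} (y : Fin r → ZMod q) : red q (lft y) = y := by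
  funext i
  simp [red, lft]

/-- `F` is periodic modulo `q`. -/
def Per {r : ℕ} (q : ℕ) (F : (Fin r → ℤ) → ℂ) : Prop :=
  ∀ x x' : Fin r → ℤ, red q x = red q x' → F x = F x'

theorem Per.of_dvd {r : ℕ} {q q' : ℕ} (h : q ∣ q') {F : (Fin r → ℤ) → ℂ} (hF : Per q F) :
    Per q' F := by
  intro x x' hx
  refine hF x x' ?_
  funext i
  have h1 : ((x i : ℤ) : ZMod q') = ((x' i : ℤ) : ZMod q') := congrFun hx i
  have h2 := congrArg (ZMod.castHom h (ZMod q)) h1
  simpa [red] using h2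

theorem Per.mul {r : ℕ} {q : ℕ} {F G : (Fin r → ℤ) → ℂ} (hF : Per q F) (hG : Per q G) :
    Per q (fun x => F x * G x) := by
  intro x x' hx
  simp only [hF x x' hx, hG x x' hx]

theorem Per.conj {r : ℕ} {q : ℕ} {F : (Fin r → ℤ) → ℂ} (hF : Per q F) :
    Per q (fun x => (starRingEnd ℂ) (F x)) := by
  intro x x' hx
  simp only [hF x x' hx]

theorem Per.prod {r : ℕ} {q : ℕ} {s : Finset ℕ} {F : ℕ → (Fin r → ℤ) → ℂ}
    (hF : ∀ l ∈ s, Per q (F l)) : Per q (fun x => ∏ l ∈ s, F l x) := by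
  intro x x' hx
  exact Finset.prod_congr rfl fun l hl => hF l hl x x' hx

private theorem bes_count (q m : ℕ) (hq : 0 < q) (a : ℤ) (z : ZMod q) :
    ((Ico a (a + m * q)).filter (fun t : ℤ => (t : ZMod q) = z)).card = m := by
  have : NeZero q := ⟨hq.ne'⟩
  have h1 : (Ico a (a + m * q)).filter (fun t : ℤ => (t : ZMod q) = z)
      = (Ico a (a + m * q)).filter (fun t : ℤ => t ≡ (z.cast : ℤ) [ZMOD (q : ℤ)]) := by
    refine Finset.filter_congr fun t _ => ?_
    rw [← ZMod.intCast_eq_intCast_iff]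
    simp
  rw [h1]
  have h2 := Int.Ico_filter_modEq_card a (a + m * q) (r := (q : ℤ)) (by exact_mod_cast hq)
    (z.cast : ℤ)
  have hq' : (q : ℚ) ≠ 0 := by exact_mod_cast hq.ne'
  have h3 : (((a + m * q : ℤ) : ℚ) - ((z.cast : ℤ) : ℚ)) / ((q : ℤ) : ℚ)
      = (((a : ℤ) : ℚ) - ((z.cast : ℤ) : ℚ)) / ((q : ℤ) : ℚ) + (m : ℤ) := by
    push_cast
    field_simp
    ring
  have h4 : ((((Ico a (a + m * q)).filter
      (fun t : ℤ => t ≡ (z.cast : ℤ) [ZMOD (q : ℤ)])).card : ℕ) : ℤ) = m := by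
    rw [h2]
    rw [h3, Int.ceil_add_intCast]
    simp
  exact_mod_cast h4

/-- Sum of a periodic function over a cube whose side is a multiple of the period. -/
theorem sum_cube {r : ℕ} {q : ℕ} [NeZero q] (m : ℕ) (a : ℤ) {F : (Fin r → ℤ) → ℂ}
    (hF : Per q F) :
    ∑ x ∈ Fintype.piFinset (fun _ : Fin r => Ico a (a + m * q)), F x
      = (m : ℂ) ^ r * ∑ y : Fin r → ZMod q, F (lft y) := by
  classical
  have h1 : ∀ x : Fin r → ℤ, F x = F (lft (red q x)) := fun x =>
    hF x _ (by rw [red_lft])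
  have h2 : ∑ x ∈ Fintype.piFinset (fun _ : Fin r => Ico a (a + m * q)), F x
      = ∑ y : Fin r → ZMod q, ∑ x ∈ (Fintype.piFinset (fun _ : Fin r => Ico a (a + m * q))).filter
          (fun x => red q x = y), F x := by
    rw [Finset.sum_fiberwise]
  rw [h2, Finset.mul_sum]
  refine Finset.sum_congr rfl fun y _ => ?_
  have h3 : ∀ x ∈ (Fintype.piFinset (fun _ : Fin r => Ico a (a + m * q))).filter
      (fun x => red q x = y), F x = F (lft y) := by
    intro x hx
    rw [h1 x, (Finset.mem_filter.mp hx).2]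
  rw [Finset.sum_congr rfl h3, Finset.sum_const, nsmul_eq_mul]
  congr 1
  have h4 : (Fintype.piFinset (fun _ : Fin r => Ico a (a + m * q))).filter
      (fun x => red q x = y)
      = Fintype.piFinset (fun i : Fin r => (Ico a (a + m * q)).filter
          (fun t : ℤ => (t : ZMod q) = y i)) := by
    ext x
    simp only [Finset.mem_filter, Fintype.mem_piFinset, red, funext_iff]
    constructor
    · rintro ⟨h, h'⟩ i
      exact ⟨h i, h' i⟩
    · intro h
      exact ⟨fun i => (h i).1, fun i => (h i).2⟩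
  rw [h4, Fintype.card_piFinset]
  have h5 : ∀ i : Fin r, ((Ico a (a + m * q)).filter
          (fun t : ℤ => (t : ZMod q) = y i)).card = m := fun i =>
    bes_count q m (Nat.pos_of_ne_zero (NeZero.ne q)) a (y i)
  simp [h5]

/-- Chinese remainder for sums over a period. -/
theorem sum_crt {r : ℕ} {l q : ℕ} [NeZero l] [NeZero q] [NeZero (l * q)] (h : l.Coprime q)
    {F G : (Fin r → ℤ) → ℂ} (hF : Per l F) (hG : Per q G) :
    ∑ y : Fin r → ZMod (l * q), F (lft y) * G (lft y)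
      = (∑ y : Fin r → ZMod l, F (lft y)) * ∑ y : Fin r → ZMod q, G (lft y) := by
  classical
  rw [Finset.sum_mul_sum, ← Finset.sum_product', Finset.univ_product_univ]
  let e : (Fin r → ZMod (l * q)) ≃ (Fin r → ZMod l) × (Fin r → ZMod q) :=
    (Equiv.arrowCongr (Equiv.refl (Fin r)) (ZMod.chineseRemainder h).toEquiv).trans
      (Equiv.arrowProdEquivProdArrow (Fin r) (fun _ => ZMod l) (fun _ => ZMod q))
  refine Fintype.sum_equiv e _ _ fun y => ?_
  have h1 : F (lft y) = F (lft (e y).1) := by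
    refine hF _ _ ?_
    rw [red_lft]
    funext i
    have h3 : (e y).1 i = (ZMod.chineseRemainder h (y i)).1 := rfl
    rw [h3]
    have h4 : ((ZMod.chineseRemainder h) (y i)).1 = ((y i).cast : ZMod l) := by
      have := ZMod.chineseRemainder h
      simp [ZMod.chineseRemainder]
    rw [h4]
    simp only [red, lft]
    rw [ZMod.intCast_cast]
  have h2 : G (lft y) = G (lft (e y).2) := by
    refine hG _ _ ?_
    rw [red_lft]
    funext i
    have h3 : (e y).2 i = (ZMod.chineseRemainder h (y i)).2 := rfl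
    rw [h3]
    have h4 : ((ZMod.chineseRemainder h) (y i)).2 = ((y i).cast : ZMod q) := by
      simp [ZMod.chineseRemainder]
    rw [h4]
    simp only [red, lft]
    rw [ZMod.intCast_cast]
  rw [h1, h2]

private theorem bes_pow (r : ℕ) (M s : ℝ) (hM : 0 < M) (hs : 0 ≤ s) :
    M ^ r - s ^ r ≤ r * (M - s) * M ^ (r - 1) := by
  rcases Nat.eq_zero_or_pos r with h | h
  · subst h
    simp
  have h1 := one_add_mul_le_pow (a := s / M - 1) (by
    have : 0 ≤ s / M := div_nonneg hs hM.le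
    linarith) r
  have h2 : 1 + (s / M - 1) = s / M := by ring
  rw [h2, div_pow] at h1
  have h3 : 0 < M ^ r := pow_pos hM r
  have h4 := mul_le_mul_of_nonneg_left h1 h3.le
  have h5 : M ^ r * (s ^ r / M ^ r) = s ^ r := by
    field_simp
  rw [h5] at h4
  have h6 : M ^ r * (1 + (r : ℝ) * (s / M - 1)) = M ^ r - r * (M - s) * M ^ (r - 1) := by
    have h7 : M ^ r = M ^ (r - 1) * M := by
      rw [← pow_succ]
      congr 1
      omega
    rw [h7]
    field_simp
    ring
  linarith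

/-- Sum of a periodic function with vanishing mean over the box `[-T,T]^r`. -/
theorem sum_box {r : ℕ} {q : ℕ} [NeZero q] (T : ℕ) {F : (Fin r → ℤ) → ℂ}
    (hF : Per q F) (h1 : ∀ x, ‖F x‖ ≤ 1) (h0 : ∑ y : Fin r → ZMod q, F (lft y) = 0) :
    ‖∑ x ∈ Fintype.piFinset (fun _ : Fin r => Icc (-(T : ℤ)) T), F x‖
      ≤ r * q * (2 * T + 1) ^ (r - 1) := by
  classical
  have hq : 0 < q := Nat.pos_of_ne_zero (NeZero.ne q)
  set M : ℕ := 2 * T + 1 with hM
  set m : ℕ := M / q with hm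
  have hmM : m * q ≤ M := Nat.div_mul_le_self M q
  have hmM' : M < (m + 1) * q := by
    have := Nat.lt_div_mul_add (a := M) hq
    rw [← hm] at this
    linarith
  set A : Finset (Fin r → ℤ) := Fintype.piFinset (fun _ : Fin r => Icc (-(T : ℤ)) T) with hA
  set A' : Finset (Fin r → ℤ) :=
    Fintype.piFinset (fun _ : Fin r => Ico (-(T : ℤ)) (-(T : ℤ) + m * q)) with hA'
  have hsub : A' ⊆ A := by
    refine Fintype.piFinset_subset _ _ fun _ => ?_
    intro t ht
    rw [Finset.mem_Ico] at ht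
    rw [Finset.mem_Icc]
    refine ⟨ht.1, ?_⟩
    have : ((m * q : ℕ) : ℤ) ≤ (M : ℤ) := by exact_mod_cast hmM
    push_cast at this
    have h3 : (M : ℤ) = 2 * T + 1 := by rw [hM]; push_cast; ring
    rw [h3] at this
    linarith [ht.2]
  have hcA : A.card = M ^ r := by
    rw [hA, Fintype.card_piFinset]
    simp only [Int.card_Icc, Finset.prod_const, Finset.card_univ, Fintype.card_fin]
    congr 1
    omega
  have hcA' : A'.card = (m * q) ^ r := by
    rw [hA', Fintype.card_piFinset]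
    simp only [Int.card_Ico, Finset.prod_const, Finset.card_univ, Fintype.card_fin]
    congr 1
    have : (-(T : ℤ) + m * q - -(T : ℤ)) = ((m * q : ℕ) : ℤ) := by push_cast; ring
    rw [this]
    exact Int.toNat_natCast (m * q)
  rw [← Finset.sum_sdiff hsub, hA', sum_cube m _ hF, h0, mul_zero, add_zero]
  have h2 : ‖∑ x ∈ A \ A', F x‖ ≤ ((A \ A').card : ℝ) := by
    refine (norm_sum_le _ _).trans ?_
    refine (Finset.sum_le_sum fun x _ => h1 x).trans ?_
    simp
  have h3 : ((A \ A').card : ℝ) = (M : ℝ) ^ r - ((m : ℝ) * q) ^ r := by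
    rw [Finset.card_sdiff_of_subset hsub, Nat.cast_sub (Finset.card_le_card hsub), hcA, hcA']
    push_cast
    ring
  have h4 := bes_pow r (M : ℝ) ((m : ℝ) * q) (by rw [hM]; positivity) (by positivity)
  have h5 : (M : ℝ) - (m : ℝ) * q ≤ q := by
    have : (M : ℝ) < ((m : ℝ) + 1) * q := by exact_mod_cast hmM'
    linarith
  have h6 : (r : ℝ) * ((M : ℝ) - (m : ℝ) * q) * (M : ℝ) ^ (r - 1)
      ≤ r * q * (M : ℝ) ^ (r - 1) := by
    refine mul_le_mul_of_nonneg_right ?_ (by positivity)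
    exact mul_le_mul_of_nonneg_left h5 (by positivity)
  have h7 : (M : ℝ) = 2 * T + 1 := by rw [hM]; push_cast; ring
  rw [← h7]
  linarith

/-- Row functions with vanishing means are almost orthogonal on the box. -/
theorem row_orth {r : ℕ} (T : ℕ) {g : (l : ℕ) → (Fin r → ZMod l) → ℂ}
    {D D' : Finset ℕ} (hD : ∀ l ∈ D, l.Prime) (hD' : ∀ l ∈ D', l.Prime)
    (h1 : ∀ l ∈ D, ∀ x, ‖g l x‖ ≤ 1) (h1' : ∀ l ∈ D', ∀ x, ‖g l x‖ ≤ 1)
    (h0 : ∀ l ∈ D, ∀ [NeZero l], ∑ x : Fin r → ZMod l, g l x = 0)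
    (l0 : ℕ) (hl0 : l0 ∈ D) (hl0' : l0 ∉ D') :
    ‖∑ x ∈ Fintype.piFinset (fun _ : Fin r => Icc (-(T : ℤ)) T),
        (∏ l ∈ D, g l (red l x)) * (starRingEnd ℂ) (∏ l ∈ D', g l (red l x))‖
      ≤ r * ((∏ l ∈ D, (l : ℝ)) * ∏ l ∈ D', (l : ℝ)) * (2 * T + 1) ^ (r - 1) := by
  classical
  set q' : ℕ := (∏ l ∈ D.erase l0, l) * ∏ l ∈ D', l with hq'
  have hl0p : l0.Prime := hD l0 hl0
  have hz0 : NeZero l0 := ⟨hl0p.ne_zero⟩
  have hq0 : q' ≠ 0 := by
    rw [hq']
    refine mul_ne_zero ?_ ?_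
    · exact Finset.prod_ne_zero_iff.mpr fun l hl => (hD l (Finset.mem_of_mem_erase hl)).ne_zero
    · exact Finset.prod_ne_zero_iff.mpr fun l hl => (hD' l hl).ne_zero
  have hzq : NeZero q' := ⟨hq0⟩
  have hzl : NeZero (l0 * q') := ⟨mul_ne_zero hl0p.ne_zero hq0⟩
  have hcop : l0.Coprime q' := by
    rw [hq']
    refine Nat.Coprime.mul_right ?_ ?_
    · refine Nat.Coprime.prod_right fun l hl => ?_
      rw [Nat.coprime_primes hl0p (hD l (Finset.mem_of_mem_erase hl))]
      exact fun h => (Finset.ne_of_mem_erase hl) h.symm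
    · refine Nat.Coprime.prod_right fun l hl => ?_
      rw [Nat.coprime_primes hl0p (hD' l hl)]
      rintro rfl
      exact hl0' hl
  set F1 : (Fin r → ℤ) → ℂ := fun x => g l0 (red l0 x) with hF1
  set F2 : (Fin r → ℤ) → ℂ := fun x => (∏ l ∈ D.erase l0, g l (red l x)) *
    (starRingEnd ℂ) (∏ l ∈ D', g l (red l x)) with hF2
  have hbase : ∀ l : ℕ, Per l (fun x : Fin r → ℤ => g l (red l x)) := by
    intro l x x' hx
    simp only [hx]
  have hP1 : Per l0 F1 := hbase l0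
  have hP2 : Per q' F2 := by
    rw [hF2]
    refine Per.mul ?_ ?_
    · refine Per.prod fun l hl => (hbase l).of_dvd ?_
      rw [hq']
      exact Dvd.dvd.mul_right (Finset.dvd_prod_of_mem _ hl) _
    · refine Per.conj (Per.prod fun l hl => (hbase l).of_dvd ?_)
      rw [hq']
      exact Dvd.dvd.mul_left (Finset.dvd_prod_of_mem _ hl) _
  have hsplit : ∀ x : Fin r → ℤ,
      (∏ l ∈ D, g l (red l x)) * (starRingEnd ℂ) (∏ l ∈ D', g l (red l x)) = F1 x * F2 x := by
    intro x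
    rw [hF1, hF2]
    simp only
    rw [← mul_assoc, Finset.mul_prod_erase D (fun l => g l (red l x)) hl0]
  have hP : Per (l0 * q') (fun x => F1 x * F2 x) :=
    Per.mul (hP1.of_dvd (Dvd.intro _ rfl)) (hP2.of_dvd (Dvd.intro_left _ rfl))
  have hnorm : ∀ x, ‖F1 x * F2 x‖ ≤ 1 := by
    intro x
    rw [← hsplit, norm_mul, RCLike.norm_conj, norm_prod, norm_prod]
    refine mul_le_one₀ ?_ (by positivity) ?_
    · exact Finset.prod_le_one (fun _ _ => norm_nonneg _) fun l hl => h1 l hl _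
    · exact Finset.prod_le_one (fun _ _ => norm_nonneg _) fun l hl => h1' l hl _
  have hsum0 : ∑ y : Fin r → ZMod (l0 * q'), F1 (lft y) * F2 (lft y) = 0 := by
    rw [sum_crt hcop hP1 hP2]
    have : ∑ y : Fin r → ZMod l0, F1 (lft y) = 0 := by
      have h := h0 l0 hl0
      rw [← h]
      refine Finset.sum_congr rfl fun y _ => ?_
      rw [hF1]
      simp only [red_lft]
    rw [this, zero_mul]
  have hfin := sum_box T hP hnorm hsum0
  have hcong : ∑ x ∈ Fintype.piFinset (fun _ : Fin r => Icc (-(T : ℤ)) T),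
        (∏ l ∈ D, g l (red l x)) * (starRingEnd ℂ) (∏ l ∈ D', g l (red l x))
      = ∑ x ∈ Fintype.piFinset (fun _ : Fin r => Icc (-(T : ℤ)) T), F1 x * F2 x :=
    Finset.sum_congr rfl fun x _ => hsplit x
  rw [hcong]
  refine hfin.trans (le_of_eq ?_)
  have : ((l0 * q' : ℕ) : ℝ) = (∏ l ∈ D, (l : ℝ)) * ∏ l ∈ D', (l : ℝ) := by
    rw [hq', ← Finset.mul_prod_erase D (fun l => (l : ℝ)) hl0]
    push_cast
    ring
  rw [this]

/-- **Bessel inequality.** -/
theorem bessel {r : ℕ} (T : ℕ) (X : ℕ) (L : Finset ℕ) (hL : ∀ l ∈ L, l.Prime)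
    (g : (l : ℕ) → (Fin r → ZMod l) → ℂ)
    (h1 : ∀ l ∈ L, ∀ x, ‖g l x‖ ≤ 1)
    (h0 : ∀ l ∈ L, ∀ [NeZero l], ∑ x : Fin r → ZMod l, g l x = 0)
    (DD : Finset (Finset ℕ)) (hDD : ∀ D ∈ DD, D ⊆ L) (hX : ∀ D ∈ DD, ∏ l ∈ D, l ≤ X)
    (G : Finset (Fin r → ℤ)) (hG : ∀ x ∈ G, ∀ i, |x i| ≤ (T : ℤ))
    (cst : Finset ℕ → ℂ) (hc : ∀ D ∈ DD, ‖cst D‖ = 1)
    (hR : ∀ D ∈ DD, ∀ x ∈ G, ∏ l ∈ D, g l (red l x) = cst D) :
    (G.card : ℝ) * DD.card
      ≤ (2 * T + 1) ^ r + DD.card * (r * (X : ℝ) ^ 2 * (2 * T + 1) ^ (r - 1)) := by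
  classical
  set B : Finset (Fin r → ℤ) := Fintype.piFinset (fun _ : Fin r => Icc (-(T : ℤ)) T) with hB
  set R : Finset ℕ → (Fin r → ℤ) → ℂ := fun D x => ∏ l ∈ D, g l (red l x) with hRdef
  set S : (Fin r → ℤ) → ℂ := fun x => ∑ D ∈ DD, (starRingEnd ℂ) (cst D) * R D x with hS
  set I : Finset ℕ → Finset ℕ → ℂ := fun D D' => ∑ x ∈ B, R D x * (starRingEnd ℂ) (R D' x) with hI
  have hGB : G ⊆ B := by
    intro x hx
    rw [hB, Fintype.mem_piFinset]
    intro i
    rw [Finset.mem_Icc]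
    exact abs_le.mp (hG x hx i)
  have hSG : ∀ x ∈ G, ‖S x‖ ^ 2 = (DD.card : ℝ) ^ 2 := by
    intro x hx
    have : S x = (DD.card : ℂ) := by
      rw [hS]
      simp only
      have : ∀ D ∈ DD, (starRingEnd ℂ) (cst D) * R D x = 1 := by
        intro D hD
        rw [hRdef]
        simp only
        rw [hR D hD x hx, mul_comm, Complex.mul_conj, Complex.normSq_eq_norm_sq, hc D hD]
        simp
      rw [Finset.sum_congr rfl this]
      simp
    rw [this]
    simp
  have hlow : (G.card : ℝ) * (DD.card : ℝ) ^ 2 ≤ ∑ x ∈ B, ‖S x‖ ^ 2 := by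
    have h2 : ∑ x ∈ G, ‖S x‖ ^ 2 = (G.card : ℝ) * (DD.card : ℝ) ^ 2 := by
      rw [Finset.sum_congr rfl hSG]
      simp
    rw [← h2]
    exact Finset.sum_le_sum_of_subset_of_nonneg hGB fun _ _ _ => by positivity
  have hexp : ((∑ x ∈ B, ‖S x‖ ^ 2 : ℝ) : ℂ)
      = ∑ D ∈ DD, ∑ D' ∈ DD, (starRingEnd ℂ) (cst D) * cst D' * I D D' := by
    have h3 : ∀ x, ((‖S x‖ ^ 2 : ℝ) : ℂ) = ∑ D ∈ DD, ∑ D' ∈ DD,
        (starRingEnd ℂ) (cst D) * cst D' * (R D x * (starRingEnd ℂ) (R D' x)) := by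
      intro x
      rw [← Complex.normSq_eq_norm_sq, ← Complex.mul_conj, hS]
      simp only
      rw [map_sum, Finset.sum_mul_sum]
      refine Finset.sum_congr rfl fun D _ => Finset.sum_congr rfl fun D' _ => ?_
      rw [map_mul, Complex.conj_conj]
      ring
    rw [Complex.ofReal_sum, Finset.sum_congr rfl fun x _ => h3 x, Finset.sum_comm]
    refine Finset.sum_congr rfl fun D _ => ?_
    rw [Finset.sum_comm]
    refine Finset.sum_congr rfl fun D' _ => ?_
    rw [hI, Finset.mul_sum]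
  have hI1 : ∀ D ∈ DD, ‖I D D‖ ≤ (2 * T + 1) ^ r := by
    intro D hD
    rw [hI]
    refine (norm_sum_le _ _).trans ?_
    have h4 : ∀ x ∈ B, ‖R D x * (starRingEnd ℂ) (R D x)‖ ≤ 1 := by
      intro x _
      rw [norm_mul, RCLike.norm_conj]
      have : ‖R D x‖ ≤ 1 := by
        rw [hRdef]
        simp only
        rw [norm_prod]
        exact Finset.prod_le_one (fun _ _ => norm_nonneg _) fun l hl => h1 l (hDD D hD hl) _
      exact mul_le_one₀ this (norm_nonneg _) this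
    refine (Finset.sum_le_sum h4).trans ?_
    rw [Finset.sum_const, nsmul_eq_mul, mul_one, hB, Fintype.card_piFinset]
    simp only [Int.card_Icc, Finset.prod_const, Finset.card_univ, Fintype.card_fin]
    have : ((T : ℤ) + 1 - -(T : ℤ)).toNat = 2 * T + 1 := by omega
    rw [this]
    push_cast
    exact le_refl _
  have hI2 : ∀ D ∈ DD, ∀ D' ∈ DD, D ≠ D' → ‖I D D'‖ ≤ r * (X : ℝ) ^ 2 * (2 * T + 1) ^ (r - 1) := by
    intro D hD D' hD' hne
    have hprod : (∏ l ∈ D, (l : ℝ)) * ∏ l ∈ D', (l : ℝ) ≤ (X : ℝ) ^ 2 := by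
      have a1 : (∏ l ∈ D, (l : ℝ)) ≤ X := by
        rw [← Nat.cast_prod]
        exact Nat.cast_le.mpr (hX D hD)
      have a2 : (∏ l ∈ D', (l : ℝ)) ≤ X := by
        rw [← Nat.cast_prod]
        exact Nat.cast_le.mpr (hX D' hD')
      rw [pow_two]
      exact mul_le_mul a1 a2 (by positivity) (by positivity)
    have hkey : ‖I D D'‖ ≤ r * ((∏ l ∈ D, (l : ℝ)) * ∏ l ∈ D', (l : ℝ)) * (2 * T + 1) ^ (r - 1) := by
      by_cases hsub : D ⊆ D'
      · have hsub' : ¬ D' ⊆ D := fun h => hne (Finset.Subset.antisymm hsub h)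
        obtain ⟨l0, hl0, hl0'⟩ := Finset.not_subset.mp hsub'
        have h5 := row_orth T (g := g) (D := D') (D' := D) (fun l hl => hL l (hDD D' hD' hl))
          (fun l hl => hL l (hDD D hD hl)) (fun l hl => h1 l (hDD D' hD' hl))
          (fun l hl => h1 l (hDD D hD hl)) (fun l hl => h0 l (hDD D' hD' hl)) l0 hl0 hl0'
        have h6 : I D D' = (starRingEnd ℂ) (I D' D) := by
          rw [hI]
          simp only
          rw [map_sum]
          refine Finset.sum_congr rfl fun x _ => ?_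
          rw [map_mul, Complex.conj_conj, mul_comm]
        rw [h6, RCLike.norm_conj, mul_comm (∏ l ∈ D, (l : ℝ))]
        exact h5
      · obtain ⟨l0, hl0, hl0'⟩ := Finset.not_subset.mp hsub
        exact row_orth T (g := g) (D := D) (D' := D') (fun l hl => hL l (hDD D hD hl))
          (fun l hl => hL l (hDD D' hD' hl)) (fun l hl => h1 l (hDD D hD hl))
          (fun l hl => h1 l (hDD D' hD' hl)) (fun l hl => h0 l (hDD D hD hl)) l0 hl0 hl0'
    refine hkey.trans ?_
    refine mul_le_mul_of_nonneg_right ?_ (by positivity)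
    exact mul_le_mul_of_nonneg_left hprod (by positivity)
  have hup : ∑ x ∈ B, ‖S x‖ ^ 2
      ≤ (DD.card : ℝ) * ((2 * T + 1) ^ r + DD.card * (r * (X : ℝ) ^ 2 * (2 * T + 1) ^ (r - 1))) := by
    have h7 : ∑ x ∈ B, ‖S x‖ ^ 2 = ‖((∑ x ∈ B, ‖S x‖ ^ 2 : ℝ) : ℂ)‖ := by
      rw [Complex.norm_real, Real.norm_of_nonneg]
      exact Finset.sum_nonneg fun _ _ => by positivity
    rw [h7, hexp]
    refine (norm_sum_le _ _).trans ?_
    rw [← nsmul_eq_mul, ← Finset.sum_const]
    refine Finset.sum_le_sum fun D hD => ?_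
    refine (norm_sum_le _ _).trans ?_
    rw [← Finset.add_sum_erase DD _ hD]
    refine add_le_add ?_ ?_
    · rw [norm_mul, norm_mul, RCLike.norm_conj, hc D hD, one_mul, one_mul]
      exact hI1 D hD
    · have h8 : ∀ D' ∈ DD.erase D, ‖(starRingEnd ℂ) (cst D) * cst D' * I D D'‖
          ≤ r * (X : ℝ) ^ 2 * (2 * T + 1) ^ (r - 1) := by
        intro D' hD'
        rw [norm_mul, norm_mul, RCLike.norm_conj, hc D hD, hc D' (Finset.mem_of_mem_erase hD'),
          one_mul, one_mul]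
        exact hI2 D hD D' (Finset.mem_of_mem_erase hD') (Finset.ne_of_mem_erase hD').symm
      refine (Finset.sum_le_sum h8).trans ?_
      rw [Finset.sum_const, nsmul_eq_mul]
      refine mul_le_mul_of_nonneg_right ?_ (by positivity)
      exact_mod_cast Finset.card_le_card (Finset.erase_subset _ _)
  rcases Nat.eq_zero_or_pos DD.card with h | h
  · rw [h]
    simp only [Nat.cast_zero, mul_zero, zero_mul, add_zero]
    positivity
  · have hpos : (0 : ℝ) < DD.card := by exact_mod_cast h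
    have h9 := hlow.trans hup
    have h10 : (DD.card : ℝ) * ((G.card : ℝ) * DD.card)
        ≤ (DD.card : ℝ) * ((2 * T + 1) ^ r + DD.card * (r * (X : ℝ) ^ 2 * (2 * T + 1) ^ (r - 1))) := by
      calc (DD.card : ℝ) * ((G.card : ℝ) * DD.card) = (G.card : ℝ) * (DD.card : ℝ) ^ 2 := by ring
        _ ≤ _ := h9
    exact le_of_mul_le_mul_left h10 hpos

end Pool.Agent.Rnr
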