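import Pool.Agent.Rnr.Defs

/-!
# Rnr, file Chr: elementary properties of the characters and of the functional `Sf`
-/

namespace Pool.Agent.Rnr

open NumberField

variable {r : ℕ} {c : Chars r}

/-! ## module H1 -/

theorem X_nonunit (c : Chars r) (l : ℕ) (a : ZMod l) (h : ¬ IsUnit a) : X c l a = 0 := by
  unfold X
  rw [dif_neg h]

theorem X_unit (c : Chars r) (l : ℕ) (u : (ZMod l)ˣ) :
    X c l (u : ZMod l) = Multiplicative.toAdd (c l u) := by
  unfold X
  rw [dif_pos u.isUnit]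
  congr 2
  exact Units.ext rfl

theorem X_mul (c : Chars r) (l : ℕ) (a b : ZMod l) (ha : IsUnit a) (hb : IsUnit b) :
    X c l (a * b) = X c l a + X c l b := by
  obtain ⟨u, rfl⟩ := ha
  obtain ⟨v, rfl⟩ := hb
  rw [← Units.val_mul, X_unit, X_unit, X_unit, map_mul, toAdd_mul]

theorem X_one (c : Chars r) (l : ℕ) : X c l 1 = 0 := by
  rw [← Units.val_one, X_unit, map_one, toAdd_one]

theorem X_pow (c : Chars r) (l : ℕ) (a : ZMod l) (k : ℕ) : X c l (a ^ k) = k * X c l a := by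
  by_cases ha : IsUnit a
  · obtain ⟨u, rfl⟩ := ha
    rw [← Units.val_pow_eq_pow_val, X_unit, X_unit, map_pow, toAdd_pow, nsmul_eq_mul]
  · rcases Nat.eq_zero_or_pos k with rfl | hk
    · rw [pow_zero, X_one, Nat.cast_zero, zero_mul]
    · rw [X_nonunit c l a ha, mul_zero]
      apply X_nonunit
      intro h
      exact ha ((isUnit_pow_iff hk.ne').1 h)

theorem two_unit (hr : r.Prime) (h2 : r ≠ 2) : (2 : ZMod r) ≠ 0 := by
  have : Fact r.Prime := ⟨hr⟩
  intro h
  have h' : ((2 : ℕ) : ZMod r) = 0 := by exact_mod_cast h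
  rw [ZMod.natCast_eq_zero_iff] at h'
  exact h2 ((Nat.prime_dvd_prime_iff_eq hr Nat.prime_two).1 h')

/-- `2 X(-1) = X(1) = 0` and `2` is invertible mod `r`. -/
theorem X_neg_one (hr : r.Prime) (h2 : r ≠ 2) (c : Chars r) (l : ℕ) : X c l (-1) = 0 := by
  have : Fact r.Prime := ⟨hr⟩
  have h := X_mul c l (-1) (-1) isUnit_one.neg isUnit_one.neg
  rw [neg_mul_neg, one_mul, X_one, ← two_mul] at h
  rcases mul_eq_zero.1 h.symm with h | h
  · exact absurd h (two_unit hr h2)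
  · exact h

theorem X_neg (hr : r.Prime) (h2 : r ≠ 2) (c : Chars r) (l : ℕ) (a : ZMod l) :
    X c l (-a) = X c l a := by
  by_cases ha : IsUnit a
  · have h := X_mul c l (-1) a isUnit_one.neg ha
    rw [neg_mul, one_mul, X_neg_one hr h2, zero_add] at h
    exact h
  · rw [X_nonunit c l a ha, X_nonunit c l (-a) (fun h => ha (by simpa using h.neg))]

theorem X_prod {ι : Type*} (c : Chars r) (l : ℕ) (s : Finset ι) (f : ι → ZMod l)
    (h : ∀ i ∈ s, IsUnit (f i)) : X c l (∏ i ∈ s, f i) = ∑ i ∈ s, X c l (f i) := by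
  classical
  induction s using Finset.induction_on with
  | empty => rw [Finset.prod_empty, Finset.sum_empty, X_one]
  | insert a s ha ih =>
    rw [Finset.prod_insert ha, Finset.sum_insert ha, X_mul, ih]
    · intro i hi
      exact h i (Finset.mem_insert_of_mem hi)
    · exact h a (Finset.mem_insert_self a s)
    · exact IsUnit.prod_iff.2 (fun i hi => h i (Finset.mem_insert_of_mem hi))

/-! ## module H2 (characters and r-th powers) -/

theorem r_dvd (hr : r.Prime) (c : Chars r) (l : ℕ) (hl : l.Prime)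
    (hc : Function.Surjective (c l)) : r ∣ l - 1 := by
  have : Fact r.Prime := ⟨hr⟩
  have : Fact l.Prime := ⟨hl⟩
  have h := Subgroup.card_dvd_of_surjective (c l) hc
  rwa [Nat.card_eq_fintype_card, Nat.card_eq_fintype_card, ZMod.card_units,
    Fintype.card_multiplicative, ZMod.card] at h

/-- `(ZMod l)ˣ` is cyclic of order `l - 1`; the kernel of `c l` is the subgroup of index `r`, i.e. the
elements with `a ^ ((l-1)/r) = 1`. -/
theorem X_eq_zero_iff (hr : r.Prime) (c : Chars r) (l : ℕ) (hl : l.Prime)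
    (hc : Function.Surjective (c l)) (a : ZMod l) (ha : a ≠ 0) :
    X c l a = 0 ↔ a ^ ((l - 1) / r) = 1 := by
  have : Fact r.Prime := ⟨hr⟩
  have : Fact l.Prime := ⟨hl⟩
  obtain ⟨u, rfl⟩ := ha.isUnit
  rw [X_unit, ← Units.val_pow_eq_pow_val, Units.val_eq_one, toAdd_eq_zero]
  obtain ⟨g, hg⟩ := IsCyclic.exists_generator (α := (ZMod l)ˣ)
  have hog : orderOf g = l - 1 := by
    rw [orderOf_eq_card_of_forall_mem_zpowers hg, Nat.card_eq_fintype_card, ZMod.card_units]
  have hz : ∀ y : Multiplicative (ZMod r), y ∈ Subgroup.zpowers (c l g) := by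
    intro y
    obtain ⟨v, rfl⟩ := hc y
    obtain ⟨k, rfl⟩ := Subgroup.mem_zpowers_iff.1 (hg v)
    rw [map_zpow]
    exact Subgroup.mem_zpowers_iff.2 ⟨k, rfl⟩
  have hoz : orderOf (c l g) = r := by
    rw [orderOf_eq_card_of_forall_mem_zpowers hz, Nat.card_eq_fintype_card,
      Fintype.card_multiplicative, ZMod.card]
  obtain ⟨k, rfl⟩ := (mem_powers_iff_mem_zpowers.2 (hg u) : u ∈ Submonoid.powers g)
  obtain ⟨m, hm⟩ := r_dvd hr c l hl hc
  have hl1 : 0 < l - 1 := Nat.sub_pos_of_lt hl.one_lt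
  have hm0 : 0 < m := Nat.pos_of_ne_zero (by rintro rfl; omega)
  simp only [map_pow]
  rw [← orderOf_dvd_iff_pow_eq_one, hoz, ← pow_mul, ← orderOf_dvd_iff_pow_eq_one, hog, hm,
    Nat.mul_div_cancel_left _ hr.pos]
  exact (Nat.mul_dvd_mul_iff_right hm0).symm

/-- apply `X_eq_zero_iff` to `a / b`. -/
theorem X_eq_iff (hr : r.Prime) (c : Chars r) (l : ℕ) (hl : l.Prime)
    (hc : Function.Surjective (c l)) (a b : ZMod l) (ha : a ≠ 0) (hb : b ≠ 0) :
    X c l a = X c l b ↔ a ^ ((l - 1) / r) = b ^ ((l - 1) / r) := by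
  have : Fact l.Prime := ⟨hl⟩
  have h1 : X c l a = X c l (a * b⁻¹) + X c l b := by
    rw [← X_mul c l (a * b⁻¹) b (mul_ne_zero ha (inv_ne_zero hb)).isUnit hb.isUnit,
      mul_assoc, inv_mul_cancel₀ hb, mul_one]
  rw [h1, add_eq_right, X_eq_zero_iff hr c l hl hc _ (mul_ne_zero ha (inv_ne_zero hb)),
    mul_pow, inv_pow, mul_inv_eq_one₀ (pow_ne_zero _ hb)]

/-- For every prime `l` with `r ∣ l - 1` there is a surjective character; choose a family `c`. -/
theorem exists_chars (hr : r.Prime) :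
    ∃ c : Chars r, ∀ l : ℕ, l.Prime → r ∣ l - 1 → Function.Surjective (c l) := by
  classical
  have key : ∀ l : ℕ, ∃ f : (ZMod l)ˣ →* Multiplicative (ZMod r),
      l.Prime → r ∣ l - 1 → Function.Surjective f := by
    intro l
    by_cases h : l.Prime ∧ r ∣ l - 1
    · obtain ⟨hl, hd⟩ := h
      have : Fact l.Prime := ⟨hl⟩
      have : NeZero (l - 1) := ⟨(Nat.sub_pos_of_lt hl.one_lt).ne'⟩
      have : NeZero r := ⟨hr.ne_zero⟩
      have hcard : Nat.card (Multiplicative (ZMod (l - 1))) = Nat.card (ZMod l)ˣ := by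
        rw [Nat.card_eq_fintype_card, Nat.card_eq_fintype_card, ZMod.card_units,
          Fintype.card_multiplicative, ZMod.card]
      let e : (ZMod l)ˣ ≃* Multiplicative (ZMod (l - 1)) :=
        mulEquivOfCyclicCardEq hcard.symm
      let f : Multiplicative (ZMod (l - 1)) →* Multiplicative (ZMod r) :=
        AddMonoidHom.toMultiplicative (ZMod.castHom hd (ZMod r)).toAddMonoidHom
      refine ⟨f.comp e.toMonoidHom, fun _ _ => ?_⟩
      have hf : Function.Surjective f := by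
        intro y
        obtain ⟨x, hx⟩ := ZMod.castHom_surjective hd (Multiplicative.toAdd y)
        exact ⟨Multiplicative.ofAdd x, congrArg Multiplicative.ofAdd hx⟩
      exact hf.comp e.surjective
    · exact ⟨1, fun h1 h2 => absurd ⟨h1, h2⟩ h⟩
  choose c hc using key
  exact ⟨c, hc⟩

/-! ## module H3 (psi) -/

theorem isUnit_cast {l : ℕ} (hl : l.Prime) {u : ℤ} (hu : ¬ (l : ℤ) ∣ u) : IsUnit (u : ZMod l) := by
  have : Fact l.Prime := ⟨hl⟩
  refine Ne.isUnit (fun h => hu ?_)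
  exact (ZMod.intCast_zmod_eq_zero_iff_dvd u l).1 h

theorem psi_mul (c : Chars r) (S : Finset ℕ) (f : ℕ → ZMod r) (hS : ∀ l ∈ S, l.Prime) (u v : ℤ)
    (hu : ∀ l ∈ S, ¬ (l : ℤ) ∣ u) (hv : ∀ l ∈ S, ¬ (l : ℤ) ∣ v) :
    psi c S f (u * v) = psi c S f u + psi c S f v := by
  unfold psi
  rw [← Finset.sum_add_distrib]
  refine Finset.sum_congr rfl (fun l hl => ?_)
  rw [Int.cast_mul, X_mul c l _ _ (isUnit_cast (hS l hl) (hu l hl))
    (isUnit_cast (hS l hl) (hv l hl)), mul_add]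

/-- The values `X c l v`, `l ∈ S`, of an integer prime to `cond S` can be prescribed (CRT). -/
theorem exists_int (c : Chars r) (S : Finset ℕ) (hS : ∀ l ∈ S, l.Prime)
    (hc : ∀ l ∈ S, Function.Surjective (c l)) (y : ℕ → ZMod r) :
    ∃ v : ℕ, 0 < v ∧ (∀ l ∈ S, ¬ l ∣ v) ∧ ∀ l ∈ S, X c l (v : ZMod l) = y l := by
  classical
  have h1 : ∀ l : ℕ, ∃ u : (ZMod l)ˣ, l ∈ S → Multiplicative.toAdd (c l u) = y l := by
    intro l
    by_cases hl : l ∈ S
    · obtain ⟨u, hu⟩ := hc l hl (Multiplicative.ofAdd (y l))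
      exact ⟨u, fun _ => by rw [hu, toAdd_ofAdd]⟩
    · exact ⟨1, fun h => absurd h hl⟩
  choose u hu using h1
  let w := Nat.chineseRemainderOfFinset (fun l => (u l : ZMod l).val) id S
    (fun l hl => (hS l hl).ne_zero)
    (fun l hl l' hl' hne => (Nat.coprime_primes (hS l hl) (hS l' hl')).2 hne)
  have hw : ∀ l ∈ S, (w : ℕ) ≡ (u l : ZMod l).val [MOD l] := w.2
  have hP : 0 < ∏ l ∈ S, l := Finset.prod_pos (fun l hl => (hS l hl).pos)
  have hcast : ∀ l ∈ S, (((w : ℕ) + ∏ l ∈ S, l : ℕ) : ZMod l) = u l := by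
    intro l hl
    have : Fact l.Prime := ⟨hS l hl⟩
    have h2 : ((∏ l ∈ S, l : ℕ) : ZMod l) = 0 :=
      (ZMod.natCast_eq_zero_iff _ _).2 (Finset.dvd_prod_of_mem _ hl)
    have h3 := (ZMod.natCast_eq_natCast_iff _ _ _).2 (hw l hl)
    rw [Nat.cast_add, h2, add_zero, h3, ZMod.natCast_zmod_val]
  refine ⟨(w : ℕ) + ∏ l ∈ S, l, by omega, fun l hl hd => ?_, fun l hl => ?_⟩
  · haveI : Fact l.Prime := ⟨hS l hl⟩
    have h2 := (ZMod.natCast_eq_zero_iff _ _).2 hd
    rw [hcast l hl] at h2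
    exact (u l).ne_zero h2
  · rw [hcast l hl, X_unit, hu l hl]

/-! ## module H4 (Sf) -/

variable {K : Type} [Field K] [NumberField K] {τ : K ≃ₐ[ℚ] K}

theorem Sf_one (l : ℕ) (g : 𝓞 K →+* ZMod l) : Sf c l τ g (1 : 𝓞 K) = 0 := by
  unfold Sf
  refine Finset.sum_eq_zero (fun i _ => ?_)
  rw [smul_one, map_one, X_one, mul_zero]

theorem Sf_mul (l : ℕ) (g : 𝓞 K →+* ZMod l) (x y : 𝓞 K)
    (hx : ∀ i < r, IsUnit (g (τ ^ i • x))) (hy : ∀ i < r, IsUnit (g (τ ^ i • y))) :
    Sf c l τ g (x * y) = Sf c l τ g x + Sf c l τ g y := by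
  unfold Sf
  rw [← Finset.sum_add_distrib]
  refine Finset.sum_congr rfl (fun i hi => ?_)
  have hi' := Finset.mem_range.1 hi
  rw [smul_mul', map_mul, X_mul c l _ _ (hx i hi') (hy i hi'), mul_add]

theorem Sf_pow (l : ℕ) (g : 𝓞 K →+* ZMod l) (x : 𝓞 K) (k : ℕ)
    (hx : ∀ i < r, IsUnit (g (τ ^ i • x))) : Sf c l τ g (x ^ k) = k * Sf c l τ g x := by
  unfold Sf
  rw [Finset.mul_sum]
  refine Finset.sum_congr rfl (fun i _ => ?_)
  rw [smul_pow', map_pow, X_pow]
  ring

theorem Sf_neg (hr : r.Prime) (h2 : r ≠ 2) (l : ℕ) (g : 𝓞 K →+* ZMod l) (x : 𝓞 K) :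
    Sf c l τ g (-x) = Sf c l τ g x := by
  unfold Sf
  refine Finset.sum_congr rfl (fun i _ => ?_)
  rw [smul_neg, map_neg, X_neg hr h2]

theorem sum_range_cast (hr : r.Prime) (h2 : r ≠ 2) :
    ∑ i ∈ Finset.range r, (i : ZMod r) = 0 := by
  have : Fact r.Prime := ⟨hr⟩
  have h := congrArg (Nat.cast : ℕ → ZMod r) (Finset.sum_range_id_mul_two r)
  rw [Nat.cast_mul, Nat.cast_mul, ZMod.natCast_self, zero_mul, Nat.cast_sum] at h
  rcases mul_eq_zero.1 h with h | h
  · exact h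
  · exact absurd (by exact_mod_cast h) (two_unit hr h2)

/-- `sum_(i<r) i = r (r-1)/2 = 0` in `ZMod r` for odd `r`. -/
theorem Sf_const (hr : r.Prime) (h2 : r ≠ 2) (l : ℕ) (g : 𝓞 K → ZMod l) (x : 𝓞 K) (t : ZMod r)
    (hx : ∀ i < r, X c l (g (τ ^ i • x)) = t) : Sf c l τ g x = 0 := by
  unfold Sf
  rw [Finset.sum_congr rfl (fun i hi => by rw [hx i (Finset.mem_range.1 hi)]), ← Finset.sum_mul,
    sum_range_cast hr h2, zero_mul]

theorem sum_shift {R : Type*} [AddCommMonoid R] (n : ℕ) (F : ℕ → R) (hF : ∀ i, F (i + n) = F i)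
    (k : ℕ) : ∑ i ∈ Finset.range n, F (i + k) = ∑ i ∈ Finset.range n, F i := by
  induction k with
  | zero => rfl
  | succ k ih =>
    rw [← ih]
    rcases Nat.eq_zero_or_pos n with rfl | hn
    · rfl
    obtain ⟨m, rfl⟩ : ∃ m, n = m + 1 := ⟨n - 1, by omega⟩
    rw [Finset.sum_range_succ, Finset.sum_range_succ' (fun i => F (i + k))]
    congr 1
    · refine Finset.sum_congr rfl (fun i _ => ?_)
      congr 1
      omega
    · have h1 : m + (k + 1) = k + (m + 1) := by omega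
      rw [h1, zero_add, hF k]

/-- Shift of the prime: `τ ^ r = 1`; `sum_i i X(g(τ^(i+1) x)) = sum_i (i-1) X(g(τ^i x))`
(mod `r`), and `sum_i X(g(τ^i x)) = X(g(N x))`. -/
theorem Sf_shift (hτ : τ ^ r = 1) (hr : 0 < r) (l : ℕ) (g : 𝓞 K →+* ZMod l) (x : 𝓞 K)
    (hx : ∀ i < r, IsUnit (g (τ ^ i • x))) (k : ℕ) :
    Sf c l τ g (τ ^ k • x) = Sf c l τ g x - k * X c l (g (∏ i ∈ Finset.range r, τ ^ i • x)) := by
  have hN : X c l (g (∏ i ∈ Finset.range r, τ ^ i • x)) =
      ∑ i ∈ Finset.range r, X c l (g (τ ^ i • x)) := by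
    rw [map_prod, X_prod]
    exact fun i hi => hx i (Finset.mem_range.1 hi)
  rw [hN]
  set F : ℕ → ZMod r := fun i => X c l (g (τ ^ i • x)) with hFdef
  have hper : ∀ i, F (i + r) = F i := by
    intro i
    simp only [hFdef, pow_add, hτ, mul_one]
  have h0 : ∀ k, Sf c l τ g (τ ^ k • x) = ∑ i ∈ Finset.range r, (i : ZMod r) * F (i + k) := by
    intro k
    unfold Sf
    refine Finset.sum_congr rfl (fun i _ => ?_)
    rw [smul_smul, ← pow_add]
  have h1 : ∀ k, ∑ i ∈ Finset.range r, (i : ZMod r) * F (i + k) =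
      ∑ i ∈ Finset.range r, (i : ZMod r) * F i - k * ∑ i ∈ Finset.range r, F i := by
    intro k
    induction k with
    | zero => simp
    | succ k ih =>
      have h2 : ∑ i ∈ Finset.range r, (((i + 1 : ℕ) : ℕ) : ZMod r) * F (i + 1 + k) =
          ∑ i ∈ Finset.range r, (i : ZMod r) * F (i + k) := by
        have h3 := Finset.sum_range_succ' (fun i : ℕ => (i : ZMod r) * F (i + k)) r
        have h4 := Finset.sum_range_succ (fun i : ℕ => (i : ZMod r) * F (i + k)) r
        rw [h3] at h4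
        simpa using h4
      have h5 : ∑ i ∈ Finset.range r, F (i + 1 + k) = ∑ i ∈ Finset.range r, F i := by
        have := sum_shift r F hper (1 + k)
        rw [← this]
        refine Finset.sum_congr rfl (fun i _ => ?_)
        rw [add_assoc]
      have h6 : ∑ i ∈ Finset.range r, (i : ZMod r) * F (i + (k + 1)) =
          ∑ i ∈ Finset.range r, (((i + 1 : ℕ) : ℕ) : ZMod r) * F (i + 1 + k) -
            ∑ i ∈ Finset.range r, F (i + 1 + k) := by
        rw [← Finset.sum_sub_distrib]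
        refine Finset.sum_congr rfl (fun i _ => ?_)
        have : i + (k + 1) = i + 1 + k := by omega
        rw [this, Nat.cast_add, Nat.cast_one]
        ring
      rw [h6, h2, h5, ih, Nat.cast_add, Nat.cast_one]
      ring
  rw [h0 k, h1 k]
  unfold Sf
  rfl

end Pool.Agent.Rnr
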