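import Pool.Agent.Rnr.Defs

/-!
# Rnr, file Cyc: the cyclic fields of degree r (interface)
-/

namespace Pool.Agent.Rnr

open NumberField
open scoped Pointwise

private theorem cy_cond_pos {r : ℕ} {c : Chars r} {S : Finset ℕ} {f : ℕ → ZMod r}
    (h : Good r c S f) : 0 < cond S :=
  Finset.prod_pos fun l hl => (h.prime l hl).pos

/-- values of the character at a product -/
private theorem cy_X_mul {r : ℕ} (c : Chars r) (l : ℕ) (a b : ZMod l) (ha : IsUnit a) (hb : IsUnit b) :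
    X c l (a * b) = X c l a + X c l b := by
  unfold X
  rw [dif_pos ha, dif_pos hb, dif_pos (ha.mul hb)]
  rw [← toAdd_mul, ← map_mul]
  congr 2
  ext
  simp

private theorem cy_isUnit {S : Finset ℕ} {a l : ℕ} (ha : a.Coprime (cond S)) (hl : l ∈ S) :
    IsUnit ((a : ℤ) : ZMod l) := by
  have : a.Coprime l := Nat.Coprime.coprime_dvd_right (Finset.dvd_prod_of_mem _ hl) ha
  rw [Int.cast_natCast]
  exact (ZMod.isUnit_iff_coprime a l).mpr this

private theorem cy_psi_mul {r : ℕ} (c : Chars r) (S : Finset ℕ) (f : ℕ → ZMod r) (a b : ℕ)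
    (ha : a.Coprime (cond S)) (hb : b.Coprime (cond S)) :
    psi c S f ((a * b : ℕ) : ℤ) = psi c S f (a : ℤ) + psi c S f (b : ℤ) := by
  unfold psi
  rw [← Finset.sum_add_distrib]
  refine Finset.sum_congr rfl fun l hl => ?_
  rw [← mul_add, ← cy_X_mul c l _ _ (cy_isUnit ha hl) (cy_isUnit hb hl)]
  push_cast
  rfl

private theorem cy_psi_one {r : ℕ} (c : Chars r) (S : Finset ℕ) (f : ℕ → ZMod r) :
    psi c S f ((1 : ℕ) : ℤ) = 0 := by
  have := cy_psi_mul c S f 1 1 (Nat.coprime_one_left _) (Nat.coprime_one_left _)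
  rw [Nat.mul_one] at this
  exact left_eq_add.mp this

private theorem cy_psi_pow {r : ℕ} (c : Chars r) (S : Finset ℕ) (f : ℕ → ZMod r) (a : ℕ)
    (ha : a.Coprime (cond S)) (k : ℕ) :
    psi c S f ((a ^ k : ℕ) : ℤ) = k * psi c S f (a : ℤ) := by
  induction k with
  | zero => rw [pow_zero, cy_psi_one]; simp
  | succ k ih =>
    rw [pow_succ, cy_psi_mul c S f _ _ (Nat.Coprime.pow_left k ha) ha, ih]
    push_cast
    ring

private theorem cy_psi_congr {r : ℕ} (c : Chars r) (S : Finset ℕ) (f : ℕ → ZMod r) (a b : ℕ)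
    (hab : a ≡ b [MOD cond S]) : psi c S f (a : ℤ) = psi c S f (b : ℤ) := by
  unfold psi
  refine Finset.sum_congr rfl fun l hl => ?_
  have : ((a : ℤ) : ZMod l) = ((b : ℤ) : ZMod l) := by
    rw [Int.cast_natCast, Int.cast_natCast]
    exact (ZMod.natCast_eq_natCast_iff _ _ _).mpr (hab.of_dvd (Finset.dvd_prod_of_mem _ hl))
  rw [this]

/-- CRT -/
private theorem cy_exists_nat {r : ℕ} {c : Chars r} {S : Finset ℕ} {f : ℕ → ZMod r}
    (h : Good r c S f) (u : (l : ℕ) → (ZMod l)ˣ) :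
    ∃ a : ℕ, a.Coprime (cond S) ∧ ∀ l ∈ S, (a : ZMod l) = (u l : ZMod l) := by
  have key := Nat.chineseRemainderOfFinset (fun l => ((u l : ZMod l)).val) (fun l => l) S
    (fun l hl => (h.prime l hl).ne_zero)
    (fun l hl l' hl' hne => (Nat.coprime_primes (h.prime l hl) (h.prime l' hl')).mpr hne)
  obtain ⟨a, ha⟩ := key
  have h2 : ∀ l ∈ S, (a : ZMod l) = (u l : ZMod l) := by
    intro l hl
    have : NeZero l := ⟨(h.prime l hl).ne_zero⟩
    rw [(ZMod.natCast_eq_natCast_iff _ _ _).mpr (ha l hl), ZMod.natCast_zmod_val]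
  refine ⟨a, ?_, h2⟩
  unfold cond
  rw [Nat.coprime_prod_right_iff]
  intro l hl
  rw [← ZMod.isUnit_iff_coprime, h2 l hl]
  exact Units.isUnit _

private theorem cy_X_units {r : ℕ} (c : Chars r) (l : ℕ) (u : (ZMod l)ˣ) :
    X c l (u : ZMod l) = Multiplicative.toAdd (c l u) := by
  unfold X
  rw [dif_pos u.isUnit]
  congr 2
  exact Units.ext (IsUnit.unit_spec _)

private theorem cy_psi_units {r : ℕ} (c : Chars r) (S : Finset ℕ) (f : ℕ → ZMod r)
    (u : (l : ℕ) → (ZMod l)ˣ) (a : ℕ) (h : ∀ l ∈ S, (a : ZMod l) = (u l : ZMod l)) :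
    psi c S f (a : ℤ) = ∑ l ∈ S, f l * Multiplicative.toAdd (c l (u l)) := by
  unfold psi
  refine Finset.sum_congr rfl fun l hl => ?_
  rw [Int.cast_natCast, h l hl, cy_X_units]

/-- every value of `psi` at a class `= 1` outside one given prime -/
private theorem cy_exists_psi {r : ℕ} {c : Chars r} {S : Finset ℕ} {f : ℕ → ZMod r}
    (h : Good r c S f) (l₀ : ℕ) (h₀ : l₀ ∈ S) (w : (l : ℕ) → (ZMod l)ˣ) (t : ZMod r) :
    ∃ a : ℕ, a.Coprime (cond S) ∧ psi c S f (a : ℤ) = t ∧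
      ∀ l ∈ S, l ≠ l₀ → (a : ZMod l) = (w l : ZMod l) := by
  classical
  have : Fact r.Prime := ⟨h.pr⟩
  obtain ⟨v, hv⟩ := h.sur l₀ h₀ (Multiplicative.ofAdd ((f l₀)⁻¹ *
    (t - ∑ l ∈ S.erase l₀, f l * Multiplicative.toAdd (c l (w l)))))
  let u : (l : ℕ) → (ZMod l)ˣ := Function.update w l₀ v
  obtain ⟨a, ha, ha2⟩ := cy_exists_nat h u
  refine ⟨a, ha, ?_, ?_⟩
  · rw [cy_psi_units c S f u a ha2, ← Finset.add_sum_erase _ _ h₀]
    have e1 : ∑ l ∈ S.erase l₀, f l * Multiplicative.toAdd (c l (u l)) =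
        ∑ l ∈ S.erase l₀, f l * Multiplicative.toAdd (c l (w l)) := by
      refine Finset.sum_congr rfl fun l hl => ?_
      rw [show u l = w l from Function.update_of_ne (Finset.ne_of_mem_erase hl) _ _]
    have e2 : u l₀ = v := Function.update_self _ _ _
    rw [e1, e2, hv, toAdd_ofAdd, ← mul_assoc, mul_inv_cancel₀ (h.f0 l₀ h₀), one_mul]
    ring
  · intro l hl hne
    rw [ha2 l hl, show u l = w l from Function.update_of_ne hne _ _]

private theorem cy_exists_psi' {r : ℕ} {c : Chars r} {S : Finset ℕ} {f : ℕ → ZMod r}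
    (h : Good r c S f) (t : ZMod r) :
    ∃ a : ℕ, a.Coprime (cond S) ∧ psi c S f (a : ℤ) = t := by
  obtain ⟨l₀, h₀⟩ := h.ne
  obtain ⟨a, ha, hb, -⟩ := cy_exists_psi h l₀ h₀ (fun _ => 1) t
  exact ⟨a, ha, hb⟩

private theorem cy_ext (n : ℕ) : IsCyclotomicExtension {n} ℚ (CyclotomicField n ℚ) := by
  have h := (inferInstance : @IsCyclotomicExtension {n} ℚ (CyclotomicField n ℚ) _ _
    (CyclotomicField.algebra n ℚ))
  convert h
  exact Subsingleton.elim _ _

/-- Galois group of the cyclotomic field -/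
private theorem cy_gal (n : ℕ) (hn : 0 < n) (a : ℕ) (ha : a.Coprime n) :
    ∃ g : CyclotomicField n ℚ ≃ₐ[ℚ] CyclotomicField n ℚ, ∀ z : CyclotomicField n ℚ,
      z ^ n = 1 → g z = z ^ a := by
  have : NeZero n := ⟨hn.ne'⟩
  have := cy_ext n
  refine ⟨(IsCyclotomicExtension.Rat.galEquivZMod n (CyclotomicField n ℚ)).symm
    (ZMod.unitOfCoprime a ha), fun z hz => ?_⟩
  rw [IsCyclotomicExtension.Rat.galEquivZMod_apply_of_pow_eq n _ _ hz, MulEquiv.apply_symm_apply,
    ZMod.coe_unitOfCoprime, ZMod.val_natCast]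
  exact (pow_eq_pow_mod a hz).symm

private theorem cy_gal' (n : ℕ) (hn : 0 < n) (g : CyclotomicField n ℚ ≃ₐ[ℚ] CyclotomicField n ℚ) :
    ∃ a : ℕ, a.Coprime n ∧ ∀ z : CyclotomicField n ℚ, z ^ n = 1 → g z = z ^ a := by
  have : NeZero n := ⟨hn.ne'⟩
  have := cy_ext n
  refine ⟨(IsCyclotomicExtension.Rat.galEquivZMod n (CyclotomicField n ℚ) g).val.val,
    ZMod.val_coe_unit_coprime _, fun z hz => ?_⟩
  exact IsCyclotomicExtension.Rat.galEquivZMod_apply_of_pow_eq n _ _ hz

variable {r : ℕ} {c : Chars r} {S : Finset ℕ} {f : ℕ → ZMod r}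
  {F : Type} [Field F] [NumberField F] {σ : F ≃ₐ[ℚ] F}

/-- `g₁` with `Ψ g₁ = 1`: `g₁^r` has `Ψ = 0`, so `ι = g₁^r ι = ι σ^r`. -/
theorem IsCyc.pow_r (h : IsCyc r c S f F σ) : σ ^ r = 1 := by
  obtain ⟨ι, hι⟩ := h.emb
  have : Fact r.Prime := ⟨h.good.pr⟩
  obtain ⟨a, ha, ha1⟩ := cy_exists_psi' h.good 1
  obtain ⟨g, hg⟩ := cy_gal (cond S) (cy_cond_pos h.good) a ha
  have h1 : ∀ x : F, g (ι x) = ι (σ x) := by
    intro x
    rw [hι g a hg x, ha1, ZMod.val_one, pow_one]
  have h2 : ∀ (k : ℕ) (x : F), (g ^ k) (ι x) = ι ((σ ^ k) x) := by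
    intro k
    induction k with
    | zero => intro x; simp
    | succ k ih =>
      intro x
      rw [pow_succ, pow_succ, AlgEquiv.mul_apply, AlgEquiv.mul_apply, h1, ih]
  have h3 : ∀ (k : ℕ) (z : CyclotomicField (cond S) ℚ), z ^ cond S = 1 → (g ^ k) z = z ^ (a ^ k) := by
    intro k
    induction k with
    | zero => intro z _; simp
    | succ k ih =>
      intro z hz
      rw [pow_succ, AlgEquiv.mul_apply, hg z hz, map_pow, ih z hz, ← pow_mul]
      congr 1
  ext x
  apply (ι : F →+* CyclotomicField (cond S) ℚ).injective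
  change ι ((σ ^ r) x) = ι x
  rw [← h2 r x, hι (g ^ r) (a ^ r) (h3 r) x, cy_psi_pow c S f a ha]
  simp

/-- `σ x = x` implies `g (ι x) = ι x` for all `g`, so `ι x` is rational (Galois). -/
theorem IsCyc.fixed (h : IsCyc r c S f F σ) (x : F) (hx : σ x = x) : ∃ q : ℚ, x = algebraMap ℚ F q := by
  obtain ⟨ι, hι⟩ := h.emb
  have hn := cy_cond_pos h.good
  have : NeZero (cond S) := ⟨hn.ne'⟩
  have := cy_ext (cond S)
  have : IsGalois ℚ (CyclotomicField (cond S) ℚ) := IsCyclotomicExtension.isGalois {cond S} ℚ _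
  have h1 : ∀ k : ℕ, (σ ^ k) x = x := by
    intro k
    induction k with
    | zero => simp
    | succ k ih => rw [pow_succ, AlgEquiv.mul_apply, hx, ih]
  have h2 : ι x ∈ (⊥ : IntermediateField ℚ (CyclotomicField (cond S) ℚ)) := by
    rw [IsGalois.mem_bot_iff_fixed]
    intro g
    obtain ⟨a, -, ha⟩ := cy_gal' (cond S) hn g
    rw [hι g a ha x, h1]
  rw [IntermediateField.mem_bot] at h2
  obtain ⟨q, hq⟩ := h2
  refine ⟨q, ?_⟩
  apply (ι : F →+* CyclotomicField (cond S) ℚ).injective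
  change ι x = ι (algebraMap ℚ F q)
  rw [← hq, AlgHom.commutes]

theorem IsCyc.order (h : IsCyc r c S f F σ) : orderOf σ = r := by
  have : Fact r.Prime := ⟨h.good.pr⟩
  refine orderOf_eq_prime h.pow_r ?_
  rintro rfl
  have h1 : ∀ x : F, ∃ q : ℚ, x = algebraMap ℚ F q := fun x => h.fixed x rfl
  have h2 : Module.finrank ℚ F = 1 := by
    refine finrank_eq_one (1 : F) one_ne_zero fun x => ?_
    obtain ⟨q, hq⟩ := h1 x
    exact ⟨q, by rw [hq, Algebra.smul_def, mul_one]⟩
  rw [h.finrank] at h2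
  exact h.good.pr.one_lt.ne' h2

theorem IsCyc.galois (h : IsCyc r c S f F σ) : IsGalois ℚ F := by
  apply IsGalois.of_card_aut_eq_finrank
  apply le_antisymm
  · rw [Nat.card_eq_fintype_card]
    exact AlgEquiv.card_le (F := ℚ) (K := F)
  · rw [h.finrank]
    calc r = Nat.card (Subgroup.zpowers σ) := by rw [Nat.card_zpowers, h.order]
      _ ≤ Nat.card (F ≃ₐ[ℚ] F) := Subgroup.card_le_card_group _

theorem IsCyc.mem (h : IsCyc r c S f F σ) (g : F ≃ₐ[ℚ] F) : ∃ i < r, g = σ ^ i := by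
  have := h.galois
  have h1 : Subgroup.zpowers σ = ⊤ := by
    apply Subgroup.eq_top_of_card_eq
    rw [Nat.card_zpowers, h.order, IsGalois.card_aut_eq_finrank, h.finrank]
  have h2 : g ∈ Subgroup.zpowers σ := by rw [h1]; trivial
  classical
  rw [← mem_powers_iff_mem_zpowers, mem_powers_iff_mem_range_orderOf] at h2
  simp only [Finset.mem_image, Finset.mem_range] at h2
  obtain ⟨i, hi, hi2⟩ := h2
  exact ⟨i, by rwa [h.order] at hi, hi2.symm⟩


/-! ## the Galois group on the ring of integers -/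

private theorem cy_coe_smul (g : F ≃ₐ[ℚ] F) (x : 𝓞 F) : ((g • x : 𝓞 F) : F) = g (x : F) := rfl

private theorem cy_smul_int (g : F ≃ₐ[ℚ] F) (m : ℤ) : g • (m : 𝓞 F) = (m : 𝓞 F) := by
  apply RingOfIntegers.ext
  rw [cy_coe_smul]
  simp

private theorem cy_smul_nat (g : F ≃ₐ[ℚ] F) (m : ℕ) : g • (m : 𝓞 F) = (m : 𝓞 F) := by
  have := cy_smul_int g (m : ℤ)
  simpa using this

theorem IsCyc.norm (h : IsCyc r c S f F σ) (x : 𝓞 F) :
    ((Algebra.norm ℤ x : ℤ) : 𝓞 F) = ∏ i ∈ Finset.range r, σ ^ i • x := by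
  have := h.galois
  classical
  apply RingOfIntegers.ext
  have e1 : ((∏ i ∈ Finset.range r, σ ^ i • x : 𝓞 F) : F) =
      ∏ i ∈ Finset.range r, (σ ^ i) (x : F) := by
    change algebraMap (𝓞 F) F _ = _
    rw [map_prod]
    rfl
  have e2 : (((Algebra.norm ℤ x : ℤ) : 𝓞 F) : F) = algebraMap ℚ F (Algebra.norm ℚ (x : F)) := by
    rw [← Algebra.coe_norm_int]
    simp
  rw [e1, e2, Algebra.norm_eq_prod_automorphisms]
  symm
  refine Finset.prod_bij (fun i _ => σ ^ i) (fun _ _ => Finset.mem_univ _) ?_ ?_ (fun _ _ => rfl)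
  · intro i hi j hj hij
    rw [Finset.mem_range] at hi hj
    exact pow_injOn_Iio_orderOf (by rwa [h.order]) (by rwa [h.order]) hij
  · intro g _
    obtain ⟨i, hi, rfl⟩ := h.mem g
    exact ⟨i, Finset.mem_range.mpr hi, rfl⟩

/-- transitivity on maximal ideals over a prime -/
private theorem cy_trans (h : IsCyc r c S f F σ) (v : ℕ) (hv : v.Prime) (P Q : Ideal (𝓞 F))
    (hP : P.IsPrime) (hQ : Q.IsPrime) (hvP : (v : 𝓞 F) ∈ P) (hvQ : (v : 𝓞 F) ∈ Q) :
    ∃ i < r, ∀ x, x ∈ P ↔ σ ^ i • x ∈ Q := by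
  have := h.galois
  have : Fact v.Prime := ⟨hv⟩
  have hmax : (Ideal.span {(v : ℤ)}).IsMaximal := Int.ideal_span_isMaximal_of_prime v
  have hu : ∀ R : Ideal (𝓞 F), R.IsPrime → (v : 𝓞 F) ∈ R → Ideal.under ℤ R = Ideal.span {(v : ℤ)} := by
    intro R hR hvR
    symm
    apply hmax.eq_of_le
    · exact (Ideal.IsPrime.under ℤ R).ne_top
    · rw [Ideal.span_singleton_le_iff_mem, Ideal.mem_comap]
      simpa using hvR
  obtain ⟨g, hg⟩ := Algebra.IsInvariant.exists_smul_of_under_eq ℤ (𝓞 F) (F ≃ₐ[ℚ] F) P Q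
    ((hu P hP hvP).trans (hu Q hQ hvQ).symm)
  obtain ⟨i, hi, rfl⟩ := h.mem g
  refine ⟨i, hi, fun x => ?_⟩
  rw [hg, Ideal.smul_mem_pointwise_smul_iff]


omit [NumberField F] in
private theorem cy_ker_prime (v : ℕ) (hv : v.Prime) (g : 𝓞 F →+* ZMod v) :
    (RingHom.ker g).IsPrime ∧ (v : 𝓞 F) ∈ RingHom.ker g := by
  have : Fact v.Prime := ⟨hv⟩
  refine ⟨RingHom.ker_isPrime g, ?_⟩
  rw [RingHom.mem_ker, map_natCast, ZMod.natCast_self]

/-- all homomorphisms to `ZMod v` are conjugate (transitivity of the Galois group on the primes over `v`) -/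
theorem IsCyc.conj (h : IsCyc r c S f F σ) (v : ℕ) (hv : v.Prime)
    (g g' : 𝓞 F →+* ZMod v) : ∃ i < r, ∀ x, g' x = g (σ ^ i • x) := by
  obtain ⟨h1, h2⟩ := cy_ker_prime v hv g
  obtain ⟨h1', h2'⟩ := cy_ker_prime v hv g'
  obtain ⟨i, hi, hx⟩ := cy_trans h v hv _ _ h1' h1 h2' h2
  refine ⟨i, hi, fun x => ?_⟩
  obtain ⟨m, hm⟩ := ZMod.intCast_surjective (g' x)
  have h3 : x - (m : 𝓞 F) ∈ RingHom.ker g' := by
    rw [RingHom.mem_ker, map_sub, map_intCast, hm, sub_self]
  have h4 := (hx _).mp h3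
  rw [smul_sub, cy_smul_int, RingHom.mem_ker, map_sub, map_intCast, sub_eq_zero] at h4
  rw [h4, hm]

/-- two homomorphisms of `𝓞 Ω` that agree on roots of unity are equal -/
private theorem cy_hom_ext (n : ℕ) (hn : 0 < n) {R : Type} [CommRing R]
    (φ ψ : 𝓞 (CyclotomicField n ℚ) →+* R)
    (h : ∀ z : 𝓞 (CyclotomicField n ℚ), z ^ n = 1 → φ z = ψ z) (y : 𝓞 (CyclotomicField n ℚ)) :
    φ y = ψ y := by
  have : NeZero n := ⟨hn.ne'⟩
  have := cy_ext n
  have hζ := IsCyclotomicExtension.zeta_spec n ℚ (CyclotomicField n ℚ)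
  have htop := IsCyclotomicExtension.Rat.adjoin_singleton_eq_top hζ
  have hy : y ∈ Algebra.adjoin ℤ {hζ.toInteger} := by rw [htop]; trivial
  induction hy using Algebra.adjoin_induction with
  | mem x hx =>
    rw [Set.mem_singleton_iff] at hx
    rw [hx]
    exact h _ hζ.toInteger_isPrimitiveRoot.pow_eq_one
  | algebraMap m => simp
  | add x y _ _ h1 h2 => rw [map_add, map_add, h1, h2]
  | mul x y _ _ h1 h2 => rw [map_mul, map_mul, h1, h2]

/-- the embedding on the rings of integers, with the action of the Galois group -/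
private theorem cy_emb (h : IsCyc r c S f F σ) :
    ∃ ι : 𝓞 F →+* 𝓞 (CyclotomicField (cond S) ℚ), Function.Injective ι ∧
      (∀ (m : ℤ) (x : 𝓞 F), m ≠ 0 → (m : 𝓞 (CyclotomicField (cond S) ℚ)) ∣ ι x → (m : 𝓞 F) ∣ x) ∧
      ∀ a : ℕ, a.Coprime (cond S) →
        ∃ g : CyclotomicField (cond S) ℚ ≃ₐ[ℚ] CyclotomicField (cond S) ℚ,
        (∀ z : 𝓞 (CyclotomicField (cond S) ℚ), z ^ cond S = 1 → g • z = z ^ a) ∧
        ∀ x : 𝓞 F, g • (ι x) = ι ((σ ^ (psi c S f (a : ℤ)).val) • x) := by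
  obtain ⟨ι, hι⟩ := h.emb
  have hn := cy_cond_pos h.good
  let ιO : 𝓞 F →+* 𝓞 (CyclotomicField (cond S) ℚ) :=
    NumberField.RingOfIntegers.mapRingHom (ι : F →+* CyclotomicField (cond S) ℚ)
  have hc : ∀ x : 𝓞 F, ((ιO x : 𝓞 (CyclotomicField (cond S) ℚ)) : CyclotomicField (cond S) ℚ) =
      ι (x : F) := fun x => rfl
  refine ⟨ιO, ?_, ?_, ?_⟩
  · intro x y hxy
    apply RingOfIntegers.ext
    apply (ι : F →+* CyclotomicField (cond S) ℚ).injective
    change ι (x : F) = ι (y : F)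
    rw [← hc, ← hc, hxy]
  · rintro m x hm ⟨y, hy⟩
    have h1 : ι (x : F) = (m : CyclotomicField (cond S) ℚ) * (y : CyclotomicField (cond S) ℚ) := by
      rw [← hc, hy]
      simp
    have hmF : (m : F) ≠ 0 := by exact_mod_cast hm
    have h2 : ι ((x : F) / (m : F)) = (y : CyclotomicField (cond S) ℚ) := by
      have hmO : (m : CyclotomicField (cond S) ℚ) ≠ 0 := by exact_mod_cast hm
      rw [map_div₀, h1]
      simp only [map_intCast]
      field_simp
    have h3 : IsIntegral ℤ ((x : F) / (m : F)) := by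
      have h4 : IsIntegral ℤ (ι ((x : F) / (m : F))) := by
        rw [h2]
        exact y.2
      exact (isIntegral_algHom_iff (ι.restrictScalars ℤ)
        (ι : F →+* CyclotomicField (cond S) ℚ).injective).mp h4
    obtain ⟨u, hu⟩ := (IsIntegralClosure.isIntegral_iff (A := 𝓞 F)).mp h3
    refine ⟨u, ?_⟩
    apply RingOfIntegers.ext
    change (x : F) = algebraMap (𝓞 F) F ((m : 𝓞 F) * u)
    rw [map_mul, hu, map_intCast]
    field_simp
  · intro a ha
    obtain ⟨g, hg⟩ := cy_gal (cond S) hn a ha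
    refine ⟨g, fun z hz => ?_, fun x => ?_⟩
    · apply RingOfIntegers.ext
      change g (algebraMap (𝓞 (CyclotomicField (cond S) ℚ)) (CyclotomicField (cond S) ℚ) z) =
        algebraMap (𝓞 (CyclotomicField (cond S) ℚ)) (CyclotomicField (cond S) ℚ) (z ^ a)
      rw [hg _ (by rw [← map_pow, hz, map_one]), map_pow]
    · apply RingOfIntegers.ext
      change g (ι (x : F)) = ι ((σ ^ (psi c S f (a : ℤ)).val) (x : F))
      exact hι g a hg x

private theorem cy_nonunit (K : Type) [Field K] [NumberField K] (v : ℕ) (hv : v.Prime) :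
    (v : 𝓞 K) ∈ nonunits (𝓞 K) := by
  intro h
  have h1 := h.map (Algebra.norm ℤ)
  have h2 : Algebra.norm ℤ (v : 𝓞 K) = (v : ℤ) ^ Module.finrank ℤ (𝓞 K) := by
    rw [← Algebra.norm_algebraMap (S := 𝓞 K) (v : ℤ)]
    simp
  rw [h2, isUnit_pow_iff Module.finrank_pos.ne', Int.isUnit_iff] at h1
  have := hv.one_lt
  omega

/-- Frobenius. For `y = ∑ c_i ζ^i` in `𝓞 Ω = ℤ[ζ]` and `g ζ = ζ^v` (`v` prime to `n`): `y^v = ∑ c_i ζ^(iv) = g y`
mod `v 𝓞 Ω`; apply to `y = ι x` and use `v 𝓞 Ω ∩ ι 𝓞 F = ι (v 𝓞 F)`. -/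
theorem IsCyc.frob (h : IsCyc r c S f F σ) (v : ℕ) (hv : v.Prime) (hS : v ∉ S) (x : 𝓞 F) :
    (v : 𝓞 F) ∣ σ ^ (psi c S f (v : ℤ)).val • x - x ^ v := by
  obtain ⟨ι, hinj, hdiv, hgal⟩ := cy_emb h
  have hn := cy_cond_pos h.good
  have : Fact v.Prime := ⟨hv⟩
  have hvn : v.Coprime (cond S) := by
    unfold cond
    rw [Nat.coprime_prod_right_iff]
    intro l hl
    exact (Nat.coprime_primes hv (h.good.prime l hl)).mpr (fun e => hS (e ▸ hl))
  obtain ⟨g, hg, hg2⟩ := hgal v hvn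
  let Ω := CyclotomicField (cond S) ℚ
  let I : Ideal (𝓞 Ω) := Ideal.span {(v : 𝓞 Ω)}
  have hchar : CharP (𝓞 Ω ⧸ I) v := CharP.quotient _ v (cy_nonunit Ω v hv)
  let φ : 𝓞 Ω →+* 𝓞 Ω ⧸ I := (Ideal.Quotient.mk I).comp (MulSemiringAction.toRingHom _ _ g)
  let ψ : 𝓞 Ω →+* 𝓞 Ω ⧸ I := (frobenius (𝓞 Ω ⧸ I) v).comp (Ideal.Quotient.mk I)
  have h1 := cy_hom_ext (cond S) hn φ ψ (fun z hz => by
    change Ideal.Quotient.mk I (g • z) = (Ideal.Quotient.mk I z) ^ v
    rw [hg z hz, map_pow]) (ι x)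
  change Ideal.Quotient.mk I (g • (ι x)) = (Ideal.Quotient.mk I (ι x)) ^ v at h1
  rw [hg2, ← map_pow, ← map_pow, Ideal.Quotient.mk_eq_mk_iff_sub_mem, Ideal.mem_span_singleton,
    ← map_sub] at h1
  have h2 := hdiv v (σ ^ (psi c S f (v : ℤ)).val • x - x ^ v) (by exact_mod_cast hv.ne_zero)
    (by rw [Int.cast_natCast]; exact h1)
  rwa [Int.cast_natCast] at h2

/-- unramified outside `S`: `x^k ∈ (v)`, by `frob` `x^(v^m) = φ^m x` mod `v`, `m` large. -/
theorem IsCyc.unram (h : IsCyc r c S f F σ) (v : ℕ) (hv : v.Prime) (hS : v ∉ S) :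
    (Ideal.span {(v : 𝓞 F)}).IsRadical := by
  rw [Ideal.isRadical_iff_pow_one_lt v hv.one_lt]
  intro x hx
  rw [Ideal.mem_span_singleton] at hx ⊢
  have h1 := h.frob v hv hS x
  have h2 : (v : 𝓞 F) ∣ σ ^ (psi c S f (v : ℤ)).val • x := by
    have := dvd_add h1 hx
    simpa using this
  obtain ⟨y, hy⟩ := h2
  refine ⟨(σ ^ (psi c S f (v : ℤ)).val)⁻¹ • y, ?_⟩
  have h3 : x = (σ ^ (psi c S f (v : ℤ)).val)⁻¹ • ((v : 𝓞 F) * y) := by
    rw [← hy, inv_smul_smul]
  rw [h3, smul_mul', cy_smul_nat]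

private theorem cy_res (k : Type) [Field k] (v : ℕ) [Fact v.Prime] [CharP k v]
    (h : ∀ y : k, y ^ v = y) : ∃ e : k →+* ZMod v, Function.Injective e := by
  have h1 : Function.Surjective (ZMod.castHom (dvd_refl v) k) := by
    intro y
    by_contra hy
    classical
    have hv1 : 1 < v := (Fact.out : v.Prime).one_lt
    let Z : Finset k := insert y (Finset.univ.image (ZMod.castHom (dvd_refl v) k))
    have hZ : Z.card = v + 1 := by
      rw [Finset.card_insert_of_notMem, Finset.card_image_of_injective _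
        (ZMod.castHom (dvd_refl v) k).injective, Finset.card_univ, ZMod.card]
      intro h3
      obtain ⟨a, -, ha⟩ := Finset.mem_image.mp h3
      exact hy ⟨a, ha⟩
    have h4 : Z.card ≤ (Polynomial.X ^ v - Polynomial.X : Polynomial k).natDegree := by
      apply Polynomial.card_le_degree_of_subset_roots
      intro z _
      rw [Polynomial.mem_roots (FiniteField.X_pow_card_sub_X_ne_zero k hv1)]
      simp [h z]
    rw [FiniteField.X_pow_card_sub_X_natDegree_eq k hv1, hZ] at h4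
    omega
  let e := RingEquiv.ofBijective (ZMod.castHom (dvd_refl v) k)
    ⟨(ZMod.castHom (dvd_refl v) k).injective, h1⟩
  exact ⟨e.symm.toRingHom, e.symm.injective⟩

/-- every maximal ideal over a split prime is the kernel of a homomorphism to `ZMod v` -/
theorem IsCyc.ker (h : IsCyc r c S f F σ) (v : ℕ) (hv : v.Prime) (hS : v ∉ S)
    (h0 : psi c S f (v : ℤ) = 0) (P : Ideal (𝓞 F)) (hP : P.IsMaximal) (hvP : (v : 𝓞 F) ∈ P) :
    ∃ g : 𝓞 F →+* ZMod v, RingHom.ker g = P := by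
  have : Fact v.Prime := ⟨hv⟩
  let _ : Field (𝓞 F ⧸ P) := Ideal.Quotient.field P
  have hchar : CharP (𝓞 F ⧸ P) v := by
    rw [CharP.charP_iff_prime_eq_zero hv, ← map_natCast (Ideal.Quotient.mk P),
      Ideal.Quotient.eq_zero_iff_mem]
    exact hvP
  obtain ⟨e, he⟩ := cy_res (𝓞 F ⧸ P) v (by
    intro y
    obtain ⟨x, rfl⟩ := Ideal.Quotient.mk_surjective y
    have h1 := h.frob v hv hS x
    rw [h0, ZMod.val_zero, pow_zero, one_smul] at h1
    rw [← map_pow]
    symm
    rw [Ideal.Quotient.mk_eq_mk_iff_sub_mem]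
    exact P.mem_of_dvd h1 hvP)
  refine ⟨e.comp (Ideal.Quotient.mk P), ?_⟩
  ext x
  rw [RingHom.mem_ker, RingHom.comp_apply, map_eq_zero_iff e he, Ideal.Quotient.eq_zero_iff_mem]

/-- split primes have degree one: `x^v = x` mod `v`, so the residue field of a maximal ideal over `v` has at most
`v` elements. -/
theorem IsCyc.split (h : IsCyc r c S f F σ) (v : ℕ) (hv : v.Prime) (hS : v ∉ S)
    (h0 : psi c S f (v : ℤ) = 0) : Nonempty (𝓞 F →+* ZMod v) := by
  obtain ⟨P, hP, hvP⟩ := exists_max_ideal_of_mem_nonunits (cy_nonunit F v hv)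
  obtain ⟨g, -⟩ := h.ker v hv hS h0 P hP hvP
  exact ⟨g⟩

private theorem cy_norm_nat (h : IsCyc r c S f F σ) (v : ℕ) :
    Ideal.absNorm (Ideal.span {(v : 𝓞 F)}) = v ^ r := by
  rw [Ideal.absNorm_span_singleton]
  have h2 : Algebra.norm ℤ (v : 𝓞 F) = (v : ℤ) ^ Module.finrank ℤ (𝓞 F) := by
    rw [← Algebra.norm_algebraMap (S := 𝓞 F) (v : ℤ)]
    simp
  rw [h2, RingOfIntegers.rank, h.finrank, Int.natAbs_pow, Int.natAbs_natCast]

omit [NumberField F] in
/-- two homomorphisms to `ZMod v` with the same kernel are equal -/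
private theorem cy_ker_ext (v : ℕ) (g g' : 𝓞 F →+* ZMod v)
    (h : ∀ x, g x = 0 → g' x = 0) (x : 𝓞 F) : g' x = g x := by
  obtain ⟨m, hm⟩ := ZMod.intCast_surjective (g x)
  have h3 : g (x - (m : 𝓞 F)) = 0 := by
    rw [map_sub, map_intCast, hm, sub_self]
  have h4 := h _ h3
  rw [map_sub, map_intCast, sub_eq_zero] at h4
  rw [h4, hm]

/-- a split unramified prime: no nontrivial power of `σ` preserves a homomorphism to `ZMod v` -/
private theorem cy_free (h : IsCyc r c S f F σ) (v : ℕ) (hv : v.Prime) (hS : v ∉ S)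
    (g : 𝓞 F →+* ZMod v) (d : ℕ) (hd : ¬ r ∣ d) (hg : ∀ x, g (σ ^ d • x) = g x) : False := by
  have : Fact v.Prime := ⟨hv⟩
  have : Fact r.Prime := ⟨h.good.pr⟩
  -- `g σ = g`
  have h1 : ∀ (k : ℕ) (x : 𝓞 F), g (σ ^ (d * k) • x) = g x := by
    intro k
    induction k with
    | zero => intro x; simp
    | succ k ih =>
      intro x
      rw [Nat.mul_succ, pow_add, mul_smul, ih, hg]
  have h2 : ∀ (j : ℕ) (x : 𝓞 F), g (σ ^ j • x) = g x := by
    intro j x
    have hd' : (d : ZMod r) ≠ 0 := by rwa [Ne, ZMod.natCast_eq_zero_iff]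
    have h3 : σ ^ j = σ ^ (d * ((j : ZMod r) * (d : ZMod r)⁻¹).val) := by
      rw [pow_eq_pow_iff_modEq, h.order, ← ZMod.natCast_eq_natCast_iff]
      push_cast
      rw [ZMod.natCast_val, ZMod.cast_id, mul_comm (j : ZMod r), ← mul_assoc, mul_inv_cancel₀ hd',
        one_mul]
    rw [h3, h1]
  -- every prime over `v` is `ker g`
  have h4 : Ideal.span {(v : 𝓞 F)} = RingHom.ker g := by
    apply le_antisymm
    · rw [Ideal.span_singleton_le_iff_mem]
      exact (cy_ker_prime v hv g).2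
    · intro x hx
      rw [← (h.unram v hv hS).radical, Ideal.radical_eq_sInf, Submodule.mem_sInf]
      rintro P ⟨hP1, hP2⟩
      obtain ⟨i, hi, hx2⟩ := cy_trans h v hv P (RingHom.ker g) hP2 (cy_ker_prime v hv g).1
        ((Ideal.span_singleton_le_iff_mem _).mp hP1) (cy_ker_prime v hv g).2
      rw [hx2, RingHom.mem_ker, h2]
      exact hx
  have h5 : Ideal.absNorm (RingHom.ker g) = v := by
    rw [Ideal.absNorm_apply, Submodule.cardQuot_apply]
    have e := RingHom.quotientKerEquivOfSurjective (ZMod.ringHom_surjective g)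
    rw [Nat.card_congr e.toEquiv, Nat.card_eq_fintype_card, ZMod.card]
  have h6 := cy_norm_nat h v
  rw [h4, h5] at h6
  have h7 : v ^ 1 < v ^ r := Nat.pow_lt_pow_right hv.one_lt h.good.pr.one_lt
  rw [pow_one] at h7
  exact absurd h6 h7.ne

/-- a split unramified prime: the conjugate homomorphisms are independent (if `g σ^i = g` for some `0 < i < r`, then
for all `i`, `(v) = ker g` by `unram`, but `𝓞 F / v` has `v^r` elements; then CRT). -/
theorem IsCyc.surj (h : IsCyc r c S f F σ) (v : ℕ) (hv : v.Prime) (hS : v ∉ S)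
    (g : 𝓞 F →+* ZMod v) (y : ℕ → ZMod v) : ∃ x : 𝓞 F, ∀ i < r, g (σ ^ i • x) = y i := by
  have : Fact v.Prime := ⟨hv⟩
  let G : ℕ → 𝓞 F →+* ZMod v := fun i => g.comp (MulSemiringAction.toRingHom _ _ (σ ^ i))
  have hG : ∀ i x, G i x = g (σ ^ i • x) := fun i x => rfl
  have hne : ∀ i j, i < j → j < r → RingHom.ker (G i) ≠ RingHom.ker (G j) := by
    intro i j hij hj he
    have h1 : ∀ x, G j x = G i x := cy_ker_ext v (G i) (G j) (fun x hx => by
      have : x ∈ RingHom.ker (G i) := hx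
      rw [he] at this
      exact this)
    refine cy_free h v hv hS g (j - i) (fun hd => ?_) (fun x => ?_)
    · have := Nat.le_of_dvd (by omega) hd
      omega
    · have h2 := h1 ((σ ^ i)⁻¹ • x)
      rw [hG, hG, smul_inv_smul] at h2
      rw [← h2]
      congr 1
      rw [← mul_smul]
      congr 1
      rw [eq_mul_inv_iff_mul_eq, ← pow_add]
      congr 1
      omega
  have hbot : ∀ i, RingHom.ker (G i) ≠ ⊥ := by
    intro i hb
    have h1 := (cy_ker_prime v hv (G i)).2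
    rw [hb, Ideal.mem_bot] at h1
    exact hv.ne_zero (by exact_mod_cast h1)
  obtain ⟨x, hx⟩ := IsDedekindDomain.exists_forall_sub_mem_ideal (s := Finset.range r)
    (fun i => RingHom.ker (G i)) (fun _ => 1)
    (fun i _ => Ideal.prime_of_isPrime (hbot i) (cy_ker_prime v hv (G i)).1)
    (fun i hi j hj hij => by
      rw [Finset.mem_range] at hi hj
      rcases lt_or_gt_of_ne hij with h1 | h1
      · exact hne i j h1 hj
      · exact (hne j i h1 hi).symm)
    (fun i => (((y i.1).val : ℕ) : 𝓞 F))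
  refine ⟨x, fun i hi => ?_⟩
  have h1 := hx i (Finset.mem_range.mpr hi)
  rw [pow_one, RingHom.mem_ker, map_sub, map_natCast, ZMod.natCast_zmod_val, sub_eq_zero] at h1
  exact h1

/-- a prime of the conductor is totally ramified, residue field `ZMod l`: `𝔏` maximal ideal of `𝓞 Ω` over `l`; every
`z` with `z^l = 1` is `1` mod `𝔏`, so `g_a y = y` mod `𝔏` if `a = 1` mod `n/l`, and `g_a y = y^l` mod `𝔏` if
`a = l` mod `n/l`; choose `a` mod `l` with `psi a = 1` resp. `psi a = 0` (`f l ≠ 0`). -/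
theorem IsCyc.ram (h : IsCyc r c S f F σ) (l : ℕ) (hl : l ∈ S) :
    ∃ g : 𝓞 F →+* ZMod l, ∀ x, g (σ • x) = g x := by
  classical
  obtain ⟨ι, hinj, hdiv, hgal⟩ := cy_emb h
  have hn := cy_cond_pos h.good
  have hlp := h.good.prime l hl
  have : Fact l.Prime := ⟨hlp⟩
  have : Fact r.Prime := ⟨h.good.pr⟩
  let Ω := CyclotomicField (cond S) ℚ
  obtain ⟨L, hL, hlL⟩ := exists_max_ideal_of_mem_nonunits (cy_nonunit Ω l hlp)
  let _ : Field (𝓞 Ω ⧸ L) := Ideal.Quotient.field L
  have hchar : CharP (𝓞 Ω ⧸ L) l := by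
    rw [CharP.charP_iff_prime_eq_zero hlp, ← map_natCast (Ideal.Quotient.mk L),
      Ideal.Quotient.eq_zero_iff_mem]
    exact hlL
  -- the exponent `m = n / l`
  set m := ∏ l' ∈ S.erase l, l' with hm
  have hnm : cond S = l * m := (Finset.mul_prod_erase S (fun l => l) hl).symm
  -- roots of unity mod `L` have order dividing `m`
  have hroot : ∀ z : 𝓞 Ω, z ^ cond S = 1 → (Ideal.Quotient.mk L z) ^ m = 1 := by
    intro z hz
    have h1 : ((Ideal.Quotient.mk L z) ^ m) ^ l = 1 := by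
      rw [← pow_mul, mul_comm, ← hnm, ← map_pow, hz, map_one]
    have h2 : ((Ideal.Quotient.mk L z) ^ m - 1) ^ l = 0 := by
      rw [sub_pow_char, h1, one_pow, sub_self]
    exact sub_eq_zero.mp (pow_eq_zero_iff hlp.ne_zero |>.mp h2)
  have hmod : ∀ (a b : ℕ), (∀ l' ∈ S, l' ≠ l → (a : ZMod l') = (b : ZMod l')) →
      ∀ z : 𝓞 Ω, z ^ cond S = 1 → (Ideal.Quotient.mk L z) ^ a = (Ideal.Quotient.mk L z) ^ b := by
    intro a b hab z hz
    have h1 : a ≡ b [MOD m] := by
      rw [hm, Nat.modEq_iff_dvd]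
      push_cast
      apply Finset.prod_dvd_of_coprime
      · intro l1 hl1 l2 hl2 hne
        have := (Nat.coprime_primes (h.good.prime l1 (Finset.mem_of_mem_erase hl1))
          (h.good.prime l2 (Finset.mem_of_mem_erase hl2))).mpr hne
        exact Nat.isCoprime_iff_coprime.mpr this
      · intro l1 hl1
        rw [← Nat.modEq_iff_dvd, ← ZMod.natCast_eq_natCast_iff]
        exact hab l1 (Finset.mem_of_mem_erase hl1) (Finset.ne_of_mem_erase hl1)
    have h2 := hroot z hz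
    rw [pow_eq_pow_mod a h2, pow_eq_pow_mod b h2, h1]
  -- `σ x = x` mod `L`
  obtain ⟨a, ha, ha1, ha2⟩ := cy_exists_psi h.good l hl (fun _ => 1) 1
  obtain ⟨g, hg, hg2⟩ := hgal a ha
  have hA : ∀ x : 𝓞 F, Ideal.Quotient.mk L (ι (σ • x)) = Ideal.Quotient.mk L (ι x) := by
    intro x
    have h1 := cy_hom_ext (cond S) hn
      ((Ideal.Quotient.mk L).comp (MulSemiringAction.toRingHom _ _ g)) (Ideal.Quotient.mk L)
      (fun z hz => by
        change Ideal.Quotient.mk L (g • z) = _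
        rw [hg z hz, map_pow, hmod a 1 (fun l' hl' hne => by rw [ha2 l' hl' hne]; simp) z hz,
          pow_one]) (ι x)
    change Ideal.Quotient.mk L (g • (ι x)) = _ at h1
    rw [hg2, ha1, ZMod.val_one, pow_one] at h1
    exact h1
  -- `x = x ^ l` mod `L`
  obtain ⟨b, hb, hb1, hb2⟩ := cy_exists_psi h.good l hl
    (fun l' => if hc : Nat.Coprime l l' then ZMod.unitOfCoprime l hc else 1) 0
  obtain ⟨g', hg', hg2'⟩ := hgal b hb
  have hB : ∀ x : 𝓞 F, (Ideal.Quotient.mk L (ι x)) ^ l = Ideal.Quotient.mk L (ι x) := by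
    intro x
    have h1 := cy_hom_ext (cond S) hn
      ((Ideal.Quotient.mk L).comp (MulSemiringAction.toRingHom _ _ g'))
      ((frobenius (𝓞 Ω ⧸ L) l).comp (Ideal.Quotient.mk L))
      (fun z hz => by
        change Ideal.Quotient.mk L (g' • z) = (Ideal.Quotient.mk L z) ^ l
        rw [hg' z hz, map_pow]
        refine hmod b l (fun l' hl' hne => ?_) z hz
        have hc : Nat.Coprime l l' := (Nat.coprime_primes hlp (h.good.prime l' hl')).mpr hne.symm
        rw [hb2 l' hl' hne, dif_pos hc, ZMod.coe_unitOfCoprime]) (ι x)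
    change Ideal.Quotient.mk L (g' • (ι x)) = (Ideal.Quotient.mk L (ι x)) ^ l at h1
    rw [hg2', hb1, ZMod.val_zero, pow_zero, one_smul] at h1
    exact h1.symm
  -- the residue field
  let P : Ideal (𝓞 F) := L.comap ι
  have hPp : P.IsPrime := Ideal.comap_isPrime ι L
  have hlP : (l : 𝓞 F) ∈ P := by
    change ι (l : 𝓞 F) ∈ L
    rw [map_natCast]
    exact hlL
  have hPb : P ≠ ⊥ := by
    intro hb
    rw [hb, Ideal.mem_bot] at hlP
    exact hlp.ne_zero (by exact_mod_cast hlP)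
  have hPm : P.IsMaximal := hPp.isMaximal hPb
  let _ : Field (𝓞 F ⧸ P) := Ideal.Quotient.field P
  have hchar' : CharP (𝓞 F ⧸ P) l := by
    rw [CharP.charP_iff_prime_eq_zero hlp, ← map_natCast (Ideal.Quotient.mk P),
      Ideal.Quotient.eq_zero_iff_mem]
    exact hlP
  obtain ⟨e, he⟩ := cy_res (𝓞 F ⧸ P) l (by
    intro y
    obtain ⟨x, rfl⟩ := Ideal.Quotient.mk_surjective y
    rw [← map_pow, Ideal.Quotient.mk_eq_mk_iff_sub_mem]
    change ι (x ^ l - x) ∈ L
    rw [map_sub, map_pow, ← Ideal.Quotient.mk_eq_mk_iff_sub_mem, map_pow]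
    exact hB x)
  refine ⟨e.comp (Ideal.Quotient.mk P), fun x => ?_⟩
  rw [RingHom.comp_apply, RingHom.comp_apply]
  congr 1
  rw [Ideal.Quotient.mk_eq_mk_iff_sub_mem]
  change ι (σ • x - x) ∈ L
  rw [map_sub, ← Ideal.Quotient.mk_eq_mk_iff_sub_mem]
  exact hA x

/-! ## existence -/

/-- the character of the Galois group -/
private noncomputable def cyPsi {r : ℕ} (c : Chars r) (S : Finset ℕ) (f : ℕ → ZMod r) (hn : 0 < cond S) :
    (ZMod (cond S))ˣ →* Multiplicative (ZMod r) where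
  toFun u := Multiplicative.ofAdd (psi c S f (((u : ZMod (cond S)).val : ℕ) : ℤ))
  map_one' := by
    have : NeZero (cond S) := ⟨hn.ne'⟩
    rw [cy_psi_congr c S f _ 1 (by rw [← ZMod.natCast_eq_natCast_iff, ZMod.natCast_zmod_val]; simp),
      cy_psi_one]
    rfl
  map_mul' u v := by
    have : NeZero (cond S) := ⟨hn.ne'⟩
    rw [← ofAdd_add, ← cy_psi_mul c S f _ _ (ZMod.val_coe_unit_coprime u) (ZMod.val_coe_unit_coprime v)]
    congr 1
    apply cy_psi_congr
    rw [← ZMod.natCast_eq_natCast_iff, ZMod.natCast_zmod_val]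
    push_cast
    rw [ZMod.natCast_zmod_val, ZMod.natCast_zmod_val]

/-- the value of the character at an automorphism `z ↦ z ^ a` -/
private theorem cyPsi_apply {r : ℕ} (c : Chars r) (S : Finset ℕ) (f : ℕ → ZMod r) (hn : 0 < cond S)
    (u : (ZMod (cond S))ˣ) (a : ℕ) (h : (u : ZMod (cond S)) = (a : ZMod (cond S))) :
    cyPsi c S f hn u = Multiplicative.ofAdd (psi c S f (a : ℤ)) := by
  have : NeZero (cond S) := ⟨hn.ne'⟩
  change Multiplicative.ofAdd (psi c S f (((u : ZMod (cond S)).val : ℕ) : ℤ)) = _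
  congr 1
  apply cy_psi_congr
  rw [← ZMod.natCast_eq_natCast_iff, ZMod.natCast_zmod_val, h]

/-- Existence of the cyclic field. `n = cond S`, `Ω = CyclotomicField n ℚ`, `Ψ : Gal(Ω/ℚ) → ZMod r`,
`Ψ g = psi c S f a` for `g z = z ^ a` (surjective by CRT: `f l ≠ 0`, `c l` onto); `F` = fixed field of `ker Ψ`,
`σ` = restriction of a `g₀` with `Ψ g₀ = 1`; `g g₀^(-Ψ g)` is in the kernel. -/
theorem exists_cyc {r : ℕ} {c : Chars r} {S : Finset ℕ} {f : ℕ → ZMod r} (h : Good r c S f) :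
    ∃ (F : Type) (_ : Field F) (_ : NumberField F) (σ : F ≃ₐ[ℚ] F), IsCyc r c S f F σ := by
  classical
  have hn := cy_cond_pos h
  have : Fact r.Prime := ⟨h.pr⟩
  have : NeZero (cond S) := ⟨hn.ne'⟩
  have := cy_ext (cond S)
  let Ω := CyclotomicField (cond S) ℚ
  have : IsGalois ℚ Ω := IsCyclotomicExtension.isGalois {cond S} ℚ _
  let e := IsCyclotomicExtension.Rat.galEquivZMod (cond S) Ω
  let Ψ : (Ω ≃ₐ[ℚ] Ω) →* Multiplicative (ZMod r) := (cyPsi c S f hn).comp e.toMonoidHom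
  have hζ := IsCyclotomicExtension.zeta_spec (cond S) ℚ Ω
  have hΨ : ∀ (g : Ω ≃ₐ[ℚ] Ω) (a : ℕ), (∀ z : Ω, z ^ cond S = 1 → g z = z ^ a) →
      Ψ g = Multiplicative.ofAdd (psi c S f (a : ℤ)) := by
    intro g a hg
    refine cyPsi_apply c S f hn (e g) a ?_
    have h1 := hg _ hζ.pow_eq_one
    rw [IsCyclotomicExtension.Rat.galEquivZMod_apply_of_pow_eq (cond S) Ω g hζ.pow_eq_one] at h1
    rw [(hζ.isOfFinOrder (NeZero.ne _)).pow_inj_mod, ← hζ.eq_orderOf] at h1
    have h2 : (e g : ZMod (cond S)).val ≡ a [MOD cond S] := h1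
    rw [← ZMod.natCast_eq_natCast_iff, ZMod.natCast_zmod_val] at h2
    exact h2
  have hsur : ∀ t : ZMod r, ∃ g : Ω ≃ₐ[ℚ] Ω, Ψ g = Multiplicative.ofAdd t := by
    intro t
    obtain ⟨a, ha, hat⟩ := cy_exists_psi' h t
    obtain ⟨g, hg⟩ := cy_gal (cond S) hn a ha
    exact ⟨g, by rw [hΨ g a hg, hat]⟩
  let H : Subgroup (Ω ≃ₐ[ℚ] Ω) := Ψ.ker
  let F : IntermediateField ℚ Ω := IntermediateField.fixedField H
  have hfix : ∀ g ∈ H, ∀ x : F, g (x : Ω) = (x : Ω) := fun g hg x => x.2 ⟨g, hg⟩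
  have hgalF : IsGalois ℚ F := IsGalois.of_fixedField_normal_subgroup H
  have hrank : Module.finrank ℚ F = r := by
    have h1 : Module.finrank F Ω = Nat.card H := IntermediateField.finrank_fixedField_eq_card H
    have h2 := Module.finrank_mul_finrank ℚ F Ω
    have h3 : Nat.card (Ω ≃ₐ[ℚ] Ω) = Module.finrank ℚ Ω := IsGalois.card_aut_eq_finrank ℚ Ω
    have h4 : H.index = r := by
      rw [Subgroup.index_ker]
      have : Ψ.range = ⊤ := by
        rw [eq_top_iff]
        intro t _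
        obtain ⟨g, hg⟩ := hsur (Multiplicative.toAdd t)
        exact ⟨g, by rw [hg, ofAdd_toAdd]⟩
      rw [this, Subgroup.card_top, Nat.card_eq_fintype_card, Fintype.card_multiplicative, ZMod.card]
    have h5 := H.card_mul_index
    rw [h4, h3, ← h2, h1, mul_comm] at h5
    exact (Nat.eq_of_mul_eq_mul_right Nat.card_pos h5).symm
  obtain ⟨g₁, hg₁⟩ := hsur 1
  let σ₀ : F ≃ₐ[ℚ] F := AlgEquiv.restrictNormalHom F g₁
  have hσ₀ : ∀ x : F, ((σ₀ x : F) : Ω) = g₁ (x : Ω) := fun x =>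
    AlgEquiv.restrictNormal_commutes g₁ F x
  have hpow : ∀ (k : ℕ) (x : F), (((σ₀ ^ k) x : F) : Ω) = (g₁ ^ k) (x : Ω) := by
    intro k
    induction k with
    | zero => intro x; simp
    | succ k ih => intro x; rw [pow_succ, pow_succ, AlgEquiv.mul_apply, AlgEquiv.mul_apply, ih, hσ₀]
  refine ⟨F, inferInstance, inferInstance, σ₀, h, hrank, F.val, ?_⟩
  intro g a hg x
  have h1 := hΨ g a hg
  change g (x : Ω) = (((σ₀ ^ (psi c S f (a : ℤ)).val) x : F) : Ω)
  rw [hpow]
  have h2 : (g₁ ^ (psi c S f (a : ℤ)).val)⁻¹ * g ∈ H := by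
    rw [MonoidHom.mem_ker, map_mul, map_inv, map_pow, h1, hg₁, ← ofAdd_nsmul]
    simp
  have h3 := hfix _ h2 x
  rw [AlgEquiv.mul_apply] at h3
  have h4 := congrArg (g₁ ^ (psi c S f (a : ℤ)).val) h3
  rw [← h4, ← AlgEquiv.mul_apply, mul_inv_cancel]
  rfl


/-! ## the ring of integers: discriminant and basis -/

/-- the embedding, the character of the Galois group, and Galois theory -/
private theorem cy_data (h : IsCyc r c S f F σ) :
    ∃ (ι : F →ₐ[ℚ] CyclotomicField (cond S) ℚ)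
      (Ψ : (CyclotomicField (cond S) ℚ ≃ₐ[ℚ] CyclotomicField (cond S) ℚ) → ZMod r),
      (∀ g g', Ψ (g * g') = Ψ g + Ψ g') ∧ Function.Surjective Ψ ∧
      (∀ g (x : F), g (ι x) = ι ((σ ^ (Ψ g).val) x)) ∧
      (∀ y : CyclotomicField (cond S) ℚ, (∀ g, Ψ g = 0 → g y = y) → ∃ x : F, ι x = y) := by
  obtain ⟨ι, hι⟩ := h.emb
  have hn := cy_cond_pos h.good
  have : Fact r.Prime := ⟨h.good.pr⟩
  have : NeZero (cond S) := ⟨hn.ne'⟩
  have := cy_ext (cond S)
  have : IsGalois ℚ (CyclotomicField (cond S) ℚ) := IsCyclotomicExtension.isGalois {cond S} ℚ _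
  let e := IsCyclotomicExtension.Rat.galEquivZMod (cond S) (CyclotomicField (cond S) ℚ)
  let Ψ₀ : (CyclotomicField (cond S) ℚ ≃ₐ[ℚ] CyclotomicField (cond S) ℚ) →* Multiplicative (ZMod r) :=
    (cyPsi c S f hn).comp e.toMonoidHom
  have hζ := IsCyclotomicExtension.zeta_spec (cond S) ℚ (CyclotomicField (cond S) ℚ)
  have hΨ : ∀ (g : CyclotomicField (cond S) ℚ ≃ₐ[ℚ] CyclotomicField (cond S) ℚ) (a : ℕ),
      (∀ z : CyclotomicField (cond S) ℚ, z ^ cond S = 1 → g z = z ^ a) →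
      Ψ₀ g = Multiplicative.ofAdd (psi c S f (a : ℤ)) := by
    intro g a hg
    refine cyPsi_apply c S f hn (e g) a ?_
    have h1 := hg _ hζ.pow_eq_one
    rw [IsCyclotomicExtension.Rat.galEquivZMod_apply_of_pow_eq (cond S) _ g hζ.pow_eq_one] at h1
    rw [(hζ.isOfFinOrder (NeZero.ne _)).pow_inj_mod, ← hζ.eq_orderOf] at h1
    have h2 : (e g : ZMod (cond S)).val ≡ a [MOD cond S] := h1
    rw [← ZMod.natCast_eq_natCast_iff, ZMod.natCast_zmod_val] at h2
    exact h2
  refine ⟨ι, fun g => Multiplicative.toAdd (Ψ₀ g), fun g g' => by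
    change Multiplicative.toAdd (Ψ₀ (g * g')) = _
    rw [map_mul, toAdd_mul], ?_, ?_, ?_⟩
  · intro t
    obtain ⟨a, ha, hat⟩ := cy_exists_psi' h.good t
    obtain ⟨g, hg⟩ := cy_gal (cond S) hn a ha
    refine ⟨g, ?_⟩
    change Multiplicative.toAdd (Ψ₀ g) = t
    rw [hΨ g a hg, toAdd_ofAdd, hat]
  · intro g x
    obtain ⟨a, -, ha⟩ := cy_gal' (cond S) hn g
    change g (ι x) = ι ((σ ^ (Multiplicative.toAdd (Ψ₀ g)).val) x)
    rw [hι g a ha x, hΨ g a ha, toAdd_ofAdd]
  · intro y hy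
    have h1 : y ∈ ι.fieldRange := by
      rw [← IsGalois.fixedField_fixingSubgroup ι.fieldRange]
      rintro ⟨g, hg⟩
      change g y = y
      apply hy
      have h2 : ∀ x : F, g (ι x) = ι x := fun x => hg ⟨ι x, x, rfl⟩
      obtain ⟨a, -, ha⟩ := cy_gal' (cond S) hn g
      change Multiplicative.toAdd (Ψ₀ g) = 0
      rw [hΨ g a ha, toAdd_ofAdd]
      have h3 : σ ^ (psi c S f (a : ℤ)).val = 1 := by
        ext x
        apply (ι : F →+* CyclotomicField (cond S) ℚ).injective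
        change ι ((σ ^ (psi c S f (a : ℤ)).val) x) = ι x
        rw [← hι g a ha x, h2]
      rw [← orderOf_dvd_iff_pow_eq_one, h.order] at h3
      have h4 := Nat.eq_zero_of_dvd_of_lt h3 (ZMod.val_lt _)
      rwa [ZMod.val_eq_zero] at h4
    obtain ⟨x, hx⟩ := h1
    exact ⟨x, hx⟩

/-- a ring hom of `F` to `ℂ` extends to the cyclotomic field -/
private theorem cy_lift (ι : F →ₐ[ℚ] CyclotomicField (cond S) ℚ) (w : F →+* ℂ) :
    ∃ W : CyclotomicField (cond S) ℚ →+* ℂ, ∀ x, W (ι x) = w x := by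
  let _ : Algebra F (CyclotomicField (cond S) ℚ) := (ι : F →+* CyclotomicField (cond S) ℚ).toAlgebra
  have : IsScalarTower ℚ F (CyclotomicField (cond S) ℚ) := IsScalarTower.of_algebraMap_eq
    (fun q => (ι.commutes q).symm)
  have : Algebra.IsAlgebraic F (CyclotomicField (cond S) ℚ) :=
    Algebra.IsAlgebraic.tower_top (K := ℚ) F
  exact ⟨ComplexEmbedding.lift _ w, fun x => ComplexEmbedding.lift_algebraMap_apply _ w x⟩

/-- sums over the fibres of the character -/
private theorem cy_fib (h : IsCyc r c S f F σ) (ι : F →ₐ[ℚ] CyclotomicField (cond S) ℚ)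
    (Ψ : (CyclotomicField (cond S) ℚ ≃ₐ[ℚ] CyclotomicField (cond S) ℚ) → ZMod r)
    (hmul : ∀ g g', Ψ (g * g') = Ψ g + Ψ g')
    (hgal : ∀ y : CyclotomicField (cond S) ℚ, (∀ g, Ψ g = 0 → g y = y) → ∃ x : F, ι x = y)
    (z : CyclotomicField (cond S) ℚ) (hz : z ^ cond S = 1) (t : ZMod r) :
    ∃ x : 𝓞 F, ι (x : F) = ∑ g with Ψ g = t, g z ∧ ∀ w : F →+* ℂ, ‖w (x : F)‖ ≤ cond S := by
  classical
  have hn := cy_cond_pos h.good
  have : NeZero (cond S) := ⟨hn.ne'⟩
  have := cy_ext (cond S)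
  have : IsGalois ℚ (CyclotomicField (cond S) ℚ) := IsCyclotomicExtension.isGalois {cond S} ℚ _
  obtain ⟨x, hx⟩ := hgal (∑ g with Ψ g = t, g z) (by
    intro g hg
    rw [map_sum]
    refine Finset.sum_bij (fun g' _ => g * g') ?_ ?_ ?_ ?_
    · intro g' hg'
      simp only [Finset.mem_filter, Finset.mem_univ, true_and] at hg' ⊢
      rw [hmul, hg, zero_add, hg']
    · intro a _ b _ hab
      exact mul_left_cancel hab
    · intro g' hg'
      simp only [Finset.mem_filter, Finset.mem_univ, true_and] at hg' ⊢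
      refine ⟨g⁻¹ * g', ?_, by group⟩
      have h1 := hmul g (g⁻¹ * g')
      rw [mul_inv_cancel_left, hg, zero_add] at h1
      rw [← h1, hg']
    · intro g' _
      rfl)
  have hint : IsIntegral ℤ x := by
    have h1 : IsIntegral ℤ (ι x) := by
      rw [hx]
      apply IsIntegral.sum
      intro g _
      have h2 : IsIntegral ℤ z := ⟨Polynomial.X ^ cond S - 1, Polynomial.monic_X_pow_sub_C 1 hn.ne',
        by simp [hz]⟩
      exact h2.map (g : CyclotomicField (cond S) ℚ →+* CyclotomicField (cond S) ℚ).toIntAlgHom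
    exact (isIntegral_algHom_iff (ι.restrictScalars ℤ)
      (ι : F →+* CyclotomicField (cond S) ℚ).injective).mp h1
  obtain ⟨u, hu⟩ := (IsIntegralClosure.isIntegral_iff (A := 𝓞 F)).mp hint
  refine ⟨u, ?_, ?_⟩
  · change ι (algebraMap (𝓞 F) F u) = _
    rw [hu, hx]
  · intro w
    change ‖w (algebraMap (𝓞 F) F u)‖ ≤ _
    rw [hu]
    obtain ⟨W, hW⟩ := cy_lift ι w
    rw [← hW, hx, map_sum]
    calc ‖∑ g with Ψ g = t, W (g z)‖ ≤ ∑ g with Ψ g = t, ‖W (g z)‖ := norm_sum_le _ _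
      _ = ∑ g with Ψ g = t, (1 : ℝ) := by
          refine Finset.sum_congr rfl fun g _ => ?_
          apply Complex.norm_eq_one_of_pow_eq_one _ hn.ne'
          rw [← map_pow, ← map_pow, hz, map_one, map_one]
      _ ≤ (cond S : ℝ) := by
          rw [Finset.sum_const, nsmul_eq_mul, mul_one]
          have h1 : (Finset.univ.filter fun g : (CyclotomicField (cond S) ℚ ≃ₐ[ℚ]
              CyclotomicField (cond S) ℚ) => Ψ g = t).card ≤ cond S := by
            refine (Finset.card_le_univ _).trans ?_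
            rw [← Nat.card_eq_fintype_card, IsGalois.card_aut_eq_finrank,
              IsCyclotomicExtension.Rat.finrank (k := cond S)]
            exact Nat.totient_le _
          exact_mod_cast h1


/-- a generator with small conjugates -/
private theorem cy_gen (h : IsCyc r c S f F σ) :
    ∃ θ : 𝓞 F, σ • θ ≠ θ ∧ ∀ w : F →+* ℂ, ‖w (θ : F)‖ ≤ cond S := by
  classical
  have hn := cy_cond_pos h.good
  have : Fact r.Prime := ⟨h.good.pr⟩
  have : NeZero (cond S) := ⟨hn.ne'⟩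
  have := cy_ext (cond S)
  obtain ⟨ι, Ψ, hmul, hsur, hact, hgal⟩ := cy_data h
  have hζ := IsCyclotomicExtension.zeta_spec (cond S) ℚ (CyclotomicField (cond S) ℚ)
  set ζ := IsCyclotomicExtension.zeta (cond S) ℚ (CyclotomicField (cond S) ℚ) with hζdef
  by_contra hcon
  push Not at hcon
  have h1 : ∀ j : ℕ, ∀ g' : CyclotomicField (cond S) ℚ ≃ₐ[ℚ] CyclotomicField (cond S) ℚ,
      g' (∑ g with Ψ g = 0, g (ζ ^ j)) = ∑ g with Ψ g = 0, g (ζ ^ j) := by
    intro j g'
    obtain ⟨x, hx, hx2⟩ := cy_fib h ι Ψ hmul hgal (ζ ^ j)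
      (by rw [← pow_mul, mul_comm, pow_mul, hζ.pow_eq_one, one_pow]) 0
    rw [← hx, hact]
    have h2 : σ • x = x := by
      by_contra hne
      obtain ⟨w, hw⟩ := hcon x hne
      exact absurd (hx2 w) (not_le.mpr hw)
    have h3 : ∀ k : ℕ, σ ^ k • x = x := by
      intro k
      induction k with
      | zero => simp
      | succ k ih => rw [pow_succ, mul_smul, h2, ih]
    have h4 := h3 (Ψ g').val
    have h5 : (σ ^ (Ψ g').val) (x : F) = (x : F) := by
      rw [← cy_coe_smul, h4]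
    rw [h5]
  have h2 : ∀ y : CyclotomicField (cond S) ℚ,
      ∀ g' : CyclotomicField (cond S) ℚ ≃ₐ[ℚ] CyclotomicField (cond S) ℚ,
      g' (∑ g with Ψ g = 0, g y) = ∑ g with Ψ g = 0, g y := by
    intro y g'
    have hy : y ∈ Algebra.adjoin ℚ {ζ} := by
      rw [IsCyclotomicExtension.adjoin_primitive_root_eq_top hζ]; trivial
    rw [← Subalgebra.mem_toSubmodule, Algebra.adjoin_eq_span] at hy
    induction hy using Submodule.span_induction with
    | mem x hx =>
      rw [SetLike.mem_coe, Submonoid.mem_closure_singleton] at hx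
      obtain ⟨j, rfl⟩ := hx
      exact h1 j g'
    | zero => simp
    | add x y _ _ hx hy =>
      simp only [map_add, Finset.sum_add_distrib]
      rw [hx, hy]
    | smul a x _ hx =>
      have e : ∀ g : CyclotomicField (cond S) ℚ ≃ₐ[ℚ] CyclotomicField (cond S) ℚ,
          g (a • x) = (a : CyclotomicField (cond S) ℚ) * g x := by
        intro g
        rw [show a • x = (a : CyclotomicField (cond S) ℚ) * x from Rat.smul_def a x, map_mul,
          map_ratCast]
      have e' : ∑ g with Ψ g = 0, g (a • x) =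
          (a : CyclotomicField (cond S) ℚ) * ∑ g with Ψ g = 0, g x := by
        rw [Finset.mul_sum]
        exact Finset.sum_congr rfl fun g _ => e g
      refine (congrArg g' e').trans (Eq.trans ?_ e'.symm)
      rw [map_mul, map_ratCast, hx]
  obtain ⟨g', hg'⟩ := hsur 1
  have h3 : ∀ x : F, σ x = x := by
    intro x
    have h4 := h2 (ι x) g'
    have h5 : ∑ g with Ψ g = 0, g (ι x) = ∑ g with Ψ g = 0, ι x := by
      refine Finset.sum_congr rfl fun g hg => ?_
      rw [Finset.mem_filter] at hg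
      rw [hact, hg.2, ZMod.val_zero, pow_zero, AlgEquiv.one_apply]
    rw [h5, Finset.sum_const, map_nsmul, hact, hg', ZMod.val_one, pow_one] at h4
    have h6 : ((Finset.univ.filter fun g : (CyclotomicField (cond S) ℚ ≃ₐ[ℚ]
        CyclotomicField (cond S) ℚ) => Ψ g = 0).card : CyclotomicField (cond S) ℚ) ≠ 0 := by
      rw [Nat.cast_ne_zero, Finset.card_ne_zero]
      obtain ⟨g, hg⟩ := hsur 0
      exact ⟨g, by simp [hg]⟩
    rw [nsmul_eq_mul, nsmul_eq_mul] at h4
    exact (ι : F →+* CyclotomicField (cond S) ℚ).injective (mul_left_cancel₀ h6 h4)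
  have h4 : σ = 1 := AlgEquiv.ext h3
  have h5 := h.order
  rw [h4, orderOf_one] at h5
  exact h.good.pr.one_lt.ne h5

private theorem cy_disc_aux (h : IsCyc r c S f F σ) (θ : 𝓞 F) (B : ℝ)
    (hB : ∀ w : F →+* ℂ, ‖w (θ : F)‖ ≤ B) (hθ : σ • θ ≠ θ) :
    (|discr F| : ℝ) ≤ (2 * B) ^ (r * (r - 1)) := by
  classical
  have := h.galois
  have : Fact r.Prime := ⟨h.good.pr⟩
  let u : Fin r → F := fun k => (σ ^ (k : ℕ)) (θ : F)
  -- distinct conjugates
  have hu : Function.Injective u := by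
    intro i j hij
    by_contra hne
    wlog hlt : i < j generalizing i j
    · exact this hij.symm (Ne.symm hne) (lt_of_le_of_ne (not_lt.mp hlt) (Ne.symm hne))
    have h1 : (σ ^ ((j : ℕ) - (i : ℕ))) (θ : F) = (θ : F) := by
      apply (σ ^ (i : ℕ)).injective
      rw [← AlgEquiv.mul_apply, ← pow_add, Nat.add_sub_cancel' (by exact_mod_cast hlt.le)]
      exact hij.symm
    set d := (j : ℕ) - (i : ℕ) with hd
    have hd0 : (d : ZMod r) ≠ 0 := by
      rw [Ne, ZMod.natCast_eq_zero_iff]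
      intro hdvd
      have := Nat.le_of_dvd (by have : (i : ℕ) < j := hlt; omega) hdvd
      have := j.2
      omega
    have h2 : ∀ k : ℕ, (σ ^ (d * k)) (θ : F) = (θ : F) := by
      intro k
      induction k with
      | zero => simp
      | succ k ih => rw [Nat.mul_succ, pow_add, AlgEquiv.mul_apply, h1, ih]
    have h3 : σ ^ 1 = σ ^ (d * ((d : ZMod r)⁻¹).val) := by
      rw [pow_eq_pow_iff_modEq, h.order, ← ZMod.natCast_eq_natCast_iff]
      push_cast
      rw [ZMod.natCast_val, ZMod.cast_id, mul_inv_cancel₀ hd0]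
    apply hθ
    apply RingOfIntegers.ext
    rw [cy_coe_smul]
    have h4 := h2 ((d : ZMod r)⁻¹).val
    rw [← h3, pow_one] at h4
    exact h4
  let v : Fin r → 𝓞 F := fun i => θ ^ (i : ℕ)
  -- the trace
  have htr : ∀ x : 𝓞 F, ((Algebra.trace ℤ (𝓞 F) x : ℤ) : F) = ∑ k : Fin r, (σ ^ (k : ℕ)) (x : F) := by
    intro x
    have e1 : ((Algebra.trace ℤ (𝓞 F) x : ℤ) : F) = algebraMap ℚ F (Algebra.trace ℚ F (x : F)) := by
      rw [← Algebra.coe_trace_int]
      simp
    rw [e1, trace_eq_sum_automorphisms]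
    symm
    refine Finset.sum_bij (fun (k : Fin r) _ => σ ^ (k : ℕ)) (fun _ _ => Finset.mem_univ _) ?_ ?_
      (fun _ _ => rfl)
    · intro i _ j _ hij
      apply Fin.ext
      exact pow_injOn_Iio_orderOf (by rw [h.order]; exact i.2) (by rw [h.order]; exact j.2) hij
    · intro g _
      obtain ⟨i, hi, rfl⟩ := h.mem g
      exact ⟨⟨i, hi⟩, Finset.mem_univ _, rfl⟩
  have hD : ((Algebra.discr ℤ v : ℤ) : F) = (Matrix.vandermonde u).det ^ 2 := by
    rw [Algebra.discr_def]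
    have e1 : (((Algebra.traceMatrix ℤ v).det : ℤ) : F) =
        ((Algebra.traceMatrix ℤ v).map (Int.castRingHom F)).det := by
      rw [← RingHom.mapMatrix_apply, ← RingHom.map_det]
      rfl
    rw [e1]
    have e2 : (Algebra.traceMatrix ℤ v).map (Int.castRingHom F) =
        (Matrix.vandermonde u).transpose * Matrix.vandermonde u := by
      ext i j
      rw [Matrix.map_apply, Algebra.traceMatrix_apply, Algebra.traceForm_apply, Matrix.mul_apply]
      change ((Algebra.trace ℤ (𝓞 F) (v i * v j) : ℤ) : F) = _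
      rw [htr]
      refine Finset.sum_congr rfl fun k _ => ?_
      rw [Matrix.transpose_apply, Matrix.vandermonde_apply, Matrix.vandermonde_apply]
      change (σ ^ (k : ℕ)) (algebraMap (𝓞 F) F (θ ^ (i : ℕ) * θ ^ (j : ℕ))) = _
      rw [map_mul, map_pow, map_pow, map_mul, map_pow, map_pow]
    rw [e2, Matrix.det_mul, Matrix.det_transpose, sq]
  have hV0 : (Matrix.vandermonde u).det ≠ 0 := Matrix.det_vandermonde_ne_zero_iff.mpr hu
  have hD0 : Algebra.discr ℤ v ≠ 0 := by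
    intro h0
    rw [h0, Int.cast_zero] at hD
    exact pow_ne_zero 2 hV0 hD.symm
  -- comparison with the field discriminant
  have hcard : Fintype.card (Module.Free.ChooseBasisIndex ℤ (𝓞 F)) = Fintype.card (Fin r) := by
    rw [← Module.finrank_eq_card_chooseBasisIndex, RingOfIntegers.rank, h.finrank, Fintype.card_fin]
  let b : Module.Basis (Fin r) ℤ (𝓞 F) :=
    (RingOfIntegers.basis F).reindex (Fintype.equivOfCardEq hcard)
  have hP : Algebra.discr ℤ v = (b.toMatrix v).det ^ 2 * discr F := by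
    rw [← NumberField.discr_eq_discr F b, ← Algebra.discr_of_matrix_vecMul]
    congr 1
    ext1 j
    rw [Matrix.vecMul, dotProduct]
    simp only [Matrix.map_apply, Module.Basis.toMatrix_apply]
    conv_lhs => rw [← b.sum_repr (v j)]
    refine Finset.sum_congr rfl fun i _ => ?_
    rw [Algebra.smul_def, mul_comm]
  have hle : |discr F| ≤ |Algebra.discr ℤ v| := by
    rw [hP, abs_mul]
    have h1 : (b.toMatrix v).det ^ 2 ≠ 0 := by
      intro h0
      rw [h0, zero_mul] at hP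
      exact hD0 hP
    have h2 : 1 ≤ |(b.toMatrix v).det ^ 2| := Int.one_le_abs h1
    exact le_mul_of_one_le_left (abs_nonneg _) h2
  -- the bound
  obtain ⟨w⟩ : Nonempty (F →+* ℂ) := inferInstance
  have hB0 : 0 ≤ B := (norm_nonneg _).trans (hB w)
  have hDB : ((|Algebra.discr ℤ v| : ℤ) : ℝ) = ‖w ((Matrix.vandermonde u).det)‖ ^ 2 := by
    rw [← norm_pow, ← map_pow, ← hD, map_intCast, Complex.norm_intCast]
    push_cast
    rfl
  have hfin : ‖w ((Matrix.vandermonde u).det)‖ ^ 2 ≤ (2 * B) ^ (r * (r - 1)) := by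
    rw [Matrix.det_vandermonde, map_prod, norm_prod]
    have h1 : ∏ i : Fin r, ‖w (∏ j ∈ Finset.Ioi i, (u j - u i))‖ ≤
        ∏ i : Fin r, (2 * B) ^ (r - 1 - (i : ℕ)) := by
      refine Finset.prod_le_prod (fun _ _ => norm_nonneg _) fun i _ => ?_
      rw [map_prod, norm_prod]
      calc ∏ j ∈ Finset.Ioi i, ‖w (u j - u i)‖ ≤ ∏ j ∈ Finset.Ioi i, (2 * B) := by
            refine Finset.prod_le_prod (fun _ _ => norm_nonneg _) fun j _ => ?_
            rw [map_sub]
            have e : ∀ k : Fin r, ‖w (u k)‖ ≤ B := fun k =>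
              hB (w.comp ((σ ^ (k : ℕ) : F ≃ₐ[ℚ] F) : F →+* F))
            calc ‖w (u j) - w (u i)‖ ≤ ‖w (u j)‖ + ‖w (u i)‖ := norm_sub_le _ _
              _ ≤ 2 * B := by linarith [e i, e j]
        _ = (2 * B) ^ (r - 1 - (i : ℕ)) := by
            rw [Finset.prod_const, Fin.card_Ioi]
    calc (∏ i : Fin r, ‖w (∏ j ∈ Finset.Ioi i, (u j - u i))‖) ^ 2
        ≤ (∏ i : Fin r, (2 * B) ^ (r - 1 - (i : ℕ))) ^ 2 :=
          pow_le_pow_left₀ (Finset.prod_nonneg fun _ _ => norm_nonneg _) h1 2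
      _ = (2 * B) ^ (r * (r - 1)) := by
          rw [Finset.prod_pow_eq_pow_sum, ← pow_mul]
          congr 1
          rw [Fin.sum_univ_eq_sum_range (fun i => r - 1 - i) r, Finset.sum_range_reflect (fun i => i) r,
            Finset.sum_range_id_mul_two]
  calc (|discr F| : ℝ) = ((|discr F| : ℤ) : ℝ) := by push_cast; rfl
    _ ≤ ((|Algebra.discr ℤ v| : ℤ) : ℝ) := by exact_mod_cast hle
    _ ≤ _ := by rw [hDB]; exact hfin

/-- discriminant bound: some trace `θ = ∑_(h ∈ H) h ζ^j` (`H` = Galois group of `Ω/F`) is not rational (they span `F`),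
`|w θ| ≤ n`, `F = ℚ(θ)` (`r` prime), `disc F` divides `disc (1, θ, .., θ^(r-1)) = ∏_(i<j) (θ_i - θ_j)^2`. -/
theorem IsCyc.disc (h : IsCyc r c S f F σ) :
    |discr F| ≤ (2 * cond S : ℤ) ^ (r * (r - 1)) := by
  obtain ⟨θ, hθ, hB⟩ := cy_gen h
  have h1 := cy_disc_aux h θ (cond S) hB hθ
  have h2 : ((|discr F| : ℤ) : ℝ) ≤ (((2 * cond S : ℤ) ^ (r * (r - 1)) : ℤ) : ℝ) := by
    push_cast
    exact h1
  exact_mod_cast h2


/-- normal integral basis of the cyclotomic field of prime conductor -/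
private theorem cy_normal (n : ℕ) (hn : n.Prime) :
    ∃ z : CyclotomicField n ℚ, z ^ n = 1 ∧
      (∀ d : (CyclotomicField n ℚ ≃ₐ[ℚ] CyclotomicField n ℚ) → ℤ,
        ∑ g, (d g : CyclotomicField n ℚ) * g z = 0 → ∀ g, d g = 0) ∧
      ∀ y : 𝓞 (CyclotomicField n ℚ), ∃ d : (CyclotomicField n ℚ ≃ₐ[ℚ] CyclotomicField n ℚ) → ℤ,
        (y : CyclotomicField n ℚ) = ∑ g, (d g : CyclotomicField n ℚ) * g z := by
  classical
  have : NeZero n := ⟨hn.ne_zero⟩
  have := cy_ext n
  have : IsGalois ℚ (CyclotomicField n ℚ) := IsCyclotomicExtension.isGalois {n} ℚ _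
  have hζ := IsCyclotomicExtension.zeta_spec n ℚ (CyclotomicField n ℚ)
  set ζ := IsCyclotomicExtension.zeta n ℚ (CyclotomicField n ℚ) with hζdef
  set M := Submodule.span ℤ (Set.range fun g : CyclotomicField n ℚ ≃ₐ[ℚ] CyclotomicField n ℚ => g ζ)
    with hM
  have h1 : ∀ k : ℕ, k.Coprime n → ζ ^ k ∈ M := by
    intro k hk
    obtain ⟨g, hg⟩ := cy_gal n hn.pos k hk
    exact Submodule.subset_span ⟨g, hg ζ hζ.pow_eq_one⟩
  have h2 : (1 : CyclotomicField n ℚ) ∈ M := by
    have h3 := hζ.geom_sum_eq_zero hn.one_lt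
    have h3' : ∀ k, k = n → ∑ i ∈ Finset.range k, ζ ^ i = 0 := by
      rintro k hk
      rw [← h3]
      congr 1
      rw [hk]
    replace h3 := h3' (n - 1 + 1) (Nat.sub_add_cancel hn.one_lt.le)
    rw [Finset.sum_range_succ', pow_zero] at h3
    have h4 : (1 : CyclotomicField n ℚ) = -∑ k ∈ Finset.range (n - 1), ζ ^ (k + 1) := by
      linear_combination h3
    rw [h4]
    refine Submodule.neg_mem _ (Submodule.sum_mem _ fun k hk => h1 _ ?_)
    rw [Finset.mem_range] at hk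
    exact (Nat.coprime_of_lt_prime (by omega) (by omega) hn).symm
  have h3 : ∀ k : ℕ, ζ ^ k ∈ M := by
    intro k
    by_cases hk : n ∣ k
    · rw [(hζ.pow_eq_one_iff_dvd k).mpr hk]
      exact h2
    · exact h1 k ((Nat.Prime.coprime_iff_not_dvd hn).mpr hk).symm
  have h4 : ∀ y : 𝓞 (CyclotomicField n ℚ), (y : CyclotomicField n ℚ) ∈ M := by
    intro y
    have htop := IsCyclotomicExtension.Rat.adjoin_singleton_eq_top hζ
    have hy : y ∈ Algebra.adjoin ℤ {hζ.toInteger} := by rw [htop]; trivial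
    rw [← Subalgebra.mem_toSubmodule, Algebra.adjoin_eq_span] at hy
    induction hy using Submodule.span_induction with
    | mem x hx =>
      rw [SetLike.mem_coe, Submonoid.mem_closure_singleton] at hx
      obtain ⟨j, rfl⟩ := hx
      change algebraMap (𝓞 (CyclotomicField n ℚ)) _ (hζ.toInteger ^ j) ∈ M
      rw [map_pow]
      exact h3 j
    | zero => simp
    | add x y _ _ hx hy =>
      change algebraMap (𝓞 (CyclotomicField n ℚ)) _ (x + y) ∈ M
      rw [map_add]
      exact Submodule.add_mem _ hx hy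
    | smul a x _ hx =>
      change algebraMap (𝓞 (CyclotomicField n ℚ)) _ (a • x) ∈ M
      rw [zsmul_eq_mul, map_mul, map_intCast, ← zsmul_eq_mul]
      exact Submodule.smul_mem _ a hx
  have hli : LinearIndependent ℚ
      fun g : CyclotomicField n ℚ ≃ₐ[ℚ] CyclotomicField n ℚ => g ζ := by
    apply linearIndependent_of_top_le_span_of_card_eq_finrank
    · intro y _
      have hy : y ∈ Algebra.adjoin ℚ {ζ} := by
        rw [IsCyclotomicExtension.adjoin_primitive_root_eq_top hζ]; trivial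
      rw [← Subalgebra.mem_toSubmodule, Algebra.adjoin_eq_span] at hy
      refine Submodule.span_le.mpr ?_ hy
      rintro x hx
      rw [SetLike.mem_coe, Submonoid.mem_closure_singleton] at hx
      obtain ⟨j, rfl⟩ := hx
      exact Submodule.span_subset_span ℤ ℚ _ (h3 j)
    · rw [← Nat.card_eq_fintype_card, IsGalois.card_aut_eq_finrank]
  refine ⟨ζ, hζ.pow_eq_one, ?_, ?_⟩
  · intro d hd g
    have h5 := Fintype.linearIndependent_iff.mp hli (fun g => (d g : ℚ)) (by
      rw [← hd]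
      refine Finset.sum_congr rfl fun g _ => ?_
      refine (Rat.smul_def _ _).trans ?_
      rw [Rat.cast_intCast]) g
    exact_mod_cast h5
  · intro y
    have h5 := h4 y
    rw [hM, Submodule.mem_span_range_iff_exists_fun] at h5
    obtain ⟨d, hd⟩ := h5
    refine ⟨d, ?_⟩
    rw [← hd]
    refine Finset.sum_congr rfl fun g _ => ?_
    exact zsmul_eq_mul _ _

/-- integral basis with small conjugates (prime conductor): the periods. -/
theorem IsCyc.basis (h : IsCyc r c S f F σ) (p : ℕ) (hp : S = {p}) :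
    ∃ b : Module.Basis (Fin r) ℤ (𝓞 F), ∀ (i : Fin r) (w : F →+* ℂ), ‖w (b i)‖ ≤ p := by
  classical
  have hcond : cond S = p := by rw [hp]; simp [cond]
  have hpp : (cond S).Prime := by
    rw [hcond]
    exact h.good.prime p (by rw [hp]; exact Finset.mem_singleton_self p)
  have : Fact r.Prime := ⟨h.good.pr⟩
  obtain ⟨ι, Ψ, hmul, hsur, hact, hgal⟩ := cy_data h
  obtain ⟨z, hz, hli, hspan⟩ := cy_normal (cond S) hpp
  choose θ hθ hB using fun t : ZMod r => cy_fib h ι Ψ hmul hgal z hz t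
  choose s hs using hsur
  -- sums with coefficients depending on the value of the character only
  have key : ∀ d : ZMod r → ℤ, ι ((∑ t, d t • θ t : 𝓞 F) : F) =
      ∑ g : CyclotomicField (cond S) ℚ ≃ₐ[ℚ] CyclotomicField (cond S) ℚ,
        (d (Ψ g) : CyclotomicField (cond S) ℚ) * g z := by
    intro d
    rw [← Finset.sum_fiberwise (s := Finset.univ) (g := Ψ)]
    change ι (algebraMap (𝓞 F) F (∑ t, d t • θ t)) = _
    rw [map_sum, map_sum]
    refine Finset.sum_congr rfl fun t _ => ?_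
    rw [zsmul_eq_mul, map_mul, map_mul, map_intCast, map_intCast]
    change (d t : CyclotomicField (cond S) ℚ) * ι (θ t : F) = _
    rw [hθ t, Finset.mul_sum]
    refine Finset.sum_congr rfl fun g hg => ?_
    rw [Finset.mem_filter] at hg
    rw [hg.2]
  have hLI : LinearIndependent ℤ θ := by
    rw [Fintype.linearIndependent_iff]
    intro d hd t
    have h1 := key d
    rw [hd] at h1
    have h2 : ι ((0 : 𝓞 F) : F) = 0 := by simp
    rw [h2] at h1
    have h3 := hli (fun g => d (Ψ g)) h1.symm (s t)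
    rwa [hs t] at h3
  have hS : ⊤ ≤ Submodule.span ℤ (Set.range θ) := by
    intro x _
    obtain ⟨ιO, hιO⟩ : ∃ y : 𝓞 (CyclotomicField (cond S) ℚ), (y : CyclotomicField (cond S) ℚ) =
        ι (x : F) := ⟨NumberField.RingOfIntegers.mapRingHom (ι : F →+* CyclotomicField (cond S) ℚ) x,
          rfl⟩
    obtain ⟨e, he'⟩ := hspan ιO
    rw [hιO] at he'
    -- invariance of the coefficients
    have h2 : ∀ h' : CyclotomicField (cond S) ℚ ≃ₐ[ℚ] CyclotomicField (cond S) ℚ, Ψ h' = 0 →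
        ∀ g, e (h' * g) = e g := by
      intro h' hh' g
      have h3 : h' (ι (x : F)) = ι (x : F) := by
        rw [hact, hh', ZMod.val_zero, pow_zero, AlgEquiv.one_apply]
      have h4 : h' (ι (x : F)) =
          ∑ g, (e (h'⁻¹ * g) : CyclotomicField (cond S) ℚ) * g z := by
        rw [he', map_sum]
        refine Finset.sum_bij (fun g _ => h' * g) (fun _ _ => Finset.mem_univ _)
          (fun a _ b _ hab => mul_left_cancel hab)
          (fun b _ => ⟨h'⁻¹ * b, Finset.mem_univ _, by group⟩) ?_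
        intro g _
        rw [map_mul, map_intCast, inv_mul_cancel_left, AlgEquiv.mul_apply]
      rw [h3, he', ← sub_eq_zero, ← Finset.sum_sub_distrib] at h4
      have h5 := hli (fun g => e g - e (h'⁻¹ * g)) (by
        rw [← h4]
        refine Finset.sum_congr rfl fun g _ => ?_
        push_cast
        ring) (h' * g)
      simp only [inv_mul_cancel_left] at h5
      omega
    have h3 : ∀ g, e g = e (s (Ψ g)) := by
      intro g
      have h4 := h2 (g * (s (Ψ g))⁻¹) (by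
        have h5 := hmul (g * (s (Ψ g))⁻¹) (s (Ψ g))
        rw [inv_mul_cancel_right, hs] at h5
        exact (left_eq_add.mp (h5.trans (add_comm _ _)))) (s (Ψ g))
      rwa [inv_mul_cancel_right] at h4
    have h4 : x = ∑ t, e (s t) • θ t := by
      apply RingOfIntegers.ext
      apply (ι : F →+* CyclotomicField (cond S) ℚ).injective
      change ι (x : F) = ι ((∑ t, e (s t) • θ t : 𝓞 F) : F)
      rw [key (fun t => e (s t)), he']
      refine Finset.sum_congr rfl fun g _ => ?_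
      rw [h3 g]
    rw [h4]
    exact Submodule.sum_mem _ fun t _ => Submodule.smul_mem _ _ (Submodule.subset_span ⟨t, rfl⟩)
  refine ⟨(Module.Basis.mk hLI hS).reindex (ZMod.finEquiv r).symm.toEquiv, fun i w => ?_⟩
  rw [Module.Basis.reindex_apply, Module.Basis.mk_apply, ← hcond]
  exact hB _ w

end Pool.Agent.Rnr
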