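import Mathlib

/-!
# Rnr, file Nrm: the normalisation (section 5 of the text)

Pure linear algebra over `ZMod r`.  `M l n`, `X l n` are functions of a row `l` and a column `n`.
-/

namespace Pool.Agent.Rnr

/-- A function on the non-zero elements of `ZMod r` which is additive on products is zero. -/
theorem nrm_hom {r : ℕ} [Fact r.Prime] (D : ZMod r → ZMod r)
    (h : ∀ m x : ZMod r, m ≠ 0 → x ≠ 0 → D (m * x) = D m + D x) (m : ZMod r) (hm : m ≠ 0) :
    D m = 0 := by
  have hp : ∀ k : ℕ, D (m ^ k) = k * D m := by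
    intro k
    induction k with
    | zero =>
      have h1 := h 1 1 one_ne_zero one_ne_zero
      rw [mul_one] at h1
      have h2 : D 1 = 0 := by linear_combination -h1
      simp [h2]
    | succ k ih =>
      rw [pow_succ, h _ _ (pow_ne_zero k hm) hm, ih]
      push_cast
      ring
  have h1 := hp (r - 1)
  rw [ZMod.pow_card_sub_one_eq_one hm] at h1
  have h2 := hp 0
  rw [pow_zero] at h2
  have hr : ((r - 1 : ℕ) : ZMod r) = -1 := by
    have h3 : 1 ≤ r := (Fact.out : r.Prime).one_lt.le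
    rw [Nat.cast_sub h3]
    simp
  rw [h2, hr] at h1
  push_cast at h1
  linear_combination h1

/-- **Normalisation.**  If `(GEN)` holds for the pairs `(l, l1)` and `(l, l2)`, then `M` is
`(k_n + k_l) * X` on `L × Q`. -/
theorem nrm_main {r : ℕ} [Fact r.Prime] {ι κ : Type*} (L : Set ι) (Q : Set κ) (M X : ι → κ → ZMod r)
    (l1 l2 : ι) (hl2 : l2 ∈ L)
    (h1 : ∀ n ∈ Q, X l1 n = 1)
    (h0 : ∀ l ∈ L, ∀ n ∈ Q, X l n = 0 → M l n = 0)
    (gen1 : ∀ l ∈ L, ∀ a a' : ZMod r, a ≠ 0 → ∃ ka ka' : ZMod r, ∀ n ∈ Q,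
      a * X l n + a' * X l1 n = 0 → a * M l n + a' * M l1 n = ka * X l n + ka' * X l1 n)
    (gen2 : ∀ l ∈ L, l ≠ l2 → ∀ a a' : ZMod r, a ≠ 0 → a' ≠ 0 → ∃ ka ka' : ZMod r, ∀ n ∈ Q,
      a * X l n + a' * X l2 n = 0 → a * M l n + a' * M l2 n = ka * X l n + ka' * X l2 n)
    (pat : ∀ l ∈ L, l ≠ l2 → ∀ x y : ZMod r, ∃ n ∈ Q, X l2 n = y ∧ X l n = x)
    (l3 : ι) (hl3 : l3 ∈ L) (hl32 : l3 ≠ l2) :
    ∃ (kn : κ → ZMod r) (kl : ι → ZMod r), ∀ l ∈ L, ∀ n ∈ Q,
      M l n = kn n * X l n + kl l * X l n := by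
  -- the functions `e_l`
  have he : ∀ l ∈ L, ∃ e : ZMod r → ZMod r, e 0 = 0 ∧ ∀ n ∈ Q,
      M l n - M l1 n * X l n = e (X l n) := by
    intro l hl
    have hk : ∀ x : ZMod r, ∃ k : ZMod r, ∀ n ∈ Q, X l n = x → M l n - M l1 n * X l n = k := by
      intro x
      obtain ⟨ka, ka', hg⟩ := gen1 l hl 1 (-x) one_ne_zero
      refine ⟨ka * x + ka', fun n hn hx => ?_⟩
      have h2 := hg n hn (by rw [h1 n hn, hx]; ring)
      rw [h1 n hn, hx] at h2
      rw [hx]
      linear_combination h2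
    choose k hk using hk
    refine ⟨fun x => if x = 0 then 0 else k x, by simp, fun n hn => ?_⟩
    by_cases hx : X l n = 0
    · simp [hx, h0 l hl n hn hx]
    · simp only [hx, if_false]
      exact hk _ n hn rfl
  choose! e he0 he using he
  -- comparison of `e_l` and `e_(l2)`
  have hc : ∀ l ∈ L, l ≠ l2 → ∀ x y m : ZMod r, x ≠ 0 → y ≠ 0 →
      y * e l (m * x) - x * e l2 (m * y) = m * (y * e l x - x * e l2 y) := by
    intro l hl hne x y m hx hy
    obtain ⟨ka, ka', hg⟩ := gen2 l hl hne y (-x) hy (neg_ne_zero.mpr hx)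
    have key : ∀ m : ZMod r, y * e l (m * x) - x * e l2 (m * y) = m * (ka * x + ka' * y) := by
      intro m
      obtain ⟨n, hn, hn2, hnl⟩ := pat l hl hne (m * x) (m * y)
      have h2 := hg n hn (by rw [hnl, hn2]; ring)
      have h3 := he l hl n hn
      have h4 := he l2 hl2 n hn
      rw [hnl] at h2 h3
      rw [hn2] at h2 h4
      rw [← h3, ← h4]
      linear_combination h2
    rw [key m]
    have := key 1
    rw [one_mul, one_mul, one_mul] at this
    rw [this]
  -- `e_l x = e_l 1 * x`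
  have hD : ∀ m : ZMod r, m ≠ 0 → m⁻¹ * e l2 m - e l2 1 = 0 := by
    refine nrm_hom (fun m => m⁻¹ * e l2 m - e l2 1) ?_
    intro m x hm hx
    have a1 := hc l3 hl3 hl32 1 1 m one_ne_zero one_ne_zero
    have a2 := hc l3 hl3 hl32 x 1 m hx one_ne_zero
    have a3 := hc l3 hl3 hl32 1 1 (m * x) one_ne_zero one_ne_zero
    have a4 := hc l3 hl3 hl32 1 1 x one_ne_zero one_ne_zero
    rw [mul_one] at a1 a2 a3 a4
    rw [mul_inv]
    field_simp
    linear_combination (-1 : ZMod r) * a3 + a2 + m * a4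
  have hlin : ∀ l ∈ L, ∀ x : ZMod r, e l x = e l 1 * x := by
    intro l hl x
    by_cases hx : x = 0
    · rw [hx, he0 l hl, mul_zero]
    · have h2 := hD x hx
      have h3 : e l2 x = e l2 1 * x := by
        field_simp at h2
        linear_combination h2
      by_cases hne : l = l2
      · rw [hne, h3]
      · have a1 := hc l hl hne 1 1 x one_ne_zero one_ne_zero
        rw [mul_one] at a1
        linear_combination a1 + h3
  refine ⟨fun n => M l1 n, fun l => e l 1, fun l hl n hn => ?_⟩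
  have h2 := he l hl n hn
  rw [hlin l hl] at h2
  linear_combination h2

end Pool.Agent.Rnr
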