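import Pool.Agent.Rnr.Defs

/-!
# Rnr, file Sve: the elementary large sieve (section 4 of the text)

Everything with integers: for a bad prime `l` the function `sf` has mean zero over a period, the
functions of different primes are orthogonal, and Cauchy-Schwarz bounds the number of bad primes.
-/

namespace Pool.Agent.Rnr

open Finset

/-- the function `r [c_l(a) = x] - 1` on units, `0` elsewhere -/
noncomputable def sf {r : ℕ} (c : Chars r) (l : ℕ) (x : ZMod r) (a : ZMod l) : ℤ :=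
  open Classical in if IsUnit a then (if X c l a = x then (r : ℤ) - 1 else -1) else 0

theorem sf_abs {r : ℕ} (hr : 1 ≤ r) (c : Chars r) (l : ℕ) (x : ZMod r) (a : ZMod l) :
    |sf c l x a| ≤ r := by
  unfold sf
  split_ifs
  · rw [abs_le]; constructor <;> omega
  · rw [abs_le]; constructor <;> omega
  · simp

/-- all fibres of a surjective character have the same size -/
theorem card_fiber {r l : ℕ} [NeZero r] [NeZero l] (g : (ZMod l)ˣ →* Multiplicative (ZMod r))
    (hg : Function.Surjective g) (x : Multiplicative (ZMod r)) :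
    r * (univ.filter (fun u : (ZMod l)ˣ => g u = x)).card = Fintype.card (ZMod l)ˣ := by
  classical
  have h1 : ∀ y : Multiplicative (ZMod r), (univ.filter (fun u : (ZMod l)ˣ => g u = y)).card =
      (univ.filter (fun u : (ZMod l)ˣ => g u = x)).card := by
    intro y
    obtain ⟨w, hw⟩ := hg (x / y)
    refine Finset.card_bij (fun u _ => u * w) ?_ ?_ ?_
    · intro u hu
      rw [mem_filter] at hu ⊢
      refine ⟨mem_univ _, ?_⟩
      rw [map_mul, hu.2, hw]
      exact mul_div_cancel y x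
    · intro u _ v _ h
      exact mul_right_cancel h
    · intro u hu
      rw [mem_filter] at hu
      refine ⟨u * w⁻¹, ?_, by simp⟩
      rw [mem_filter]
      refine ⟨mem_univ _, ?_⟩
      rw [map_mul, map_inv, hw, hu.2, inv_div, mul_div_cancel]
  have h2 : Fintype.card (ZMod l)ˣ = ∑ y : Multiplicative (ZMod r),
      (univ.filter (fun u : (ZMod l)ˣ => g u = y)).card := by
    rw [← Finset.card_univ]
    exact Finset.card_eq_sum_card_fiberwise (fun u _ => mem_coe.mpr (mem_univ (g u)))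
  rw [h2, Finset.sum_congr rfl (fun y _ => h1 y), Finset.sum_const, smul_eq_mul]
  congr 1
  rw [Finset.card_univ]
  exact (ZMod.card r).symm.trans (Fintype.card_congr Multiplicative.ofAdd)

/-- the sum of `sf` over all residues is zero -/
theorem sf_sum {r l : ℕ} [NeZero r] [NeZero l] (c : Chars r) (hc : Function.Surjective (c l))
    (x : ZMod r) : ∑ a : ZMod l, sf c l x a = 0 := by
  classical
  have h1 : ∑ a : ZMod l, sf c l x a =
      ∑ a ∈ univ.filter (fun a : ZMod l => IsUnit a),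
        ((if X c l a = x then (r : ℤ) else 0) - 1) := by
    rw [Finset.sum_filter]
    refine Finset.sum_congr rfl fun a _ => ?_
    unfold sf
    split_ifs <;> simp
  have h2 : ∑ a ∈ univ.filter (fun a : ZMod l => IsUnit a),
        ((if X c l a = x then (r : ℤ) else 0) - 1) =
      ∑ u : (ZMod l)ˣ, ((if c l u = Multiplicative.ofAdd x then (r : ℤ) else 0) - 1) := by
    symm
    refine Finset.sum_bij (fun u _ => (u : ZMod l)) ?_ ?_ ?_ ?_
    · intro u _
      rw [mem_filter]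
      exact ⟨mem_univ _, u.isUnit⟩
    · intro u _ v _ h
      exact Units.ext h
    · intro a ha
      rw [mem_filter] at ha
      exact ⟨ha.2.unit, mem_univ _, rfl⟩
    · intro u _
      have h3 : X c l (u : ZMod l) = Multiplicative.toAdd (c l u) := by
        unfold X
        rw [dif_pos u.isUnit]
        congr 2
        exact Units.ext rfl
      rw [h3]
      have h4 : (c l u = Multiplicative.ofAdd x) ↔ (Multiplicative.toAdd (c l u) = x) := by
        constructor
        · intro h; rw [h]; rfl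
        · intro h; rw [← h]; rfl
      simp only [h4]
  rw [h1, h2, Finset.sum_sub_distrib, ← Finset.sum_filter]
  simp only [Finset.sum_const, nsmul_eq_mul, mul_one]
  have h5 := card_fiber (c l) hc (Multiplicative.ofAdd x)
  rw [Finset.card_univ, ← h5]
  push_cast
  ring

private theorem sv_sum_zmod (l : ℕ) [NeZero l] (g : ZMod l → ℤ) :
    ∑ i ∈ range l, g (i : ZMod l) = ∑ a : ZMod l, g a := by
  refine Finset.sum_nbij' (fun i => (i : ZMod l)) (fun a => ZMod.val a) ?_ ?_ ?_ ?_ ?_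
  · intro i _
    exact mem_univ _
  · intro a _
    rw [mem_range]
    exact ZMod.val_lt a
  · intro i hi
    exact ZMod.val_cast_of_lt (mem_range.mp hi)
  · intro a _
    exact ZMod.natCast_zmod_val a
  · intro i _
    rfl

private theorem sv_blocks (f : ℕ → ℤ) (m k : ℕ) :
    ∑ n ∈ range (m * k), f n = ∑ i ∈ range k, ∑ j ∈ range m, f (m * i + j) := by
  induction k with
  | zero => simp
  | succ k ih => rw [Nat.mul_succ, Finset.sum_range_add, ih, Finset.sum_range_succ]

/-- orthogonality of two different primes over a full period -/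
theorem sf_orth {r l l' : ℕ} [NeZero r] (hl : l.Prime) (hl' : l'.Prime) (hne : l ≠ l')
    (c : Chars r) (hc : Function.Surjective (c l')) (x x' : ZMod r) :
    ∑ n ∈ range (l * l'), sf c l x (n : ZMod l) * sf c l' x' (n : ZMod l') = 0 := by
  have : NeZero l' := ⟨hl'.ne_zero⟩
  have hF : Fact l'.Prime := ⟨hl'⟩
  rw [sv_blocks (fun n => sf c l x (n : ZMod l) * sf c l' x' (n : ZMod l')), Finset.sum_comm]
  refine Finset.sum_eq_zero fun j _ => ?_
  have h1 : ∀ i : ℕ, sf c l x ((l * i + j : ℕ) : ZMod l) * sf c l' x' ((l * i + j : ℕ) : ZMod l') =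
      sf c l x (j : ZMod l) * sf c l' x' ((l : ZMod l') * (i : ZMod l') + (j : ZMod l')) := by
    intro i
    congr 2 <;> simp
  rw [Finset.sum_congr rfl (fun i _ => h1 i), ← Finset.mul_sum,
    sv_sum_zmod l' (fun a => sf c l' x' ((l : ZMod l') * a + (j : ZMod l')))]
  have hm0 : (l : ZMod l') ≠ 0 := by
    rw [Ne, ZMod.natCast_eq_zero_iff]
    intro h
    exact hne ((Nat.prime_dvd_prime_iff_eq hl' hl).mp h).symm
  have h2 : ∑ a : ZMod l', sf c l' x' ((l : ZMod l') * a + (j : ZMod l')) =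
      ∑ a : ZMod l', sf c l' x' a :=
    Fintype.sum_equiv ((Equiv.mulLeft₀ (l : ZMod l') hm0).trans (Equiv.addRight (j : ZMod l')))
      _ _ (fun a => rfl)
  rw [h2, sf_sum c hc, mul_zero]

/-- incomplete sums of a periodic function of mean zero -/
theorem incomplete (h : ℕ → ℤ) (P : ℕ) (hP : 0 < P) (B : ℤ) (hper : ∀ n, h (n + P) = h n)
    (h0 : ∑ n ∈ range P, h n = 0) (hB : ∀ n, |h n| ≤ B) (M : ℕ) :
    |∑ n ∈ range M, h n| ≤ P * B := by
  have hB0 : 0 ≤ B := (abs_nonneg _).trans (hB 0)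
  have hper2 : ∀ q n, h (P * q + n) = h n := by
    intro q n
    induction q with
    | zero => simp
    | succ q ih =>
      have : P * (q + 1) + n = (P * q + n) + P := by ring
      rw [this, hper, ih]
  have h1 : ∑ n ∈ range M, h n = ∑ n ∈ range (M % P), h n := by
    have h2 : M = P * (M / P) + M % P := (Nat.div_add_mod M P).symm
    calc ∑ n ∈ range M, h n = ∑ n ∈ range (P * (M / P) + M % P), h n := by rw [← h2]
      _ = ∑ n ∈ range (M % P), h n := by
        rw [Finset.sum_range_add, sv_blocks]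
        have h3 : ∑ i ∈ range (M / P), ∑ j ∈ range P, h (P * i + j) = 0 := by
          refine Finset.sum_eq_zero fun i _ => ?_
          rw [Finset.sum_congr rfl (fun j _ => hper2 i j), h0]
        rw [h3, zero_add]
        exact Finset.sum_congr rfl (fun j _ => hper2 _ j)
  rw [h1]
  calc |∑ n ∈ range (M % P), h n| ≤ ∑ n ∈ range (M % P), |h n| := Finset.abs_sum_le_sum_abs _ _
    _ ≤ ∑ n ∈ range (M % P), B := Finset.sum_le_sum fun n _ => hB n
    _ = (M % P : ℕ) * B := by rw [Finset.sum_const, card_range, nsmul_eq_mul]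
    _ ≤ P * B := by
      refine mul_le_mul_of_nonneg_right ?_ hB0
      exact_mod_cast (Nat.mod_lt M hP).le

/-- mean square of the sum of the functions of the bad primes -/
theorem sf_meansq {r Y N : ℕ} [NeZero r] (c : Chars r) (L : Finset ℕ)
    (hL : ∀ l ∈ L, l.Prime ∧ Function.Surjective (c l) ∧ l ≤ Y) (x : ℕ → ZMod r) :
    ∑ n ∈ Icc 1 N, (∑ l ∈ L, sf c l (x l) (n : ZMod l)) ^ 2 ≤
      (L.card : ℤ) * (N * r ^ 2) + (L.card : ℤ) ^ 2 * (Y ^ 2 * r ^ 2) := by
  classical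
  have hr1 : 1 ≤ r := Nat.one_le_iff_ne_zero.mpr (NeZero.ne r)
  have h1 : ∑ n ∈ Icc 1 N, (∑ l ∈ L, sf c l (x l) (n : ZMod l)) ^ 2 =
      ∑ l ∈ L, ∑ l' ∈ L, ∑ n ∈ Icc 1 N, sf c l (x l) (n : ZMod l) * sf c l' (x l') (n : ZMod l') := by
    have h2 : ∀ n : ℕ, (∑ l ∈ L, sf c l (x l) (n : ZMod l)) ^ 2 =
        ∑ l ∈ L, ∑ l' ∈ L, sf c l (x l) (n : ZMod l) * sf c l' (x l') (n : ZMod l') := by
      intro n
      rw [sq, Finset.sum_mul_sum]
    rw [Finset.sum_congr rfl (fun n _ => h2 n), Finset.sum_comm]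
    refine Finset.sum_congr rfl fun l _ => ?_
    rw [Finset.sum_comm]
  rw [h1]
  have h3 : ∀ l ∈ L, ∀ l' ∈ L,
      ∑ n ∈ Icc 1 N, sf c l (x l) (n : ZMod l) * sf c l' (x l') (n : ZMod l') ≤
        (if l = l' then (N : ℤ) * r ^ 2 else 0) + Y ^ 2 * r ^ 2 := by
    intro l hl l' hl'
    have hpos : (0 : ℤ) ≤ Y ^ 2 * r ^ 2 := by positivity
    by_cases he : l = l'
    · rw [if_pos he]
      have h4 : ∑ n ∈ Icc 1 N, sf c l (x l) (n : ZMod l) * sf c l' (x l') (n : ZMod l') ≤
          ∑ n ∈ Icc 1 N, ((r : ℤ) ^ 2) := by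
        refine Finset.sum_le_sum fun n _ => ?_
        have a1 := sf_abs hr1 c l (x l) (n : ZMod l)
        have a2 := sf_abs hr1 c l' (x l') (n : ZMod l')
        calc sf c l (x l) (n : ZMod l) * sf c l' (x l') (n : ZMod l')
            ≤ |sf c l (x l) (n : ZMod l) * sf c l' (x l') (n : ZMod l')| := le_abs_self _
          _ = |sf c l (x l) (n : ZMod l)| * |sf c l' (x l') (n : ZMod l')| := abs_mul _ _
          _ ≤ r * r := mul_le_mul a1 a2 (abs_nonneg _) (by positivity)
          _ = (r : ℤ) ^ 2 := by ring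
      rw [Finset.sum_const, Nat.card_Icc, Nat.add_sub_cancel, nsmul_eq_mul] at h4
      linarith
    · rw [if_neg he, zero_add]
      obtain ⟨p1, _, y1⟩ := hL l hl
      obtain ⟨p2, s2, y2⟩ := hL l' hl'
      set h : ℕ → ℤ := fun n => sf c l (x l) (n : ZMod l) * sf c l' (x l') (n : ZMod l') with hh
      have h00 : h 0 = 0 := by
        have : ¬ IsUnit (0 : ZMod l) := by
          have : Fact l.Prime := ⟨p1⟩
          exact not_isUnit_zero
        simp only [hh, Nat.cast_zero]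
        unfold sf
        rw [if_neg this, zero_mul]
      have h5 : ∑ n ∈ Icc 1 N, h n = ∑ n ∈ range (N + 1), h n := by
        rw [Finset.sum_range_succ', h00, add_zero]
        refine Finset.sum_nbij' (fun n => n - 1) (fun n => n + 1) ?_ ?_ ?_ ?_ ?_
        · intro n hn
          rw [mem_Icc] at hn
          rw [mem_range]
          omega
        · intro n hn
          rw [mem_range] at hn
          rw [mem_Icc]
          omega
        · intro n hn
          rw [mem_Icc] at hn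
          show n - 1 + 1 = n
          omega
        · intro n _
          rfl
        · intro n hn
          rw [mem_Icc] at hn
          show h n = h (n - 1 + 1)
          rw [Nat.sub_add_cancel hn.1]
      have h6 := incomplete h (l * l') (Nat.mul_pos p1.pos p2.pos) (r * r)
        (fun n => by
          simp only [hh]
          congr 2 <;> simp)
        (sf_orth p1 p2 he c s2 (x l) (x l'))
        (fun n => by
          simp only [hh]
          rw [abs_mul]
          exact mul_le_mul (sf_abs hr1 c _ _ _) (sf_abs hr1 c _ _ _) (abs_nonneg _) (by positivity))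
        (N + 1)
      rw [h5]
      have h7 : ((l * l' : ℕ) : ℤ) ≤ Y ^ 2 := by
        have : l * l' ≤ Y ^ 2 := by
          rw [sq]
          exact Nat.mul_le_mul y1 y2
        exact_mod_cast this
      calc ∑ n ∈ range (N + 1), h n ≤ |∑ n ∈ range (N + 1), h n| := le_abs_self _
        _ ≤ ((l * l' : ℕ) : ℤ) * (r * r) := h6
        _ ≤ Y ^ 2 * (r * r) := mul_le_mul_of_nonneg_right h7 (by positivity)
        _ = Y ^ 2 * r ^ 2 := by ring
  calc ∑ l ∈ L, ∑ l' ∈ L, ∑ n ∈ Icc 1 N, sf c l (x l) (n : ZMod l) * sf c l' (x l') (n : ZMod l')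
      ≤ ∑ l ∈ L, ∑ l' ∈ L, ((if l = l' then (N : ℤ) * r ^ 2 else 0) + Y ^ 2 * r ^ 2) :=
        Finset.sum_le_sum fun l hl => Finset.sum_le_sum fun l' hl' => h3 l hl l' hl'
    _ = (L.card : ℤ) * (N * r ^ 2) + (L.card : ℤ) ^ 2 * (Y ^ 2 * r ^ 2) := by
      have h8 : ∀ l ∈ L, ∑ l' ∈ L, ((if l = l' then (N : ℤ) * r ^ 2 else 0) + Y ^ 2 * r ^ 2) =
          N * r ^ 2 + L.card * (Y ^ 2 * r ^ 2) := by
        intro l hl
        rw [Finset.sum_add_distrib, Finset.sum_ite_eq, if_pos hl, Finset.sum_const, nsmul_eq_mul]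
      rw [Finset.sum_congr rfl h8, Finset.sum_const, nsmul_eq_mul]
      ring

/-- **The sieve.**  `L` = bad primes: on `T` the value `x l` of the character of modulus `l` is taken
less than `|T| / (2 r)` times.  Then `|L| |T| ≤ 8 r² N`. -/
theorem sieve {r Y N : ℕ} [NeZero r] (c : Chars r) (L : Finset ℕ)
    (hL : ∀ l ∈ L, l.Prime ∧ Function.Surjective (c l) ∧ l ≤ Y)
    (T : Finset ℕ) (hT : T ⊆ Icc 1 N) (hTL : ∀ l ∈ L, ∀ n ∈ T, ¬ l ∣ n)
    (hTY : 8 * r ^ 2 * Y ^ 2 ≤ T.card) (x : ℕ → ZMod r)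
    (hbad : ∀ l ∈ L, 2 * r * (T.filter (fun n : ℕ => X c l (n : ZMod l) = x l)).card < T.card) :
    L.card * T.card ≤ 8 * r ^ 2 * N := by
  classical
  by_cases hK : L.card = 0
  · rw [hK]; simp
  have hT0 : 0 < T.card := by
    obtain ⟨l, hl⟩ := Finset.card_pos.mp (Nat.pos_of_ne_zero hK)
    exact lt_of_le_of_lt (Nat.zero_le _) (hbad l hl)
  -- the sums over `T`
  have h1 : ∀ l ∈ L, 2 * ∑ n ∈ T, sf c l (x l) (n : ZMod l) ≤ -(T.card : ℤ) := by
    intro l hl
    obtain ⟨pl, -, -⟩ := hL l hl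
    have : Fact l.Prime := ⟨pl⟩
    have h2 : ∑ n ∈ T, sf c l (x l) (n : ZMod l) =
        ∑ n ∈ T, ((if X c l (n : ZMod l) = x l then (r : ℤ) else 0) - 1) := by
      refine Finset.sum_congr rfl fun n hn => ?_
      have hu : IsUnit (n : ZMod l) := by
        rw [isUnit_iff_ne_zero, Ne, ZMod.natCast_eq_zero_iff]
        exact hTL l hl n hn
      unfold sf
      rw [if_pos hu]
      split_ifs <;> ring
    rw [h2, Finset.sum_sub_distrib, ← Finset.sum_filter]
    simp only [Finset.sum_const, nsmul_eq_mul, mul_one]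
    have h3 : (2 * r * (T.filter (fun n : ℕ => X c l (n : ZMod l) = x l)).card : ℤ) < T.card := by
      exact_mod_cast hbad l hl
    linarith
  have h2 : (L.card : ℤ) * T.card ≤ -(2 * ∑ n ∈ T, ∑ l ∈ L, sf c l (x l) (n : ZMod l)) := by
    rw [Finset.sum_comm, Finset.mul_sum]
    have h3 : ∑ l ∈ L, 2 * ∑ n ∈ T, sf c l (x l) (n : ZMod l) ≤ ∑ l ∈ L, -(T.card : ℤ) :=
      Finset.sum_le_sum h1
    rw [Finset.sum_const, nsmul_eq_mul] at h3
    linarith
  have h4 : (∑ n ∈ T, ∑ l ∈ L, sf c l (x l) (n : ZMod l)) ^ 2 ≤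
      (T.card : ℤ) * ((L.card : ℤ) * (N * r ^ 2) + (L.card : ℤ) ^ 2 * (Y ^ 2 * r ^ 2)) := by
    calc (∑ n ∈ T, ∑ l ∈ L, sf c l (x l) (n : ZMod l)) ^ 2
        ≤ (T.card : ℤ) * ∑ n ∈ T, (∑ l ∈ L, sf c l (x l) (n : ZMod l)) ^ 2 :=
          sq_sum_le_card_mul_sum_sq
      _ ≤ (T.card : ℤ) * ∑ n ∈ Icc 1 N, (∑ l ∈ L, sf c l (x l) (n : ZMod l)) ^ 2 := by
          refine mul_le_mul_of_nonneg_left ?_ (by positivity)
          exact Finset.sum_le_sum_of_subset_of_nonneg hT (fun _ _ _ => sq_nonneg _)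
      _ ≤ _ := mul_le_mul_of_nonneg_left (sf_meansq c L hL x) (by positivity)
  have h5 : ((L.card : ℤ) * T.card) ^ 2 ≤
      4 * ((T.card : ℤ) * ((L.card : ℤ) * (N * r ^ 2) + (L.card : ℤ) ^ 2 * (Y ^ 2 * r ^ 2))) := by
    have h6 : (0 : ℤ) ≤ (L.card : ℤ) * T.card := by positivity
    nlinarith [h2, h4, h6]
  have hKp : (0 : ℤ) < L.card := by exact_mod_cast Nat.pos_of_ne_zero hK
  have hTp : (0 : ℤ) < T.card := by exact_mod_cast hT0
  have h7 : (L.card : ℤ) * T.card ≤ 4 * r ^ 2 * N + 4 * r ^ 2 * (L.card * Y ^ 2) := by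
    have h8 : ((L.card : ℤ) * T.card) * ((L.card : ℤ) * T.card) ≤
        ((L.card : ℤ) * T.card) * (4 * r ^ 2 * N + 4 * r ^ 2 * (L.card * Y ^ 2)) := by
      calc ((L.card : ℤ) * T.card) * ((L.card : ℤ) * T.card) = ((L.card : ℤ) * T.card) ^ 2 := by ring
        _ ≤ _ := h5
        _ = _ := by ring
    exact le_of_mul_le_mul_left h8 (mul_pos hKp hTp)
  have h9 : (8 * r ^ 2 * Y ^ 2 : ℤ) ≤ T.card := by exact_mod_cast hTY
  have h10 : (L.card : ℤ) * (8 * r ^ 2 * Y ^ 2) ≤ L.card * T.card :=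
    mul_le_mul_of_nonneg_left h9 hKp.le
  have h11 : (L.card : ℤ) * T.card ≤ 8 * r ^ 2 * N := by nlinarith [h7, h10]
  exact_mod_cast h11

/-- the part of `T` where the character of modulus `l` has the value `x` -/
noncomputable def part {r : ℕ} (c : Chars r) (T : Finset ℕ) (l : ℕ) (x : ZMod r) : Finset ℕ :=
  T.filter (fun n : ℕ => X c l (n : ZMod l) = x)

theorem part_sub {r : ℕ} (c : Chars r) (T : Finset ℕ) (l : ℕ) (x : ZMod r) : part c T l x ⊆ T :=
  Finset.filter_subset _ _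

/-- the bad primes for `T` -/
noncomputable def bad {r : ℕ} (c : Chars r) (L T : Finset ℕ) : Finset ℕ :=
  open Classical in L.filter (fun l : ℕ => ∃ x : ZMod r, 2 * r * (part c T l x).card < T.card)

theorem mem_bad {r : ℕ} (c : Chars r) (L T : Finset ℕ) (l : ℕ) :
    l ∈ bad c L T ↔ l ∈ L ∧ ∃ x : ZMod r, 2 * r * (part c T l x).card < T.card := by
  unfold bad
  simp only [mem_filter]

theorem bad_card {r Y N : ℕ} [NeZero r] (c : Chars r) (L : Finset ℕ)
    (hL : ∀ l ∈ L, l.Prime ∧ Function.Surjective (c l) ∧ l ≤ Y)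
    (T : Finset ℕ) (hT : T ⊆ Icc 1 N) (hTL : ∀ l ∈ L, ∀ n ∈ T, ¬ l ∣ n)
    (hTY : 8 * r ^ 2 * Y ^ 2 ≤ T.card) : (bad c L T).card * T.card ≤ 8 * r ^ 2 * N := by
  classical
  have h1 : ∀ l : ℕ, ∃ x : ZMod r, l ∈ bad c L T → 2 * r * (part c T l x).card < T.card := by
    intro l
    by_cases h : l ∈ bad c L T
    · obtain ⟨x, hx⟩ := ((mem_bad c L T l).mp h).2
      exact ⟨x, fun _ => hx⟩
    · exact ⟨0, fun h3 => absurd h3 h⟩
  choose x hx using h1
  have hsub : bad c L T ⊆ L := fun l hl => ((mem_bad c L T l).mp hl).1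
  exact sieve c (bad c L T) (fun l hl => hL l (hsub hl)) T hT (fun l hl => hTL l (hsub hl)) hTY x
    (fun l hl => hx l hl)

theorem not_bad {r : ℕ} (c : Chars r) {L T : Finset ℕ} {l : ℕ} (hl : l ∈ L) (h : l ∉ bad c L T)
    (x : ZMod r) : T.card ≤ 2 * r * (part c T l x).card := by
  classical
  by_contra h1
  exact h ((mem_bad c L T l).mpr ⟨hl, x, by omega⟩)

/-- a union of few bad sets does not cover `L` -/
theorem bad_union {r Y N : ℕ} [NeZero r] {α : Type*} [Fintype α] (c : Chars r) (L Q : Finset ℕ)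
    (hL : ∀ l ∈ L, l.Prime ∧ Function.Surjective (c l) ∧ l ≤ Y)
    (hQ : Q ⊆ Icc 1 N) (hQL : ∀ l ∈ L, ∀ n ∈ Q, ¬ l ∣ n) (T : α → Finset ℕ) (k A : ℕ)
    (hTQ : ∀ a, T a ⊆ Q) (hTc : ∀ a, Q.card ≤ (2 * r) ^ k * (T a).card)
    (hQY : 8 * r ^ 2 * Y ^ 2 * (2 * r) ^ k ≤ Q.card)
    (hA : A * (Fintype.card α * (8 * r ^ 2 * N * (2 * r) ^ k)) ≤ L.card * Q.card)
    (hQ0 : 0 < Q.card) :
    A * (univ.biUnion (fun a => bad c L (T a))).card ≤ L.card := by
  classical
  have hr : 0 < r := Nat.pos_of_ne_zero (NeZero.ne r)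
  have hk : 0 < (2 * r) ^ k := by positivity
  have h1 : ∀ a, (bad c L (T a)).card * Q.card ≤ 8 * r ^ 2 * N * (2 * r) ^ k := by
    intro a
    have h2 := bad_card c L hL (T a) ((hTQ a).trans hQ) (fun l hl n hn => hQL l hl n (hTQ a hn)) (by
      have h3 := hTc a
      have h4 : (2 * r) ^ k * (8 * r ^ 2 * Y ^ 2) ≤ (2 * r) ^ k * (T a).card := by
        calc (2 * r) ^ k * (8 * r ^ 2 * Y ^ 2) = 8 * r ^ 2 * Y ^ 2 * (2 * r) ^ k := by ring
          _ ≤ Q.card := hQY
          _ ≤ _ := h3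
      exact Nat.le_of_mul_le_mul_left h4 hk)
    calc (bad c L (T a)).card * Q.card ≤ (bad c L (T a)).card * ((2 * r) ^ k * (T a).card) :=
          Nat.mul_le_mul_left _ (hTc a)
      _ = ((bad c L (T a)).card * (T a).card) * (2 * r) ^ k := by ring
      _ ≤ (8 * r ^ 2 * N) * (2 * r) ^ k := Nat.mul_le_mul_right _ h2
      _ = _ := by ring
  have h2 : (univ.biUnion (fun a => bad c L (T a))).card * Q.card ≤
      Fintype.card α * (8 * r ^ 2 * N * (2 * r) ^ k) := by
    calc (univ.biUnion (fun a => bad c L (T a))).card * Q.card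
        ≤ (∑ a : α, (bad c L (T a)).card) * Q.card :=
          Nat.mul_le_mul_right _ Finset.card_biUnion_le
      _ = ∑ a : α, (bad c L (T a)).card * Q.card := Finset.sum_mul _ _ _
      _ ≤ ∑ _a : α, 8 * r ^ 2 * N * (2 * r) ^ k := Finset.sum_le_sum fun a _ => h1 a
      _ = _ := by rw [Finset.sum_const, smul_eq_mul, Finset.card_univ]
  refine Nat.le_of_mul_le_mul_right (c := Q.card) ?_ hQ0
  calc A * (univ.biUnion (fun a => bad c L (T a))).card * Q.card
      = A * ((univ.biUnion (fun a => bad c L (T a))).card * Q.card) := by ring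
    _ ≤ A * (Fintype.card α * (8 * r ^ 2 * N * (2 * r) ^ k)) := Nat.mul_le_mul_left _ h2
    _ ≤ _ := hA

/-- **The sets (4.2).**  Reference primes `l0, l1, l2` and at least half of `L` such that every pattern of
four values is taken on `Q`, and the columns `Q1` with values `0` at `l0` and `1` at `l1` are many. -/
theorem sets {r Y N : ℕ} (hr : 2 ≤ r) (c : Chars r) (L Q : Finset ℕ)
    (hL : ∀ l ∈ L, l.Prime ∧ Function.Surjective (c l) ∧ l ≤ Y)
    (hQ : Q ⊆ Icc 1 N) (hQL : ∀ l ∈ L, ∀ n ∈ Q, ¬ l ∣ n)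
    (hQY : 8 * r ^ 2 * Y ^ 2 * (2 * r) ^ 3 ≤ Q.card) (hQ0 : 0 < Q.card) (hL3 : 12 ≤ L.card)
    (hLQ : 256 * r ^ 8 * N ≤ L.card * Q.card) :
    ∃ l0 ∈ L, ∃ l1 ∈ L, ∃ l2 ∈ L, ∃ L2 : Finset ℕ, L2 ⊆ L ∧ l0 ∉ L2 ∧ l1 ∉ L2 ∧ l2 ∉ L2 ∧
      l0 ≠ l1 ∧ l0 ≠ l2 ∧ l1 ≠ l2 ∧ L.card ≤ 2 * L2.card ∧
      (∀ x0 x1 x2 : ZMod r, ∃ n ∈ Q, X c l0 (n : ZMod l0) = x0 ∧ X c l1 (n : ZMod l1) = x1 ∧
        X c l2 (n : ZMod l2) = x2) ∧
      (∀ l ∈ L2, ∀ x0 x1 x2 x : ZMod r, ∃ n ∈ Q, X c l0 (n : ZMod l0) = x0 ∧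
        X c l1 (n : ZMod l1) = x1 ∧ X c l2 (n : ZMod l2) = x2 ∧ X c l (n : ZMod l) = x) ∧
      Q.card ≤ (2 * r) ^ 2 * (Q.filter (fun n : ℕ => X c l0 (n : ZMod l0) = 0 ∧
        X c l1 (n : ZMod l1) = 1)).card := by
  classical
  have hr0 : 0 < r := by omega
  have : NeZero r := ⟨hr0.ne'⟩
  have : Fact (1 < r) := ⟨hr⟩
  have hcard : Fintype.card (ZMod r) = r := ZMod.card r
  have hr1 : 1 ≤ r := hr0
  have pw : ∀ m : ℕ, 1 ≤ r ^ m := fun m => Nat.one_le_pow _ _ hr1
  have hYk : ∀ k ≤ 3, 8 * r ^ 2 * Y ^ 2 * (2 * r) ^ k ≤ Q.card := by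
    intro k hk
    refine le_trans (Nat.mul_le_mul_left _ ?_) hQY
    exact Nat.pow_le_pow_right (by omega) hk
  -- step 0
  have s0 := bad_union c L Q hL hQ hQL (fun _ : Unit => Q) 0 4 (fun _ => Subset.rfl)
    (fun _ => by simp) (hYk 0 (by omega)) (by
      refine le_trans ?_ hLQ
      rw [Fintype.card_unit]
      have : r ^ 2 ≤ r ^ 8 := Nat.pow_le_pow_right hr0 (by omega)
      calc 4 * (1 * (8 * r ^ 2 * N * (2 * r) ^ 0)) = 32 * r ^ 2 * N := by ring
        _ ≤ 32 * r ^ 8 * N := by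
          exact Nat.mul_le_mul_right _ (Nat.mul_le_mul_left _ this)
        _ ≤ 256 * r ^ 8 * N := by
          refine Nat.mul_le_mul_right _ (Nat.mul_le_mul_right _ (by omega))) hQ0
  obtain ⟨l0, hl0, hb0⟩ : ∃ l0 ∈ L, l0 ∉ univ.biUnion (fun a : Unit => bad c L Q) := by
    by_contra hcon
    push Not at hcon
    have : L.card ≤ (univ.biUnion (fun a : Unit => bad c L Q)).card := Finset.card_le_card hcon
    omega
  have g0 : ∀ x, Q.card ≤ (2 * r) ^ 1 * (part c Q l0 x).card := by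
    intro x
    rw [pow_one]
    refine not_bad c hl0 (fun h => hb0 ?_) x
    rw [mem_biUnion]
    exact ⟨(), mem_univ _, h⟩
  -- step 1
  have s1 := bad_union c L Q hL hQ hQL (fun x : ZMod r => part c Q l0 x) 1 4
    (fun _ => part_sub _ _ _ _) g0 (hYk 1 (by omega)) (by
      refine le_trans ?_ hLQ
      rw [hcard]
      have : r ^ 4 ≤ r ^ 8 := Nat.pow_le_pow_right hr0 (by omega)
      calc 4 * (r * (8 * r ^ 2 * N * (2 * r) ^ 1)) = 64 * r ^ 4 * N := by ring
        _ ≤ 64 * r ^ 8 * N := Nat.mul_le_mul_right _ (Nat.mul_le_mul_left _ this)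
        _ ≤ 256 * r ^ 8 * N := Nat.mul_le_mul_right _ (Nat.mul_le_mul_right _ (by omega))) hQ0
  obtain ⟨l1, hl1, hb1⟩ : ∃ l1 ∈ L, l1 ∉ univ.biUnion (fun x : ZMod r => bad c L (part c Q l0 x)) := by
    by_contra hcon
    push Not at hcon
    have : L.card ≤ (univ.biUnion (fun x : ZMod r => bad c L (part c Q l0 x))).card :=
      Finset.card_le_card hcon
    omega
  have g1 : ∀ x : ZMod r × ZMod r,
      Q.card ≤ (2 * r) ^ 2 * (part c (part c Q l0 x.1) l1 x.2).card := by
    intro x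
    have h1 : (part c Q l0 x.1).card ≤ 2 * r * (part c (part c Q l0 x.1) l1 x.2).card := by
      refine not_bad c hl1 (fun h => hb1 ?_) x.2
      rw [mem_biUnion]
      exact ⟨x.1, mem_univ _, h⟩
    calc Q.card ≤ (2 * r) ^ 1 * (part c Q l0 x.1).card := g0 _
      _ ≤ (2 * r) ^ 1 * (2 * r * (part c (part c Q l0 x.1) l1 x.2).card) := Nat.mul_le_mul_left _ h1
      _ = _ := by ring
  -- step 2
  have s2 := bad_union c L Q hL hQ hQL
    (fun x : ZMod r × ZMod r => part c (part c Q l0 x.1) l1 x.2) 2 4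
    (fun _ => (part_sub _ _ _ _).trans (part_sub _ _ _ _)) g1 (hYk 2 (by omega)) (by
      refine le_trans ?_ hLQ
      rw [Fintype.card_prod, hcard]
      have : r ^ 6 ≤ r ^ 8 := Nat.pow_le_pow_right hr0 (by omega)
      calc 4 * (r * r * (8 * r ^ 2 * N * (2 * r) ^ 2)) = 128 * r ^ 6 * N := by ring
        _ ≤ 128 * r ^ 8 * N := Nat.mul_le_mul_right _ (Nat.mul_le_mul_left _ this)
        _ ≤ 256 * r ^ 8 * N := Nat.mul_le_mul_right _ (Nat.mul_le_mul_right _ (by omega))) hQ0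
  obtain ⟨l2, hl2, hb2⟩ : ∃ l2 ∈ L, l2 ∉ univ.biUnion
      (fun x : ZMod r × ZMod r => bad c L (part c (part c Q l0 x.1) l1 x.2)) := by
    by_contra hcon
    push Not at hcon
    have : L.card ≤ (univ.biUnion
      (fun x : ZMod r × ZMod r => bad c L (part c (part c Q l0 x.1) l1 x.2))).card :=
      Finset.card_le_card hcon
    omega
  have g2 : ∀ x : ZMod r × ZMod r × ZMod r,
      Q.card ≤ (2 * r) ^ 3 * (part c (part c (part c Q l0 x.1) l1 x.2.1) l2 x.2.2).card := by
    intro x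
    have h1 : (part c (part c Q l0 x.1) l1 x.2.1).card ≤
        2 * r * (part c (part c (part c Q l0 x.1) l1 x.2.1) l2 x.2.2).card := by
      refine not_bad c hl2 (fun h => hb2 ?_) x.2.2
      rw [mem_biUnion]
      exact ⟨(x.1, x.2.1), mem_univ _, h⟩
    calc Q.card ≤ (2 * r) ^ 2 * (part c (part c Q l0 x.1) l1 x.2.1).card := g1 (x.1, x.2.1)
      _ ≤ (2 * r) ^ 2 * (2 * r * (part c (part c (part c Q l0 x.1) l1 x.2.1) l2 x.2.2).card) :=
          Nat.mul_le_mul_left _ h1
      _ = _ := by ring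
  -- step 3
  have s3 := bad_union c L Q hL hQ hQL
    (fun x : ZMod r × ZMod r × ZMod r => part c (part c (part c Q l0 x.1) l1 x.2.1) l2 x.2.2) 3 4
    (fun _ => (part_sub _ _ _ _).trans ((part_sub _ _ _ _).trans (part_sub _ _ _ _))) g2
    (hYk 3 (by omega)) (by
      refine le_trans ?_ hLQ
      rw [Fintype.card_prod, Fintype.card_prod, hcard]
      calc 4 * (r * (r * r) * (8 * r ^ 2 * N * (2 * r) ^ 3)) = 256 * r ^ 8 * N := by ring
        _ ≤ 256 * r ^ 8 * N := le_refl _) hQ0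
  set B := univ.biUnion (fun x : ZMod r × ZMod r × ZMod r =>
    bad c L (part c (part c (part c Q l0 x.1) l1 x.2.1) l2 x.2.2)) with hB
  have val : ∀ {T : Finset ℕ} {l : ℕ} {x : ZMod r} {n : ℕ}, n ∈ part c T l x →
      n ∈ T ∧ X c l (n : ZMod l) = x := by
    intro T l x n hn
    unfold part at hn
    exact mem_filter.mp hn
  have pat3 : ∀ x0 x1 x2 : ZMod r, ∃ n ∈ Q, X c l0 (n : ZMod l0) = x0 ∧ X c l1 (n : ZMod l1) = x1 ∧
      X c l2 (n : ZMod l2) = x2 := by
    intro x0 x1 x2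
    have h1 := g2 (x0, x1, x2)
    have h2 : 0 < (part c (part c (part c Q l0 x0) l1 x1) l2 x2).card := by
      by_contra h
      have : (part c (part c (part c Q l0 x0) l1 x1) l2 x2).card = 0 := by omega
      simp only [this, mul_zero] at h1
      omega
    obtain ⟨n, hn⟩ := Finset.card_pos.mp h2
    obtain ⟨a1, a2⟩ := val hn
    obtain ⟨b1, b2⟩ := val a1
    obtain ⟨c1, c2⟩ := val b1
    exact ⟨n, c1, c2, b2, a2⟩
  have h01 : (0 : ZMod r) ≠ 1 := zero_ne_one
  refine ⟨l0, hl0, l1, hl1, l2, hl2, ((L \ B).erase l0 |>.erase l1 |>.erase l2), ?_, ?_, ?_, ?_, ?_, ?_,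
    ?_, ?_, pat3, ?_, ?_⟩
  · intro l hl
    simp only [mem_erase, mem_sdiff] at hl
    exact hl.2.2.2.1
  · simp
  · simp
  · simp
  · rintro rfl
    obtain ⟨n, -, a, b, -⟩ := pat3 0 1 0
    exact h01 (a.symm.trans b)
  · rintro rfl
    obtain ⟨n, -, a, -, b⟩ := pat3 0 1 1
    exact h01 (a.symm.trans b)
  · rintro rfl
    obtain ⟨n, -, -, a, b⟩ := pat3 0 0 1
    exact h01 (a.symm.trans b)
  · have e1 : (L \ B).card ≥ L.card - B.card := by
      rw [ge_iff_le]
      exact Finset.le_card_sdiff B L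
    have e2 : ((L \ B).erase l0).card ≥ (L \ B).card - 1 := Finset.pred_card_le_card_erase
    have e3 : (((L \ B).erase l0).erase l1).card ≥ ((L \ B).erase l0).card - 1 :=
      Finset.pred_card_le_card_erase
    have e4 : ((((L \ B).erase l0).erase l1).erase l2).card ≥
        (((L \ B).erase l0).erase l1).card - 1 := Finset.pred_card_le_card_erase
    omega
  · intro l hl x0 x1 x2 x
    simp only [mem_erase, mem_sdiff] at hl
    have h1 : (part c (part c (part c Q l0 x0) l1 x1) l2 x2).card ≤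
        2 * r * (part c (part c (part c (part c Q l0 x0) l1 x1) l2 x2) l x).card := by
      refine not_bad c hl.2.2.2.1 (fun h => hl.2.2.2.2 ?_) x
      rw [hB, mem_biUnion]
      exact ⟨(x0, x1, x2), mem_univ _, h⟩
    have h2 := g2 (x0, x1, x2)
    have h3 : 0 < (part c (part c (part c (part c Q l0 x0) l1 x1) l2 x2) l x).card := by
      by_contra h
      have h4 : (part c (part c (part c (part c Q l0 x0) l1 x1) l2 x2) l x).card = 0 := by omega
      rw [h4, mul_zero] at h1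
      have h5 : (part c (part c (part c Q l0 x0) l1 x1) l2 x2).card = 0 := by omega
      simp only [h5, mul_zero] at h2
      omega
    obtain ⟨n, hn⟩ := Finset.card_pos.mp h3
    obtain ⟨d1, d2⟩ := val hn
    obtain ⟨a1, a2⟩ := val d1
    obtain ⟨b1, b2⟩ := val a1
    obtain ⟨c1, c2⟩ := val b1
    exact ⟨n, c1, c2, b2, a2, d2⟩
  · have h1 := g1 (0, 1)
    have h2 : part c (part c Q l0 0) l1 1 = Q.filter (fun n : ℕ => X c l0 (n : ZMod l0) = 0 ∧
        X c l1 (n : ZMod l1) = 1) := by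
      ext n
      unfold part
      simp only [mem_filter]
      tauto
    rw [← h2]
    exact h1

end Pool.Agent.Rnr
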