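import Pool.Agent.Rnr.Rel
import Pool.Agent.Rnr.Sve
import Pool.Agent.Rnr.Nrm

/-!
# Rnr, file Dat: sections 4 and 5 of the text, from (H1), (H2) to the normalised symbols
-/

namespace Pool.Agent.Rnr

open NumberField

variable {r p : ℕ} {c : Chars r}
  {K : Type} [Field K] [NumberField K] {τ : K ≃ₐ[ℚ] K}

/-- small integers have trivial character mod `p` -/
theorem X_small (hr : r.Prime) (hp : p.Prime) (hc : Function.Surjective (c p)) {B : ℕ}
    (h1 : H1 r p B) (m : ℕ) (hm : 1 ≤ m) (hmB : m ≤ B) (hmp : m < p) : X c p (m : ZMod p) = 0 := by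
  have : Fact p.Prime := ⟨hp⟩
  have h0 : (m : ZMod p) ≠ 0 := by
    intro h
    have := (ZMod.natCast_eq_zero_iff _ _).mp h
    exact absurd (Nat.le_of_dvd (by omega) this) (by omega)
  exact (X_eq_zero_iff hr c p hp hc _ h0).mpr (h1 m hm hmB)

/-- the `h`-th power of a prime of degree one is principal -/
theorem exists_gen_ker {n : ℕ} (hn : n.Prime) (ν : 𝓞 K →+* ZMod n) :
    ∃ γ : 𝓞 K, Ideal.span {γ} = (RingHom.ker ν) ^ Nat.card (ClassGroup (𝓞 K)) := by
  have hI : RingHom.ker ν ≠ ⊥ := by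
    intro hbot
    have h3 := absNorm_ker hn ν
    rw [hbot, Ideal.absNorm_bot] at h3
    exact hn.ne_zero h3.symm
  have hI' : RingHom.ker ν ∈ nonZeroDivisors (Ideal (𝓞 K)) := mem_nonZeroDivisors_iff_ne_zero.mpr hI
  have h1 : ClassGroup.mk0 (⟨RingHom.ker ν, hI'⟩ ^ Nat.card (ClassGroup (𝓞 K))) = 1 := by
    rw [map_pow, Nat.card_eq_fintype_card, pow_card_eq_one]
  rw [ClassGroup.mk0_eq_one_iff] at h1
  obtain ⟨γ, hγ⟩ := h1
  refine ⟨γ, ?_⟩
  rw [← Ideal.submodule_span_eq, ← hγ]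
  simp

theorem norm_gen {n : ℕ} (hn : n.Prime) (ν : 𝓞 K →+* ZMod n) (h : ℕ) (γ : 𝓞 K)
    (hγ : Ideal.span {γ} = (RingHom.ker ν) ^ h) : (Algebra.norm ℤ γ).natAbs = n ^ h := by
  rw [← Ideal.absNorm_span_singleton, hγ, map_pow, absNorm_ker hn]

/-- value of a character at the norm -/
theorem X_norm (hK : IsCyc r c {p} (fun _ => 1) K τ) (l : ℕ) (n h : ℕ) (g : 𝓞 K →+* ZMod l)
    (x : 𝓞 K) (hx : (Algebra.norm ℤ x).natAbs = n ^ h) :
    X c l (g (∏ i ∈ Finset.range r, τ ^ i • x)) = h * X c l (n : ZMod l) := by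
  rw [← hK.norm x, map_intCast]
  have h5 : X c l ((Algebra.norm ℤ x : ℤ) : ZMod l) =
      X c l (((Algebra.norm ℤ x).natAbs : ℕ) : ZMod l) := by
    rcases Int.natAbs_eq (Algebra.norm ℤ x) with h6 | h6
    · conv_lhs => rw [h6]
      rw [Int.cast_natCast]
    · conv_lhs => rw [h6]
      rw [Int.cast_neg, Int.cast_natCast, X_neg hK.good.pr hK.good.odd]
  rw [h5, hx, Nat.cast_pow, X_pow]

/-- the symbols of a unit for two rows agree -/
theorem unit_rel (hp : p.Prime) (hK : IsCyc r c {p} (fun _ => 1) K τ)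
    (l l' : ℕ) (hll : l ≠ l') (hl : l.Prime) (hl' : l'.Prime) (hcl : Function.Surjective (c l))
    (hcl' : Function.Surjective (c l')) (hlp : l ≠ p) (hlp' : l' ≠ p)
    (hv : X c l (p : ZMod l) = X c l' (p : ZMod l'))
    (h2 : X c p (l : ZMod p) = 0) (h2' : X c p (l' : ZMod p) = 0)
    (g : 𝓞 K →+* ZMod l) (g' : 𝓞 K →+* ZMod l') (u : (𝓞 K)ˣ) :
    Sf c l τ g (u : 𝓞 K) = Sf c l' τ g' (u : 𝓞 K) := by
  classical
  have hr := hK.good.pr
  have hr2 := hK.good.odd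
  set f : ℕ → ZMod r := fun x => if x = l then 1 else -1 with hf
  have hfl : f l = 1 := by simp [hf]
  have hfl' : f l' = -1 := by
    simp only [hf]
    rw [if_neg (Ne.symm hll)]
  have h1r : (1 : ZMod r) ≠ 0 := by
    have : Fact (1 < r) := ⟨hr.one_lt⟩
    exact one_ne_zero
  have hgood : Good r c {l, l'} f := by
    refine ⟨hr, hr2, ⟨l, by simp⟩, ?_, ?_, ?_⟩
    · intro x hx
      simp only [Finset.mem_insert, Finset.mem_singleton] at hx
      rcases hx with rfl | rfl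
      · exact hl
      · exact hl'
    · intro x hx
      simp only [Finset.mem_insert, Finset.mem_singleton] at hx
      rcases hx with rfl | rfl
      · exact hcl
      · exact hcl'
    · intro x hx
      simp only [Finset.mem_insert, Finset.mem_singleton] at hx
      rcases hx with rfl | rfl
      · rw [hfl]
        exact h1r
      · rw [hfl']
        exact neg_ne_zero.mpr h1r
  obtain ⟨F, _, _, σ, hF⟩ := exists_cyc hgood
  have hpS : p ∉ ({l, l'} : Finset ℕ) := by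
    simp only [Finset.mem_insert, Finset.mem_singleton, not_or]
    exact ⟨hlp.symm, hlp'.symm⟩
  have hpsi : psi c {l, l'} f (p : ℤ) = 0 := by
    rw [psi, Finset.sum_pair hll, hfl, hfl', Int.cast_natCast, Int.cast_natCast, hv]
    ring
  obtain ⟨φ⟩ := hF.split p hp hpS hpsi
  set M : ℤ := Algebra.norm ℤ (u : 𝓞 K) with hM
  have hMu : IsUnit M := by
    rw [hM]
    exact u.isUnit.map _
  set P : (x : ℕ) → 𝓞 K → ZMod x := fun x y =>
    if hx : x = l then hx ▸ g y else if hx' : x = l' then hx' ▸ g' y else 0 with hP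
  have hPl : P l = g := by
    funext y
    simp [hP]
  have hPl' : P l' = g' := by
    funext y
    simp [hP, Ne.symm hll]
  have hαn : ∏ i ∈ Finset.range r, σ ^ i • ((M : ℤ) : 𝓞 F) = ((M : ℤ) : 𝓞 F) := by
    have h3 : ∀ i, σ ^ i • ((M : ℤ) : 𝓞 F) = ((M : ℤ) : 𝓞 F) := fun i =>
      map_intCast (MulSemiringAction.toRingHom _ (𝓞 F) (σ ^ i)) M
    rw [Finset.prod_congr rfl (fun i _ => h3 i), Finset.prod_const, Finset.card_range]
    rcases Int.isUnit_iff.mp hMu with h4 | h4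
    · rw [h4]
      simp
    · rw [h4]
      push_cast
      exact (hr.odd_of_ne_two hr2).neg_one_pow
  have hrec := Rcp.rec hF hK hpS hpsi (by
      intro x hx
      simp only [Finset.mem_insert, Finset.mem_singleton] at hx
      rcases hx with rfl | rfl
      · exact h2
      · exact h2') ((M : ℤ) : 𝓞 F) (u : 𝓞 K) M hαn (hK.norm _).symm (by
      intro v hvp hvd
      have h3 : IsUnit (v : ℤ) := isUnit_of_dvd_unit hvd hMu
      rw [Int.isUnit_iff] at h3
      have := hvp.one_lt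
      omega) φ P (by
      intro x hx
      simp only [Finset.mem_insert, Finset.mem_singleton] at hx
      rcases hx with rfl | rfl
      · exact ⟨g, fun y => by rw [hPl]⟩
      · exact ⟨g', fun y => by rw [hPl']⟩)
  have hS0 : Sf c p σ φ ((M : ℤ) : 𝓞 F) = 0 := by
    rcases Int.isUnit_iff.mp hMu with h4 | h4
    · rw [h4, Int.cast_one, Sf_one]
    · rw [h4, Int.cast_neg, Int.cast_one, Sf_neg hr hr2, Sf_one]
  rw [hS0, zero_add, Finset.sum_pair hll, hfl, hfl', hPl, hPl'] at hrec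
  linear_combination hrec

/-- (GEN) for a set `W` of at most four rows of one class, all of whose patterns are attained. -/
theorem genW (hp : p.Prime) (hc : Function.Surjective (c p)) (hK : IsCyc r c {p} (fun _ => 1) K τ)
    {B Y N : ℕ} (hB : B ^ r < p) (h1 : H1 r p B) (h2 : H2 r p B) (hN : 1 ≤ N)
    (hNB : N ≤ B) (hYB : Y ≤ B)
    (hG : genB ((2 * Y ^ 4) ^ (r * (r - 1))) (N ^ r) ≤ B)
    (W Q : Finset ℕ) (v : ZMod r)
    (hW : ∀ l ∈ W, l.Prime ∧ Function.Surjective (c l) ∧ l ≤ Y ∧ X c l (p : ZMod l) = v)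
    (hW4 : W.card ≤ 4) (hQ : ∀ n ∈ Q, n.Prime ∧ n ≤ N ∧ n ∉ W)
    (hpat : ∀ y : ℕ → ZMod r, ∃ n ∈ Q, ∀ l ∈ W, X c l (n : ZMod l) = y l)
    (h : ℕ) (γ : ℕ → 𝓞 K) (hγ : ∀ n ∈ Q, (Algebra.norm ℤ (γ n)).natAbs = n ^ h)
    (P : (l : ℕ) → 𝓞 K → ZMod l) (hP : ∀ l ∈ W, ∃ g : 𝓞 K →+* ZMod l, ∀ x, P l x = g x)
    (f : ℕ → ZMod r) (hf0 : ∃ l ∈ W, f l ≠ 0) (hf : ∑ l ∈ W, f l = 0) :
    ∃ κ : ℕ → ZMod r, (∀ l, f l = 0 → κ l = 0) ∧
      ∀ n ∈ Q, ∑ l ∈ W, f l * X c l (n : ZMod l) = 0 →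
      ∑ l ∈ W, f l * Sf c l τ (P l) (γ n) = ∑ l ∈ W, κ l * X c l (n : ZMod l) := by
  classical
  have hr := hK.good.pr
  have hr2 := hK.good.odd
  have hBp : B < p := lt_of_le_of_lt (Nat.le_self_pow hr.ne_zero B) hB
  set S := W.filter fun l => f l ≠ 0 with hS
  have hSW : S ⊆ W := Finset.filter_subset _ _
  have hsum : ∀ g : ℕ → ZMod r, ∑ l ∈ S, f l * g l = ∑ l ∈ W, f l * g l := by
    intro g
    rw [hS, Finset.sum_filter]
    refine Finset.sum_congr rfl fun l _ => ?_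
    by_cases h0 : f l = 0
    · simp [h0]
    · simp [h0]
  have hgood : Good r c S f := by
    refine ⟨hr, hr2, ?_, ?_, ?_, ?_⟩
    · obtain ⟨l, hl, hfl⟩ := hf0
      exact ⟨l, Finset.mem_filter.mpr ⟨hl, hfl⟩⟩
    · exact fun l hl => (hW l (hSW hl)).1
    · exact fun l hl => (hW l (hSW hl)).2.1
    · exact fun l hl => (Finset.mem_filter.mp hl).2
  obtain ⟨F, _, _, σ, hF⟩ := exists_cyc hgood
  have hpS : p ∉ S := by
    intro hpS
    exact absurd ((hW p (hSW hpS)).2.2.1.trans hYB) (not_le.mpr hBp)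
  have hpsi : psi c S f (p : ℤ) = 0 := by
    rw [psi, hsum]
    have : ∀ l ∈ W, f l * X c l (((p : ℕ) : ℤ) : ZMod l) = f l * v := by
      intro l hl
      rw [Int.cast_natCast, (hW l hl).2.2.2]
    rw [Finset.sum_congr rfl this, ← Finset.sum_mul, hf, zero_mul]
  have hXp : ∀ m : ℕ, 1 ≤ m → m ≤ B → X c p (m : ZMod p) = 0 := fun m hm hmB =>
    X_small hr hp hc h1 m hm hmB (lt_of_le_of_lt hmB hBp)
  have hcond : cond S ≤ Y ^ 4 := by
    rw [cond]
    calc ∏ l ∈ S, l ≤ ∏ _l ∈ S, Y := Finset.prod_le_prod' fun l hl => (hW l (hSW hl)).2.2.1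
      _ = Y ^ S.card := by rw [Finset.prod_const]
      _ ≤ Y ^ 4 := by
        apply Nat.pow_le_pow_right
        · obtain ⟨l, hl, _⟩ := hf0
          exact (hW l hl).1.pos.trans_le (hW l hl).2.2.1
        · exact (Finset.card_le_card hSW).trans hW4
  have hD : (discr F).natAbs ≤ (2 * Y ^ 4) ^ (r * (r - 1)) := by
    have h3 := hF.disc
    have h4 : ((discr F).natAbs : ℤ) ≤ (((2 * Y ^ 4) ^ (r * (r - 1)) : ℕ) : ℤ) := by
      rw [Int.natCast_natAbs]
      refine h3.trans ?_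
      push_cast
      apply pow_le_pow_left₀ (by positivity)
      have : (cond S : ℤ) ≤ ((Y ^ 4 : ℕ) : ℤ) := by exact_mod_cast hcond
      push_cast at this
      linarith
    exact_mod_cast h4
  obtain ⟨κ, hκ⟩ := gen_rel hp hc hF hK hpS hpsi
    (fun l hl => hXp l (hW l (hSW hl)).1.one_lt.le ((hW l (hSW hl)).2.2.1.trans hYB))
    hB h2 hD hN (lt_of_le_of_lt hNB hBp) hG Q
    (fun n hn => ⟨(hQ n hn).1, (hQ n hn).2.1, fun hnS => (hQ n hn).2.2 (hSW hnS),
      hXp n (hQ n hn).1.one_lt.le ((hQ n hn).2.1.trans hNB)⟩) h γ hγ P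
    (fun l hl => hP l (hSW hl)) (fun y _ => by
      obtain ⟨n, hn, h3⟩ := hpat y
      exact ⟨n, hn, fun l hl => h3 l (hSW hl)⟩)
  refine ⟨fun l => if l ∈ S then κ l else 0, fun l hl => ?_, fun n hn h3 => ?_⟩
  · have : l ∉ S := fun h3 => (Finset.mem_filter.mp h3).2 hl
    simp [this]
  have h4 : psi c S f (n : ℤ) = 0 := by
    rw [psi, hsum, ← h3]
    refine Finset.sum_congr rfl fun l _ => ?_
    rw [Int.cast_natCast]
  have h5 := hκ n hn h4
  rw [← hsum, h5, ← Finset.sum_subset hSW (fun l _ hl => by simp [hl])]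
  refine Finset.sum_congr rfl fun l hl => ?_
  simp [hl]

/-- The kernel of a shifted homomorphism. -/
theorem span_shift {n : ℕ} (ν : 𝓞 K →+* ZMod n) (k h : ℕ)
    (g : 𝓞 K)
    (hg : Ideal.span {g} =
      (RingHom.ker (ν.comp (MulSemiringAction.toRingHom _ (𝓞 K) (τ ^ k)))) ^ h) :
    Ideal.span {τ ^ k • g} = (RingHom.ker ν) ^ h := by
  set ψ : 𝓞 K →+* 𝓞 K := MulSemiringAction.toRingHom _ (𝓞 K) (τ ^ k) with hψ
  have hbij : Function.Bijective ψ := MulAction.bijective (τ ^ k)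
  have h1 : (RingHom.ker (ν.comp ψ)).map ψ = RingHom.ker ν := by
    apply le_antisymm
    · rw [Ideal.map_le_iff_le_comap]
      intro x hx
      rw [Ideal.mem_comap, RingHom.mem_ker]
      exact hx
    · intro x hx
      obtain ⟨y, rfl⟩ := hbij.2 x
      apply Ideal.mem_map_of_mem
      rw [RingHom.mem_ker]
      exact hx
  have h2 : Ideal.map ψ (Ideal.span {g}) = Ideal.span {τ ^ k • g} := by
    rw [Ideal.map_span, Set.image_singleton]
    rfl
  rw [← h2, hg, Ideal.map_pow, h1]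

theorem dat (hr : r.Prime) (hr2 : r ≠ 2) (hp : p.Prime) (hc : Function.Surjective (c p))
    {B Y N : ℕ} (hB : B ^ r < p) (h1 : H1 r p B) (h2 : H2 r p B) (hN : 1 ≤ N)
    (hNB : N ≤ B) (hYB : Y ≤ B)
    (hG : genB ((2 * Y ^ 4) ^ (r * (r - 1))) (N ^ r) ≤ B)
    (L Q : Finset ℕ) (v : ZMod r)
    (hL : ∀ l ∈ L, l.Prime ∧ Function.Surjective (c l) ∧ l ≤ Y ∧ X c l (p : ZMod l) = v)
    (hQ : ∀ n ∈ Q, n.Prime ∧ n ≤ N ∧ n ∉ L)
    (hQY : 8 * r ^ 2 * Y ^ 2 * (2 * r) ^ 3 ≤ Q.card) (hQ0 : 0 < Q.card) (hL3 : 12 ≤ L.card)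
    (hLQ : 256 * r ^ 8 * N ≤ L.card * Q.card) :
    ∃ (K : Type) (_ : Field K) (_ : NumberField K) (τ : K ≃ₐ[ℚ] K)
      (_ : IsCyc r c {p} (fun _ => 1) K τ) (L3 Q1 : Finset ℕ) (P : (l : ℕ) → 𝓞 K → ZMod l)
      (NN : ℕ → Ideal (𝓞 K)),
      r.Coprime (Nat.card (ClassGroup (𝓞 K))) ∧ L3 ⊆ L ∧ L.card ≤ 2 * L3.card ∧ Q1 ⊆ Q ∧
      Q.card ≤ (2 * r) ^ 2 * Q1.card ∧
      (∀ l ∈ L3, ∃ g : 𝓞 K →+* ZMod l, ∀ x, P l x = g x) ∧
      (∀ n ∈ Q1, Ideal.absNorm (NN n) = n) ∧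
      (∀ u : 𝓞 K, IsUnit u → ∀ l ∈ L3, ∀ l' ∈ L3, Sf c l τ (P l) u = Sf c l' τ (P l') u) ∧
      (∀ n ∈ Q1, ∀ g : 𝓞 K, Ideal.span {g} = NN n ^ Nat.card (ClassGroup (𝓞 K)) →
        ∀ l ∈ L3, ∀ l' ∈ L3, Sf c l τ (P l) g = Sf c l' τ (P l') g) := by
  classical
  have : Fact r.Prime := ⟨hr⟩
  have : Fact p.Prime := ⟨hp⟩
  have hBp : B < p := lt_of_le_of_lt (Nat.le_self_pow hr.ne_zero B) hB
  -- the field K
  have hgood : Good r c {p} (fun _ => 1) := by
    refine ⟨hr, hr2, ⟨p, by simp⟩, ?_, ?_, ?_⟩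
    · intro l hl
      rw [Finset.mem_singleton.mp hl]
      exact hp
    · intro l hl
      rw [Finset.mem_singleton.mp hl]
      exact hc
    · intro l _
      exact one_ne_zero
  obtain ⟨K, _, _, τ, hK⟩ := exists_cyc hgood
  set h : ℕ := Nat.card (ClassGroup (𝓞 K)) with hh
  have hrh : ¬ r ∣ h := amb_coprime' hr hr2 hK.finrank τ hK.order {p}
    (fun w hw hwS => hK.unram w hw hwS) (by simp)
  have hcop : r.Coprime h := (Nat.Prime.coprime_iff_not_dvd hr).mpr hrh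
  have hXp : ∀ m : ℕ, 1 ≤ m → m ≤ B → X c p (m : ZMod p) = 0 := fun m hm hmB =>
    X_small hr hp hc h1 m hm hmB (lt_of_le_of_lt hmB hBp)
  -- homomorphisms at small primes
  have hhom : ∀ m : ℕ, m.Prime → m ≤ B → Nonempty (𝓞 K →+* ZMod m) := by
    intro m hm hmB
    apply hK.split m hm
    · rw [Finset.mem_singleton]
      rintro rfl
      omega
    · rw [psi, Finset.sum_singleton, Int.cast_natCast, hXp m hm.one_lt.le hmB, mul_zero]
  let π : (m : ℕ) → 𝓞 K → ZMod m := fun m =>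
    if hm : m.Prime ∧ m ≤ B then ⇑(hhom m hm.1 hm.2).some else fun _ => 0
  have hπ : ∀ m : ℕ, m.Prime → m ≤ B → ∃ g : 𝓞 K →+* ZMod m, π m = g := by
    intro m hm hmB
    refine ⟨(hhom m hm hmB).some, ?_⟩
    simp only [π]
    rw [dif_pos ⟨hm, hmB⟩]
  have hLB : ∀ l ∈ L, l ≤ B := fun l hl => (hL l hl).2.2.1.trans hYB
  have hQB : ∀ n ∈ Q, n ≤ B := fun n hn => (hQ n hn).2.1.trans hNB
  -- generators
  have hgen : ∀ n ∈ Q, ∃ γ : 𝓞 K, ∃ ν : 𝓞 K →+* ZMod n, Ideal.span {γ} = (RingHom.ker ν) ^ h := by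
    intro n hn
    obtain ⟨ν⟩ := hhom n (hQ n hn).1 (hQB n hn)
    obtain ⟨γ, hγ⟩ := exists_gen_ker (hQ n hn).1 ν
    exact ⟨γ, ν, hγ⟩
  choose! γ hγ using hgen
  have hγn : ∀ n ∈ Q, (Algebra.norm ℤ (γ n)).natAbs = n ^ h := by
    intro n hn
    obtain ⟨ν, hν⟩ := hγ n hn
    exact norm_gen (hQ n hn).1 ν h (γ n) hν
  -- the sets
  obtain ⟨l0, hl0, l1, hl1, l2, hl2, L2, hL2L, hl0', hl1', hl2', h01, h02, h12, hLL2, hpat3, hpat4,
    hQQ1⟩ := sets hr.two_le c L Q (fun l hl => ⟨(hL l hl).1, (hL l hl).2.1, (hL l hl).2.2.1⟩)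
      (fun n hn => Finset.mem_Icc.mpr ⟨(hQ n hn).1.one_lt.le, (hQ n hn).2.1⟩)
      (fun l hl n hn hd => by
        have h3 : l = n := (Nat.prime_dvd_prime_iff_eq (hL l hl).1 (hQ n hn).1).mp hd
        exact (hQ n hn).2.2 (h3 ▸ hl)) hQY hQ0 hL3 hLQ
  set Q1 := Q.filter (fun n : ℕ => X c l0 (n : ZMod l0) = 0 ∧ X c l1 (n : ZMod l1) = 1) with hQ1
  have hQ1Q : Q1 ⊆ Q := Finset.filter_subset _ _
  -- patterns on subsets
  have hpatW : ∀ l ∈ insert l2 L2, ∀ y : ℕ → ZMod r, ∃ n ∈ Q,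
      ∀ w ∈ ({l0, l1, l2, l} : Finset ℕ), X c w (n : ZMod w) = y w := by
    intro l hl y
    rcases Finset.mem_insert.mp hl with rfl | hl'
    · obtain ⟨n, hn, a0, a1, a2⟩ := hpat3 (y l0) (y l1) (y l)
      refine ⟨n, hn, fun w hw => ?_⟩
      simp only [Finset.mem_insert, Finset.mem_singleton] at hw
      rcases hw with rfl | rfl | rfl | rfl <;> assumption
    · obtain ⟨n, hn, a0, a1, a2, a3⟩ := hpat4 l hl' (y l0) (y l1) (y l2) (y l)
      refine ⟨n, hn, fun w hw => ?_⟩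
      simp only [Finset.mem_insert, Finset.mem_singleton] at hw
      rcases hw with rfl | rfl | rfl | rfl <;> assumption
  have hinsL : ∀ l ∈ insert l2 L2, l ∈ L := by
    intro l hl
    rcases Finset.mem_insert.mp hl with rfl | hl'
    · exact hl2
    · exact hL2L hl'
  have hinsne : ∀ l ∈ insert l2 L2, l ≠ l0 ∧ l ≠ l1 := by
    intro l hl
    rcases Finset.mem_insert.mp hl with rfl | hl'
    · exact ⟨h02.symm, h12.symm⟩
    · exact ⟨fun h3 => hl0' (h3 ▸ hl'), fun h3 => hl1' (h3 ▸ hl')⟩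
  -- (GEN) for any coefficients
  have hGEN : ∀ l ∈ insert l2 L2, ∀ f : ℕ → ZMod r, (∃ w ∈ ({l0, l1, l2, l} : Finset ℕ), f w ≠ 0) →
      ∑ w ∈ ({l0, l1, l2, l} : Finset ℕ), f w = 0 →
      ∃ κ : ℕ → ZMod r, (∀ w, f w = 0 → κ w = 0) ∧ ∀ n ∈ Q,
        ∑ w ∈ ({l0, l1, l2, l} : Finset ℕ), f w * X c w (n : ZMod w) = 0 →
        ∑ w ∈ ({l0, l1, l2, l} : Finset ℕ), f w * Sf c w τ (π w) (γ n) =
          ∑ w ∈ ({l0, l1, l2, l} : Finset ℕ), κ w * X c w (n : ZMod w) := by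
    intro l hl f hf0 hf
    have hWL : ∀ w ∈ ({l0, l1, l2, l} : Finset ℕ), w ∈ L := by
      intro w hw
      simp only [Finset.mem_insert, Finset.mem_singleton] at hw
      rcases hw with rfl | rfl | rfl | rfl
      · exact hl0
      · exact hl1
      · exact hl2
      · exact hinsL _ hl
    exact genW hp hc hK hB h1 h2 hN hNB hYB hG _ Q v (fun w hw => hL w (hWL w hw))
      Finset.card_le_four
      (fun n hn => ⟨(hQ n hn).1, (hQ n hn).2.1, fun hnW => (hQ n hn).2.2 (hWL n hnW)⟩)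
      (hpatW l hl) h γ hγn π
      (fun w hw => by
        obtain ⟨g, hg⟩ := hπ w (hL w (hWL w hw)).1 (hLB w (hWL w hw))
        exact ⟨g, fun x => by rw [hg]⟩) f hf0 hf
  -- the matrix
  set M : ℕ → ℕ → ZMod r := fun l n => Sf c l τ (π l) (γ n) - Sf c l0 τ (π l0) (γ n) with hM
  set Xm : ℕ → ℕ → ZMod r := fun l n => X c l (n : ZMod l) with hXm
  have hQ1' : ∀ n ∈ Q1, n ∈ Q ∧ Xm l0 n = 0 ∧ Xm l1 n = 1 := by
    intro n hn
    have := Finset.mem_filter.mp hn
    exact ⟨this.1, this.2.1, this.2.2⟩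
  -- (GEN) for a pair `l, w`, `w` one of `l1, l2`
  have hpair : ∀ l ∈ insert l2 L2, ∀ w ∈ ({l1, l2} : Finset ℕ), l ≠ w → ∀ a a' : ZMod r, a ≠ 0 →
      ∃ ka ka' : ZMod r, (a' = 0 → ka' = 0) ∧ ∀ n ∈ Q1, a * Xm l n + a' * Xm w n = 0 →
        a * M l n + a' * M w n = ka * Xm l n + ka' * Xm w n := by
    intro l hl w hw hlw a a' ha
    set W : Finset ℕ := {l0, l1, l2, l} with hW
    have hw0 : w ≠ l0 := by
      simp only [Finset.mem_insert, Finset.mem_singleton] at hw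
      rcases hw with rfl | rfl
      · exact h01.symm
      · exact h02.symm
    have hl00 : l ≠ l0 := (hinsne l hl).1
    have hlW : l ∈ W := by simp [hW]
    have hl0W : l0 ∈ W := by simp [hW]
    have hwW : w ∈ W := by
      simp only [Finset.mem_insert, Finset.mem_singleton] at hw
      rcases hw with rfl | rfl <;> simp [hW]
    set f : ℕ → ZMod r := fun x => (if x = l then a else 0) + (if x = w then a' else 0) -
      (if x = l0 then a + a' else 0) with hf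
    have hsumf : ∀ G : ℕ → ZMod r, ∑ x ∈ W, f x * G x = a * G l + a' * G w - (a + a') * G l0 := by
      intro G
      simp only [hf, sub_mul, add_mul, ite_mul, zero_mul, Finset.sum_sub_distrib,
        Finset.sum_add_distrib, Finset.sum_ite_eq', hlW, hl0W, hwW, if_true]
    obtain ⟨κ, hκ0, hκ⟩ := hGEN l hl f ⟨l, hlW, by
      have h3 : f l = a := by
        simp [hf, hlw, hl00]
      rw [h3]
      exact ha⟩ (by
      have := hsumf (fun _ => 1)
      simp only [mul_one] at this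
      rw [this]
      ring)
    refine ⟨κ l, κ w, fun ha' => hκ0 w ?_, fun n hn h3 => ?_⟩
    · simp [hf, Ne.symm hlw, hw0, ha']
    obtain ⟨hnQ, hn0, hn1⟩ := hQ1' n hn
    have h4 := hκ n hnQ (by
      rw [hsumf (fun x => X c x (n : ZMod x))]
      have h5 : X c l0 (n : ZMod l0) = 0 := hn0
      rw [h5, mul_zero, sub_zero]
      exact h3)
    rw [hsumf (fun x => Sf c x τ (π x) (γ n))] at h4
    have h6 : ∑ x ∈ W, κ x * X c x (n : ZMod x) = κ l * Xm l n + κ w * Xm w n := by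
      have h7 : ({l, w} : Finset ℕ) ⊆ W := by
        intro x hx
        simp only [Finset.mem_insert, Finset.mem_singleton] at hx
        rcases hx with rfl | rfl
        · exact hlW
        · exact hwW
      rw [← Finset.sum_subset h7, Finset.sum_pair hlw]
      intro x _ hx
      simp only [Finset.mem_insert, Finset.mem_singleton, not_or] at hx
      by_cases hx0 : x = l0
      · subst hx0
        have h5 : X c x (n : ZMod x) = 0 := hn0
        rw [h5, mul_zero]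
      · have : f x = 0 := by
          simp only [hf]
          rw [if_neg hx.1, if_neg hx.2, if_neg hx0]
          ring
        rw [hκ0 x this, zero_mul]
    rw [h6] at h4
    rw [← h4]
    simp only [hM]
    ring
  have hl3 : ∃ l3 ∈ L2, True := by
    by_contra hne
    push Not at hne
    have : L2 = ∅ := by
      rw [Finset.eq_empty_iff_forall_notMem]
      intro x hx
      exact (hne x hx).elim
    rw [this, Finset.card_empty] at hLL2
    omega
  obtain ⟨l3, hl3, -⟩ := hl3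
  have hl32 : l3 ≠ l2 := fun h3 => hl2' (h3 ▸ hl3)
  obtain ⟨kn, kl, hk⟩ := nrm_main (↑(insert l2 L2) : Set ℕ) (↑Q1 : Set ℕ) M Xm l1 l2 (by simp)
    (fun n hn => (hQ1' n hn).2.2)
    (fun l hl n hn hX => by
      have hl' : l ∈ insert l2 L2 := hl
      obtain ⟨ka, ka', hka0, hka⟩ := hpair l hl' l1 (by simp) (hinsne l hl').2 1 0 one_ne_zero
      have h3 := hka n hn (by rw [hX]; ring)
      rw [hka0 rfl, hX] at h3
      linear_combination h3)
    (fun l hl a a' ha => by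
      obtain ⟨ka, ka', -, hka⟩ := hpair l hl l1 (by simp) (hinsne l hl).2 a a' ha
      exact ⟨ka, ka', hka⟩)
    (fun l hl hll2 a a' ha _ => by
      obtain ⟨ka, ka', -, hka⟩ := hpair l hl l2 (by simp) hll2 a a' ha
      exact ⟨ka, ka', hka⟩)
    (fun l hl hll2 x y => by
      obtain ⟨n, hn, hy⟩ := hpatW l hl (fun w => if w = l0 then 0 else if w = l1 then 1 else
        if w = l2 then y else x)
      have e0 := hy l0 (by simp)
      have e1 := hy l1 (by simp)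
      have e2 := hy l2 (by simp)
      have e3 := hy l (by simp)
      have hl01 := hinsne l hl
      rw [if_pos rfl] at e0
      rw [if_neg h01.symm, if_pos rfl] at e1
      rw [if_neg h02.symm, if_neg h12.symm, if_pos rfl] at e2
      rw [if_neg hl01.1, if_neg hl01.2, if_neg hll2] at e3
      exact ⟨n, Finset.mem_filter.mpr ⟨hn, e0, e1⟩, e2, e3⟩) l3 (by simp [hl3]) hl32
  have hh0 : (h : ZMod r) ≠ 0 := by
    rw [Ne, ZMod.natCast_eq_zero_iff]
    exact hrh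
  -- the shifts
  set e : ℕ → ℕ := fun n => (-(kn n) * (h : ZMod r)⁻¹).val with he
  set d : ℕ → ℕ := fun l => (kl l * (h : ZMod r)⁻¹).val with hd
  have hec : ∀ n, (e n : ZMod r) * h = -(kn n) := by
    intro n
    simp only [he]
    rw [ZMod.natCast_val, ZMod.cast_id, mul_assoc, inv_mul_cancel₀ hh0, mul_one]
  have hdc : ∀ l, (d l : ZMod r) * h = kl l := by
    intro l
    simp only [hd]
    rw [ZMod.natCast_val, ZMod.cast_id, mul_assoc, inv_mul_cancel₀ hh0, mul_one]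
  have hNN : ∀ n ∈ Q1, ∃ I : Ideal (𝓞 K), Ideal.absNorm I = n ∧
      ∀ g : 𝓞 K, Ideal.span {g} = I ^ h → Ideal.span {τ ^ e n • g} = Ideal.span {γ n} := by
    intro n hn
    obtain ⟨ν, hν⟩ := hγ n (hQ1Q hn)
    refine ⟨RingHom.ker (ν.comp (MulSemiringAction.toRingHom _ (𝓞 K) (τ ^ e n))),
      absNorm_ker (hQ n (hQ1Q hn)).1 _, fun g hg => ?_⟩
    rw [span_shift ν (e n) h g hg, hν]
  choose! NN hNN1 hNN2 using hNN
  set P : (l : ℕ) → 𝓞 K → ZMod l := fun l x => π l (τ ^ d l • x) with hP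
  have hPhom : ∀ l ∈ L2, ∃ g : 𝓞 K →+* ZMod l, ∀ x, P l x = g x := by
    intro l hl
    obtain ⟨g, hg⟩ := hπ l (hL l (hL2L hl)).1 (hLB l (hL2L hl))
    refine ⟨g.comp (MulSemiringAction.toRingHom _ (𝓞 K) (τ ^ d l)), fun x => ?_⟩
    simp only [hP, hg]
    rfl
  -- change of the homomorphism
  have hSfP : ∀ l x, Sf c l τ (P l) x = Sf c l τ (π l) (τ ^ d l • x) := by
    intro l x
    simp only [Sf, hP]
    refine Finset.sum_congr rfl fun i _ => ?_
    rw [← mul_smul, ← mul_smul, ← pow_add, ← pow_add, add_comm]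
  have hU : ∀ u : 𝓞 K, IsUnit u → ∀ l ∈ L2, ∀ l' ∈ L2, Sf c l τ (π l) u = Sf c l' τ (π l') u := by
    intro u hu l hl l' hl'
    by_cases hll : l = l'
    · rw [hll]
    obtain ⟨g, hg⟩ := hπ l (hL l (hL2L hl)).1 (hLB l (hL2L hl))
    obtain ⟨g', hg'⟩ := hπ l' (hL l' (hL2L hl')).1 (hLB l' (hL2L hl'))
    obtain ⟨u', rfl⟩ := hu
    rw [hg, hg']
    have hlp : ∀ x ∈ L, x ≠ p := fun x hx h3 => absurd (hLB x hx) (by rw [h3]; omega)
    exact unit_rel hp hK l l' hll (hL l (hL2L hl)).1 (hL l' (hL2L hl')).1 (hL l (hL2L hl)).2.1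
      (hL l' (hL2L hl')).2.1 (hlp l (hL2L hl)) (hlp l' (hL2L hl'))
      ((hL l (hL2L hl)).2.2.2.trans (hL l' (hL2L hl')).2.2.2.symm)
      (hXp l (hL l (hL2L hl)).1.one_lt.le (hLB l (hL2L hl)))
      (hXp l' (hL l' (hL2L hl')).1.one_lt.le (hLB l' (hL2L hl'))) g g' u'
  have hUn : ∀ u : 𝓞 K, IsUnit u → (Algebra.norm ℤ u).natAbs = 1 := by
    intro u hu
    exact Int.isUnit_iff_natAbs_eq.mp (hu.map (Algebra.norm ℤ))
  have hUP : ∀ u : 𝓞 K, IsUnit u → ∀ l ∈ L2, Sf c l τ (P l) u = Sf c l τ (π l) u := by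
    intro u hu l hl
    obtain ⟨g, hg⟩ := hπ l (hL l (hL2L hl)).1 (hLB l (hL2L hl))
    rw [hSfP, hg, Sf_shift hK.pow_r hr.pos l g u (fun i hi =>
      hom_unit hK (hL l (hL2L hl)).1 g u (by
        rw [hUn u hu]
        exact (hL l (hL2L hl)).1.one_lt.not_ge ∘ Nat.le_of_dvd one_pos) i hi) (d l)]
    have h3 := X_norm hK l 1 0 g u (by rw [hUn u hu, pow_zero])
    rw [h3, Nat.cast_zero, zero_mul, mul_zero, sub_zero]
  refine ⟨K, inferInstance, inferInstance, τ, hK, L2, Q1, P, NN, hcop, hL2L, hLL2, hQ1Q, hQQ1,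
    hPhom, hNN1, ?_, ?_⟩
  · intro u hu l hl l' hl'
    rw [hUP u hu l hl, hUP u hu l' hl', hU u hu l hl l' hl']
  · intro n hn g hg
    -- everything is independent of `l`
    have hspan := hNN2 n hn g hg
    obtain ⟨u, hu⟩ := Ideal.span_singleton_eq_span_singleton.mp hspan.symm
    have hgn : (Algebra.norm ℤ g).natAbs = n ^ h := by
      rw [← Ideal.absNorm_span_singleton, hg, map_pow, hNN1 n hn]
    have hnQ := hQ1Q hn
    have key : ∀ l ∈ L2, Sf c l τ (P l) g = Sf c l0 τ (π l0) (γ n) + Sf c l τ (π l) (u : 𝓞 K) := by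
      intro l hl
      obtain ⟨f, hf⟩ := hπ l (hL l (hL2L hl)).1 (hLB l (hL2L hl))
      have hlpr := (hL l (hL2L hl)).1
      have hln : ∀ k, ¬ l ∣ n ^ k := by
        intro k hdv
        have h4 : l = n := (Nat.prime_dvd_prime_iff_eq hlpr (hQ n hnQ).1).mp
          (hlpr.dvd_of_dvd_pow hdv)
        exact (hQ n hnQ).2.2 (h4 ▸ hL2L hl)
      have hgu : ∀ i < r, IsUnit (f (τ ^ i • g)) := fun i hi =>
        hom_unit hK hlpr f g (by rw [hgn]; exact hln h) i hi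
      have hγu : ∀ i < r, IsUnit (f (τ ^ i • γ n)) := fun i hi =>
        hom_unit hK hlpr f (γ n) (by rw [hγn n hnQ]; exact hln h) i hi
      have huu : ∀ i < r, IsUnit (f (τ ^ i • (u : 𝓞 K))) := fun i hi =>
        hom_unit hK hlpr f (u : 𝓞 K) (by
          rw [hUn _ u.isUnit]
          exact hlpr.one_lt.not_ge ∘ Nat.le_of_dvd one_pos) i hi
      have h5 := Sf_shift (c := c) hK.pow_r hr.pos l f g hgu (d l)
      have h6 := Sf_shift (c := c) hK.pow_r hr.pos l f g hgu (e n)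
      have h7 := X_norm hK l n h f g hgn
      have h8 : Sf c l τ f (τ ^ e n • g) = Sf c l τ f (γ n) + Sf c l τ f (u : 𝓞 K) := by
        rw [← hu, Sf_mul l f _ _ hγu huu]
      have h9 := hk l (by simp [hl]) n hn
      simp only [hM, hXm, hf] at h9
      rw [hSfP, hf, h5, h7]
      rw [h7] at h6
      have h10 := hec n
      have h11 := hdc l
      linear_combination -h6 + h8 + h9 + X c l (n : ZMod l) * h10 - X c l (n : ZMod l) * h11
    intro l hl l' hl'
    rw [key l hl, key l' hl', hU _ u.isUnit l hl l' hl']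

end Pool.Agent.Rnr
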