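import Mathlib

/-!
# Rnr: small elements generate

Minkowski's theorem with weights for fractional ideals, and the fact that the field elements all of
whose prime ideals are small lie in the group generated by the small algebraic integers.
-/

namespace Pool.Agent.Rnr

open NumberField NumberField.InfinitePlace Module nonZeroDivisors MeasureTheory

theorem Gen_cg1 {G : Type*} [CommGroup G] (c d : G) : (c⁻¹ * d)⁻¹ * d = c := by
  rw [mul_inv, inv_inv, mul_assoc, inv_mul_cancel, mul_one]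

theorem Gen_cg2 {G : Type*} [CommGroup G] (a c d : G) : a * ((a * c)⁻¹ * d) * c = d := by
  have : a * ((a * c)⁻¹ * d) * c = (a * c) * (a * c)⁻¹ * d := by
    simp only [mul_comm, mul_left_comm, mul_assoc]
  rw [this, mul_inv_cancel, one_mul]

section Gen

variable (K : Type*) [Field K] [NumberField K]

/-- Minkowski's theorem for a fractional ideal with weights. -/
theorem Gen_mink (D : ℕ) (hD : (discr K).natAbs ≤ D) (I : (FractionalIdeal (𝓞 K)⁰ K)ˣ)
    (g : InfinitePlace K → ℝ) (hg : ∀ w, 0 < g w)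
    (h : ((FractionalIdeal.absNorm (I : FractionalIdeal (𝓞 K)⁰ K) : ℚ) : ℝ) * (D + 1) ≤
      ∏ w, g w ^ mult w) :
    ∃ a : Kˣ, (a : K) ∈ (I : FractionalIdeal (𝓞 K)⁰ K) ∧ ∀ w : InfinitePlace K, w (a : K) < g w := by
  classical
  set N : ℝ := ((FractionalIdeal.absNorm (I : FractionalIdeal (𝓞 K)⁰ K) : ℚ) : ℝ) with hN
  have hN0 : 0 < N := by
    rw [hN]
    have h1 : FractionalIdeal.absNorm (I : FractionalIdeal (𝓞 K)⁰ K) ≠ 0 := by
      rw [Ne, FractionalIdeal.absNorm_eq_zero_iff]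
      exact I.ne_zero
    have h2 := FractionalIdeal.absNorm_nonneg (I : FractionalIdeal (𝓞 K)⁰ K)
    exact_mod_cast lt_of_le_of_ne h2 h1.symm
  let f : InfinitePlace K → NNReal := fun w => ⟨g w, (hg w).le⟩
  have hs : Real.sqrt |(discr K : ℝ)| < D + 1 := by
    have h1 : |(discr K : ℝ)| ≤ D := by
      rw [← Int.cast_abs, Int.abs_eq_natAbs]
      exact_mod_cast hD
    rw [Real.sqrt_lt' (by positivity)]
    have : (0 : ℝ) ≤ D := by positivity
    nlinarith
  have key : mixedEmbedding.minkowskiBound K I < volume (mixedEmbedding.convexBodyLT K f) := by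
    rw [mixedEmbedding.convexBodyLT_volume, mixedEmbedding.minkowskiBound,
      mixedEmbedding.volume_fundamentalDomain_fractionalIdealLatticeBasis,
      mixedEmbedding.volume_fundamentalDomain_latticeBasis, mixedEmbedding.finrank]
    rw [← ENNReal.toReal_lt_toReal]
    · simp only [ENNReal.toReal_mul, ENNReal.toReal_pow, ENNReal.toReal_inv, ENNReal.coe_toReal,
        ENNReal.toReal_ofNat]
      rw [ENNReal.toReal_ofReal (Rat.cast_nonneg.mpr (FractionalIdeal.absNorm_nonneg I.1)), ← hN]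
      have e1 : ((NNReal.sqrt ‖discr K‖₊ : NNReal) : ℝ) = Real.sqrt |(discr K : ℝ)| := by
        rw [Real.coe_sqrt, coe_nnnorm, Int.norm_eq_abs]
      rw [e1]
      have e2 : ((∏ w, (f w) ^ mult w : NNReal) : ℝ) = ∏ w, g w ^ mult w := by
        push_cast
        rfl
      rw [e2]
      have e3 : ((mixedEmbedding.convexBodyLTFactor K : NNReal) : ℝ)
          = 2 ^ nrRealPlaces K * Real.pi ^ nrComplexPlaces K := by
        simp [mixedEmbedding.convexBodyLTFactor]
      rw [e3]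
      have e4 : finrank ℚ K = nrRealPlaces K + 2 * nrComplexPlaces K :=
        (card_add_two_mul_card_eq_rank K).symm
      rw [e4]
      have e5 : (2 : ℝ)⁻¹ ^ nrComplexPlaces K * 2 ^ (nrRealPlaces K + 2 * nrComplexPlaces K)
          = 2 ^ nrRealPlaces K * 2 ^ nrComplexPlaces K := by
        rw [pow_add, two_mul, pow_add, inv_pow]
        field_simp
      have e6 : (2 : ℝ) ^ nrComplexPlaces K ≤ Real.pi ^ nrComplexPlaces K :=
        pow_le_pow_left₀ (by norm_num) Real.two_le_pi _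
      calc N * (2⁻¹ ^ nrComplexPlaces K * Real.sqrt |(discr K : ℝ)|) *
            2 ^ (nrRealPlaces K + 2 * nrComplexPlaces K)
          = (N * Real.sqrt |(discr K : ℝ)|) *
            (2⁻¹ ^ nrComplexPlaces K * 2 ^ (nrRealPlaces K + 2 * nrComplexPlaces K)) := by ring
        _ = (N * Real.sqrt |(discr K : ℝ)|) * (2 ^ nrRealPlaces K * 2 ^ nrComplexPlaces K) := by
            rw [e5]
        _ < (N * (D + 1)) * (2 ^ nrRealPlaces K * 2 ^ nrComplexPlaces K) := by
            gcongr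
        _ ≤ (∏ w, g w ^ mult w) * (2 ^ nrRealPlaces K * Real.pi ^ nrComplexPlaces K) := by
            gcongr
            exact Finset.prod_nonneg fun w _ => pow_nonneg (hg w).le _
        _ = _ := by ring
    · exact ENNReal.mul_ne_top (ENNReal.mul_ne_top ENNReal.ofReal_ne_top
        (ENNReal.mul_ne_top (by simp) ENNReal.coe_ne_top)) (by simp)
    · exact ENNReal.mul_ne_top ENNReal.coe_ne_top ENNReal.coe_ne_top
  obtain ⟨a, ha, ha0, hw⟩ := mixedEmbedding.exists_ne_zero_mem_ideal_lt K I key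
  exact ⟨Units.mk0 a ha0, ha, fun w => hw w⟩

theorem Gen_absNorm_pos (I : (FractionalIdeal (𝓞 K)⁰ K)ˣ) :
    0 < ((FractionalIdeal.absNorm (I : FractionalIdeal (𝓞 K)⁰ K) : ℚ) : ℝ) := by
  have h1 : FractionalIdeal.absNorm (I : FractionalIdeal (𝓞 K)⁰ K) ≠ 0 := by
    rw [Ne, FractionalIdeal.absNorm_eq_zero_iff]
    exact I.ne_zero
  have h2 := FractionalIdeal.absNorm_nonneg (I : FractionalIdeal (𝓞 K)⁰ K)
  exact_mod_cast lt_of_le_of_ne h2 h1.symm

/-- real absolute norm of an invertible fractional ideal -/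
noncomputable def nrm (I : (FractionalIdeal (𝓞 K)⁰ K)ˣ) : ℝ :=
  ((FractionalIdeal.absNorm (I : FractionalIdeal (𝓞 K)⁰ K) : ℚ) : ℝ)

theorem nrm_pos (I : (FractionalIdeal (𝓞 K)⁰ K)ˣ) : 0 < nrm K I := Gen_absNorm_pos K I

theorem nrm_mul (I J : (FractionalIdeal (𝓞 K)⁰ K)ˣ) : nrm K (I * J) = nrm K I * nrm K J := by
  simp [nrm]

theorem nrm_one : nrm K 1 = 1 := by simp [nrm]

theorem nrm_inv (I : (FractionalIdeal (𝓞 K)⁰ K)ˣ) : nrm K I⁻¹ = (nrm K I)⁻¹ := by
  have h := nrm_mul K I⁻¹ I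
  rw [inv_mul_cancel, nrm_one] at h
  exact eq_inv_of_mul_eq_one_left h.symm

theorem nrm_principal (a : Kˣ) :
    nrm K (toPrincipalIdeal (𝓞 K) K a) = ∏ w : InfinitePlace K, w (a : K) ^ mult w := by
  rw [nrm, coe_toPrincipalIdeal, FractionalIdeal.absNorm_span_singleton, prod_eq_abs_norm]

/-- an integral ideal has a positive integer as norm -/
theorem nrm_nat (c : (FractionalIdeal (𝓞 K)⁰ K)ˣ) (hc : (c : FractionalIdeal (𝓞 K)⁰ K) ≤ 1) :
    ∃ J : Ideal (𝓞 K), (J : FractionalIdeal (𝓞 K)⁰ K) = c ∧ nrm K c = (Ideal.absNorm J : ℝ) ∧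
      1 ≤ Ideal.absNorm J := by
  obtain ⟨J, hJ⟩ := FractionalIdeal.le_one_iff_exists_coeIdeal.mp hc
  have h1 : nrm K c = (Ideal.absNorm J : ℝ) := by
    rw [nrm, ← hJ, FractionalIdeal.coeIdeal_absNorm]
    simp
  refine ⟨J, hJ, h1, ?_⟩
  have h2 := nrm_pos K c
  rw [h1] at h2
  exact_mod_cast h2

theorem nrm_one_le (c : (FractionalIdeal (𝓞 K)⁰ K)ˣ) (hc : (c : FractionalIdeal (𝓞 K)⁰ K) ≤ 1) :
    1 ≤ nrm K c := by
  obtain ⟨J, _, h1, h2⟩ := nrm_nat K c hc
  rw [h1]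
  exact_mod_cast h2

/-- Minkowski with a cofactor, balanced version. -/
theorem Gen_balanced (D : ℕ) (hD : (discr K).natAbs ≤ D) (I : (FractionalIdeal (𝓞 K)⁰ K)ˣ)
    (g : InfinitePlace K → ℝ) (hg : ∀ w, 0 < g w)
    (h : ∏ w, g w ^ mult w = nrm K I * (D + 1)) :
    ∃ (a : Kˣ) (c : (FractionalIdeal (𝓞 K)⁰ K)ˣ), (c : FractionalIdeal (𝓞 K)⁰ K) ≤ 1 ∧
      toPrincipalIdeal (𝓞 K) K a = I * c ∧ nrm K c ≤ D + 1 ∧
      ∀ w : InfinitePlace K, w (a : K) ≤ g w ∧ g w ≤ (D + 1) * w (a : K) := by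
  classical
  obtain ⟨a, haI, haw⟩ := Gen_mink K D hD I g hg h.symm.le
  have hI := nrm_pos K I
  have ha : ∀ w : InfinitePlace K, 0 < w (a : K) := fun w => InfinitePlace.pos_iff.mpr a.ne_zero
  have hD1 : (0 : ℝ) < (D : ℝ) + 1 := by positivity
  refine ⟨a, I⁻¹ * toPrincipalIdeal (𝓞 K) K a, ?_, by group, ?_, fun w => ⟨(haw w).le, ?_⟩⟩
  · have h1 : (toPrincipalIdeal (𝓞 K) K a : FractionalIdeal (𝓞 K)⁰ K) ≤ I := by
      rw [coe_toPrincipalIdeal, FractionalIdeal.spanSingleton_le_iff_mem]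
      exact haI
    calc ((I⁻¹ * toPrincipalIdeal (𝓞 K) K a : (FractionalIdeal (𝓞 K)⁰ K)ˣ) :
          FractionalIdeal (𝓞 K)⁰ K)
        = ((I⁻¹ : (FractionalIdeal (𝓞 K)⁰ K)ˣ) : FractionalIdeal (𝓞 K)⁰ K) *
          (toPrincipalIdeal (𝓞 K) K a : FractionalIdeal (𝓞 K)⁰ K) := by rw [Units.val_mul]
      _ ≤ ((I⁻¹ : (FractionalIdeal (𝓞 K)⁰ K)ˣ) : FractionalIdeal (𝓞 K)⁰ K) *
          (I : FractionalIdeal (𝓞 K)⁰ K) := by gcongr
      _ = 1 := by rw [← Units.val_mul, inv_mul_cancel, Units.val_one]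
  · rw [nrm_mul, nrm_inv, nrm_principal]
    have h2 : ∏ w : InfinitePlace K, w (a : K) ^ mult w ≤ ∏ w, g w ^ mult w :=
      Finset.prod_le_prod (fun w _ => pow_nonneg (ha w).le _)
        fun w _ => pow_le_pow_left₀ (ha w).le (haw w).le _
    rw [h] at h2
    calc (nrm K I)⁻¹ * ∏ w : InfinitePlace K, w (a : K) ^ mult w
        ≤ (nrm K I)⁻¹ * (nrm K I * (D + 1)) := by gcongr
      _ = D + 1 := by field_simp
  · -- lower bound
    have hc1 : 1 ≤ nrm K (I⁻¹ * toPrincipalIdeal (𝓞 K) K a) := by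
      refine nrm_one_le K _ ?_
      have h1 : (toPrincipalIdeal (𝓞 K) K a : FractionalIdeal (𝓞 K)⁰ K) ≤ I := by
        rw [coe_toPrincipalIdeal, FractionalIdeal.spanSingleton_le_iff_mem]
        exact haI
      calc ((I⁻¹ * toPrincipalIdeal (𝓞 K) K a : (FractionalIdeal (𝓞 K)⁰ K)ˣ) :
            FractionalIdeal (𝓞 K)⁰ K)
          = ((I⁻¹ : (FractionalIdeal (𝓞 K)⁰ K)ˣ) : FractionalIdeal (𝓞 K)⁰ K) *
            (toPrincipalIdeal (𝓞 K) K a : FractionalIdeal (𝓞 K)⁰ K) := by rw [Units.val_mul]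
        _ ≤ ((I⁻¹ : (FractionalIdeal (𝓞 K)⁰ K)ˣ) : FractionalIdeal (𝓞 K)⁰ K) *
            (I : FractionalIdeal (𝓞 K)⁰ K) := by gcongr
        _ = 1 := by rw [← Units.val_mul, inv_mul_cancel, Units.val_one]
    rw [nrm_mul, nrm_inv, nrm_principal] at hc1
    have hq : ∀ w : InfinitePlace K, 0 < w (a : K) / g w ∧ w (a : K) / g w ≤ 1 := fun w =>
      ⟨div_pos (ha w) (hg w), (div_le_one (hg w)).mpr (haw w).le⟩
    have h3 : ∏ w : InfinitePlace K, (w (a : K) / g w) ^ mult w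
        = (∏ w : InfinitePlace K, w (a : K) ^ mult w) / (nrm K I * (D + 1)) := by
      rw [← h, ← Finset.prod_div_distrib]
      exact Finset.prod_congr rfl fun w _ => div_pow _ _ _
    have h4 : (∏ w' : InfinitePlace K, (w' (a : K) / g w') ^ mult w')
        ≤ (w (a : K) / g w) ^ mult w := by
      rw [← Finset.mul_prod_erase Finset.univ _ (Finset.mem_univ w)]
      refine mul_le_of_le_one_right (pow_nonneg (hq w).1.le _) ?_
      exact Finset.prod_le_one (fun v _ => pow_nonneg (hq v).1.le _)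
        fun v _ => pow_le_one₀ (hq v).1.le (hq v).2
    have h5 : (w (a : K) / g w) ^ mult w ≤ w (a : K) / g w := by
      have hm : mult w ≠ 0 := mult_ne_zero
      exact pow_le_of_le_one (hq w).1.le (hq w).2 hm
    have h6 : (nrm K I) ≤ ∏ w : InfinitePlace K, w (a : K) ^ mult w := by
      have := mul_le_mul_of_nonneg_left hc1 hI.le
      rw [mul_one, ← mul_assoc, mul_inv_cancel₀ hI.ne', one_mul] at this
      exact this
    have h7 : 1 / ((D : ℝ) + 1) ≤ w (a : K) / g w := by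
      refine le_trans ?_ (h4.trans h5)
      rw [h3, div_le_div_iff₀ hD1 (by positivity)]
      nlinarith
    rw [div_le_div_iff₀ hD1 (hg w), one_mul] at h7
    linarith

/-- One step of the binary chain: half of the logarithms. -/
theorem Gen_half (D : ℕ) (hD : (discr K).natAbs ≤ D) (Y : ℝ) (hY : (D : ℝ) + 1 ≤ Y)
    (c₁ c₂ : (FractionalIdeal (𝓞 K)⁰ K)ˣ)
    (h₁ : (c₁ : FractionalIdeal (𝓞 K)⁰ K) ≤ 1) (h₂ : (c₂ : FractionalIdeal (𝓞 K)⁰ K) ≤ 1)
    (n₁ : nrm K c₁ ≤ Y) (n₂ : nrm K c₂ ≤ Y) (α : Kˣ)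
    (hα : toPrincipalIdeal (𝓞 K) K α * c₂ = c₁) :
    ∃ (b : Kˣ) (d : (FractionalIdeal (𝓞 K)⁰ K)ˣ), (d : FractionalIdeal (𝓞 K)⁰ K) ≤ 1 ∧
      nrm K d ≤ D + 1 ∧ toPrincipalIdeal (𝓞 K) K b = c₁⁻¹ * d ∧
      ∀ w : InfinitePlace K, |Real.log (w (b : K)) + Real.log (w (α : K)) / 2| ≤ 2 * Real.log Y := by
  classical
  have hD1 : (1 : ℝ) ≤ (D : ℝ) + 1 := by
    have : (0 : ℝ) ≤ D := by positivity
    linarith
  have hD0 : (0 : ℝ) < (D : ℝ) + 1 := by linarith
  have hY1 : 1 ≤ Y := hD1.trans hY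
  have hY0 : 0 < Y := by linarith
  have p₁ := nrm_one_le K c₁ h₁
  have p₂ := nrm_one_le K c₂ h₂
  have hαw : ∀ w : InfinitePlace K, 0 < w (α : K) := fun w => InfinitePlace.pos_iff.mpr α.ne_zero
  -- the product of the absolute values of `α`
  have hprod : ∏ w : InfinitePlace K, w (α : K) ^ mult w = nrm K c₁ / nrm K c₂ := by
    rw [← nrm_principal, ← hα, nrm_mul, mul_div_assoc, div_self (by positivity), mul_one]
  set n : ℕ := finrank ℚ K with hn
  have hn0 : 0 < n := finrank_pos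
  have hsum : ∑ w : InfinitePlace K, mult w = n := sum_mult_eq
  -- the logarithm of the scaling factor
  set ℓ : ℝ := (Real.log (D + 1) - (Real.log (nrm K c₁) + Real.log (nrm K c₂)) / 2) / n with hℓ
  have hn' : (0 : ℝ) < n := by exact_mod_cast hn0
  have hn1 : (1 : ℝ) ≤ n := by exact_mod_cast hn0
  have hlogD : 0 ≤ Real.log (D + 1) := Real.log_nonneg hD1
  have hlogDY : Real.log (D + 1) ≤ Real.log Y := Real.log_le_log hD0 hY
  have hl1 : 0 ≤ Real.log (nrm K c₁) := Real.log_nonneg p₁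
  have hl2 : 0 ≤ Real.log (nrm K c₂) := Real.log_nonneg p₂
  have hl1' : Real.log (nrm K c₁) ≤ Real.log Y := Real.log_le_log (by linarith) n₁
  have hl2' : Real.log (nrm K c₂) ≤ Real.log Y := Real.log_le_log (by linarith) n₂
  have hℓn : ℓ * n = Real.log (D + 1) - (Real.log (nrm K c₁) + Real.log (nrm K c₂)) / 2 := by
    rw [hℓ]; field_simp
  have hℓabs : |ℓ| ≤ Real.log Y := by
    have h3 : |ℓ * n| ≤ Real.log Y := by
      rw [hℓn, abs_le]
      constructor <;> linarith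
    rw [abs_mul, abs_of_pos hn'] at h3
    calc |ℓ| = |ℓ| * 1 := (mul_one _).symm
      _ ≤ |ℓ| * n := by gcongr
      _ ≤ _ := h3
  set g : InfinitePlace K → ℝ := fun w => Real.exp (ℓ - Real.log (w (α : K)) / 2) with hg
  have hprodg : ∏ w, g w ^ mult w = nrm K c₁⁻¹ * (D + 1) := by
    have hpos : 0 < ∏ w, g w ^ mult w :=
      Finset.prod_pos fun w _ => pow_pos (Real.exp_pos _) _
    have hpos' : 0 < nrm K c₁⁻¹ * (D + 1) := mul_pos (nrm_pos K _) hD0
    apply Real.log_injOn_pos (Set.mem_Ioi.mpr hpos) (Set.mem_Ioi.mpr hpos')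
    rw [Real.log_prod (fun w _ => (pow_pos (Real.exp_pos _) _).ne')]
    have e1 : ∑ w : InfinitePlace K, Real.log (g w ^ mult w)
        = ℓ * n - (∑ w : InfinitePlace K, Real.log (w (α : K) ^ mult w)) / 2 := by
      rw [← hsum]
      push_cast
      rw [Finset.mul_sum, Finset.sum_div, ← Finset.sum_sub_distrib]
      refine Finset.sum_congr rfl fun w _ => ?_
      rw [Real.log_pow, Real.log_pow, hg]
      simp only [Real.log_exp]
      ring
    have e2 : ∑ w : InfinitePlace K, Real.log (w (α : K) ^ mult w)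
        = Real.log (nrm K c₁) - Real.log (nrm K c₂) := by
      rw [← Real.log_prod (fun w _ => (pow_pos (hαw w) _).ne'), hprod,
        Real.log_div (by positivity) (by positivity)]
    rw [e1, e2, hℓn, Real.log_mul (nrm_pos K _).ne' hD0.ne', nrm_inv, Real.log_inv]
    ring
  obtain ⟨b, d, hd, hb, hdn, hw⟩ := Gen_balanced K D hD c₁⁻¹ g (fun w => Real.exp_pos _) hprodg
  refine ⟨b, d, hd, hdn, hb, fun w => ?_⟩
  obtain ⟨hw1, hw2⟩ := hw w
  have hbw : 0 < w (b : K) := InfinitePlace.pos_iff.mpr b.ne_zero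
  have l1 : Real.log (w (b : K)) ≤ ℓ - Real.log (w (α : K)) / 2 := by
    have := Real.log_le_log hbw hw1
    rwa [hg, Real.log_exp] at this
  have l2 : ℓ - Real.log (w (α : K)) / 2 ≤ Real.log (D + 1) + Real.log (w (b : K)) := by
    have := Real.log_le_log (Real.exp_pos _) hw2
    rwa [Real.log_exp, Real.log_mul hD0.ne' hbw.ne'] at this
  obtain ⟨q1, q2⟩ := abs_le.mp hℓabs
  rw [abs_le]
  constructor <;> linarith

/-- The set of small algebraic integers of `K`, as units of `K`. -/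
def Small (B : ℕ) : Set Kˣ :=
  {a | IsIntegral ℤ (a : K) ∧ ∀ w : InfinitePlace K, w (a : K) ≤ B}

/-- The bound for the generators. -/
def genB (D Z : ℕ) : ℕ := 3 * ((D + 1) * Z) ^ 5

theorem Gen_base (Y : ℕ) (B : ℕ) (hB : 3 * Y ^ 5 ≤ B) (hY : 1 ≤ Y)
    (c₁ c₂ : (FractionalIdeal (𝓞 K)⁰ K)ˣ)
    (h₁ : (c₁ : FractionalIdeal (𝓞 K)⁰ K) ≤ 1) (h₂ : (c₂ : FractionalIdeal (𝓞 K)⁰ K) ≤ 1)
    (n₂ : nrm K c₂ ≤ Y) (α : Kˣ)
    (hα : toPrincipalIdeal (𝓞 K) K α * c₂ = c₁)
    (hlog : ∀ w : InfinitePlace K, |Real.log (w (α : K))| ≤ 4 * Real.log Y + 1) :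
    α ∈ Subgroup.closure (Small K B) := by
  obtain ⟨J, hJ, hn, h1⟩ := nrm_nat K c₂ h₂
  set N : ℕ := Ideal.absNorm J with hN
  have hNY : N ≤ Y := by
    rw [hn] at n₂
    exact_mod_cast n₂
  have hN0 : (N : K) ≠ 0 := by
    have : N ≠ 0 := by omega
    exact_mod_cast this
  have hY0 : (1 : ℝ) ≤ Y := by exact_mod_cast hY
  have hYB : (Y : ℝ) ≤ B := by
    have h2 : Y ≤ Y ^ 5 := Nat.le_self_pow (by norm_num) Y
    have h3 : Y ≤ B := by omega
    exact_mod_cast h3
  set u : Kˣ := Units.mk0 (N : K) hN0 with hu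
  have hu1 : u ∈ Small K B := by
    refine ⟨?_, fun w => ?_⟩
    · simp only [hu, Units.val_mk0]
      exact map_natCast (algebraMap ℤ K) N ▸ isIntegral_algebraMap
    · simp only [hu, Units.val_mk0]
      rw [InfinitePlace.map_natCast]
      have : (N : ℝ) ≤ Y := by exact_mod_cast hNY
      linarith
  have hu2 : α * u ∈ Small K B := by
    refine ⟨?_, fun w => ?_⟩
    · -- integrality
      have hNJ : ((N : 𝓞 K)) ∈ J := Ideal.absNorm_mem J
      have hle : (toPrincipalIdeal (𝓞 K) K u : FractionalIdeal (𝓞 K)⁰ K) ≤ c₂ := by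
        rw [coe_toPrincipalIdeal, FractionalIdeal.spanSingleton_le_iff_mem, ← hJ,
          FractionalIdeal.mem_coeIdeal]
        exact ⟨(N : 𝓞 K), hNJ, by simp only [hu, Units.val_mk0]; exact map_natCast _ N⟩
      have h3 : (toPrincipalIdeal (𝓞 K) K (α * u) : FractionalIdeal (𝓞 K)⁰ K) ≤ 1 := by
        rw [map_mul, Units.val_mul]
        calc (toPrincipalIdeal (𝓞 K) K α : FractionalIdeal (𝓞 K)⁰ K) *
              (toPrincipalIdeal (𝓞 K) K u : FractionalIdeal (𝓞 K)⁰ K)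
            ≤ (toPrincipalIdeal (𝓞 K) K α : FractionalIdeal (𝓞 K)⁰ K) *
              (c₂ : FractionalIdeal (𝓞 K)⁰ K) := by gcongr
          _ = (c₁ : FractionalIdeal (𝓞 K)⁰ K) := by rw [← Units.val_mul, hα]
          _ ≤ 1 := h₁
      rw [coe_toPrincipalIdeal, FractionalIdeal.spanSingleton_le_iff_mem,
        FractionalIdeal.mem_one_iff] at h3
      obtain ⟨x, hx⟩ := h3
      rw [← hx]
      exact RingOfIntegers.isIntegral_coe x
    · rw [Units.val_mul, map_mul]
      have hαw : 0 < w (α : K) := InfinitePlace.pos_iff.mpr α.ne_zero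
      have e1 : w (α : K) ≤ Real.exp 1 * Y ^ 4 := by
        have h4 := (abs_le.mp (hlog w)).2
        have h5 : w (α : K) = Real.exp (Real.log (w (α : K))) := (Real.exp_log hαw).symm
        rw [h5]
        refine (Real.exp_le_exp.mpr h4).trans ?_
        rw [Real.exp_add, mul_comm]
        have h6 : Real.exp (4 * Real.log Y) = Y ^ 4 := by
          rw [show (4 : ℝ) = ((4 : ℕ) : ℝ) by norm_num, ← Real.log_pow, Real.exp_log]
          positivity
        rw [h6]
      have e2 : w ((u : Kˣ) : K) ≤ Y := by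
        simp only [hu, Units.val_mk0]
        rw [InfinitePlace.map_natCast]
        exact_mod_cast hNY
      have e3 : Real.exp 1 ≤ 3 := by
        have := Real.exp_one_lt_d9
        linarith
      calc w (α : K) * w ((u : Kˣ) : K) ≤ (Real.exp 1 * Y ^ 4) * Y := by gcongr
        _ ≤ (3 * Y ^ 4) * Y := by gcongr
        _ = ((3 * Y ^ 5 : ℕ) : ℝ) := by push_cast; ring
        _ ≤ B := by exact_mod_cast hB
  have : α = (α * u) * u⁻¹ := by group
  rw [this]
  exact mul_mem (Subgroup.subset_closure hu2) (inv_mem (Subgroup.subset_closure hu1))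

/-- Elements which are quotients of small integral ideals are generated by small elements. -/
theorem Gen_claimA (D : ℕ) (hD : (discr K).natAbs ≤ D) (Y : ℕ) (hY : D + 1 ≤ Y) (B : ℕ)
    (hB : 3 * Y ^ 5 ≤ B) (n : ℕ) : ∀ (c₁ c₂ : (FractionalIdeal (𝓞 K)⁰ K)ˣ)
    (_ : (c₁ : FractionalIdeal (𝓞 K)⁰ K) ≤ 1) (_ : (c₂ : FractionalIdeal (𝓞 K)⁰ K) ≤ 1)
    (_ : nrm K c₁ ≤ Y) (_ : nrm K c₂ ≤ Y) (α : Kˣ)
    (_ : toPrincipalIdeal (𝓞 K) K α * c₂ = c₁)
    (_ : ∀ w : InfinitePlace K, |Real.log (w (α : K))| ≤ 4 * Real.log Y + 1 + n / 2),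
    α ∈ Subgroup.closure (Small K B) := by
  induction n with
  | zero =>
    intro c₁ c₂ h₁ h₂ _ n₂ α hα hlog
    refine Gen_base K Y B hB (by omega) c₁ c₂ h₁ h₂ n₂ α hα fun w => ?_
    have := hlog w
    simpa using this
  | succ n ih =>
    intro c₁ c₂ h₁ h₂ n₁ n₂ α hα hlog
    have hYr : ((D : ℝ) + 1) ≤ (Y : ℝ) := by exact_mod_cast hY
    obtain ⟨b, d, hd, hdn, hb, hw⟩ := Gen_half K D hD Y hYr c₁ c₂ h₁ h₂ n₁ n₂ α hα
    have hbw : ∀ w : InfinitePlace K, 0 < w (b : K) := fun w => InfinitePlace.pos_iff.mpr b.ne_zero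
    have hαw : ∀ w : InfinitePlace K, 0 < w (α : K) := fun w => InfinitePlace.pos_iff.mpr α.ne_zero
    have hY0 : 0 ≤ Real.log Y := Real.log_nonneg (by
      have : 1 ≤ Y := by omega
      exact_mod_cast this)
    have m1 : b⁻¹ ∈ Subgroup.closure (Small K B) := by
      refine ih c₁ d h₁ hd n₁ (hdn.trans hYr) b⁻¹ ?_ fun w => ?_
      · rw [map_inv, hb]
        exact Gen_cg1 _ _
      · rw [Units.val_inv_eq_inv_val, map_inv₀, Real.log_inv, abs_neg]
        have h1 := abs_le.mp (hw w)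
        have h2 := abs_le.mp (hlog w)
        push_cast at h2
        have hn : (0 : ℝ) ≤ n := by positivity
        rw [abs_le]
        constructor <;> linarith [h1.1, h1.2, h2.1, h2.2]
    have m2 : α * b ∈ Subgroup.closure (Small K B) := by
      refine ih d c₂ hd h₂ (hdn.trans hYr) n₂ (α * b) ?_ fun w => ?_
      · rw [map_mul, hb, ← hα]
        exact Gen_cg2 _ _ _
      · rw [Units.val_mul, map_mul, Real.log_mul (hαw w).ne' (hbw w).ne']
        have h1 := abs_le.mp (hw w)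
        have h2 := abs_le.mp (hlog w)
        push_cast at h2
        have hn : (0 : ℝ) ≤ n := by positivity
        rw [abs_le]
        constructor <;> linarith [h1.1, h1.2, h2.1, h2.2]
    have : α = (α * b) * b⁻¹ := by group
    rw [this]
    exact mul_mem m2 m1

theorem Gen_claimA' (D : ℕ) (hD : (discr K).natAbs ≤ D) (Y : ℕ) (hY : D + 1 ≤ Y) (B : ℕ)
    (hB : 3 * Y ^ 5 ≤ B) (c₁ c₂ : (FractionalIdeal (𝓞 K)⁰ K)ˣ)
    (h₁ : (c₁ : FractionalIdeal (𝓞 K)⁰ K) ≤ 1) (h₂ : (c₂ : FractionalIdeal (𝓞 K)⁰ K) ≤ 1)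
    (n₁ : nrm K c₁ ≤ Y) (n₂ : nrm K c₂ ≤ Y) (α : Kˣ)
    (hα : toPrincipalIdeal (𝓞 K) K α * c₂ = c₁) :
    α ∈ Subgroup.closure (Small K B) := by
  classical
  obtain ⟨n, hn⟩ : ∃ n : ℕ, ∀ w : InfinitePlace K, |Real.log (w (α : K))| ≤ n := by
    obtain ⟨n, hn⟩ := exists_nat_ge (∑ w : InfinitePlace K, |Real.log (w (α : K))|)
    refine ⟨n, fun w => le_trans ?_ hn⟩
    exact Finset.single_le_sum (f := fun w : InfinitePlace K => |Real.log (w (α : K))|)
      (fun v _ => abs_nonneg _) (Finset.mem_univ w)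
  have hY0 : 0 ≤ Real.log Y := Real.log_nonneg (by
    have : 1 ≤ Y := by omega
    exact_mod_cast this)
  refine Gen_claimA K D hD Y hY B hB (2 * n) c₁ c₂ h₁ h₂ n₁ n₂ α hα fun w => ?_
  have := hn w
  push_cast
  linarith

/-- General form: an element whose principal ideal is in the group generated by the integral ideals
of norm `≤ Z` is in the group generated by the small integers. -/
theorem gen_of_closure (D Z : ℕ) (hD : (discr K).natAbs ≤ D) (hZ : 1 ≤ Z) (α : Kˣ)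
    (hα : toPrincipalIdeal (𝓞 K) K α ∈ Subgroup.closure
      {c : (FractionalIdeal (𝓞 K)⁰ K)ˣ | (c : FractionalIdeal (𝓞 K)⁰ K) ≤ 1 ∧ nrm K c ≤ Z}) :
    α ∈ Subgroup.closure (Small K (genB D Z)) := by
  classical
  set Y : ℕ := (D + 1) * Z with hYdef
  have hYD : D + 1 ≤ Y := Nat.le_mul_of_pos_right _ hZ
  have hYDr : ((D : ℝ) + 1) ≤ (Y : ℝ) := by exact_mod_cast hYD
  have hYr : (Y : ℝ) = ((D : ℝ) + 1) * Z := by rw [hYdef]; push_cast; ring
  have hB : 3 * Y ^ 5 ≤ genB D Z := le_refl _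
  have hD0 : (0 : ℝ) < (D : ℝ) + 1 := by positivity
  have hZr : (1 : ℝ) ≤ Z := by exact_mod_cast hZ
  -- the predicate
  have key : ∀ J ∈ Subgroup.closure
      {c : (FractionalIdeal (𝓞 K)⁰ K)ˣ | (c : FractionalIdeal (𝓞 K)⁰ K) ≤ 1 ∧ nrm K c ≤ Z},
      ∀ (γ : Kˣ) (d : (FractionalIdeal (𝓞 K)⁰ K)ˣ), (d : FractionalIdeal (𝓞 K)⁰ K) ≤ 1 →
      nrm K d ≤ D + 1 → toPrincipalIdeal (𝓞 K) K γ * d = J →
      γ ∈ Subgroup.closure (Small K (genB D Z)) := by
    intro J hJ
    have step : ∀ J : (FractionalIdeal (𝓞 K)⁰ K)ˣ,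
        ∃ (b : Kˣ) (d' : (FractionalIdeal (𝓞 K)⁰ K)ˣ),
        (d' : FractionalIdeal (𝓞 K)⁰ K) ≤ 1 ∧ nrm K d' ≤ D + 1 ∧
        toPrincipalIdeal (𝓞 K) K b = J⁻¹ * d' := by
      intro J
      set n : ℕ := finrank ℚ K with hn
      have hn0 : n ≠ 0 := (finrank_pos : 0 < finrank ℚ K).ne'
      have hpos : 0 < nrm K J⁻¹ * ((D : ℝ) + 1) := mul_pos (nrm_pos K _) hD0
      obtain ⟨b, d', h1, h2, h3, _⟩ := Gen_balanced K D hD J⁻¹
        (fun _ => (nrm K J⁻¹ * ((D : ℝ) + 1)) ^ ((n : ℝ)⁻¹)) (fun w => Real.rpow_pos_of_pos hpos _)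
        (by
          rw [Finset.prod_pow_eq_pow_sum, sum_mult_eq, ← hn, Real.rpow_inv_natCast_pow hpos.le hn0])
      exact ⟨b, d', h1, h3, h2⟩
    induction hJ using Subgroup.closure_induction_right with
    | one =>
      intro γ d hd hdn hγ
      exact Gen_claimA' K D hD Y hYD (genB D Z) hB 1 d (by simp) hd
        (by rw [nrm_one]; linarith) (hdn.trans hYDr) γ hγ
    | mul_right J hJ q hq ih =>
      intro γ d hd hdn hγ
      obtain ⟨b, d', hd', hdn', hb⟩ := step J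
      have m1 : b⁻¹ ∈ Subgroup.closure (Small K (genB D Z)) := by
        refine ih b⁻¹ d' hd' hdn' ?_
        rw [map_inv, hb]
        exact Gen_cg1 _ _
      have m2 : γ * b ∈ Subgroup.closure (Small K (genB D Z)) := by
        refine Gen_claimA' K D hD Y hYD (genB D Z) hB (q * d') d ?_ hd ?_ (hdn.trans hYDr) (γ * b) ?_
        · rw [Units.val_mul]
          exact mul_le_one' hq.1 hd'
        · rw [nrm_mul, hYr, mul_comm]
          exact mul_le_mul hdn' hq.2 (nrm_pos K _).le hD0.le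
        · have e : toPrincipalIdeal (𝓞 K) K γ = J * q * d⁻¹ := by rw [← hγ]; group
          rw [map_mul, hb, e]
          have : J * q * d⁻¹ * (J⁻¹ * d') * d = (J * J⁻¹) * (d⁻¹ * d) * (q * d') := by
            simp only [mul_assoc, mul_comm, mul_left_comm]
          rw [this]
          group
      have : γ = (γ * b) * b⁻¹ := by group
      rw [this]
      exact mul_mem m2 m1
    | mul_inv_cancel J hJ q hq ih =>
      intro γ d hd hdn hγ
      obtain ⟨b, d', hd', hdn', hb⟩ := step J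
      have m1 : b⁻¹ ∈ Subgroup.closure (Small K (genB D Z)) := by
        refine ih b⁻¹ d' hd' hdn' ?_
        rw [map_inv, hb]
        exact Gen_cg1 _ _
      have m2 : γ * b ∈ Subgroup.closure (Small K (genB D Z)) := by
        refine Gen_claimA' K D hD Y hYD (genB D Z) hB d' (q * d) hd' ?_ (hdn'.trans hYDr) ?_
          (γ * b) ?_
        · rw [Units.val_mul]
          exact mul_le_one' hq.1 hd
        · rw [nrm_mul, hYr, mul_comm]
          exact mul_le_mul hdn hq.2 (nrm_pos K _).le hD0.le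
        · have e : toPrincipalIdeal (𝓞 K) K γ = J * q⁻¹ * d⁻¹ := by rw [← hγ]; group
          rw [map_mul, hb, e]
          have : J * q⁻¹ * d⁻¹ * (J⁻¹ * d') * (q * d)
              = (J * J⁻¹) * (d⁻¹ * d) * (q⁻¹ * q) * d' := by
            simp only [mul_assoc, mul_comm, mul_left_comm]
          rw [this]
          group
      have : γ = (γ * b) * b⁻¹ := by group
      rw [this]
      exact mul_mem m2 m1
  refine key _ hα α 1 (by simp) (by rw [nrm_one]; linarith) (by rw [mul_one])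

end Gen

end Pool.Agent.Rnr
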