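import Pool.Agent.Rnr.Gen1

/-!
# Rnr: small elements generate, client forms
-/

namespace Pool.Agent.Rnr

open NumberField NumberField.InfinitePlace Module nonZeroDivisors IsDedekindDomain

section Gen

variable (K : Type*) [Field K] [NumberField K]

/-- An invertible ideal all of whose prime ideals have norm `≤ Z` is in the group generated by the
integral ideals of norm `≤ Z`. -/
theorem Gen_mem_closure (Z : ℕ) (I : (FractionalIdeal (𝓞 K)⁰ K)ˣ)
    (hI : ∀ v : HeightOneSpectrum (𝓞 K),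
      FractionalIdeal.count K v (I : FractionalIdeal (𝓞 K)⁰ K) ≠ 0 →
      Ideal.absNorm v.asIdeal ≤ Z) :
    I ∈ Subgroup.closure
      {c : (FractionalIdeal (𝓞 K)⁰ K)ˣ | (c : FractionalIdeal (𝓞 K)⁰ K) ≤ 1 ∧ nrm K c ≤ Z} := by
  classical
  have hfin : {v : HeightOneSpectrum (𝓞 K) |
      FractionalIdeal.count K v (I : FractionalIdeal (𝓞 K)⁰ K) ≠ 0}.Finite := by
    have := FractionalIdeal.finite_factors (I : FractionalIdeal (𝓞 K)⁰ K)
    rwa [Filter.eventually_cofinite] at this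
  have hv0 : ∀ v : HeightOneSpectrum (𝓞 K), (v.asIdeal : FractionalIdeal (𝓞 K)⁰ K) ≠ 0 := fun v =>
    FractionalIdeal.coeIdeal_ne_zero.mpr v.ne_bot
  let u : HeightOneSpectrum (𝓞 K) → (FractionalIdeal (𝓞 K)⁰ K)ˣ := fun v => Units.mk0 _ (hv0 v)
  have h1 : I = ∏ v ∈ hfin.toFinset,
      u v ^ FractionalIdeal.count K v (I : FractionalIdeal (𝓞 K)⁰ K) := by
    apply Units.ext
    rw [Units.coe_prod]
    conv_lhs => rw [← FractionalIdeal.finprod_heightOneSpectrum_factorization' K I.ne_zero]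
    rw [finprod_eq_finsetProd_of_mulSupport_subset (s := hfin.toFinset)]
    · refine Finset.prod_congr rfl fun v _ => ?_
      rw [Units.val_zpow_eq_zpow_val]
      rfl
    · intro v hv
      rw [Set.Finite.coe_toFinset]
      intro h
      rw [Function.mem_mulSupport, h, zpow_zero] at hv
      exact hv rfl
  rw [h1]
  refine Subgroup.prod_mem _ fun v hv => Subgroup.zpow_mem _ (Subgroup.subset_closure ?_) _
  constructor
  · exact FractionalIdeal.coeIdeal_le_one
  · have h2 := hI v (by simpa using hv)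
    have h3 : nrm K (u v) = (Ideal.absNorm v.asIdeal : ℝ) := by
      rw [nrm]
      simp only [u, Units.val_mk0]
      rw [FractionalIdeal.coeIdeal_absNorm]
      simp
    rw [h3]
    exact_mod_cast h2

/-- **Small elements generate.**  If all prime ideals of `α` have norm `≤ Z` then `α` is in the
multiplicative group generated by the small algebraic integers. -/
theorem gen (D Z : ℕ) (hD : (discr K).natAbs ≤ D) (hZ : 1 ≤ Z) (α : Kˣ)
    (hα : ∀ v : HeightOneSpectrum (𝓞 K),
      FractionalIdeal.count K v (FractionalIdeal.spanSingleton (𝓞 K)⁰ (α : K)) ≠ 0 →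
      Ideal.absNorm v.asIdeal ≤ Z) :
    α ∈ Subgroup.closure (Small K (genB D Z)) := by
  refine gen_of_closure K D Z hD hZ α (Gen_mem_closure K Z _ ?_)
  intro v hv
  rw [coe_toPrincipalIdeal] at hv
  exact hα v hv

/-- Version for algebraic integers: every prime ideal containing `a` has norm `≤ Z`. -/
theorem gen_int (D Z : ℕ) (hD : (discr K).natAbs ≤ D) (hZ : 1 ≤ Z) (α : Kˣ) (a : 𝓞 K)
    (ha : (α : K) = (a : K))
    (hα : ∀ P : Ideal (𝓞 K), P.IsPrime → a ∈ P → Ideal.absNorm P ≤ Z) :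
    α ∈ Subgroup.closure (Small K (genB D Z)) := by
  refine gen K D Z hD hZ α fun v hv => hα v.asIdeal v.isPrime ?_
  by_contra hav
  apply hv
  rw [ha, ← FractionalIdeal.coeIdeal_span_singleton]
  have ha0 : a ≠ 0 := by
    rintro rfl
    apply α.ne_zero
    rw [ha]
    simp
  have hs : Ideal.span {a} ≠ 0 := by
    rwa [Ne, Submodule.zero_eq_bot, Ideal.span_singleton_eq_bot]
  classical
  rw [FractionalIdeal.count_coe K v hs]
  have h1 : ¬ v.asIdeal ∣ Ideal.span {a} := by
    rw [Ideal.dvd_span_singleton]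
    exact hav
  have h2 := (Associates.count_ne_zero_iff_dvd hs v.irreducible).not.mpr h1
  rw [not_not] at h2
  rw [h2]
  rfl

/-- Version for algebraic integers whose absolute norm has only prime factors `≤ Z`:
every prime ideal containing `a` contains a rational prime `q ≤ Z` and has norm `≤ Z ^ n`. -/
theorem gen_smooth (D Z : ℕ) (hD : (discr K).natAbs ≤ D) (hZ : 1 ≤ Z) (α : Kˣ) (a : 𝓞 K)
    (ha : (α : K) = (a : K))
    (hα : ∀ q : ℕ, q.Prime → q ∣ (Algebra.norm ℤ a).natAbs → q ≤ Z) :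
    α ∈ Subgroup.closure (Small K (genB D (Z ^ finrank ℚ K))) := by
  refine gen_int K D _ hD (Nat.one_le_pow _ _ hZ) α a ha fun P hP haP => ?_
  have ha0 : a ≠ 0 := by
    rintro rfl
    apply α.ne_zero
    rw [ha]
    simp
  have hP0 : P ≠ ⊥ := by
    rintro rfl
    exact ha0 (by simpa using haP)
  -- the rational prime under `P`
  have hmax : P.IsMaximal := hP.isMaximal hP0
  have hPn : Ideal.absNorm P ≠ 0 := by
    rw [Ne, Ideal.absNorm_eq_zero_iff]
    exact hP0
  have : NeZero P := ⟨hP0⟩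
  set q : ℕ := Ideal.absNorm (P.under ℤ) with hq
  have hqp : q.Prime := Nat.absNorm_under_prime P
  have hqP : ((q : ℤ) : 𝓞 K) ∈ P := by
    have := Int.absNorm_under_mem P
    simpa using this
  have h1 : Ideal.absNorm P ∣ q ^ finrank ℚ K := by
    have h2 : Ideal.absNorm P ∣ Ideal.absNorm (Ideal.span {((q : ℤ) : 𝓞 K)}) :=
      Ideal.absNorm_dvd_absNorm_of_le (by rwa [Ideal.span_singleton_le_iff_mem])
    have h3 : Ideal.absNorm (Ideal.span {((q : ℤ) : 𝓞 K)}) = q ^ finrank ℚ K := by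
      rw [Ideal.absNorm_span_singleton]
      have : ((q : ℤ) : 𝓞 K) = algebraMap ℤ (𝓞 K) (q : ℤ) := by simp
      rw [this, Algebra.norm_algebraMap, RingOfIntegers.rank]
      simp [Int.natAbs_pow]
    rwa [h3] at h2
  have h4 : Ideal.absNorm P ≤ q ^ finrank ℚ K := Nat.le_of_dvd (pow_pos hqp.pos _) h1
  refine h4.trans (Nat.pow_le_pow_left ?_ _)
  apply hα q hqp
  have h5 : q ∣ Ideal.absNorm P := Int.absNorm_under_dvd_absNorm P
  have h6 : Ideal.absNorm P ∣ Ideal.absNorm (Ideal.span {a}) :=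
    Ideal.absNorm_dvd_absNorm_of_le (by rwa [Ideal.span_singleton_le_iff_mem])
  rw [Ideal.absNorm_span_singleton] at h6
  exact h5.trans h6

/-- A homomorphism which kills the small elements kills everything supported on small primes. -/
theorem gen_hom {G : Type*} [Group G] (f : Kˣ →* G) (D Z : ℕ) (hD : (discr K).natAbs ≤ D)
    (hZ : 1 ≤ Z) (hf : ∀ a ∈ Small K (genB D Z), f a = 1) (α : Kˣ)
    (hα : ∀ v : HeightOneSpectrum (𝓞 K),
      FractionalIdeal.count K v (FractionalIdeal.spanSingleton (𝓞 K)⁰ (α : K)) ≠ 0 →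
      Ideal.absNorm v.asIdeal ≤ Z) : f α = 1 := by
  have h := gen K D Z hD hZ α hα
  have h2 : Subgroup.closure (Small K (genB D Z)) ≤ f.ker := by
    rw [Subgroup.closure_le]
    exact fun a ha => hf a ha
  exact h2 h

/-- Every invertible ideal `I` contains a small element with a small cofactor; all absolute values
are within `(D + 1)` of the mean. -/
theorem exists_cofactor (D : ℕ) (hD : (discr K).natAbs ≤ D) (I : (FractionalIdeal (𝓞 K)⁰ K)ˣ) :
    ∃ (a : Kˣ) (c : (FractionalIdeal (𝓞 K)⁰ K)ˣ), (c : FractionalIdeal (𝓞 K)⁰ K) ≤ 1 ∧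
      toPrincipalIdeal (𝓞 K) K a = I * c ∧ nrm K c ≤ D + 1 ∧
      ∀ w : InfinitePlace K, w (a : K) ≤ (nrm K I * (D + 1)) ^ ((finrank ℚ K : ℝ)⁻¹) ∧
        (nrm K I * (D + 1)) ^ ((finrank ℚ K : ℝ)⁻¹) ≤ (D + 1) * w (a : K) := by
  have hn0 : finrank ℚ K ≠ 0 := (finrank_pos : 0 < finrank ℚ K).ne'
  have hD0 : (0 : ℝ) < (D : ℝ) + 1 := by positivity
  have hpos : 0 < nrm K I * ((D : ℝ) + 1) := mul_pos (nrm_pos K _) hD0
  exact Gen_balanced K D hD I
    (fun _ => (nrm K I * ((D : ℝ) + 1)) ^ ((finrank ℚ K : ℝ)⁻¹))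
    (fun w => Real.rpow_pos_of_pos hpos _)
    (by rw [Finset.prod_pow_eq_pow_sum, sum_mult_eq, Real.rpow_inv_natCast_pow hpos.le hn0])

/-- the absolute norm of an element whose absolute values are `≤ B` is `≤ B ^ n` -/
theorem norm_le_of_le (B : ℝ) (a : K) (ha : ∀ w : InfinitePlace K, w a ≤ B) :
    ((|Algebra.norm ℚ a| : ℚ) : ℝ) ≤ B ^ finrank ℚ K := by
  rw [← prod_eq_abs_norm, ← sum_mult_eq (K := K), ← Finset.prod_pow_eq_pow_sum]
  exact Finset.prod_le_prod (fun w _ => pow_nonneg (apply_nonneg _ _) _)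
    fun w _ => pow_le_pow_left₀ (apply_nonneg _ _) (ha w) _

end Gen

end Pool.Agent.Rnr
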