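import Mathlib

/-!
# Rnr: the minimal polynomial of a small generator, in a cyclic field of prime degree

A small algebraic integer `a` of a cyclic field `F` of prime degree `r` and a ring homomorphism
`φ : 𝓞 F → ZMod p` give a small monic polynomial `f`, a small polynomial `S` and a small integer `D`
such that the elements `φ (σ ^ i a)` are distinct roots of `f` mod `p`, permuted by `S / D`.
-/

namespace Pool.Agent.Rnr

open NumberField NumberField.InfinitePlace Module

section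

variable {F : Type*} [Field F] [NumberField F] {r : ℕ} (hr : r.Prime) (hfin : finrank ℚ F = r)
  (σ : F ≃ₐ[ℚ] F) (hσ : σ ^ r = 1) (hσ1 : σ ≠ 1)

include hr hfin in
theorem MP_top (x : F) (hx : x ∉ (⊥ : IntermediateField ℚ F)) :
    IntermediateField.adjoin ℚ {x} = ⊤ := by
  have h1 : finrank ℚ (IntermediateField.adjoin ℚ {x}) ∣ r := by
    rw [← hfin, ← Module.finrank_mul_finrank ℚ (IntermediateField.adjoin ℚ {x}) F]
    exact Dvd.intro _ rfl
  rcases (Nat.dvd_prime hr).mp h1 with h2 | h2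
  · exact absurd (IntermediateField.finrank_adjoin_simple_eq_one_iff.mp h2) hx
  · apply IntermediateField.eq_of_le_of_finrank_eq le_top
    rw [h2, IntermediateField.finrank_top', hfin]

include hr hfin hσ1 in
theorem MP_fix_rat (x : F) (hx : σ x = x) : x ∈ (⊥ : IntermediateField ℚ F) := by
  by_contra hc
  have h1 := MP_top hr hfin x hc
  apply hσ1
  have h2 : (⊤ : IntermediateField ℚ F) ≤ IntermediateField.fixedField (Subgroup.zpowers σ) := by
    rw [← h1, IntermediateField.adjoin_simple_le_iff, IntermediateField.mem_fixedField_iff]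
    intro g hg
    have h3 : Subgroup.zpowers σ ≤ MulAction.stabilizer (F ≃ₐ[ℚ] F) x := by
      rw [Subgroup.zpowers_le]
      exact hx
    exact h3 hg
  ext y
  have h4 := h2 (IntermediateField.mem_top (x := y))
  rw [IntermediateField.mem_fixedField_iff] at h4
  exact h4 σ (Subgroup.mem_zpowers σ)

theorem MP_coe_smul (σ : F ≃ₐ[ℚ] F) (x : 𝓞 F) : ((σ • x : 𝓞 F) : F) = σ (x : F) := rfl

include hr hfin hσ1 in
theorem MP_fix_int (x : 𝓞 F) (hx : σ • x = x) : ∃ n : ℤ, (n : 𝓞 F) = x := by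
  have h1 : σ (x : F) = x := by
    rw [← MP_coe_smul, hx]
  obtain ⟨q, hq⟩ := IntermediateField.mem_bot.mp (MP_fix_rat hr hfin σ hσ1 x h1)
  have h2 : IsIntegral ℤ q := by
    have h2 : IsIntegral ℤ (x : F) := RingOfIntegers.isIntegral_coe x
    have h3 : IsIntegral ℤ (algebraMap ℚ F q) := by rw [hq]; exact h2
    exact (isIntegral_algebraMap_iff (algebraMap ℚ F).injective).mp h3
  obtain ⟨n, hn⟩ := IsIntegrallyClosed.algebraMap_eq_of_integral h2
  refine ⟨n, RingOfIntegers.ext ?_⟩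
  rw [← hq, ← hn]
  simp

/-- the conjugates of `a` -/
def conj (σ : F ≃ₐ[ℚ] F) (a : 𝓞 F) (i : ℕ) : 𝓞 F := (σ ^ i) • a

include hσ in
theorem conj_mod (a : 𝓞 F) (i : ℕ) : conj σ a (i % r) = conj σ a i := by
  unfold conj
  rw [← pow_eq_pow_mod i hσ]

theorem smul_conj (a : 𝓞 F) (i : ℕ) : σ • conj σ a i = conj σ a (i + 1) := by
  unfold conj
  rw [smul_smul, ← pow_succ']

include hr hσ in
theorem conj_inj (a : 𝓞 F) (ha : σ • a ≠ a) (i j : ℕ) (hi : i < r) (hj : j < r)
    (h : conj σ a i = conj σ a j) : i = j := by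
  wlog hij : i ≤ j generalizing i j
  · exact (this j i hj hi h.symm (by omega)).symm
  by_contra hne
  obtain ⟨d, rfl⟩ := Nat.exists_eq_add_of_le hij
  have hd : 0 < d := by omega
  have hdr : d < r := by omega
  have h1 : (σ ^ d) • a = a := by
    unfold conj at h
    rw [pow_add, mul_smul, smul_left_cancel_iff] at h
    exact h.symm
  apply ha
  have hcop : Nat.Coprime d r := by
    rw [Nat.coprime_comm]
    exact hr.coprime_iff_not_dvd.mpr fun hdvd => absurd (Nat.le_of_dvd hd hdvd) (by omega)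
  -- `σ` is a power of `σ ^ d`
  have h2 : ∀ n : ℕ, (σ ^ (d * n)) • a = a := by
    intro n
    induction n with
    | zero => simp
    | succ n ih => rw [Nat.mul_succ, pow_add, mul_smul, h1, ih]
  obtain ⟨m, hm⟩ := Nat.exists_mul_mod_eq_one_of_coprime hcop hr.one_lt
  have h3 := h2 m
  rw [pow_eq_pow_mod _ hσ, hm.2, pow_one] at h3
  exact h3

/-- the rotation of `Fin r` -/
theorem exists_rot (r : ℕ) (hr0 : 0 < r) :
    ∃ π : Equiv.Perm (Fin r), ∀ i : Fin r, ((π i : Fin r) : ℕ) = (i + 1) % r := by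
  let g : Fin r → Fin r := fun i => ⟨(i + 1) % r, Nat.mod_lt _ hr0⟩
  have hg : Function.Injective g := by
    intro i j hij
    have h1 : ((i : ℕ) + 1) % r = ((j : ℕ) + 1) % r := congrArg Fin.val hij
    have h2 : (i : ℕ) ≡ (j : ℕ) [MOD r] := Nat.ModEq.add_right_cancel' 1 h1
    have h3 : (i : ℕ) % r = (j : ℕ) % r := h2
    rw [Nat.mod_eq_of_lt i.2, Nat.mod_eq_of_lt j.2] at h3
    exact Fin.ext h3
  exact ⟨Equiv.ofBijective g (Finite.injective_iff_bijective.mp hg), fun i => rfl⟩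

/-- the Vandermonde matrix of the conjugates -/
noncomputable def VM (σ : F ≃ₐ[ℚ] F) (a : 𝓞 F) (r : ℕ) : Matrix (Fin r) (Fin r) (𝓞 F) :=
  Matrix.vandermonde fun i => conj σ a i

/-- the Vandermonde matrix with the column `k` replaced by the shifted conjugates -/
noncomputable def WM (σ : F ≃ₐ[ℚ] F) (a : 𝓞 F) (r : ℕ) (k : Fin r) :
    Matrix (Fin r) (Fin r) (𝓞 F) :=
  (VM σ a r).updateCol k fun i => conj σ a (i + 1)

include hσ in
theorem smul_det_VM (a : 𝓞 F) (π : Equiv.Perm (Fin r))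
    (hπ : ∀ i : Fin r, ((π i : Fin r) : ℕ) = (i + 1) % r) :
    σ • (VM σ a r).det = (Equiv.Perm.sign π : 𝓞 F) * (VM σ a r).det := by
  rw [← Matrix.det_permute]
  have h1 : σ • (VM σ a r).det =
      MulSemiringAction.toRingHom (F ≃ₐ[ℚ] F) (𝓞 F) σ (VM σ a r).det := rfl
  rw [h1, RingHom.map_det]
  congr 1
  ext i k
  have h2 : MulSemiringAction.toRingHom (F ≃ₐ[ℚ] F) (𝓞 F) σ (conj σ a i) = conj σ a (i + 1) :=
    smul_conj σ a i
  simp only [RingHom.mapMatrix_apply, Matrix.map_apply, VM, Matrix.vandermonde_apply,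
    Matrix.submatrix_apply, map_pow, h2, hπ, id, conj_mod σ hσ]

include hσ in
theorem smul_det_WM (a : 𝓞 F) (k : Fin r) (π : Equiv.Perm (Fin r))
    (hπ : ∀ i : Fin r, ((π i : Fin r) : ℕ) = (i + 1) % r) :
    σ • (WM σ a r k).det = (Equiv.Perm.sign π : 𝓞 F) * (WM σ a r k).det := by
  rw [← Matrix.det_permute]
  have h1 : σ • (WM σ a r k).det =
      MulSemiringAction.toRingHom (F ≃ₐ[ℚ] F) (𝓞 F) σ (WM σ a r k).det := rfl
  rw [h1, RingHom.map_det]
  congr 1
  ext i l
  have h2 : ∀ i : ℕ, MulSemiringAction.toRingHom (F ≃ₐ[ℚ] F) (𝓞 F) σ (conj σ a i)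
      = conj σ a (i + 1) := smul_conj σ a
  by_cases hl : l = k
  · subst hl
    simp only [RingHom.mapMatrix_apply, Matrix.map_apply, WM, Matrix.updateCol_self,
      Matrix.submatrix_apply, h2, hπ, id]
    rw [← conj_mod σ hσ a (((i : ℕ) + 1) % r + 1), Nat.mod_add_mod, conj_mod σ hσ]
  · simp only [RingHom.mapMatrix_apply, Matrix.map_apply, WM, Matrix.updateCol_ne hl, VM,
      Matrix.vandermonde_apply, Matrix.submatrix_apply, map_pow, h2, hπ, id, conj_mod σ hσ]

/-- size bound -/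
def minB (r B : ℕ) : ℕ := (r.factorial * B ^ (r * r)) ^ 2

theorem w_smul (a : 𝓞 F) (B : ℝ) (hB : ∀ w : InfinitePlace F, w (a : F) ≤ B)
    (w : InfinitePlace F) (i : ℕ) : w ((conj σ a i : 𝓞 F) : F) ≤ B := by
  have h1 : ((conj σ a i : 𝓞 F) : F) = (σ ^ i) (a : F) := rfl
  rw [h1]
  have h2 : w ((σ ^ i) (a : F)) = (w.comap ((σ ^ i : F ≃ₐ[ℚ] F) : F →+* F)) (a : F) := rfl
  rw [h2]
  exact hB _

omit [NumberField F] in
theorem MP_coe_pow (x : 𝓞 F) (n : ℕ) : ((x ^ n : 𝓞 F) : F) = (x : F) ^ n := map_pow _ _ _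

omit [NumberField F] in
theorem MP_coe_mul (x y : 𝓞 F) : ((x * y : 𝓞 F) : F) = (x : F) * (y : F) := map_mul _ _ _

omit [NumberField F] in
theorem w_det (M : Matrix (Fin r) (Fin r) (𝓞 F)) (B : ℝ) (w : InfinitePlace F)
    (hM : ∀ i j, w ((M i j : 𝓞 F) : F) ≤ B) :
    w ((M.det : 𝓞 F) : F) ≤ r.factorial * B ^ r := by
  have h1 : ((M.det : 𝓞 F) : F) = ((algebraMap (𝓞 F) F).mapMatrix M).det := by
    rw [← RingHom.map_det]
  rw [h1]
  have h2 := Matrix.det_le (A := (algebraMap (𝓞 F) F).mapMatrix M) (abv := w.1) (x := B)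
    (fun i j => by
      have := hM i j
      exact this)
  rw [Fintype.card_fin, nsmul_eq_mul] at h2
  exact h2

omit [NumberField F] in
theorem w_int (w : InfinitePlace F) (n : ℤ) : w (((n : 𝓞 F) : 𝓞 F) : F) = |(n : ℝ)| := by
  have h1 : (((n : 𝓞 F) : 𝓞 F) : F) = (n : F) := by simp
  rw [h1, InfinitePlace.map_intCast, Int.norm_eq_abs]

include hr hfin hσ hσ1 in
/-- The data attached to a small generator. -/
theorem minpol_data (B : ℕ) (hB1 : 1 ≤ B) (a : 𝓞 F) (ha : σ • a ≠ a)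
    (hB : ∀ w : InfinitePlace F, w (a : F) ≤ B) :
    ∃ (f S : ℕ → ℤ) (D : ℤ), D ≠ 0 ∧ f 0 ≠ 0 ∧ (∀ k < r, |f k| ≤ minB r B) ∧
      (∀ k < r, |S k| ≤ minB r B) ∧ |D| ≤ minB r B ∧
      (∀ i : ℕ, conj σ a i ^ r + ∑ k ∈ Finset.range r, (f k : 𝓞 F) * conj σ a i ^ k = 0) ∧
      (∀ i : ℕ, (D : 𝓞 F) * conj σ a (i + 1) =
        ∑ k ∈ Finset.range r, (S k : 𝓞 F) * conj σ a i ^ k) ∧
      (D : 𝓞 F) = (VM σ a r).det ^ 2 := by
  classical
  have hr0 : 0 < r := hr.pos
  obtain ⟨π, hπ⟩ := exists_rot r hr0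
  have hsign : ((Equiv.Perm.sign π : ℤˣ) : ℤ) * ((Equiv.Perm.sign π : ℤˣ) : ℤ) = 1 := by
    rcases Int.units_eq_one_or (Equiv.Perm.sign π) with h | h <;> simp [h]
  have hsign' : ((Equiv.Perm.sign π : ℤˣ) : 𝓞 F) * ((Equiv.Perm.sign π : ℤˣ) : 𝓞 F) = 1 := by
    exact_mod_cast congrArg (fun n : ℤ => (n : 𝓞 F)) hsign
  -- the discriminant
  obtain ⟨D, hD⟩ : ∃ D : ℤ, (D : 𝓞 F) = (VM σ a r).det ^ 2 := by
    apply MP_fix_int hr hfin σ hσ1
    rw [smul_pow', smul_det_VM σ hσ a π hπ, mul_pow, sq ((Equiv.Perm.sign π : ℤˣ) : 𝓞 F), hsign',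
      one_mul]
  -- the coefficients of `σ`
  have hS : ∀ k : Fin r, ∃ s : ℤ, (s : 𝓞 F) = (VM σ a r).det * (WM σ a r k).det := by
    intro k
    apply MP_fix_int hr hfin σ hσ1
    rw [smul_mul', smul_det_VM σ hσ a π hπ, smul_det_WM σ hσ a k π hπ]
    calc _ = (((Equiv.Perm.sign π : ℤˣ) : 𝓞 F) * ((Equiv.Perm.sign π : ℤˣ) : 𝓞 F)) *
          ((VM σ a r).det * (WM σ a r k).det) := by ring
      _ = _ := by rw [hsign', one_mul]
  choose s hs using hS
  have hBr : (1 : ℝ) ≤ B := by exact_mod_cast hB1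
  have hentry : ∀ (w : InfinitePlace F) (i k : Fin r),
      w ((conj σ a i ^ (k : ℕ) : 𝓞 F) : F) ≤ (B : ℝ) ^ r := by
    intro w i k
    rw [MP_coe_pow, map_pow]
    calc w ((conj σ a i : 𝓞 F) : F) ^ (k : ℕ) ≤ (B : ℝ) ^ (k : ℕ) :=
          pow_le_pow_left₀ (apply_nonneg _ _) (w_smul σ a B hB w i) _
      _ ≤ (B : ℝ) ^ r := pow_le_pow_right₀ hBr k.2.le
  have hdV : ∀ w : InfinitePlace F, w (((VM σ a r).det : 𝓞 F) : F) ≤ r.factorial * (B : ℝ) ^ (r * r) := by
    intro w
    rw [pow_mul]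
    exact w_det _ _ w fun i j => hentry w i j
  have hdW : ∀ (w : InfinitePlace F) (k : Fin r),
      w (((WM σ a r k).det : 𝓞 F) : F) ≤ r.factorial * (B : ℝ) ^ (r * r) := by
    intro w k
    rw [pow_mul]
    refine w_det _ _ w fun i j => ?_
    by_cases hj : j = k
    · subst hj
      simp only [WM, Matrix.updateCol_self]
      refine (w_smul σ a B hB w _).trans ?_
      exact le_self_pow₀ hBr hr0.ne'
    · simp only [WM, Matrix.updateCol_ne hj]
      exact hentry w i j
  obtain ⟨w0⟩ : Nonempty (InfinitePlace F) := inferInstance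
  have hbound : ∀ (n : ℤ) (x y : 𝓞 F), (n : 𝓞 F) = x * y →
      w0 (x : F) ≤ r.factorial * (B : ℝ) ^ (r * r) → w0 (y : F) ≤ r.factorial * (B : ℝ) ^ (r * r) →
      |n| ≤ minB r B := by
    intro n x y hn hx hy
    have h1 : |(n : ℝ)| ≤ ((minB r B : ℕ) : ℝ) := by
      rw [← w_int w0 n, hn, MP_coe_mul, map_mul]
      calc _ ≤ (r.factorial * (B : ℝ) ^ (r * r)) * (r.factorial * (B : ℝ) ^ (r * r)) :=
            mul_le_mul hx hy (apply_nonneg _ _) (by positivity)
        _ = ((minB r B : ℕ) : ℝ) := by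
            unfold minB
            push_cast
            ring
    exact_mod_cast h1
  -- the minimal polynomial
  have haF : (a : F) ∉ (⊥ : IntermediateField ℚ F) := by
    intro hc
    apply ha
    obtain ⟨q, hq⟩ := IntermediateField.mem_bot.mp hc
    apply RingOfIntegers.ext
    rw [MP_coe_smul, ← hq]
    exact σ.commutes q
  have hint : IsIntegral ℤ (a : F) := RingOfIntegers.isIntegral_coe a
  have hdeg : (minpoly ℤ (a : F)).natDegree = r := by
    have h1 : minpoly ℚ (a : F) = (minpoly ℤ (a : F)).map (algebraMap ℤ ℚ) :=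
      minpoly.isIntegrallyClosed_eq_field_fractions' ℚ hint
    have h2 : (minpoly ℚ (a : F)).natDegree = (minpoly ℤ (a : F)).natDegree := by
      rw [h1, (minpoly.monic hint).natDegree_map]
    rw [← h2, ← IntermediateField.adjoin.finrank (hint.tower_top), MP_top hr hfin _ haF,
      IntermediateField.finrank_top', hfin]
  have hcoeff : (minpoly ℤ (a : F)).coeff r = 1 := by
    have := minpoly.monic hint
    rw [Polynomial.Monic, Polynomial.leadingCoeff, hdeg] at this
    exact this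
  have hroot : ∀ i : ℕ, conj σ a i ^ r +
      ∑ k ∈ Finset.range r, ((minpoly ℤ (a : F)).coeff k : 𝓞 F) * conj σ a i ^ k = 0 := by
    intro i
    have h1 : Polynomial.aeval ((σ ^ i) (a : F)) (minpoly ℤ (a : F)) = 0 := by
      have h2 : Polynomial.aeval ((σ ^ i) (a : F)) (minpoly ℤ (a : F))
          = (σ ^ i) (Polynomial.aeval (a : F) (minpoly ℤ (a : F))) := by
        have h3 := Polynomial.hom_eval₂ (minpoly ℤ (a : F)) (algebraMap ℤ F)
          ((σ ^ i : F ≃ₐ[ℚ] F) : F →+* F) (a : F)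
        rw [Polynomial.aeval_def, Polynomial.aeval_def]
        refine Eq.trans ?_ h3.symm
        congr 1
        exact Subsingleton.elim _ _
      rw [h2, minpoly.aeval, map_zero]
    rw [Polynomial.aeval_eq_sum_range, hdeg, Finset.sum_range_succ, hcoeff, one_smul] at h1
    apply RingOfIntegers.ext
    simp only [map_add, map_pow, map_sum, map_mul, map_zero, map_intCast]
    have h3 : (algebraMap (𝓞 F) F) (conj σ a i) = (σ ^ i) (a : F) := rfl
    rw [h3, add_comm]
    simpa [zsmul_eq_mul] using h1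
  have hf0 : (minpoly ℤ (a : F)).coeff 0 ≠ 0 := by
    intro h0
    have h1 : minpoly ℚ (a : F) = (minpoly ℤ (a : F)).map (algebraMap ℤ ℚ) :=
      minpoly.isIntegrallyClosed_eq_field_fractions' ℚ hint
    have h2 : (minpoly ℚ (a : F)).coeff 0 = 0 := by
      rw [h1, Polynomial.coeff_map, h0, map_zero]
    have h3 := (minpoly.coeff_zero_eq_zero (hint.tower_top (A := ℚ))).mp h2
    apply haF
    rw [h3]
    exact zero_mem _
  have hfb : ∀ k < r, |(minpoly ℤ (a : F)).coeff k| ≤ minB r B := by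
    intro k _
    have h1 : minpoly ℚ (a : F) = (minpoly ℤ (a : F)).map (algebraMap ℤ ℚ) :=
      minpoly.isIntegrallyClosed_eq_field_fractions' ℚ hint
    have h2 := Embeddings.coeff_bdd_of_norm_le (K := F) (A := ℂ) (x := (a : F)) (B := (B : ℝ))
      (fun φ => by
        have := hB (InfinitePlace.mk φ)
        rwa [InfinitePlace.apply] at this) k
    rw [h1, Polynomial.coeff_map, eq_intCast, Int.norm_cast_rat, Int.norm_eq_abs, hfin,
      max_eq_left hBr] at h2
    have h3 : (r.choose (r / 2) : ℝ) ≤ r.factorial := by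
      have : r.choose (r / 2) ≤ r.factorial := by
        rw [Nat.choose_eq_factorial_div_factorial (Nat.div_le_self r 2)]
        exact Nat.div_le_self _ _
      exact_mod_cast this
    have h4 : (B : ℝ) ^ r ≤ (B : ℝ) ^ (r * r) :=
      pow_le_pow_right₀ hBr (Nat.le_mul_of_pos_left r hr0)
    have h5 : (1 : ℝ) ≤ r.factorial * (B : ℝ) ^ (r * r) := by
      have : 1 ≤ r.factorial * B ^ (r * r) :=
        Nat.one_le_iff_ne_zero.mpr (Nat.mul_ne_zero (Nat.factorial_ne_zero r)
          (pow_ne_zero _ (by omega)))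
      exact_mod_cast this
    have h6 : |((minpoly ℤ (a : F)).coeff k : ℝ)| ≤ ((minB r B : ℕ) : ℝ) := by
      refine h2.trans ?_
      calc (B : ℝ) ^ r * (r.choose (r / 2) : ℝ) ≤ (B : ℝ) ^ (r * r) * r.factorial := by
            gcongr
        _ = (r.factorial * (B : ℝ) ^ (r * r)) * 1 := by ring
        _ ≤ (r.factorial * (B : ℝ) ^ (r * r)) * (r.factorial * (B : ℝ) ^ (r * r)) := by
            gcongr
        _ = ((minB r B : ℕ) : ℝ) := by
            unfold minB
            push_cast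
            ring
    exact_mod_cast h6
  -- nonvanishing of the discriminant
  have hdet0 : (VM σ a r).det ≠ 0 := by
    rw [VM, Matrix.det_vandermonde_ne_zero_iff]
    intro i j hij
    exact Fin.ext (conj_inj hr σ hσ a ha i j i.2 j.2 hij)
  refine ⟨fun k => (minpoly ℤ (a : F)).coeff k, fun k => if hk : k < r then s ⟨k, hk⟩ else 0, D,
    ?_, hf0, hfb, ?_, ?_, hroot, ?_, hD⟩
  · rintro rfl
    rw [Int.cast_zero] at hD
    exact hdet0 (pow_eq_zero_iff (two_ne_zero)|>.mp hD.symm)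
  · intro k hk
    simp only [hk, dif_pos]
    exact hbound _ _ _ (hs ⟨k, hk⟩) (hdV w0) (hdW w0 _)
  · exact hbound D _ _ (by rw [hD, sq]) (hdV w0) (hdV w0)
  · intro i
    have h1 := congrFun (Matrix.mulVec_cramer (VM σ a r) fun i => conj σ a (i + 1))
      ⟨i % r, Nat.mod_lt _ hr0⟩
    simp only [Matrix.mulVec, dotProduct, Pi.smul_apply, smul_eq_mul, Matrix.cramer_apply] at h1
    have h2 : conj σ a (i % r + 1) = conj σ a (i + 1) := by
      rw [← conj_mod σ hσ a (i % r + 1), Nat.mod_add_mod, conj_mod σ hσ]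
    rw [h2] at h1
    rw [hD, sq, mul_assoc, ← h1, Finset.mul_sum, Finset.sum_range]
    refine Finset.sum_congr rfl fun k _ => ?_
    have h3 : VM σ a r ⟨i % r, Nat.mod_lt _ hr0⟩ k = conj σ a i ^ (k : ℕ) := by
      simp only [VM, Matrix.vandermonde_apply, conj_mod σ hσ]
    rw [h3]
    simp only [k.2, dif_pos, Fin.eta]
    rw [hs k]
    unfold WM
    ring

end

end Pool.Agent.Rnr
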