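import Pool.Agent.Rnr.AmbNorm

namespace Pool.Agent.Rnr

open NumberField

/-- all prime factors are good -/
def Supp' (good : ℕ → Prop) (n : ℕ) : Prop := ∀ v : ℕ, v.Prime → v ∣ n → good v

theorem amb_norm' {K : Type} [Field K] [NumberField K] {r : ℕ} (hr : r.Prime) (hr2 : r ≠ 2)
    (hfin : Module.finrank ℚ K = r) (σ : K ≃ₐ[ℚ] K) (hord : orderOf σ = r) (S : Finset ℕ)
    (hS : ∀ v : ℕ, v.Prime → v ∉ S → (Ideal.span {(v : 𝓞 K)}).IsRadical)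
    (m : ℕ) (hm : S.card ≤ m + 1) (good : ℕ → Prop) (g : Fin m → ℕ → ZMod r) (u : ℕ → ZMod r)
    (g_mul : ∀ j a b, a ≠ 0 → b ≠ 0 → Supp' good a → Supp' good b → g j (a * b) = g j a + g j b)
    (u_mul : ∀ a b, a ≠ 0 → b ≠ 0 → Supp' good a → Supp' good b → u (a * b) = u a + u b)
    (g_prin : ∀ j (x : 𝓞 K), x ≠ 0 → Supp' good (Ideal.absNorm (Ideal.span {x})) →
      g j (Ideal.absNorm (Ideal.span {x})) = 0)
    (u_prin : ∀ x : 𝓞 K, x ≠ 0 → Supp' good (Ideal.absNorm (Ideal.span {x})) →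
      u (Ideal.absNorm (Ideal.span {x})) = 0)
    (hsurj : ∀ y : Fin m → ZMod r, ∃ I : Ideal (𝓞 K), I ≠ ⊥ ∧ Supp' good (Ideal.absNorm I) ∧
      ∀ j, g j (Ideal.absNorm I) = y j) :
    ∀ I : Ideal (𝓞 K), I ≠ ⊥ → Supp' good (Ideal.absNorm I) →
      (∀ j, g j (Ideal.absNorm I) = 0) → u (Ideal.absNorm I) = 0 :=
  fun I hI0 hI hg => RnrAmb.amb_norm hr hr2 hfin hord hS hm good g u g_mul g_prin u_mul u_prin
    hsurj I hI0 hI hg

theorem amb_coprime' {K : Type} [Field K] [NumberField K] {r : ℕ} (hr : r.Prime) (hr2 : r ≠ 2)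
    (hfin : Module.finrank ℚ K = r) (σ : K ≃ₐ[ℚ] K) (hord : orderOf σ = r) (S : Finset ℕ)
    (hS : ∀ v : ℕ, v.Prime → v ∉ S → (Ideal.span {(v : 𝓞 K)}).IsRadical) (hc : S.card ≤ 1) :
    ¬ r ∣ Nat.card (ClassGroup (𝓞 K)) :=
  RnrAmb.amb_coprime hr hr2 hfin hord hS hc

end Pool.Agent.Rnr
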