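import Pool.Agent.Rnr.Cyc
import Pool.Agent.Rnr.Chr
import Pool.Agent.Rnr.Gen2
import Pool.Agent.Rcp.Final
import Pool.Agent.Rnr.StubAmb

/-!
# Rnr, file Rel: the genus step

For a character `psi = ∑_(l ∈ S) f l χ_l` with `psi p = 0` the symbols `B_psi(n)` of the primes `n` with `psi n = 0`
are a linear combination of the values `χ_l n`, `l ∈ S`.
-/

namespace Pool.Agent.Rnr

open NumberField

/-- small integers are `r`-th powers mod `p` -/
def H1 (r p B : ℕ) : Prop := ∀ m : ℕ, 1 ≤ m → m ≤ B → (m : ZMod p) ^ ((p - 1) / r) = 1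

/-- the classes of the conjugates of a small element agree -/
def H2 (r p B : ℕ) : Prop :=
  ∀ (F : Type) [Field F] [NumberField F] (σ : F ≃ₐ[ℚ] F), Module.finrank ℚ F = r → σ ^ r = 1 →
    σ ≠ 1 → ∀ a : 𝓞 F, (∀ w : InfinitePlace F, w (a : F) ≤ B) → ∀ φ : 𝓞 F →+* ZMod p,
    φ (σ • a) ^ ((p - 1) / r) = φ a ^ ((p - 1) / r)

variable {r p : ℕ} {c : Chars r} {S : Finset ℕ} {f : ℕ → ZMod r}
  {F : Type} [Field F] [NumberField F] {σ : F ≃ₐ[ℚ] F}

theorem pow_mod_r (hF : IsCyc r c S f F σ) (i : ℕ) : σ ^ i = σ ^ (i % r) := by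
  conv_lhs => rw [← Nat.div_add_mod i r, pow_add, pow_mul, hF.pow_r, one_pow, one_mul]

/-- units at `p` -/
theorem rel_unit (hp : p.Prime) (hF : IsCyc r c S f F σ) (φ : 𝓞 F →+* ZMod p) (a : 𝓞 F)
    (h : ¬ (p : ℤ) ∣ Algebra.norm ℤ a) (i : ℕ) : IsUnit (φ (σ ^ i • a)) := by
  have : Fact p.Prime := ⟨hp⟩
  have hr0 : 0 < r := hF.good.pr.pos
  rw [pow_mod_r hF i]
  have hlt : i % r < r := Nat.mod_lt _ hr0
  have h1 : φ ((Algebra.norm ℤ a : ℤ) : 𝓞 F) = ∏ j ∈ Finset.range r, φ (σ ^ j • a) := by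
    rw [hF.norm a, map_prod]
  have h2 : φ ((Algebra.norm ℤ a : ℤ) : 𝓞 F) ≠ 0 := by
    rw [map_intCast]
    intro h3
    exact h ((ZMod.intCast_zmod_eq_zero_iff_dvd _ _).mp h3)
  rw [h1] at h2
  rw [isUnit_iff_ne_zero]
  exact fun h3 => h2 (Finset.prod_eq_zero (Finset.mem_range.mpr hlt) h3)

theorem norm_lt (hF : IsCyc r c S f F σ) {B : ℕ} (a : 𝓞 F)
    (ha : ∀ w : InfinitePlace F, w (a : F) ≤ B) : (Algebra.norm ℤ a).natAbs ≤ B ^ r := by
  have h := norm_le_of_le F (B : ℝ) (a : F) ha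
  rw [hF.finrank] at h
  have h2 : ((Algebra.norm ℤ a : ℤ) : ℚ) = Algebra.norm ℚ (a : F) := Algebra.coe_norm_int a
  rw [← h2] at h
  have h3 : (((Algebra.norm ℤ a).natAbs : ℕ) : ℝ) ≤ ((B ^ r : ℕ) : ℝ) := by
    push_cast
    rw [Nat.cast_natAbs]
    push_cast at h ⊢
    exact h
  exact_mod_cast h3

theorem sigma_ne_one (hF : IsCyc r c S f F σ) : σ ≠ 1 := by
  intro h
  have h1 := hF.order
  rw [h, orderOf_one] at h1
  exact hF.good.pr.one_lt.ne h1

theorem rel_small (hp : p.Prime) (hc : Function.Surjective (c p)) (hF : IsCyc r c S f F σ)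
    {B : ℕ} (hB : B ^ r < p) (H : H2 r p B) (φ : 𝓞 F →+* ZMod p) (a : 𝓞 F) (ha0 : a ≠ 0)
    (ha : ∀ w : InfinitePlace F, w (a : F) ≤ B) :
    (∀ i, IsUnit (φ (σ ^ i • a))) ∧ Sf c p σ φ a = 0 := by
  have : Fact p.Prime := ⟨hp⟩
  have hN0 : Algebra.norm ℤ a ≠ 0 := by
    rw [Ne, Algebra.norm_eq_zero_iff]
    exact ha0
  have hun : ∀ i, IsUnit (φ (σ ^ i • a)) := by
    apply rel_unit hp hF φ a
    intro hd
    have h1 : p ∣ (Algebra.norm ℤ a).natAbs := Int.natCast_dvd.mp hd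
    have h2 : p ≤ (Algebra.norm ℤ a).natAbs := Nat.le_of_dvd (Int.natAbs_pos.mpr hN0) h1
    exact absurd (h2.trans (norm_lt hF a ha)) (not_le.mpr hB)
  refine ⟨hun, ?_⟩
  have hconst : ∀ i, X c p (φ (σ ^ i • a)) = X c p (φ a) := by
    intro i
    induction i with
    | zero => simp
    | succ i ih =>
      rw [← ih]
      have h1 := H F σ hF.finrank hF.pow_r (sigma_ne_one hF) a ha
        (φ.comp (MulSemiringAction.toRingHom _ (𝓞 F) (σ ^ i)))
      simp only [RingHom.comp_apply, MulSemiringAction.toRingHom_apply] at h1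
      rw [← mul_smul, ← pow_succ] at h1
      exact (X_eq_iff hF.good.pr c p hp hc _ _ (hun (i + 1)).ne_zero (hun i).ne_zero).mpr h1
  exact Sf_const hF.good.pr hF.good.odd p φ a (X c p (φ a)) (fun i _ => hconst i)

theorem rel_smooth (hp : p.Prime) (hc : Function.Surjective (c p)) (hF : IsCyc r c S f F σ)
    {B D Z : ℕ} (hB : B ^ r < p) (H : H2 r p B) (hD : (discr F).natAbs ≤ D) (hZ : 1 ≤ Z)
    (hZp : Z < p) (hG : genB D (Z ^ r) ≤ B) (φ : 𝓞 F →+* ZMod p) (a : 𝓞 F) (ha0 : a ≠ 0)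
    (ha : ∀ q : ℕ, q.Prime → q ∣ (Algebra.norm ℤ a).natAbs → q ≤ Z) :
    Sf c p σ φ a = 0 := by
  have : Fact p.Prime := ⟨hp⟩
  have hau : ∀ i, IsUnit (φ (σ ^ i • a)) := by
    apply rel_unit hp hF φ a
    intro hd
    have h1 : p ∣ (Algebra.norm ℤ a).natAbs := Int.natCast_dvd.mp hd
    exact absurd (ha p hp h1) (not_le.mpr hZp)
  have haF : (a : F) ≠ 0 := by
    intro h
    exact ha0 (RingOfIntegers.coe_eq_zero_iff.mp h)
  -- the subgroup
  let U : Subgroup Fˣ :=
    { carrier := {x | ∃ u v : 𝓞 F, (x : F) * (v : F) = (u : F) ∧ (∀ i, IsUnit (φ (σ ^ i • u))) ∧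
        (∀ i, IsUnit (φ (σ ^ i • v))) ∧ Sf c p σ φ u = Sf c p σ φ v}
      mul_mem' := by
        rintro x y ⟨u, v, h1, h2, h3, h4⟩ ⟨u', v', h1', h2', h3', h4'⟩
        refine ⟨u * u', v * v', ?_, ?_, ?_, ?_⟩
        · have e1 : ((v * v' : 𝓞 F) : F) = (v : F) * (v' : F) := rfl
          have e2 : ((u * u' : 𝓞 F) : F) = (u : F) * (u' : F) := rfl
          rw [Units.val_mul, e1, e2]
          linear_combination ((y : F) * (v' : F)) * h1 + (u : F) * h1'
        · intro i
          rw [smul_mul', map_mul]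
          exact (h2 i).mul (h2' i)
        · intro i
          rw [smul_mul', map_mul]
          exact (h3 i).mul (h3' i)
        · rw [Sf_mul p φ u u' (fun i _ => h2 i) (fun i _ => h2' i),
            Sf_mul p φ v v' (fun i _ => h3 i) (fun i _ => h3' i), h4, h4']
      one_mem' := by
        refine ⟨1, 1, by simp, ?_, ?_, rfl⟩
        · intro i
          rw [smul_one, map_one]
          exact isUnit_one
        · intro i
          rw [smul_one, map_one]
          exact isUnit_one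
      inv_mem' := by
        rintro x ⟨u, v, h1, h2, h3, h4⟩
        refine ⟨v, u, ?_, h3, h2, h4.symm⟩
        rw [← h1]
        simp }
  have hSm : Small F B ⊆ (U : Set Fˣ) := by
    rintro x ⟨hx1, hx2⟩
    let b : 𝓞 F := ⟨(x : F), hx1⟩
    have hb0 : b ≠ 0 := by
      intro h
      have : (b : F) = 0 := by rw [h]; simp
      exact x.ne_zero this
    obtain ⟨h1, h2⟩ := rel_small hp hc hF hB H φ b hb0 hx2
    have e1 : ((1 : 𝓞 F) : F) = 1 := rfl
    refine ⟨b, 1, by rw [e1, mul_one]; rfl, h1, ?_, ?_⟩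
    · intro i
      rw [smul_one, map_one]
      exact isUnit_one
    · rw [h2, Sf_one]
  have hle : Small F (genB D (Z ^ Module.finrank ℚ F)) ⊆ Small F B := by
    rintro x ⟨hx1, hx2⟩
    refine ⟨hx1, fun w => (hx2 w).trans ?_⟩
    rw [hF.finrank]
    exact_mod_cast hG
  have hmem := gen_smooth F D Z hD hZ (Units.mk0 (a : F) haF) a rfl ha
  have hcl : Subgroup.closure (Small F (genB D (Z ^ Module.finrank ℚ F))) ≤ U := by
    rw [Subgroup.closure_le]
    exact hle.trans hSm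
  obtain ⟨u, v, h1, h2, h3, h4⟩ := hcl hmem
  have h5 : a * v = u := by
    apply RingOfIntegers.coe_injective
    exact h1
  rw [← h5, Sf_mul p φ a v (fun i _ => hau i) (fun i _ => h3 i)] at h4
  exact add_eq_right.mp h4

variable {K : Type} [Field K] [NumberField K] {τ : K ≃ₐ[ℚ] K}

theorem Sf_prod (l : ℕ) (g : 𝓞 K →+* ZMod l) (A : Finset ℕ) (γ : ℕ → 𝓞 K) (e : ℕ → ℕ)
    (hx : ∀ q ∈ A, ∀ i < r, IsUnit (g (τ ^ i • γ q))) :
    Sf c l τ g (∏ q ∈ A, γ q ^ e q) = ∑ q ∈ A, (e q : ZMod r) * Sf c l τ g (γ q) := by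
  classical
  induction A using Finset.induction_on with
  | empty => simp [Sf_one]
  | insert a A ha ih =>
    rw [Finset.prod_insert ha, Finset.sum_insert ha, Sf_mul, Sf_pow, ih]
    · intro q hq
      exact hx q (Finset.mem_insert_of_mem hq)
    · exact hx a (Finset.mem_insert_self _ _)
    · intro i hi
      rw [smul_pow', map_pow]
      exact (hx a (Finset.mem_insert_self _ _) i hi).pow _
    · intro i hi
      rw [Finset.smul_prod', map_prod]
      apply IsUnit.prod_iff.mpr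
      intro q hq
      rw [smul_pow', map_pow]
      exact (hx q (Finset.mem_insert_of_mem hq) i hi).pow _

/-- units at `l` -/
theorem hom_unit (hK : IsCyc r c S f K τ) {l : ℕ} (hl : l.Prime) (g : 𝓞 K →+* ZMod l) (x : 𝓞 K)
    (h : ¬ l ∣ (Algebra.norm ℤ x).natAbs) (i : ℕ) (hi : i < r) : IsUnit (g (τ ^ i • x)) := by
  have : Fact l.Prime := ⟨hl⟩
  have h1 : g ((Algebra.norm ℤ x : ℤ) : 𝓞 K) = ∏ j ∈ Finset.range r, g (τ ^ j • x) := by
    rw [hK.norm x, map_prod]
  have h2 : g ((Algebra.norm ℤ x : ℤ) : 𝓞 K) ≠ 0 := by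
    rw [map_intCast]
    intro h3
    exact h (Int.natCast_dvd.mp ((ZMod.intCast_zmod_eq_zero_iff_dvd _ _).mp h3))
  rw [h1] at h2
  rw [isUnit_iff_ne_zero]
  exact fun h3 => h2 (Finset.prod_eq_zero (Finset.mem_range.mpr hi) h3)

theorem norm_neg (hK : IsCyc r c S f K τ) (x : 𝓞 K) :
    Algebra.norm ℤ (-x) = - Algebra.norm ℤ x := by
  have h1 : Algebra.norm ℤ (-1 : 𝓞 K) = -1 := by
    have h2 : (-1 : 𝓞 K) = algebraMap ℤ (𝓞 K) (-1) := by simp
    rw [h2, Algebra.norm_algebraMap, RingOfIntegers.rank, hK.finrank]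
    exact (hK.good.pr.odd_of_ne_two hK.good.odd).neg_one_pow
  have h3 : -x = (-1) * x := by ring
  rw [h3, map_mul, h1]
  ring

theorem absNorm_ker {n : ℕ} (hn : n.Prime) (g : 𝓞 F →+* ZMod n) :
    Ideal.absNorm (RingHom.ker g) = n := by
  have : Fact n.Prime := ⟨hn⟩
  rw [Ideal.absNorm_apply, Submodule.cardQuot_apply]
  have e := RingHom.quotientKerEquivOfSurjective (ZMod.ringHom_surjective g)
  rw [Nat.card_congr e.toEquiv, Nat.card_zmod]

theorem gen_rel (hp : p.Prime) (hc : Function.Surjective (c p)) (hF : IsCyc r c S f F σ)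
    (hK : IsCyc r c {p} (fun _ => 1) K τ) (hpS : p ∉ S) (h1 : psi c S f (p : ℤ) = 0)
    (h2 : ∀ l ∈ S, X c p (l : ZMod p) = 0)
    {B D Z : ℕ} (hB : B ^ r < p) (H : H2 r p B) (hD : (discr F).natAbs ≤ D) (hZ : 1 ≤ Z)
    (hZp : Z < p) (hG : genB D (Z ^ r) ≤ B)
    (Qs : Finset ℕ) (hQ : ∀ n ∈ Qs, n.Prime ∧ n ≤ Z ∧ n ∉ S ∧ X c p (n : ZMod p) = 0)
    (h : ℕ) (γ : ℕ → 𝓞 K) (hγ : ∀ n ∈ Qs, (Algebra.norm ℤ (γ n)).natAbs = n ^ h)
    (P : (l : ℕ) → 𝓞 K → ZMod l) (hP : ∀ l ∈ S, ∃ g : 𝓞 K →+* ZMod l, ∀ x, P l x = g x)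
    (hspan : ∀ y : ℕ → ZMod r, ∑ l ∈ S, f l * y l = 0 → ∃ n ∈ Qs, ∀ l ∈ S, X c l (n : ZMod l) = y l) :
    ∃ κ : ℕ → ZMod r, ∀ n ∈ Qs, psi c S f (n : ℤ) = 0 →
      ∑ l ∈ S, f l * Sf c l τ (P l) (γ n) = ∑ l ∈ S, κ l * X c l (n : ZMod l) := by
  classical
  have hr := hF.good.pr
  have hr2 := hF.good.odd
  have hfact : Fact r.Prime := ⟨hr⟩
  have hfp : Fact p.Prime := ⟨hp⟩
  set good : ℕ → Prop := fun n => n ∈ Qs ∧ psi c S f (n : ℤ) = 0 with hgood
  set b : ℕ → ZMod r := fun q => ∑ l ∈ S, f l * Sf c l τ (P l) (γ q) with hb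
  set u : ℕ → ZMod r := fun m => m.factorization.sum fun q e => (e : ZMod r) * b q with hu
  -- choose the erased prime
  obtain ⟨l0, hl0⟩ := hF.good.ne
  set T := S.erase l0 with hT
  have hTc : S.card ≤ T.card + 1 := by
    rw [hT, Finset.card_erase_of_mem hl0]
    omega
  let e : T ≃ Fin T.card := T.equivFin
  let g : Fin T.card → ℕ → ZMod r := fun j n => X c (e.symm j : ℕ) (n : ZMod (e.symm j : ℕ))
  have hSup : ∀ l ∈ S, ∀ a : ℕ, a ≠ 0 → Supp' good a → IsUnit (a : ZMod l) := by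
    intro l hl a ha hs
    have : Fact l.Prime := ⟨hF.good.prime l hl⟩
    rw [isUnit_iff_ne_zero]
    intro h0
    have h3 : l ∣ a := (ZMod.natCast_eq_zero_iff _ _).mp h0
    exact (hQ l (hs l (hF.good.prime l hl) h3).1).2.2.1 hl
  have hTS : ∀ j : Fin T.card, (e.symm j : ℕ) ∈ S := fun j => Finset.mem_of_mem_erase (e.symm j).2
  -- multiplicativity
  have g_mul : ∀ j a b, a ≠ 0 → b ≠ 0 → Supp' good a → Supp' good b →
      g j (a * b) = g j a + g j b := by
    intro j a b ha hb' hsa hsb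
    simp only [g]
    rw [Nat.cast_mul, X_mul]
    · exact hSup _ (hTS j) a ha hsa
    · exact hSup _ (hTS j) b hb' hsb
  have u_mul : ∀ a b, a ≠ 0 → b ≠ 0 → Supp' good a → Supp' good b → u (a * b) = u a + u b := by
    intro a b' ha hb' _ _
    simp only [hu]
    rw [Nat.factorization_mul ha hb', Finsupp.sum_add_index']
    · intro q
      simp
    · intro q m n
      push_cast
      ring
  have hnorm0 : ∀ x : 𝓞 F, x ≠ 0 → (Algebra.norm ℤ x).natAbs ≠ 0 := by
    intro x hx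
    rw [Ne, Int.natAbs_eq_zero, Algebra.norm_eq_zero_iff]
    exact hx
  have g_prin : ∀ j (x : 𝓞 F), x ≠ 0 → Supp' good (Ideal.absNorm (Ideal.span {x})) →
      g j (Ideal.absNorm (Ideal.span {x})) = 0 := by
    intro j x hx hs
    simp only [g]
    rw [Ideal.absNorm_span_singleton] at hs ⊢
    set l : ℕ := (e.symm j : ℕ) with hl
    have hlS : l ∈ S := hTS j
    have : Fact l.Prime := ⟨hF.good.prime l hlS⟩
    obtain ⟨g', hg'⟩ := hF.ram l hlS
    have hpow : ∀ i, g' (σ ^ i • x) = g' x := by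
      intro i
      induction i with
      | zero => simp
      | succ i ih => rw [pow_succ', mul_smul, hg', ih]
    have h3 : ((Algebra.norm ℤ x : ℤ) : ZMod l) = g' x ^ r := by
      have h4 : g' ((Algebra.norm ℤ x : ℤ) : 𝓞 F) = ∏ j ∈ Finset.range r, g' (σ ^ j • x) := by
        rw [hF.norm x, map_prod]
      rw [map_intCast] at h4
      rw [h4, Finset.prod_congr rfl (fun i _ => hpow i), Finset.prod_const, Finset.card_range]
    have h5 : X c l (((Algebra.norm ℤ x).natAbs : ℕ) : ZMod l) =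
        X c l ((Algebra.norm ℤ x : ℤ) : ZMod l) := by
      rcases Int.natAbs_eq (Algebra.norm ℤ x) with h6 | h6
      · conv_rhs => rw [h6]
        rw [Int.cast_natCast]
      · conv_rhs => rw [h6]
        rw [Int.cast_neg, Int.cast_natCast, X_neg hr hr2]
    rw [h5, h3, X_pow, CharP.cast_eq_zero, zero_mul]
  have u_prin : ∀ x : 𝓞 F, x ≠ 0 → Supp' good (Ideal.absNorm (Ideal.span {x})) →
      u (Ideal.absNorm (Ideal.span {x})) = 0 := by
    intro x hx hs
    rw [Ideal.absNorm_span_singleton] at hs ⊢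
    set m : ℕ := (Algebra.norm ℤ x).natAbs with hm
    have hm0 : m ≠ 0 := hnorm0 x hx
    obtain ⟨φ⟩ := hF.split p hp hpS h1
    -- the element of K
    set γt : 𝓞 K := ∏ q ∈ m.primeFactors, γ q ^ m.factorization q with hγt
    have hγtn : (Algebra.norm ℤ γt).natAbs = m ^ h := by
      rw [hγt, map_prod]
      change Int.natAbsHom _ = _
      rw [map_prod]
      change ∏ q ∈ m.primeFactors, (Algebra.norm ℤ (γ q ^ m.factorization q)).natAbs = _
      have h3 : ∀ q ∈ m.primeFactors, (Algebra.norm ℤ (γ q ^ m.factorization q)).natAbs =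
          (q ^ m.factorization q) ^ h := by
        intro q hq
        have hq' := Nat.mem_primeFactors.mp hq
        rw [map_pow, Int.natAbs_pow, hγ q (hs q hq'.1 hq'.2.1).1, ← pow_mul, ← pow_mul, mul_comm]
      rw [Finset.prod_congr rfl h3, Finset.prod_pow]
      congr 1
      exact Nat.prod_factorization_pow_eq_self hm0
    have hαn : (Algebra.norm ℤ (x ^ h)).natAbs = m ^ h := by
      rw [map_pow, Int.natAbs_pow]
    obtain ⟨γ', hγ'n, hγ's⟩ : ∃ γ' : 𝓞 K, Algebra.norm ℤ γ' = Algebra.norm ℤ (x ^ h) ∧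
        (γ' = γt ∨ γ' = -γt) := by
      rcases Int.natAbs_eq_natAbs_iff.mp (hγtn.trans hαn.symm) with h3 | h3
      · exact ⟨γt, h3, Or.inl rfl⟩
      · refine ⟨-γt, ?_, Or.inr rfl⟩
        rw [norm_neg hK, h3, neg_neg]
    have hrec := Rcp.rec hF hK hpS h1 h2 (x ^ h) γ' (Algebra.norm ℤ (x ^ h)) (hF.norm _).symm
      (by rw [← hγ'n]; exact (hK.norm _).symm) (by
        intro v hv hvd
        have h3 : v ∣ m := by
          have h4 : v ∣ m ^ h := by
            rw [← hαn]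
            exact Int.natCast_dvd.mp hvd
          exact hv.dvd_of_dvd_pow h4
        obtain ⟨h5, h6⟩ := hs v hv h3
        obtain ⟨_, h7, h8, h9⟩ := hQ v h5
        exact ⟨h8, fun h10 => absurd (h10 ▸ h7) (not_le.mpr hZp), h6, h9⟩) φ P hP
    have hSx : Sf c p σ φ x = 0 := by
      apply rel_smooth hp hc hF hB H hD hZ hZp hG φ x hx
      intro q hq hqd
      exact (hQ q (hs q hq hqd).1).2.1
    have hxu : ∀ i < r, IsUnit (φ (σ ^ i • x)) := by
      intro i _
      apply rel_unit hp hF φ x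
      intro hd
      have h3 : p ∣ m := Int.natCast_dvd.mp hd
      exact absurd (hQ p (hs p hp h3).1).2.1 (not_le.mpr hZp)
    rw [Sf_pow p φ x h hxu, hSx, mul_zero, zero_add] at hrec
    have hSl : ∀ l ∈ S, Sf c l τ (P l) γ' =
        ∑ q ∈ m.primeFactors, (m.factorization q : ZMod r) * Sf c l τ (P l) (γ q) := by
      intro l hl
      obtain ⟨g', hg'⟩ := hP l hl
      have hPg : P l = g' := funext hg'
      rw [hPg]
      have h3 : Sf c l τ g' γ' = Sf c l τ g' γt := by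
        rcases hγ's with h4 | h4
        · rw [h4]
        · rw [h4, Sf_neg hr hr2]
      rw [h3, hγt]
      apply Sf_prod
      intro q hq i hi
      have hq' := Nat.mem_primeFactors.mp hq
      apply hom_unit hK (hF.good.prime l hl) g' (γ q) _ i hi
      rw [hγ q (hs q hq'.1 hq'.2.1).1]
      intro hd
      have h5 : l ∣ q := (hF.good.prime l hl).dvd_of_dvd_pow hd
      have h6 : l = q := (Nat.prime_dvd_prime_iff_eq (hF.good.prime l hl) hq'.1).mp h5
      exact (hQ q (hs q hq'.1 hq'.2.1).1).2.2.1 (h6 ▸ hl)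
    rw [Finset.sum_congr rfl (fun l hl => by rw [hSl l hl])] at hrec
    simp only [hu, hb]
    rw [Finsupp.sum, Nat.support_factorization]
    rw [← hrec]
    simp only [Finset.mul_sum]
    rw [Finset.sum_comm]
    refine Finset.sum_congr rfl fun l _ => Finset.sum_congr rfl fun q _ => ?_
    ring
  -- prime ideals over `n`
  have hId : ∀ n ∈ Qs, psi c S f (n : ℤ) = 0 → ∃ I : Ideal (𝓞 F), I ≠ ⊥ ∧ Ideal.absNorm I = n := by
    intro n hn hpsi
    obtain ⟨g'⟩ := hF.split n (hQ n hn).1 (hQ n hn).2.2.1 hpsi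
    refine ⟨RingHom.ker g', ?_, absNorm_ker (hQ n hn).1 g'⟩
    intro hbot
    have h3 := absNorm_ker (hQ n hn).1 g'
    rw [hbot, Ideal.absNorm_bot] at h3
    exact (hQ n hn).1.ne_zero h3.symm
  -- primes with prescribed values
  have hpr : ∀ y : Fin T.card → ZMod r, ∃ n ∈ Qs, psi c S f (n : ℤ) = 0 ∧ ∀ j, g j n = y j := by
    intro y
    let Y0 : ℕ → ZMod r := fun l => if hl : l ∈ T then y (e ⟨l, hl⟩) else 0
    let Y : ℕ → ZMod r := fun l => if l = l0 then -(f l0)⁻¹ * ∑ l ∈ T, f l * Y0 l else Y0 l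
    have hY : ∑ l ∈ S, f l * Y l = 0 := by
      rw [← Finset.add_sum_erase S _ hl0]
      have h3 : Y l0 = -(f l0)⁻¹ * ∑ l ∈ T, f l * Y0 l := by simp [Y]
      have h4 : ∑ l ∈ S.erase l0, f l * Y l = ∑ l ∈ T, f l * Y0 l := by
        refine Finset.sum_congr rfl fun l hl => ?_
        have : l ≠ l0 := Finset.ne_of_mem_erase hl
        simp [Y, this]
      rw [h3, h4]
      have h5 : f l0 ≠ 0 := hF.good.f0 l0 hl0
      field_simp
      ring
    obtain ⟨n, hn, hX⟩ := hspan Y hY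
    refine ⟨n, hn, ?_, ?_⟩
    · rw [psi]
      rw [← hY]
      refine Finset.sum_congr rfl fun l hl => ?_
      rw [← hX l hl]
      simp
    · intro j
      simp only [g]
      rw [hX _ (hTS j)]
      have h3 : (e.symm j : ℕ) ≠ l0 := Finset.ne_of_mem_erase (e.symm j).2
      simp [Y, Y0, h3]
  have hsurj : ∀ y : Fin T.card → ZMod r, ∃ I : Ideal (𝓞 F), I ≠ ⊥ ∧
      Supp' good (Ideal.absNorm I) ∧ ∀ j, g j (Ideal.absNorm I) = y j := by
    intro y
    obtain ⟨n, hn, hpsi, hg⟩ := hpr y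
    obtain ⟨I, hI, hIn⟩ := hId n hn hpsi
    refine ⟨I, hI, ?_, ?_⟩
    · rw [hIn]
      intro v hv hvn
      have : v = n := (Nat.prime_dvd_prime_iff_eq hv (hQ n hn).1).mp hvn
      subst this
      exact ⟨hn, hpsi⟩
    · rw [hIn]
      exact hg
  have hmain := amb_norm' hr hr2 hF.finrank σ hF.order S
    (fun v hv hvS => hF.unram v hv hvS) T.card hTc good g u g_mul u_mul g_prin u_prin hsurj
  -- the coefficients
  choose nj hnj hnjp hnjg using fun j : Fin T.card => hpr (fun i => if i = j then 1 else 0)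
  refine ⟨fun l => if hl : l ∈ T then b (nj (e ⟨l, hl⟩)) else 0, fun n hn hpsi => ?_⟩
  obtain ⟨I, hI, hIn⟩ := hId n hn hpsi
  choose Ij hIj hIjn using fun j => hId (nj j) (hnj j) (hnjp j)
  set a : Fin T.card → ℕ := fun j => (-(g j n)).val with ha
  set J : Ideal (𝓞 F) := I * ∏ j, Ij j ^ a j with hJ
  have hJn : Ideal.absNorm J = n * ∏ j, nj j ^ a j := by
    rw [hJ, map_mul, map_prod, hIn]
    congr 1
    refine Finset.prod_congr rfl fun j _ => ?_
    rw [map_pow, hIjn]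
  have hn0 : n ≠ 0 := (hQ n hn).1.ne_zero
  have hnj0 : ∀ j, nj j ≠ 0 := fun j => (hQ _ (hnj j)).1.ne_zero
  have hSn : Supp' good n := by
    intro v hv hvn
    have : v = n := (Nat.prime_dvd_prime_iff_eq hv (hQ n hn).1).mp hvn
    subst this
    exact ⟨hn, hpsi⟩
  have hSnj : ∀ j, Supp' good (nj j) := by
    intro j v hv hvn
    have : v = nj j := (Nat.prime_dvd_prime_iff_eq hv (hQ _ (hnj j)).1).mp hvn
    subst this
    exact ⟨hnj j, hnjp j⟩
  -- an additive function evaluated at the norm of J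
  have hadd : ∀ w : ℕ → ZMod r, w 1 = 0 → (∀ a b, a ≠ 0 → b ≠ 0 → Supp' good a → Supp' good b →
      w (a * b) = w a + w b) → w (n * ∏ j, nj j ^ a j) = w n + ∑ j, (a j : ZMod r) * w (nj j) := by
    intro w hw1 hw
    have hpow : ∀ (j : Fin T.card) (k : ℕ), Supp' good (nj j ^ k) ∧ nj j ^ k ≠ 0 ∧ w (nj j ^ k) = k * w (nj j) := by
      intro j k
      induction k with
      | zero =>
        refine ⟨?_, by simp, by simp [hw1]⟩
        intro v hv hvn
        rw [pow_zero] at hvn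
        exact absurd (Nat.dvd_one.mp hvn) hv.ne_one
      | succ k ih =>
        refine ⟨?_, pow_ne_zero _ (hnj0 j), ?_⟩
        · intro v hv hvn
          exact hSnj j v hv (hv.dvd_of_dvd_pow hvn)
        · rw [pow_succ, hw _ _ ih.2.1 (hnj0 j) ih.1 (hSnj j), ih.2.2]
          push_cast
          ring
    have hprod : ∀ A : Finset (Fin T.card), Supp' good (∏ j ∈ A, nj j ^ a j) ∧
        (∏ j ∈ A, nj j ^ a j) ≠ 0 ∧
        w (∏ j ∈ A, nj j ^ a j) = ∑ j ∈ A, (a j : ZMod r) * w (nj j) := by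
      intro A
      induction A using Finset.induction_on with
      | empty =>
        refine ⟨?_, by simp, by simp [hw1]⟩
        intro v hv hvn
        rw [Finset.prod_empty] at hvn
        exact absurd (Nat.dvd_one.mp hvn) hv.ne_one
      | insert j A hj ih =>
        refine ⟨?_, ?_, ?_⟩
        · rw [Finset.prod_insert hj]
          intro v hv hvn
          rcases (hv.dvd_mul).mp hvn with h3 | h3
          · exact (hpow j _).1 v hv h3
          · exact ih.1 v hv h3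
        · rw [Finset.prod_insert hj]
          exact mul_ne_zero (hpow j _).2.1 ih.2.1
        · rw [Finset.prod_insert hj, Finset.sum_insert hj,
            hw _ _ (hpow j _).2.1 ih.2.1 (hpow j _).1 ih.1, (hpow j _).2.2, ih.2.2]
    obtain ⟨h3, h4, h5⟩ := hprod Finset.univ
    rw [hw n _ hn0 h4 hSn h3, h5]
  have hJ0 : J ≠ ⊥ := by
    rw [hJ]
    apply mul_ne_zero hI
    rw [Finset.prod_ne_zero_iff]
    intro j _
    exact pow_ne_zero _ (hIj j)
  have hSJ : Supp' good (Ideal.absNorm J) := by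
    rw [hJn]
    intro v hv hvn
    rcases (hv.dvd_mul).mp hvn with h3 | h3
    · exact hSn v hv h3
    · obtain ⟨j, _, h4⟩ := (hv.prime.dvd_finsetProd_iff _).mp h3
      exact hSnj j v hv (hv.dvd_of_dvd_pow h4)
  have hacast : ∀ j, (a j : ZMod r) = - g j n := by
    intro j
    simp only [ha]
    rw [ZMod.natCast_val, ZMod.cast_id]
  have hgJ : ∀ i, g i (Ideal.absNorm J) = 0 := by
    intro i
    rw [hJn, hadd (g i) (by simp only [g]; rw [Nat.cast_one, X_one]) (g_mul i)]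
    have h3 : ∑ j, (a j : ZMod r) * g i (nj j) = - g i n := by
      rw [Finset.sum_eq_single i]
      · rw [hnjg, hacast]
        simp
      · intro j _ hji
        rw [hnjg]
        simp [hji.symm]
      · intro h3
        exact absurd (Finset.mem_univ i) h3
    rw [h3]
    ring
  have huJ := hmain J hJ0 hSJ hgJ
  rw [hJn, hadd u (by simp [hu]) u_mul] at huJ
  have hup : ∀ q, q.Prime → u q = b q := by
    intro q hq
    simp only [hu]
    rw [hq.factorization, Finsupp.sum_single_index]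
    · simp
    · simp
  rw [hup n (hQ n hn).1] at huJ
  have h3 : ∑ j, (a j : ZMod r) * u (nj j) = - ∑ j, g j n * b (nj j) := by
    rw [← Finset.sum_neg_distrib]
    refine Finset.sum_congr rfl fun j _ => ?_
    rw [hacast, hup _ (hQ _ (hnj j)).1]
    ring
  rw [h3] at huJ
  have h4 : b n = ∑ j, g j n * b (nj j) := by
    linear_combination huJ
  change b n = _
  rw [h4]
  rw [← Finset.add_sum_erase S _ hl0]
  have h5 : ¬ l0 ∈ T := by simp [hT]
  change _ = (if hl : l0 ∈ T then b (nj (e ⟨l0, hl⟩)) else 0) * X c l0 (n : ZMod l0) +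
    ∑ l ∈ T, (if hl : l ∈ T then b (nj (e ⟨l, hl⟩)) else 0) * X c l (n : ZMod l)
  rw [dif_neg h5, zero_mul, zero_add]
  rw [← Finset.sum_coe_sort T, ← e.symm.sum_comp]
  refine Finset.sum_congr rfl fun j _ => ?_
  have h6 : (e.symm j : ℕ) ∈ T := (e.symm j).2
  rw [dif_pos h6]
  have h7 : e ⟨(e.symm j : ℕ), h6⟩ = j := by simp
  rw [h7]
  simp only [g]
  rw [mul_comm]

end Pool.Agent.Rnr
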