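import Pool.Agent.Rnr.Cyc
import Pool.Agent.Rnr.Chr
import Pool.Agent.Rnr.Bes

/-!
# Rnr, file Row: the row functions `g_l` and their mean values
-/

namespace Pool.Agent.Rnr

open NumberField Finset

variable {r : ℕ} {c : Chars r}

/-- The matrix of the conjugates of a basis modulo `l`, as a map. -/
noncomputable def Amap {l : ℕ} {K : Type} [Field K] [NumberField K] (τ : K ≃ₐ[ℚ] K)
    (π : 𝓞 K → ZMod l) (b : Fin r → 𝓞 K) (y : Fin r → ZMod l) : Fin r → ZMod l :=
  fun j => ∑ i, y i * π (τ ^ (j : ℕ) • b i)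

open Classical in
/-- The row function of one prime, on the vector of conjugates. -/
noncomputable def hrow (c : Chars r) (l : ℕ) [NeZero r] (z : Fin r → ZMod l) : ℂ :=
  if ∀ j, z j ≠ 0 then ZMod.stdAddChar (∑ j : Fin r, ((j : ℕ) : ZMod r) * X c l (z j)) else 0

/-- The row function of one prime, in coordinates. -/
noncomputable def grow (c : Chars r) (l : ℕ) [NeZero r] {K : Type} [Field K] [NumberField K]
    (τ : K ≃ₐ[ℚ] K) (π : 𝓞 K → ZMod l) (b : Fin r → 𝓞 K) (y : Fin r → ZMod l) : ℂ :=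
  hrow c l (Amap τ π b y)

theorem stdAddChar_norm [NeZero r] (x : ZMod r) : ‖(ZMod.stdAddChar x : ℂ)‖ = 1 := by
  rw [ZMod.stdAddChar_apply]
  exact Circle.norm_coe _

theorem stdAddChar_sum [NeZero r] {ι : Type*} (s : Finset ι) (f : ι → ZMod r) :
    (ZMod.stdAddChar (∑ i ∈ s, f i) : ℂ) = ∏ i ∈ s, ZMod.stdAddChar (f i) := by
  classical
  induction s using Finset.induction_on with
  | empty => simp
  | insert a s ha ih =>
    rw [Finset.sum_insert ha, Finset.prod_insert ha, AddChar.map_add_eq_mul, ih]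

theorem hrow_norm [NeZero r] (l : ℕ) (z : Fin r → ZMod l) : ‖hrow c l z‖ ≤ 1 := by
  rw [hrow]
  split_ifs
  · rw [stdAddChar_norm]
  · simp

theorem grow_norm [NeZero r] (l : ℕ) {K : Type} [Field K] [NumberField K]
    (τ : K ≃ₐ[ℚ] K) (π : 𝓞 K → ZMod l) (b : Fin r → 𝓞 K) (y : Fin r → ZMod l) :
    ‖grow c l τ π b y‖ ≤ 1 := hrow_norm l _

/-- Mean value zero, on the vectors of conjugates. -/
theorem hrow_sum [NeZero r] (hr : 2 ≤ r) (l : ℕ) (hl : l.Prime)
    (hc : Function.Surjective (c l)) [NeZero l] :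
    ∑ z : Fin r → ZMod l, hrow c l z = 0 := by
  classical
  have : Fact l.Prime := ⟨hl⟩
  let f : Fin r → ZMod l → ℂ := fun j z =>
    if z ≠ 0 then ZMod.stdAddChar (((j : ℕ) : ZMod r) * X c l z) else 0
  have h1 : ∀ z : Fin r → ZMod l, hrow c l z = ∏ j, f j (z j) := by
    intro z
    rw [hrow]
    split_ifs with h
    · rw [stdAddChar_sum]
      refine Finset.prod_congr rfl fun j _ => ?_
      simp only [f]
      rw [if_pos (h j)]
    · push Not at h
      obtain ⟨j, hj⟩ := h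
      symm
      refine Finset.prod_eq_zero (Finset.mem_univ j) ?_
      simp only [f]
      rw [if_neg (by simpa using hj)]
  have h2 : ∑ z : Fin r → ZMod l, ∏ j, f j (z j) = ∏ j, ∑ z : ZMod l, f j z := by
    rw [Finset.prod_univ_sum, Fintype.piFinset_univ]
  rw [Finset.sum_congr rfl fun z _ => h1 z, h2]
  refine Finset.prod_eq_zero (Finset.mem_univ (⟨1, hr⟩ : Fin r)) ?_
  -- the factor `j = 1`
  obtain ⟨u, hu⟩ := hc (Multiplicative.ofAdd 1)
  have hu1 : X c l (u : ZMod l) = 1 := by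
    rw [X, dif_pos u.isUnit]
    have : u.isUnit.unit = u := Units.ext rfl
    rw [this, hu]
    rfl
  have hf : ∀ z, f ⟨1, hr⟩ ((u : ZMod l) * z) = ZMod.stdAddChar (1 : ZMod r) * f ⟨1, hr⟩ z := by
    intro z
    simp only [f]
    by_cases hz : z = 0
    · subst hz
      simp
    · have hz' : (u : ZMod l) * z ≠ 0 := mul_ne_zero u.ne_zero hz
      rw [if_pos hz', if_pos hz, X_mul c l _ _ u.isUnit (isUnit_iff_ne_zero.mpr hz), hu1]
      rw [← AddChar.map_add_eq_mul]
      congr 1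
      push_cast
      ring
  have h3 : ∑ z : ZMod l, f ⟨1, hr⟩ z = ∑ z : ZMod l, f ⟨1, hr⟩ ((u : ZMod l) * z) :=
    (Fintype.sum_equiv (Units.mulLeft u) _ _ fun z => rfl).symm
  have h4 : ∑ z : ZMod l, f ⟨1, hr⟩ z
      = ZMod.stdAddChar (1 : ZMod r) * ∑ z : ZMod l, f ⟨1, hr⟩ z := by
    conv_lhs => rw [h3, Finset.sum_congr rfl fun z _ => hf z]
    rw [Finset.mul_sum]
  have h5 : (ZMod.stdAddChar (1 : ZMod r) : ℂ) ≠ 1 := by
    intro h
    have h6 : (ZMod.stdAddChar (1 : ZMod r) : ℂ) = ZMod.stdAddChar (0 : ZMod r) := by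
      rw [h, AddChar.map_zero_eq_one]
    have h7 := ZMod.injective_stdAddChar h6
    have : Fact (1 < r) := ⟨hr⟩
    exact one_ne_zero h7
  have h8 : (1 - ZMod.stdAddChar (1 : ZMod r)) * ∑ z : ZMod l, f ⟨1, hr⟩ z = 0 := by
    rw [sub_mul, one_mul, ← h4, sub_self]
  rcases mul_eq_zero.mp h8 with h9 | h9
  · exact absurd (sub_eq_zero.mp h9).symm h5
  · exact h9

variable {p : ℕ} {K : Type} [Field K] [NumberField K] {τ : K ≃ₐ[ℚ] K}

/-- Coordinates and conjugates. -/
theorem Amap_red (b : Module.Basis (Fin r) ℤ (𝓞 K)) (l : ℕ) (g : 𝓞 K →+* ZMod l) (x : 𝓞 K)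
    (j : Fin r) :
    Amap τ g b (red l (fun i => b.repr x i)) j = g (τ ^ (j : ℕ) • x) := by
  rw [Amap]
  conv_rhs => rw [← b.sum_repr x]
  rw [Finset.smul_sum, map_sum]
  refine Finset.sum_congr rfl fun i _ => ?_
  rw [smul_comm, zsmul_eq_mul, map_mul, map_intCast]
  rfl

/-- The conjugate map is a bijection modulo a split prime. -/
theorem Amap_bij (hK : IsCyc r c {p} (fun _ => 1) K τ) (b : Module.Basis (Fin r) ℤ (𝓞 K))
    (l : ℕ) [NeZero l] (hl : l.Prime) (hlp : l ≠ p) (g : 𝓞 K →+* ZMod l) :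
    Function.Bijective (Amap τ g b : (Fin r → ZMod l) → (Fin r → ZMod l)) := by
  refine (Finite.injective_iff_surjective.mpr ?_ |> fun h => ⟨h, ?_⟩)
  all_goals
    intro z
    obtain ⟨x, hx⟩ := hK.surj l hl (by simpa using hlp) g
      (fun i => if h : i < r then z ⟨i, h⟩ else 0)
    refine ⟨red l (fun i => b.repr x i), ?_⟩
    funext j
    rw [Amap_red, hx j j.isLt, dif_pos j.isLt]

/-- Mean value zero, in coordinates. -/
theorem grow_sum [NeZero r] (hr : 2 ≤ r) (hK : IsCyc r c {p} (fun _ => 1) K τ)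
    (b : Module.Basis (Fin r) ℤ (𝓞 K)) (l : ℕ) (hl : l.Prime) (hlp : l ≠ p)
    (hc : Function.Surjective (c l)) (g : 𝓞 K →+* ZMod l) [NeZero l] :
    ∑ y : Fin r → ZMod l, grow c l τ g b y = 0 := by
  rw [← hrow_sum hr l hl hc]
  exact Fintype.sum_bijective _ (Amap_bij hK b l hl hlp g) _ _ fun y => rfl

/-- Value of the row function at an element prime to `l`. -/
theorem grow_red [NeZero r] (b : Module.Basis (Fin r) ℤ (𝓞 K)) (l : ℕ) (hl : l.Prime)
    (g : 𝓞 K →+* ZMod l) (x : 𝓞 K) (hx : ∀ i < r, IsUnit (g (τ ^ i • x))) :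
    grow c l τ g b (red l (fun i => b.repr x i)) = ZMod.stdAddChar (Sf c l τ g x) := by
  have : Fact l.Prime := ⟨hl⟩
  rw [grow, hrow, if_pos]
  · congr 1
    rw [Sf, Finset.sum_range]
    refine Finset.sum_congr rfl fun j _ => ?_
    rw [Amap_red]
  · intro j
    rw [Amap_red]
    exact (hx j j.isLt).ne_zero

end Pool.Agent.Rnr
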